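import Pool.Agent.P.MP_c1aa6a_an.Defs

/-! Approximation by compact open sets in the intensity space. -/

open MeasureTheory Set Filter Topology
open scoped ENNReal NNReal symmDiff

namespace Pool.Agent.P.MP_c1aa6a_an

namespace Approx

theorem piece_open (i : Idx) : IsOpen ({i} ×ˢ (univ : Set Xi) : Set Q) :=
  (isOpen_discrete _).prod isOpen_univ

theorem piece_compact (i : Idx) : IsCompact ({i} ×ˢ (univ : Set Xi) : Set Q) :=
  isCompact_singleton.prod isCompact_univ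

instance locFin (ξ : Measure Xi) [IsProbabilityMeasure ξ] : IsLocallyFiniteMeasure (mQ ξ) := by
  refine ⟨fun q => ⟨{q.1} ×ˢ univ, (piece_open q.1).mem_nhds ⟨rfl, trivial⟩, ?_⟩⟩
  rw [mQ, Measure.prod_prod]
  simp

instance pre : PrespectralSpace Q := by
  refine ⟨TopologicalSpace.isTopologicalBasis_of_isOpen_of_nhds (fun u hu => hu.1) ?_⟩
  intro q u hq hu
  obtain ⟨V, hV, hqV, hVu⟩ := (loc_compact_Haus_tot_disc_of_zero_dim (H := Q)).exists_subset_of_mem_open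
    (show q ∈ u ∩ {q.1} ×ˢ univ from ⟨hq, rfl, trivial⟩) (hu.inter (piece_open q.1))
  exact ⟨V, ⟨hV.isOpen, (piece_compact q.1).of_isClosed_subset hV.isClosed
    (hVu.trans inter_subset_right)⟩, hqV, hVu.trans inter_subset_left⟩

theorem co_fin (ξ : Measure Xi) [IsProbabilityMeasure ξ] (E : CO) :
    MeasurableSet E.1 ∧ mQ ξ E.1 ≠ ∞ :=
  ⟨E.2.2.measurableSet, E.2.1.measure_lt_top.ne⟩

theorem co_approx (ξ : Measure Xi) [IsProbabilityMeasure ξ] (A : Set Q) (hA : MeasurableSet A)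
    (hf : mQ ξ A ≠ ∞) (ε : ℝ≥0∞) (hε : 0 < ε) : ∃ E : CO, mQ ξ (A ∆ E.1) < ε := by
  have h2 : ε / 2 ≠ 0 := (ENNReal.half_pos hε.ne').ne'
  obtain ⟨U, hAU, hU, -, hU'⟩ := hA.exists_isOpen_sdiff_lt hf h2
  obtain ⟨K, hKA, hK, hK'⟩ := hA.exists_isCompact_sdiff_lt hf h2
  obtain ⟨W, hW1, hW2, hKW, hWU⟩ :=
    PrespectralSpace.exists_isCompact_and_isOpen_between hK hU (hKA.trans hAU)
  refine ⟨⟨W, hW1, hW2⟩, ?_⟩
  calc mQ ξ (A ∆ W) ≤ mQ ξ (A \ K ∪ U \ A) := by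
        refine measure_mono ?_
        rw [Set.symmDiff_def]
        exact union_subset_union (sdiff_subset_sdiff_right hKW) (sdiff_subset_sdiff_left hWU)
    _ ≤ mQ ξ (A \ K) + mQ ξ (U \ A) := measure_union_le _ _
    _ < ε / 2 + ε / 2 := ENNReal.add_lt_add hK' hU'
    _ = ε := ENNReal.add_halves ε

/-- finite sums of multiples of indicators of compact open sets -/
noncomputable def sm (l : List (CO × ℝ)) (q : Q) : ℝ :=
  (l.map fun e => e.1.1.indicator (fun _ => e.2) q).sum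

theorem sm_append (l l' : List (CO × ℝ)) : sm (l ++ l') = sm l + sm l' := by
  funext q
  simp [sm]

theorem sm_mem (ξ : Measure Xi) [IsProbabilityMeasure ξ] (l : List (CO × ℝ)) :
    MemLp (sm l) 2 (mQ ξ) := by
  induction l with
  | nil => exact MemLp.zero
  | cons e l ih =>
    have h : sm (e :: l) = e.1.1.indicator (fun _ => e.2) + sm l := by
      funext q
      simp [sm]
    rw [h]
    exact (memLp_indicator_const 2 (co_fin ξ e.1).1 e.2 (Or.inr (co_fin ξ e.1).2)).add ih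

theorem dense_sm (ξ : Measure Xi) [IsProbabilityMeasure ξ] {f : Q → ℝ} (hf : MemLp f 2 (mQ ξ))
    {ε : ℝ≥0∞} (hε : ε ≠ 0) : ∃ g : Q → ℝ, eLpNorm (f - g) 2 (mQ ξ) ≤ ε ∧ ∃ l, g = sm l := by
  refine MemLp.induction_dense (by norm_num) (fun g => ∃ l, g = sm l) ?_ ?_ ?_ hf hε
  · intro c s hs hμ ε hε
    obtain ⟨η, hη, h⟩ := exists_eLpNorm_indicator_le (μ := mQ ξ) (p := 2) (by norm_num) c hε
    obtain ⟨E, hE⟩ := co_approx ξ s hs hμ.ne η (by exact_mod_cast hη)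
    refine ⟨sm [(E, c)], le_trans (le_of_eq ?_) (h _ hE.le), _, rfl⟩
    refine eLpNorm_congr_norm_ae (Eventually.of_forall fun q => ?_)
    by_cases h1 : q ∈ s <;> by_cases h2 : q ∈ E.1 <;> simp [sm, h1, h2, Set.mem_symmDiff]
  · rintro _ _ ⟨l, rfl⟩ ⟨l', rfl⟩
    exact ⟨l ++ l', (sm_append l l').symm⟩
  · rintro _ ⟨l, rfl⟩
    exact (sm_mem ξ l).1

end Approx

open Approx in
theorem approx_ok : S_approx := by
  intro ξ _
  refine ⟨co_fin ξ, co_approx ξ, fun p hp h F => ?_⟩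
  have : F ∈ closure {F | p F} := by
    rw [Metric.mem_closure_iff]
    intro ε hε
    obtain ⟨_, hg, l, rfl⟩ := dense_sm ξ (Lp.memLp F) (ε := ENNReal.ofReal (ε / 2))
      (by simpa using hε)
    refine ⟨(sm_mem ξ l).toLp _, h l _ (sm_mem ξ l).coeFn_toLp, ?_⟩
    rw [Lp.dist_def]
    have e : eLpNorm (⇑F - ⇑((sm_mem ξ l).toLp _)) 2 (mQ ξ) = eLpNorm (⇑F - sm l) 2 (mQ ξ) :=
      eLpNorm_congr_ae (EventuallyEq.rfl.sub (sm_mem ξ l).coeFn_toLp)
    rw [e]
    exact (ENNReal.toReal_le_of_le_ofReal (by positivity) hg).trans_lt (half_lt_self hε)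
  rwa [hp.closure_eq] at this

end Pool.Agent.P.MP_c1aa6a_an
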