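import Pool.Agent.P.MP_c1aa6a_an.Baf3

/-! Back-and-forth between wall models: the step and the limit. -/

set_option autoImplicit false
open Set Filter Topology
open scoped symmDiff

namespace Pool.Agent.P.MP_c1aa6a_an

namespace Baf

variable {G X : Type} [TopologicalSpace G] [Group G] [MulAction G X] {N : G → ℝ} {V : ℕ → Set X}
  {x : X} {M M' : WS} {π π' φ : Finset ℕ → G} {D D' : Set G}

/-- State of the back-and-forth after `n` steps, exceptional walls on the left. -/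
structure St (N : G → ℝ) (M M' : WS) (π π' : Finset ℕ → G) (n : ℕ) (p : PI) (b : Finset ℕ) :
    Prop where
  ok : p.OK M M'
  exc : Exc M p.S b
  one : ∃ a, b ⊆ {a}
  levb : ∀ e ∈ b, M.lev e + 1 = n
  str : M'.Strong p.S'
  close : ∀ A', M'.Vert A' → A' ⊆ p.S' → N ((π (p.back A' b))⁻¹ * π' A') ≤ (1 / 2) ^ (n + 3)
  fl1 : ∀ h ∈ p.S, p.t h = true → M.lev h + 1 < n
  fl2 : ∀ h ∈ p.S, ∀ h' ∈ p.S, p.t h = true → p.t h' = true → M.lev h = M.lev h' → h = h'

theorem step [IsTopologicalGroup G] [TopologicalSpace X] [ContinuousSMul G X]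
    (hN : IsNorm N) (hV : ∀ j, IsOpen (V j)) (hV0 : V 0 = univ) (hM : IsModel N V x M π D)
    (hM' : IsModel N V x M' π' D') {n : ℕ} {p : PI} {b : Finset ℕ} (h : St N M M' π π' n p b) :
    ∃ q e', p.Ext q ∧ St N M' M π' π (n + 1) q.swap {e'} ∧
      ∀ r, Finset.range r ⊆ p.S → Finset.range (r + 1) ⊆ q.S := by
  classical
  have hex : ∃ a, a ∉ p.S ∪ b := Infinite.exists_notMem_finset _
  set a₀ := Nat.find hex with ha₀
  have ha₁ : a₀ ∉ p.S ∪ b := Nat.find_spec hex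
  have ha₂ : ∀ k < a₀, k ∈ p.S ∪ b := fun k hk => not_not.1 (Nat.find_min hex hk)
  obtain ⟨φ, hφ, hcl⟩ := exists_phi hN hV hV0 hM hM'.dense (insert a₀ (p.S ∪ b))
    (show (0 : ℝ) < (1 / 2) ^ (n + 1 + 3) by positivity)
  obtain ⟨e', hX, hlev⟩ := add_exc hN hV0 hM hM' hφ (ε := (1 / 2) ^ (n + 3)) (n := n)
    (by
      have : (0 : ℝ) < (1 / 2) ^ n := by positivity
      simp only [wt, pow_add]
      linarith) hcl h.ok h.exc (Finset.subset_insert _ _) h.str h.close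
  obtain ⟨p₁, e₁, hX₁, hS₁, ht₁⟩ : ∃ p₁, p.Ext p₁ ∧
      XS M M' π' φ (insert a₀ (p.S ∪ b)) p₁ ∅ e' ∧ p₁.S = p.S ∪ b ∧
      ∀ u ∈ p₁.S, p₁.t u = true → (u ∈ p.S ∧ p.t u = true) ∨ u ∈ b := by
    obtain ⟨a, ha⟩ := h.one
    rcases Finset.subset_singleton_iff.1 ha with hb | hb
    · subst hb
      exact ⟨p, PI.Ext.refl p, hX, by simp, fun u hu ht => Or.inl ⟨hu, ht⟩⟩
    · have haS : a ∉ p.S := h.exc.disj a (by simp [hb])
      have hS : insert a p.S = p.S ∪ b := by rw [hb]; ext; simp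
      obtain ⟨m, hm, hX₁⟩ := copy_wall hN hV0 hM.lt hM' hφ hX (a := a) (by simp [hb]) haS ha
        (hS ▸ h.exc.str)
      refine ⟨_, p.add_ext _ haS hm, hX₁, hS, fun u hu ht => ?_⟩
      rcases Finset.mem_insert.1 hu with hu | hu
      · right; simp [hb, hu]
      · left; exact ⟨hu, ((p.add_ext _ haS hm).2.2.1 u hu).2 ▸ ht⟩
  have ha₃ : a₀ ∉ p₁.S := hS₁ ▸ ha₁
  have hstr : M.Strong (insert a₀ p₁.S) := by
    intro u hu k hp
    rcases Finset.mem_insert.1 hu with hu | hu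
    · rw [hu] at hp
      exact Finset.mem_insert_of_mem (hS₁ ▸ ha₂ k (hM.lt _ _ hp))
    · rw [hS₁] at hu ⊢
      exact Finset.mem_insert_of_mem (h.exc.str u hu k hp)
  obtain ⟨m, hm, hX₂⟩ := copy_wall hN hV0 hM.lt hM' hφ hX₁ (a := a₀) (by simp) ha₃ (by simp) hstr
  have e₂ := p₁.add_ext (decide (a₀ ∈ (∅ : Finset ℕ))) ha₃ hm
  set q := p₁.add a₀ m (decide (a₀ ∈ (∅ : Finset ℕ))) with hq
  have ht₂ : ∀ u ∈ q.S, q.t u = true → (u ∈ p.S ∧ p.t u = true) ∨ u ∈ b := fun u hu ht => by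
    rcases Finset.mem_insert.1 hu with hu | hu
    · simp [hq, PI.add, hu] at ht
    · exact ht₁ u hu ((e₂.2.2.1 u hu).2 ▸ ht)
  have ht₃ : ∀ u ∈ q.S', q.t' u = true → q.t (q.g u) = true ∧ M'.lev u = M.lev (q.g u) :=
    fun u hu ht => ⟨(hX₂.ok.swap.tt u hu).trans ht, (hX₂.ok.swap.lev u hu).symm⟩
  refine ⟨q, e', e₁.trans e₂, ⟨hX₂.ok.swap, hX₂.exc', ⟨e', Finset.Subset.refl _⟩,
    fun e he => by rw [Finset.mem_singleton.1 he, hlev], hstr, fun A hA hAS => ?_,
    fun u hu ht => ?_, fun u hu v hv htu htv hl => ?_⟩, fun r hr u hu => ?_⟩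
  · have v1 := vert_back hX₂.ok.swap hX₂.exc' hA
    have m1 := q.swap.back_match A {e'} hX₂.exc'.disj
    have m2 : q.Match A (q.swap.back A {e'}) := PI.Match.swap hX₂.ok.swap m1
    rw [hX₂.exact _ v1 fun u hu => by rw [q.swap.back_out A {e'} u hu, Finset.mem_singleton],
      ← q.eq_back (by simp) m2 fun u hu => ⟨fun h => absurd (hAS h) hu, by simp⟩]
    exact hcl A
  · obtain ⟨k1, k2⟩ := ht₃ u hu ht
    rw [k2]
    rcases ht₂ _ (hX₂.ok.mg u hu) k1 with k3 | k3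
    · exact Nat.lt_succ_of_lt (h.fl1 _ k3.1 k3.2)
    · rw [h.levb _ k3]; exact Nat.lt_succ_self _
  · obtain ⟨k1, k2⟩ := ht₃ u hu htu
    obtain ⟨k3, k4⟩ := ht₃ v hv htv
    rw [k2, k4] at hl
    have : q.g u = q.g v := by
      rcases ht₂ _ (hX₂.ok.mg u hu) k1 with k5 | k5 <;>
        rcases ht₂ _ (hX₂.ok.mg v hv) k3 with k6 | k6
      · exact h.fl2 _ k5.1 _ k6.1 k5.2 k6.2 hl
      · have := h.fl1 _ k5.1 k5.2
        have := h.levb _ k6
        omega
      · have := h.fl1 _ k6.1 k6.2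
        have := h.levb _ k5
        omega
      · obtain ⟨a, ha⟩ := h.one
        rw [Finset.mem_singleton.1 (ha k5), Finset.mem_singleton.1 (ha k6)]
    rw [← hX₂.ok.fg u hu, this, hX₂.ok.fg v hv]
  · change u ∈ insert a₀ p₁.S
    rw [hS₁, Finset.mem_insert]
    by_cases h1 : u < a₀
    · exact Or.inr (ha₂ u h1)
    · by_cases h2 : u = a₀
      · exact Or.inl h2
      · exfalso
        have h3 : a₀ < r := by have := Finset.mem_range.1 hu; omega
        exact ha₁ (Finset.mem_union_left _ (hr (Finset.mem_range.2 h3)))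

theorem exists_seq [IsTopologicalGroup G] [TopologicalSpace X] [ContinuousSMul G X]
    (hN : IsNorm N) (hV : ∀ j, IsOpen (V j)) (hV0 : V 0 = univ) (hM : IsModel N V x M π D)
    (hM' : IsModel N V x M' π' D') :
    ∃ p : ℕ → PI, (∀ n, (p n).Ext (p (n + 1))) ∧ ∀ n, (p n).OK M M' ∧
      Finset.range n ⊆ (p n).S ∧ Finset.range n ⊆ (p n).S' ∧
      ∀ h ∈ (p n).S, ∀ h' ∈ (p n).S, (p n).t h = true → (p n).t h' = true →
        M.lev h = M.lev h' → h = h' := by
  let Inv : ℕ → PI × Finset ℕ → Prop := fun n s => St N M M' π π' (2 * n) s.1 s.2 ∧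
    Finset.range n ⊆ s.1.S ∧ Finset.range n ⊆ s.1.S'
  have h0 : Inv 0 (⟨∅, ∅, id, id, fun _ => false, fun _ => false⟩, ∅) := by
    refine ⟨⟨⟨by simp, by simp, by simp, by simp, by simp, by simp, by simp, by simp⟩,
      exc_empty (by simp [WS.Strong]), ⟨0, by simp⟩, by simp, by simp [WS.Strong],
      fun A' _ _ => (hN.bdd _).trans (by norm_num), by simp, by simp⟩, by simp, by simp⟩
  have hs : ∀ n s, Inv n s → ∃ s', Inv (n + 1) s' ∧ s.1.Ext s'.1 := by
    rintro n ⟨p, b⟩ ⟨h1, h2, h3⟩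
    obtain ⟨q, e', k1, k2, k3⟩ := step hN hV hV0 hM hM' h1
    obtain ⟨q', e'', k4, k5, k6⟩ := step hN hV hV0 hM' hM k2
    exact ⟨(q'.swap, {e''}), ⟨k5, (k3 n h2).trans k4.2.1, k6 n (h3.trans k1.2.1)⟩,
      k1.trans k4.swap⟩
  choose! nx hnx using hs
  let s : ℕ → PI × Finset ℕ := fun n =>
    Nat.rec (⟨∅, ∅, id, id, fun _ => false, fun _ => false⟩, ∅) (fun n s => nx n s) n
  have hI : ∀ n, Inv n (s n) := fun n => by
    induction n with
    | zero => exact h0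
    | succ n ih => exact (hnx n _ ih).1
  exact ⟨fun n => (s n).1, fun n => (hnx n _ (hI n)).2,
    fun n => ⟨(hI n).1.ok, (hI n).2.1, (hI n).2.2, (hI n).1.fl2⟩⟩

end Baf

open Baf

theorem baf_ok : S_baf := by
  intro G X _ _ _ _ _ _ N V x M M' π π' D D' hN hV hV0 hM hM'
  obtain ⟨p, hp, hI⟩ := exists_seq hN hV hV0 hM hM'
  have hext : ∀ n k, n ≤ k → (p n).Ext (p k) := fun n k h => by
    induction h with
    | refl => exact PI.Ext.refl _
    | step _ ih => exact ih.trans (hp _)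
  have m1 : ∀ h k, h < k → h ∈ (p k).S := fun h k hk => (hI k).2.1 (Finset.mem_range.2 hk)
  have m2 : ∀ h k, h < k → h ∈ (p k).S' := fun h k hk => (hI k).2.2.1 (Finset.mem_range.2 hk)
  have f1 : ∀ h k, h < k → (p k).f h = (p (h + 1)).f h ∧ (p k).t h = (p (h + 1)).t h :=
    fun h k hk => (hext _ _ hk).2.2.1 h (m1 h _ (Nat.lt_succ_self h))
  have f2 : ∀ h k, h < k → (p k).g h = (p (h + 1)).g h :=
    fun h k hk => ((hext _ _ hk).2.2.2 h (m2 h _ (Nat.lt_succ_self h))).1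
  let τ : ℕ ≃ ℕ := ⟨fun h => (p (h + 1)).f h, fun h => (p (h + 1)).g h, fun h => by
      have a1 : h < h + (p (h + 1)).f h + 1 := by omega
      have a2 : (p (h + 1)).f h < h + (p (h + 1)).f h + 1 := by omega
      have := (hI _).1.gf h (m1 h _ a1)
      rw [(f1 h _ a1).1, f2 _ _ a2] at this
      exact this, fun h => by
      have a1 : h < h + (p (h + 1)).g h + 1 := by omega
      have a2 : (p (h + 1)).g h < h + (p (h + 1)).g h + 1 := by omega
      have := (hI _).1.fg h (m2 h _ a1)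
      rw [f2 h _ a1, (f1 _ _ a2).1] at this
      exact this⟩
  have hm : ∀ (k : HS) n, k.1 < n → hsMap τ (fun h => (p (h + 1)).t h) k = (p n).hm k :=
    fun k n hn => by
      simp only [hsMap, PI.hm, (f1 _ _ hn).1, (f1 _ _ hn).2]
      rfl
  refine ⟨τ, fun h => (p (h + 1)).t h, fun h => (hI _).1.lev h (m1 h _ (Nat.lt_succ_self h)),
    fun k => ?_, fun k k' => ?_, ?_⟩
  · rw [hm k _ (Nat.lt_succ_self _)]
    exact (hI _).1.lab k (m1 _ _ (Nat.lt_succ_self _))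
  · have a1 : k.1 < k.1 + k'.1 + 1 := by omega
    have a2 : k'.1 < k.1 + k'.1 + 1 := by omega
    rw [hm k _ a1, hm k' _ a2]
    exact (hI _).1.perp k k' (m1 _ _ a1) (m1 _ _ a2)
  · have hinj : Function.Injective
        (fun h : {h | (p (h + 1)).t h = true} => M.lev h.1) := by
      rintro ⟨u, hu⟩ ⟨v, hv⟩ huv
      have a1 : u < u + v + 1 := by omega
      have a2 : v < u + v + 1 := by omega
      exact Subtype.ext ((hI _).2.2.2 u (m1 _ _ a1) v (m1 _ _ a2) ((f1 _ _ a1).2.trans hu)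
        ((f1 _ _ a2).2.trans hv) huv)
    have hw : Summable wt := by
      unfold wt
      simp only [pow_succ]
      exact summable_geometric_two.mul_right _
    have h1 : Summable ((fun h => wt (M.lev h)) ∘ ((↑) : {h | (p (h + 1)).t h = true} → ℕ)) :=
      hw.comp_injective hinj
    have := summable_subtype_iff_indicator.1 h1
    refine this.congr fun h => ?_
    simp [Set.indicator]

end Pool.Agent.P.MP_c1aa6a_an
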