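import Pool.Agent.P.MP_c1aa6a_an.Defs

/-! Ergodicity of coin-flip families. -/

set_option autoImplicit false
open MeasureTheory Set Filter Topology ProbabilityTheory
open scoped ENNReal NNReal symmDiff

namespace Pool.Agent.P.MP_c1aa6a_an

lemma bern_zero_eq :
    bern 0 = (2 : ℝ≥0∞)⁻¹ • Measure.dirac true + (2 : ℝ≥0∞)⁻¹ • Measure.dirac false := by
  simp [bern]

lemma bern_zero_single (b : Bool) : bern 0 {b} = (2 : ℝ≥0∞)⁻¹ := by
  cases b <;> simp [bern_zero_eq]

lemma bern_zero_not : (bern 0).map not = bern 0 := by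
  rw [bern_zero_eq, Measure.map_add _ _ (measurable_of_countable _), Measure.map_smul,
    Measure.map_smul, Measure.map_dirac, Measure.map_dirac, add_comm]
  rfl

lemma bern_unif_cyl {ι : Type} (T : Finset ι) (p : ι → Bool) :
    unif ι {ξ | ∀ i ∈ T, ξ i = p i} = (2 : ℝ≥0∞)⁻¹ ^ T.card := by
  have e : {ξ : ι → Bool | ∀ i ∈ T, ξ i = p i} = Set.pi T fun i => {p i} := by
    ext ξ
    simp
  rw [e, unif, Measure.infinitePi_pi _ fun _ _ => measurableSet_singleton _]
  simp [bern_zero_single]

lemma bern_flip_mp (m : ℕ) : MeasurePreserving (flipAt m) (unif ℕ) (unif ℕ) := by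
  have e : flipAt m = fun ξ i => (if i = m then not else id) (ξ i) := by
    funext ξ i
    by_cases h : i = m
    · subst h
      simp [flipAt]
    · simp [flipAt, h]
  have hm : ∀ i, Measurable (if i = m then not else id : Bool → Bool) := fun i =>
    measurable_of_countable _
  rw [e]
  refine ⟨measurable_pi_lambda _ fun i => (hm i).comp (measurable_pi_apply i), ?_⟩
  unfold unif
  rw [Measure.infinitePi_map_pi _ hm]
  congr 1
  funext i
  split_ifs
  · exact bern_zero_not
  · exact Measure.map_id

lemma bern_reindex_mp {ι : Type} {σ : ι → ι} (hσ : Function.Injective σ) :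
    MeasurePreserving (fun (η : ι → Bool) i => η (σ i)) (unif ι) (unif ι) := by
  refine ⟨measurable_pi_lambda _ fun z => measurable_pi_apply _, ?_⟩
  unfold unif
  exact Measure.map_infinitePi_infinitePi_of_inj (P := fun _ : ι => bern 0) hσ

/-- a probability measure invariant under all flips is uniform -/
lemma bern_flip_uniq (ν : Measure (ℕ → Bool)) [IsProbabilityMeasure ν]
    (h : ∀ m, MeasurePreserving (flipAt m) ν ν) : ν = unif ℕ := by
  refine Measure.eq_infinitePi _ fun s t ht => ?_
  induction s using Finset.induction_on with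
  | empty => simp
  | insert i s hi ih =>
    rw [Finset.prod_insert hi, ← ih, Finset.coe_insert, Set.insert_pi]
    set B : Set (ℕ → Bool) := Set.pi s t with hB
    have hBm : MeasurableSet B := MeasurableSet.pi s.countable_toSet fun j _ => ht j
    have hc : ∀ u : Set Bool, MeasurableSet (Function.eval i ⁻¹' u : Set (ℕ → Bool)) := fun u =>
      measurable_pi_apply i (Set.to_countable u).measurableSet
    have e1 : ν (Function.eval i ⁻¹' {true} ∩ B) = ν (Function.eval i ⁻¹' {false} ∩ B) := by
      rw [← (h i).measure_preimage ((hc {true}).inter hBm).nullMeasurableSet]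
      congr 1
      ext ξ
      have e : ∀ j ∈ (s : Set ℕ), flipAt i ξ j = ξ j := fun j hj =>
        Function.update_of_ne (fun hji => hi (by rw [← hji]; exact hj)) _ _
      simp only [mem_preimage, mem_inter_iff, mem_singleton_iff, hB, Set.mem_pi]
      refine and_congr (by simp [flipAt]) (forall₂_congr fun j hj => by rw [e j hj])
    have e2 : ν (Function.eval i ⁻¹' {true} ∩ B) + ν (Function.eval i ⁻¹' {false} ∩ B) = ν B := by
      rw [← measure_inter_add_sdiff B (hc {true}), inter_comm]
      congr 2
      ext ξ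
      simp [and_comm]
    have e3 : ∀ b, ν (Function.eval i ⁻¹' {b} ∩ B) = (2 : ℝ≥0∞)⁻¹ * ν B := by
      have e4 : ν (Function.eval i ⁻¹' {false} ∩ B) = (2 : ℝ≥0∞)⁻¹ * ν B := by
        rw [← e2, e1, ← two_mul, ← mul_assoc, ENNReal.inv_mul_cancel (by simp) (by simp), one_mul]
      intro b
      cases b
      · exact e4
      · exact e1.trans e4
    by_cases h1 : true ∈ t i <;> by_cases h2 : false ∈ t i
    · have : t i = univ := eq_univ_of_forall fun b => by cases b <;> assumption
      rw [this, preimage_univ, univ_inter, measure_univ, one_mul]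
    · have : t i = {true} := by
        ext b
        cases b <;> simp [h1, h2]
      rw [this, e3, bern_zero_single]
    · have : t i = {false} := by
        ext b
        cases b <;> simp [h1, h2]
      rw [this, e3, bern_zero_single]
    · have : t i = ∅ := by
        ext b
        cases b <;> simp [h1, h2]
      simp [this]

lemma bern_flip_erg : ErgFam (unif ℕ) flipAt := by
  intro A hA h
  by_cases h0 : unif ℕ A = 0
  · exact Or.inl h0
  right
  haveI := cond_isProbabilityMeasure (μ := unif ℕ) h0
  have e : cond (unif ℕ) A = unif ℕ := bern_flip_uniq _ fun m => by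
    refine ⟨(bern_flip_mp m).measurable, ?_⟩
    have h1 := ((bern_flip_mp m).restrict_preimage hA).map_eq
    rw [Measure.restrict_congr_set (h m)] at h1
    unfold ProbabilityTheory.cond
    rw [Measure.map_smul, h1]
  rw [← e, cond_apply hA]
  simp

/-- sets depending on disjoint finite sets of coordinates are independent -/
lemma bern_indep {ι : Type} {T T' : Finset ι} (hT : Disjoint T T') {E E' : Set (ι → Bool)}
    (hE : ∀ x y : ι → Bool, (∀ i ∈ T, x i = y i) → x ∈ E → y ∈ E)
    (hE' : ∀ x y : ι → Bool, (∀ i ∈ T', x i = y i) → x ∈ E' → y ∈ E') :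
    unif ι (E ∩ E') = unif ι E * unif ι E' := by
  have key : ∀ (S : Finset ι) (D : Set (ι → Bool)),
      (∀ x y : ι → Bool, (∀ i ∈ S, x i = y i) → x ∈ D → y ∈ D) →
      D = (fun (a : ι → Bool) (i : S) => a i) ⁻¹' ((fun (a : ι → Bool) (i : S) => a i) '' D) := by
    intro S D hD
    ext y
    refine ⟨fun hy => ⟨y, hy, rfl⟩, fun ⟨x, hx, he⟩ => hD x y (fun i hi => ?_) hx⟩
    exact congrFun he ⟨i, hi⟩
  have hi : iIndepFun (fun (i : ι) (ω : ι → Bool) => ω i) (unif ι) :=
    iIndepFun_infinitePi (P := fun _ : ι => bern 0) (X := fun _ x => x) fun _ => measurable_id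
  have h2 := hi.indepFun_finset T T' hT fun i => measurable_pi_apply i
  rw [key T E hE, key T' E' hE']
  exact h2.measure_inter_preimage_eq_mul _ _ (Set.to_countable _).measurableSet
    (Set.to_countable _).measurableSet

def bernSh (j : ℕ) (p : At × ℕ) : At × ℕ := ((p.1.1, p.1.2 ∆ {j}), p.2)

lemma bernSh_inj (j : ℕ) : Function.Injective (bernSh j) := by
  refine Function.Involutive.injective fun p => ?_
  simp [bernSh, symmDiff_symmDiff_cancel_right]

lemma bern_ysh_mp (j : ℕ) : MeasurePreserving (ysh j) (unif (At × ℕ)) (unif (At × ℕ)) :=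
  bern_reindex_mp (bernSh_inj j)

lemma bern_ysh_erg : ErgFam (unif (At × ℕ)) ysh := by
  classical
  intro A hA h
  set μ := unif (At × ℕ) with hμ
  have hd : μ.MeasureDense (measurableCylinders fun _ : At × ℕ => Bool) :=
    Measure.MeasureDense.of_generateFrom_isSetAlgebra_finite μ isSetAlgebra_measurableCylinders
      generateFrom_measurableCylinders.symm
  have key : ∀ ε : ℝ, 0 < ε → |μ.real A - μ.real A ^ 2| ≤ 4 * ε := by
    intro ε hε
    obtain ⟨E, hE, hAE⟩ := hd.approx A hA (measure_ne_top _ _) ε hε
    have hEm : MeasurableSet E := MeasurableSet.of_mem_measurableCylinders hE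
    obtain ⟨T, S, -, hES⟩ := (mem_measurableCylinders E).1 hE
    obtain ⟨j, hj⟩ := Infinite.exists_notMem_finset (T.biUnion fun p => p.1.2)
    have hj' : ∀ p ∈ T, j ∉ p.1.2 := fun p hp hm => hj (Finset.mem_biUnion.2 ⟨p, hp, hm⟩)
    have hdep : ∀ x y : At × ℕ → Bool, (∀ i ∈ T, x i = y i) → x ∈ E → y ∈ E := by
      intro x y hxy hx
      rw [hES, mem_cylinder] at hx ⊢
      have : T.restrict y = T.restrict x := funext fun i => (hxy i.1 i.2).symm
      rwa [this]
    have hind : μ (E ∩ ysh j ⁻¹' E) = μ E * μ (ysh j ⁻¹' E) := by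
      refine bern_indep (T := T) (T' := T.image (bernSh j)) ?_ hdep fun x y hxy hx => ?_
      · rw [Finset.disjoint_left]
        intro p hp hp'
        obtain ⟨p', h1, rfl⟩ := Finset.mem_image.1 hp'
        refine hj' _ hp ?_
        simp [bernSh, Finset.mem_symmDiff, hj' p' h1]
      · exact hdep (ysh j x) (ysh j y) (fun i hi => hxy _ (Finset.mem_image_of_mem _ hi)) hx
    have hmp : MeasurePreserving (ysh j) μ μ := bern_ysh_mp j
    rw [hmp.measure_preimage hEm.nullMeasurableSet] at hind
    have h1 : μ.real (E ∩ ysh j ⁻¹' E) = μ.real E ^ 2 := by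
      simp only [Measure.real, hind, ENNReal.toReal_mul, sq]
    have h2 : μ.real (A ∆ E) ≤ ε := ENNReal.toReal_le_of_le_ofReal hε.le hAE.le
    have h3 : |μ.real A - μ.real E| ≤ ε :=
      (abs_measureReal_sub_le_measureReal_symmDiff hA.nullMeasurableSet
        hEm.nullMeasurableSet).trans h2
    have h4 : μ.real (A ∩ ysh j ⁻¹' A) = μ.real A := by
      refine measureReal_congr ?_
      have := (EventuallyEq.refl (ae μ) A).inter (h j)
      rwa [inter_self] at this
    have h5 : |μ.real (A ∩ ysh j ⁻¹' A) - μ.real (E ∩ ysh j ⁻¹' E)| ≤ ε + ε := by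
      refine (abs_measureReal_sub_le_measureReal_symmDiff
        (hA.inter (hmp.measurable hA)).nullMeasurableSet
        (hEm.inter (hmp.measurable hEm)).nullMeasurableSet).trans ?_
      have hs : (A ∩ ysh j ⁻¹' A) ∆ (E ∩ ysh j ⁻¹' E) ⊆ A ∆ E ∪ ysh j ⁻¹' (A ∆ E) := by
        intro x hx
        simp only [mem_symmDiff, mem_inter_iff, mem_preimage, mem_union] at hx ⊢
        tauto
      refine (measureReal_mono hs).trans ((measureReal_union_le _ _).trans (add_le_add h2 ?_))
      rw [hmp.measureReal_preimage (hA.symmDiff hEm).nullMeasurableSet]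
      exact h2
    rw [h4, h1] at h5
    have a0 : 0 ≤ μ.real A := measureReal_nonneg
    have a1 : μ.real A ≤ 1 := measureReal_le_one
    have b0 : 0 ≤ μ.real E := measureReal_nonneg
    have b1 : μ.real E ≤ 1 := measureReal_le_one
    obtain ⟨c1, c2⟩ := abs_le.1 h3
    obtain ⟨c3, c4⟩ := abs_le.1 h5
    refine abs_le.2 ⟨?_, ?_⟩ <;> nlinarith
  have h0 : μ.real A - μ.real A ^ 2 = 0 := by
    refine abs_nonpos_iff.1 (le_of_forall_pos_le_add fun ε hε => ?_)
    have := key (ε / 4) (by positivity)
    linarith
  have h1 : μ.real A * (1 - μ.real A) = 0 := by linarith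
  rcases mul_eq_zero.1 h1 with h2 | h2
  · exact Or.inl ((measureReal_eq_zero_iff (measure_ne_top _ _)).1 h2)
  · right
    rw [← measureReal_eq_zero_iff (measure_ne_top _ _), probReal_compl_eq_one_sub hA]
    exact h2

lemma bern_null_of_pow {Ω : Type} [MeasurableSpace Ω] {μ : Measure Ω} {D : Set Ω} {c : ℝ≥0∞}
    (hc : c < 1) (h : ∀ L, μ D ≤ c ^ L) : μ D = 0 :=
  nonpos_iff_eq_zero.1
    (ge_of_tendsto' (ENNReal.tendsto_pow_atTop_nhds_zero_of_lt_one hc) h)

lemma bern_generic : ∀ᵐ η ∂(unif (At × ℕ)), Generic η := by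
  classical
  have key : ∀ T s : Finset At, ∀ᵐ η ∂(unif (At × ℕ)), ∃ i, ∀ a ∈ T, η (a, i) = decide (a ∈ s) := by
    intro T s
    rw [ae_iff]
    set E : ℕ → Set (At × ℕ → Bool) := fun i => {η | ¬ ∀ a ∈ T, η (a, i) = decide (a ∈ s)} with hE
    set c : ℝ≥0∞ := 1 - (2 : ℝ≥0∞)⁻¹ ^ T.card with hc
    have h1 : ∀ i, unif (At × ℕ) (E i) = c := fun i => by
      have e : E i = {η | ∀ p ∈ T.image (fun a => (a, i)), η p = decide (p.1 ∈ s)}ᶜ := by
        ext η
        simp only [hE, mem_ofPred_eq, mem_compl_iff, Finset.forall_mem_image]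
      have hm : MeasurableSet {η : At × ℕ → Bool |
          ∀ p ∈ T.image (fun a => (a, i)), η p = decide (p.1 ∈ s)} := by
        simp only [ofPred_forall]
        exact MeasurableSet.iInter fun p => MeasurableSet.iInter fun _ =>
          measurable_pi_apply p (measurableSet_singleton _)
      rw [e, prob_compl_eq_one_sub hm, bern_unif_cyl,
        Finset.card_image_of_injective _ fun a b hab => congrArg Prod.fst hab]
    have h2 : ∀ L : ℕ, unif (At × ℕ) {η | ∀ i < L, η ∈ E i} = c ^ L := fun L => by
      induction L with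
      | zero => simp
      | succ L ih =>
        have e : {η | ∀ i < L + 1, η ∈ E i} = {η | ∀ i < L, η ∈ E i} ∩ E L := by
          ext η
          simp only [mem_ofPred_eq, mem_inter_iff, Nat.forall_lt_succ_right]
        rw [e, bern_indep (T := T ×ˢ Finset.range L) (T' := T ×ˢ {L}), ih, h1, pow_succ]
        · rw [Finset.disjoint_left]
          intro p hp hp'
          simp only [Finset.mem_product, Finset.mem_range, Finset.mem_singleton] at hp hp'
          omega
        · intro x y hxy hx i hi hy
          refine hx i hi fun a ha => ?_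
          rw [hxy (a, i) (by simp [ha, hi])]
          exact hy a ha
        · intro x y hxy hx hy
          refine hx fun a ha => ?_
          rw [hxy (a, L) (by simp [ha])]
          exact hy a ha
    refine bern_null_of_pow (c := c) ?_ fun L => ?_
    · exact ENNReal.sub_lt_self (by simp) (by simp) (by simp)
    · rw [← h2 L]
      exact measure_mono fun η hη i _ hi => hη ⟨i, hi⟩
  filter_upwards [ae_all_iff.2 fun T => ae_all_iff.2 fun s => key T s] with η hη T p
  obtain ⟨i, hi⟩ := hη T (T.filter fun a => p a = true)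
  refine ⟨i, fun a ha => ?_⟩
  rw [hi a ha]
  simp [ha]

theorem bern_ok : S_bern := by
  refine ⟨bern_flip_mp, bern_flip_erg, fun ξ => ?_, fun k L b => ?_, bern_ysh_mp, bern_ysh_erg,
    bern_generic⟩
  · refine bern_null_of_pow (c := 2⁻¹) (by simp) fun L => ?_
    have := bern_unif_cyl (Finset.range L) ξ
    rw [Finset.card_range] at this
    rw [← this]
    refine measure_mono fun η hη i _ => ?_
    rw [mem_singleton_iff.1 hη]
  · have := bern_unif_cyl ((Finset.range L).image (k + ·)) fun _ => !b
    rw [Finset.card_image_of_injective _ (add_right_injective k), Finset.card_range] at this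
    rw [← this]
    congr 1
    ext ξ
    simp [Bool.eq_not]

end Pool.Agent.P.MP_c1aa6a_an
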