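import Pool.Agent.P.MP_c1aa6a_an.Defs

/-! The first chaos isometry of a Poisson system given by its Laplace functional. -/

set_option autoImplicit false
open MeasureTheory Set Filter Topology
open scoped ENNReal NNReal symmDiff InnerProductSpace

namespace Pool.Agent.P.MP_c1aa6a_an

namespace Chaos

/-- Families with equal Gram matrices, the first one total, are matched by a linear isometry. -/
theorem gram_isometry {H K ι : Type*} [NormedAddCommGroup H] [InnerProductSpace ℝ H]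
    [NormedAddCommGroup K] [InnerProductSpace ℝ K] [CompleteSpace K] (u : ι → H) (v : ι → K)
    (hg : ∀ i j, ⟪u i, u j⟫_ℝ = ⟪v i, v j⟫_ℝ)
    (hd : DenseRange (Finsupp.linearCombination ℝ u)) :
    ∃ I : H →ₗᵢ[ℝ] K, ∀ i, I (u i) = v i := by
  have hn : ∀ c : ι →₀ ℝ, ‖Finsupp.linearCombination ℝ v c‖ = ‖Finsupp.linearCombination ℝ u c‖ := by
    intro c
    rw [← sq_eq_sq₀ (norm_nonneg _) (norm_nonneg _), ← real_inner_self_eq_norm_sq,
      ← real_inner_self_eq_norm_sq]
    simp only [Finsupp.linearCombination_apply, Finsupp.sum, sum_inner, inner_sum,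
      real_inner_smul_left, real_inner_smul_right, hg]
  have hb : ∃ C : ℝ, ∀ c, ‖Finsupp.linearCombination ℝ v c‖ ≤
      C * ‖Finsupp.linearCombination ℝ u c‖ := ⟨1, fun c => by rw [hn, one_mul]⟩
  set T := (Finsupp.linearCombination ℝ v).extendOfNorm (Finsupp.linearCombination ℝ u) with hT
  have hTe : ∀ c, T (Finsupp.linearCombination ℝ u c) = Finsupp.linearCombination ℝ v c :=
    fun c => LinearMap.extendOfNorm_eq hd hb c
  have hiso : ∀ x, ‖T x‖ = ‖x‖ := by
    intro x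
    refine hd.induction_on x (isClosed_eq (T.continuous.norm) continuous_norm) ?_
    intro c
    rw [hTe, hn]
  refine ⟨⟨T.toLinearMap, hiso⟩, fun i => ?_⟩
  have := hTe (Finsupp.single i 1)
  simpa using this

/-- Differentiation at `a = 1` of `∫ a ^ N * φ`. -/
theorem deriv_gen {Ω : Type*} [MeasurableSpace Ω] (P : Measure Ω) (N : Ω → ℕ) (hN : Measurable N)
    (φ : Ω → ℝ) (h : ∀ a : ℝ, Integrable (fun ω => a ^ N ω * φ ω) P) :
    Integrable (fun ω => (N ω : ℝ) * φ ω) P ∧
      HasDerivAt (fun a : ℝ => ∫ ω, a ^ N ω * φ ω ∂P) (∫ ω, (N ω : ℝ) * φ ω ∂P) 1 := by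
  have hφ : AEStronglyMeasurable φ P := by
    simpa using (h 1).aestronglyMeasurable
  have hNm : Measurable fun ω => (N ω : ℝ) := measurable_from_top.comp hN
  have key := hasDerivAt_integral_of_dominated_loc_of_deriv_le (μ := P) (x₀ := (1 : ℝ))
    (F := fun a ω => a ^ N ω * φ ω) (F' := fun a ω => (N ω : ℝ) * a ^ (N ω - 1) * φ ω)
    (bound := fun ω => ‖(4 : ℝ) ^ N ω * φ ω‖) (s := Metric.ball 1 1)
    (Metric.ball_mem_nhds _ one_pos)
    (Eventually.of_forall fun a => (h a).aestronglyMeasurable) (h 1)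
    (by
      have : AEStronglyMeasurable (fun ω => (N ω : ℝ) * φ ω) P := hNm.aestronglyMeasurable.mul hφ
      simpa using this) ?_ (h 4).norm ?_
  · simpa using key
  · refine Eventually.of_forall fun ω a ha => ?_
    have ha' : |a| ≤ 2 := by
      rw [Metric.mem_ball, Real.dist_eq, abs_lt] at ha
      rw [abs_le]; constructor <;> linarith [ha.1, ha.2]
    rw [norm_mul, norm_mul, norm_mul]
    refine mul_le_mul_of_nonneg_right ?_ (norm_nonneg _)
    have h1 : ‖(N ω : ℝ)‖ ≤ 2 ^ N ω := by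
      rw [Real.norm_natCast]
      exact_mod_cast (Nat.lt_two_pow_self).le
    have h2 : ‖a ^ (N ω - 1)‖ ≤ 2 ^ N ω := by
      rw [norm_pow, Real.norm_eq_abs]
      exact (pow_le_pow_left₀ (abs_nonneg _) ha' _).trans
        (pow_le_pow_right₀ one_le_two (Nat.sub_le _ _))
    calc ‖(N ω : ℝ)‖ * ‖a ^ (N ω - 1)‖ ≤ 2 ^ N ω * 2 ^ N ω :=
          mul_le_mul h1 h2 (norm_nonneg _) (by positivity)
      _ = ‖(4 : ℝ) ^ N ω‖ := by
          rw [← mul_pow, norm_pow]; norm_num
  · refine Eventually.of_forall fun ω a _ => ?_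
    exact (hasDerivAt_pow (N ω) a).mul_const (φ ω)

theorem ex_cons (E : CO) (a : ℝ) (l : List (CO × ℝ)) (ν : Cf) :
    ex ((E, a) :: l) ν = a ^ ν E * ex l ν := by
  simp [ex]

theorem ex_append (l l' : List (CO × ℝ)) (ν : Cf) : ex (l ++ l') ν = ex l ν * ex l' ν := by
  simp [ex]

theorem gR_cons (E : CO) (a : ℝ) (l : List (CO × ℝ)) (q : Q) :
    gR ((E, a) :: l) q - 1 = (gR l q - 1) + (a - 1) * E.1.indicator (gR l) q := by
  by_cases hq : q ∈ E.1
  · simp only [gR, List.map_cons, List.prod_cons, hq, if_true, indicator_of_mem]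
    ring
  · simp [gR, hq]

theorem exC_map (l : List (CO × ℝ)) (ν : Cf) :
    exC (l.map fun p => (p.1, (p.2 : ℂ))) ν = (ex l ν : ℂ) := by
  induction l with
  | nil => simp [exC, ex]
  | cons p l ih =>
    simp only [exC, ex, List.map_cons, List.prod_cons] at ih ⊢
    rw [ih]; push_cast; rfl

theorem gC_map (l : List (CO × ℝ)) (q : Q) :
    gC (l.map fun p => (p.1, (p.2 : ℂ))) q = (gR l q : ℂ) := by
  induction l with
  | nil => simp [gC, gR]
  | cons p l ih =>
    simp only [gC, gR, List.map_cons, List.prod_cons] at ih ⊢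
    rw [ih]
    by_cases hq : q ∈ p.1.1 <;> simp [hq]

section
variable {ξ : Measure Xi} {P : Measure Cf}

theorem int_ex (hL : Lap ξ P) (l : List (CO × ℝ)) : Integrable (ex l) P := by
  have h := (hL (l.map fun p => (p.1, (p.2 : ℂ)))).1
  have h2 := h.re
  simpa [exC_map] using h2

theorem integral_ex (hL : Lap ξ P) (l : List (CO × ℝ)) :
    ∫ ν, ex l ν ∂P = Real.exp (∫ q, (gR l q - 1) ∂(mQ ξ)) := by
  have h := (hL (l.map fun p => (p.1, (p.2 : ℂ)))).2
  simp only [exC_map, gC_map] at h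
  have h3 : ∀ q, ((gR l q : ℂ) - 1) = ((gR l q - 1 : ℝ) : ℂ) := fun q => by push_cast; rfl
  simp only [h3] at h
  rw [integral_complex_ofReal, integral_complex_ofReal, ← Complex.ofReal_exp] at h
  exact_mod_cast h

theorem mem_ex (hL : Lap ξ P) (l : List (CO × ℝ)) : MemLp (ex l) 2 P := by
  rw [memLp_two_iff_integrable_sq (int_ex hL l).aestronglyMeasurable]
  have := int_ex hL (l ++ l)
  refine this.congr (Eventually.of_forall fun ν => ?_)
  simp only [ex_append, sq]

theorem gR_meas (hE : ∀ E : CO, MeasurableSet E.1) (l : List (CO × ℝ)) : Measurable (gR l) := by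
  induction l with
  | nil =>
    have : gR [] = fun _ => 1 := by funext q; simp [gR]
    rw [this]; exact measurable_const
  | cons p l ih =>
    have : gR (p :: l) = fun q => gR l q + (p.2 - 1) * p.1.1.indicator (gR l) q := by
      funext q
      have := gR_cons p.1 p.2 l q
      linarith
    rw [this]
    exact ih.add (measurable_const.mul (ih.indicator (hE _)))

theorem gR_bdd (l : List (CO × ℝ)) : ∃ C, ∀ q, ‖gR l q‖ ≤ C := by
  induction l with
  | nil => exact ⟨1, fun q => by simp [gR]⟩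
  | cons p l ih =>
    obtain ⟨C, hC⟩ := ih
    refine ⟨(‖p.2‖ + 1) * C, fun q => ?_⟩
    have h1 : gR (p :: l) q = (open Classical in if q ∈ p.1.1 then p.2 else 1) * gR l q := by
      simp [gR]
    rw [h1, norm_mul]
    refine mul_le_mul ?_ (hC q) (norm_nonneg _) (by positivity)
    split_ifs
    · linarith
    · rw [norm_one]; linarith [norm_nonneg p.2]

theorem mem_ind (hE : ∀ E : CO, MeasurableSet E.1 ∧ mQ ξ E.1 ≠ ∞) (E : CO) (l : List (CO × ℝ))
    (p : ℝ≥0∞) : MemLp (E.1.indicator (gR l)) p (mQ ξ) := by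
  rw [memLp_indicator_iff_restrict (hE E).1]
  have : IsFiniteMeasure ((mQ ξ).restrict E.1) := isFiniteMeasure_restrict.2 (hE E).2
  obtain ⟨C, hC⟩ := gR_bdd l
  exact MemLp.of_bound (gR_meas (fun E => (hE E).1) l).aestronglyMeasurable C
    (Eventually.of_forall hC)

theorem mem_g (hE : ∀ E : CO, MeasurableSet E.1 ∧ mQ ξ E.1 ≠ ∞) (l : List (CO × ℝ))
    (p : ℝ≥0∞) : MemLp (fun q => gR l q - 1) p (mQ ξ) := by
  induction l with
  | nil =>
    have : (fun q => gR [] q - 1) = fun _ => 0 := by funext q; simp [gR]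
    rw [this]; exact MemLp.zero'
  | cons e l ih =>
    have : (fun q => gR (e :: l) q - 1) =
        fun q => (gR l q - 1) + (e.2 - 1) * e.1.1.indicator (gR l) q := by
      funext q; exact gR_cons e.1 e.2 l q
    rw [this]
    exact ih.add ((mem_ind hE e.1 l p).const_mul _)

theorem int_g_cons (hE : ∀ E : CO, MeasurableSet E.1 ∧ mQ ξ E.1 ≠ ∞) (E : CO) (a : ℝ)
    (l : List (CO × ℝ)) :
    ∫ q, (gR ((E, a) :: l) q - 1) ∂(mQ ξ) =
      ∫ q, (gR l q - 1) ∂(mQ ξ) + (a - 1) * ∫ q, E.1.indicator (gR l) q ∂(mQ ξ) := by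
  simp only [gR_cons]
  rw [integral_add (memLp_one_iff_integrable.1 (mem_g hE l 1))
    ((memLp_one_iff_integrable.1 (mem_ind hE E l 1)).const_mul _), integral_const_mul]

/-- First moment against exponential vectors. -/
theorem moment1 (hE : ∀ E : CO, MeasurableSet E.1 ∧ mQ ξ E.1 ≠ ∞) (hL : Lap ξ P) (E : CO)
    (l : List (CO × ℝ)) :
    Integrable (fun ν : Cf => (ν E : ℝ) * ex l ν) P ∧
      ∫ ν, (ν E : ℝ) * ex l ν ∂P =
        Real.exp (∫ q, (gR l q - 1) ∂(mQ ξ)) * ∫ q, E.1.indicator (gR l) q ∂(mQ ξ) := by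
  have h := deriv_gen P (fun ν : Cf => ν E) (measurable_pi_apply E) (ex l)
    (fun a => by simpa only [← ex_cons] using int_ex hL ((E, a) :: l))
  refine ⟨h.1, ?_⟩
  set c := ∫ q, (gR l q - 1) ∂(mQ ξ)
  set d := ∫ q, E.1.indicator (gR l) q ∂(mQ ξ)
  have hf : (fun a : ℝ => ∫ ν : Cf, a ^ ν E * ex l ν ∂P) = fun a => Real.exp (c + (a - 1) * d) := by
    funext a
    simp only [← ex_cons]
    rw [integral_ex hL, int_g_cons hE]
  have h2 : HasDerivAt (fun a : ℝ => Real.exp (c + (a - 1) * d))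
      (Real.exp (c + (1 - 1) * d) * (1 * d)) 1 :=
    ((((hasDerivAt_id (1 : ℝ)).sub_const 1).mul_const d).const_add c).exp
  have h3 := h.2
  rw [hf] at h3
  rw [h3.unique h2]
  simp

theorem gR_nil : gR [] = fun _ => 1 := by funext q; simp [gR]

theorem ex_nil : ex [] = fun _ => 1 := by funext q; simp [ex]

theorem mean (hE : ∀ E : CO, MeasurableSet E.1 ∧ mQ ξ E.1 ≠ ∞) (hL : Lap ξ P) (E : CO) :
    Integrable (fun ν : Cf => (ν E : ℝ)) P ∧ ∫ ν, (ν E : ℝ) ∂P = (mQ ξ).real E.1 := by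
  have h := moment1 hE hL E []
  simp only [gR_nil, ex_nil, mul_one, sub_self, integral_zero, Real.exp_zero, one_mul] at h
  refine ⟨h.1, ?_⟩
  rw [h.2, integral_indicator (hE E).1]
  simp

/-- Second moments. -/
theorem moment2 (hE : ∀ E : CO, MeasurableSet E.1 ∧ mQ ξ E.1 ≠ ∞) (hL : Lap ξ P) (E E' : CO) :
    Integrable (fun ν : Cf => (ν E : ℝ) * (ν E' : ℝ)) P ∧
      ∫ ν, (ν E : ℝ) * (ν E' : ℝ) ∂P =
        (mQ ξ).real E.1 * (mQ ξ).real E'.1 + (mQ ξ).real (E.1 ∩ E'.1) := by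
  have hm : ∀ a : ℝ, Integrable (fun ν : Cf => a ^ ν E * (ν E' : ℝ)) P ∧
      ∫ ν, a ^ ν E * (ν E' : ℝ) ∂P = Real.exp ((a - 1) * (mQ ξ).real E.1) *
        ((mQ ξ).real E'.1 + (a - 1) * (mQ ξ).real (E.1 ∩ E'.1)) := by
    intro a
    have h := moment1 hE hL E' [(E, a)]
    have e1 : ∀ ν : Cf, (ν E' : ℝ) * ex [(E, a)] ν = a ^ ν E * (ν E' : ℝ) := by
      intro ν; rw [ex_cons, ex_nil]; ring
    simp only [e1] at h
    refine ⟨h.1, ?_⟩
    rw [h.2, int_g_cons hE]
    have e2 : ∀ q, E'.1.indicator (gR [(E, a)]) q = E'.1.indicator (fun _ => (1 : ℝ)) q +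
        (a - 1) * (E.1 ∩ E'.1).indicator (fun _ => (1 : ℝ)) q := by
      intro q
      by_cases h1 : q ∈ E.1 <;> by_cases h2 : q ∈ E'.1 <;> simp [gR, h1, h2]
    have hfin : mQ ξ (E.1 ∩ E'.1) ≠ ∞ :=
      ne_top_of_le_ne_top (hE E).2 (measure_mono inter_subset_left)
    have i1 : Integrable (E'.1.indicator (fun _ => (1 : ℝ))) (mQ ξ) :=
      (integrable_indicator_iff (hE E').1).2 (integrableOn_const (hE E').2)
    have i2 : Integrable ((E.1 ∩ E'.1).indicator (fun _ => (1 : ℝ))) (mQ ξ) :=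
      (integrable_indicator_iff ((hE E).1.inter (hE E').1)).2 (integrableOn_const hfin)
    simp only [e2]
    rw [integral_add i1 (i2.const_mul _), integral_const_mul, gR_nil,
      integral_indicator (hE E').1, integral_indicator ((hE E).1.inter (hE E').1),
      integral_indicator (hE E).1]
    simp
  have h := deriv_gen P (fun ν : Cf => ν E) (measurable_pi_apply E) (fun ν => (ν E' : ℝ))
    (fun a => (hm a).1)
  refine ⟨h.1, ?_⟩
  set x := (mQ ξ).real E.1
  set y := (mQ ξ).real E'.1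
  set z := (mQ ξ).real (E.1 ∩ E'.1)
  have hf : (fun a : ℝ => ∫ ν : Cf, a ^ ν E * (ν E' : ℝ) ∂P) =
      fun a => Real.exp ((a - 1) * x) * (y + (a - 1) * z) := by
    funext a; exact (hm a).2
  have h2 : HasDerivAt (fun a : ℝ => Real.exp ((a - 1) * x) * (y + (a - 1) * z))
      (Real.exp ((1 - 1) * x) * (1 * x) * (y + (1 - 1) * z) +
        Real.exp ((1 - 1) * x) * (1 * z)) 1 :=
    ((((hasDerivAt_id (1 : ℝ)).sub_const 1).mul_const x).exp).mul
      ((((hasDerivAt_id (1 : ℝ)).sub_const 1).mul_const z).const_add y)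
  have h3 := h.2
  rw [hf] at h3
  rw [h3.unique h2]
  simp

theorem mem_N (hE : ∀ E : CO, MeasurableSet E.1 ∧ mQ ξ E.1 ≠ ∞) (hL : Lap ξ P) (E : CO) :
    MemLp (fun ν : Cf => (ν E : ℝ)) 2 P := by
  rw [memLp_two_iff_integrable_sq (mean hE hL E).1.aestronglyMeasurable]
  simpa only [sq] using (moment2 hE hL E E).1

theorem mem_X [IsProbabilityMeasure P] (hE : ∀ E : CO, MeasurableSet E.1 ∧ mQ ξ E.1 ≠ ∞)
    (hL : Lap ξ P) (E : CO) : MemLp (fun ν : Cf => (ν E : ℝ) - (mQ ξ E.1).toReal) 2 P :=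
  (mem_N hE hL E).sub (memLp_const _)

theorem inner_toLp {Y : Type} [MeasurableSpace Y] {μ : Measure Y} (F : L2 μ) {g : Y → ℝ}
    (hg : MemLp g 2 μ) : ⟪F, hg.toLp g⟫_ℝ = ∫ y, F y * g y ∂μ := by
  rw [L2.inner_def]
  refine integral_congr_ae ?_
  filter_upwards [hg.coeFn_toLp] with y hy
  rw [hy]
  simp [mul_comm]

theorem gram_X [IsProbabilityMeasure P] (hE : ∀ E : CO, MeasurableSet E.1 ∧ mQ ξ E.1 ≠ ∞)
    (hL : Lap ξ P) (E E' : CO) :
    ⟪(mem_X hE hL E).toLp _, (mem_X hE hL E').toLp _⟫_ℝ = (mQ ξ).real (E.1 ∩ E'.1) := by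
  rw [inner_toLp]
  have e : ∀ᵐ ν ∂P, ((mem_X hE hL E).toLp _ : L2 P) ν * ((ν E' : ℝ) - (mQ ξ E'.1).toReal) =
      (ν E : ℝ) * (ν E' : ℝ) - ((mQ ξ).real E'.1 * (ν E : ℝ) +
        ((mQ ξ).real E.1 * (ν E' : ℝ) - (mQ ξ).real E.1 * (mQ ξ).real E'.1)) := by
    filter_upwards [(mem_X hE hL E).coeFn_toLp] with ν hν
    rw [hν]
    simp only [Measure.real]
    ring
  have a1 := ((mean hE hL E).1.const_mul ((mQ ξ).real E'.1))
  have a2 := ((mean hE hL E').1.const_mul ((mQ ξ).real E.1))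
  have a3 : Integrable (fun _ : Cf => (mQ ξ).real E.1 * (mQ ξ).real E'.1) P := integrable_const _
  have a4 : Integrable (fun ν : Cf => (mQ ξ).real E.1 * (ν E' : ℝ) -
      (mQ ξ).real E.1 * (mQ ξ).real E'.1) P := a2.sub a3
  have a5 : Integrable (fun ν : Cf => (mQ ξ).real E'.1 * (ν E : ℝ) + ((mQ ξ).real E.1 * (ν E' : ℝ) -
      (mQ ξ).real E.1 * (mQ ξ).real E'.1)) P := a1.add a4
  rw [integral_congr_ae e, integral_sub (moment2 hE hL E E').1 a5,
    integral_add a1 a4, integral_sub a2 a3, integral_const_mul, integral_const_mul,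
    (moment2 hE hL E E').2, (mean hE hL E).2, (mean hE hL E').2]
  simp only [integral_const, probReal_univ, smul_eq_mul, one_mul]
  ring

/-- The indicator of a compact open set as an element of `L2`. -/
noncomputable def uI (hE : ∀ E : CO, MeasurableSet E.1 ∧ mQ ξ E.1 ≠ ∞) (E : CO) : L2 (mQ ξ) :=
  indicatorConstLp 2 (hE E).1 (hE E).2 (1 : ℝ)

theorem uI_coe (hE : ∀ E : CO, MeasurableSet E.1 ∧ mQ ξ E.1 ≠ ∞) (E : CO) :
    (uI hE E : Q → ℝ) =ᵐ[mQ ξ] E.1.indicator (fun _ => (1 : ℝ)) := indicatorConstLp_coeFn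

theorem list_mem (hE : ∀ E : CO, MeasurableSet E.1 ∧ mQ ξ E.1 ≠ ∞) (l : List (CO × ℝ)) :
    ∃ c : CO →₀ ℝ, (Finsupp.linearCombination ℝ (uI hE) c : L2 (mQ ξ)) =ᵐ[mQ ξ]
      fun q => (l.map fun e => e.1.1.indicator (fun _ => e.2) q).sum := by
  induction l with
  | nil =>
    refine ⟨0, ?_⟩
    rw [map_zero]
    exact Lp.coeFn_zero ℝ 2 (mQ ξ)
  | cons e l ih =>
    obtain ⟨c, hc⟩ := ih
    refine ⟨Finsupp.single e.1 e.2 + c, ?_⟩
    rw [map_add, Finsupp.linearCombination_single]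
    filter_upwards [hc, Lp.coeFn_add (e.2 • uI hE e.1) (Finsupp.linearCombination ℝ (uI hE) c),
      Lp.coeFn_smul e.2 (uI hE e.1),
      uI_coe hE e.1] with q h1 h2 h3 h4
    rw [h2, Pi.add_apply, h1, h3, Pi.smul_apply, h4]
    by_cases hq : q ∈ e.1.1 <;> simp [hq]

end

end Chaos

open Chaos in
theorem chaos_ok (ha : S_approx) : S_chaos := by
  intro ξ _ P _ hL
  obtain ⟨hE, -, hind⟩ := ha ξ
  have hd : DenseRange (Finsupp.linearCombination ℝ (uI hE)) := by
    intro F
    refine hind (fun F => F ∈ closure (range (Finsupp.linearCombination ℝ (uI hE))))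
      isClosed_closure ?_ F
    intro l F hF
    obtain ⟨c, hc⟩ := list_mem hE l
    exact subset_closure ⟨c, Lp.ext (hc.trans hF.symm)⟩
  obtain ⟨I, hI⟩ := gram_isometry (uI hE) (fun E => (mem_X hE hL E).toLp _)
    (fun E E' => by
      rw [gram_X hE hL]
      exact L2.real_inner_indicatorConstLp_one_indicatorConstLp_one (hE E).1 (hE E').1
        (hE E).2 (hE E').2) hd
  refine ⟨I, ?_, mem_ex hL, fun l => mem_g hE l 2,
    fun l => memLp_one_iff_integrable.1 (mem_g hE l 1), integral_ex hL, ?_⟩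
  · intro E F hF
    have : F = uI hE E := Lp.ext (hF.trans (uI_coe hE E).symm)
    rw [this, hI]
    exact (mem_X hE hL E).coeFn_toLp
  · intro F l
    rw [← inner_toLp _ (mem_ex hL l), ← inner_toLp _ (mem_g hE l 2)]
    set c := Real.exp (∫ q, (gR l q - 1) ∂(mQ ξ)) with hc
    have base : ∀ E, ⟪I (uI hE E), (mem_ex hL l).toLp _⟫_ℝ =
        c * ⟪uI hE E, (mem_g hE l 2).toLp _⟫_ℝ := by
      intro E
      rw [hI, inner_toLp, inner_toLp]
      have e1 : ∀ᵐ ν ∂P, ((mem_X hE hL E).toLp _ : L2 P) ν * ex l ν =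
          (ν E : ℝ) * ex l ν - (mQ ξ).real E.1 * ex l ν := by
        filter_upwards [(mem_X hE hL E).coeFn_toLp] with ν hν
        rw [hν]
        simp only [Measure.real]
        ring
      have e2 : ∀ᵐ q ∂(mQ ξ), uI hE E q * (gR l q - 1) =
          E.1.indicator (gR l) q - E.1.indicator (fun _ => (1 : ℝ)) q := by
        filter_upwards [uI_coe hE E] with q hq
        rw [hq]
        by_cases h : q ∈ E.1 <;> simp [h]
      have i1 : Integrable (E.1.indicator (fun _ => (1 : ℝ))) (mQ ξ) :=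
        (integrable_indicator_iff (hE E).1).2 (integrableOn_const (hE E).2)
      rw [integral_congr_ae e1, integral_congr_ae e2,
        integral_sub (moment1 hE hL E l).1 ((int_ex hL l).const_mul _), integral_const_mul,
        (moment1 hE hL E l).2, integral_ex hL,
        integral_sub (memLp_one_iff_integrable.1 (mem_ind hE E l 1)) i1,
        integral_indicator (f := fun _ => (1 : ℝ)) (hE E).1]
      simp only [integral_const, MeasurableSet.univ, measureReal_restrict_apply, univ_inter,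
        smul_eq_mul, mul_one]
      ring
    refine hd.induction_on F (isClosed_eq ?_ ?_) ?_
    · exact I.continuous.inner continuous_const
    · exact continuous_const.mul (continuous_id.inner continuous_const)
    · intro a
      simp only [Finsupp.linearCombination_apply, Finsupp.sum, map_sum, map_smul, sum_inner,
        real_inner_smul_left, base, Finset.mul_sum]
      refine Finset.sum_congr rfl fun E _ => ?_
      ring

end Pool.Agent.P.MP_c1aa6a_an
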