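import Pool.Agent.P.MP_c1aa6a_an.Defs

/-! Modulus of the characteristic function on the first chaos. -/

set_option autoImplicit false
open MeasureTheory Set Filter Topology
open scoped ENNReal NNReal symmDiff

namespace Pool.Agent.P.MP_c1aa6a_an

namespace CharF

variable {Y : Type} [MeasurableSpace Y] {μ : Measure Y}

lemma int_mul (f g : L2 μ) : Integrable (fun q => |f q| * |g q|) μ := by
  have h := (L2.integrable_inner (𝕜 := ℝ) f g).norm
  refine h.congr (Eventually.of_forall fun q => ?_)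
  simp [mul_comm]

lemma cs (f g : L2 μ) : ∫ q, |f q| * |g q| ∂μ ≤ ‖f‖ * ‖g‖ := by
  have h1 : inner ℝ (|f| : L2 μ) (|g| : L2 μ) ≤ ‖(|f| : L2 μ)‖ * ‖(|g| : L2 μ)‖ :=
    real_inner_le_norm _ _
  rw [norm_abs_eq_norm, norm_abs_eq_norm, L2.inner_def] at h1
  refine le_of_eq_of_le ?_ h1
  refine integral_congr_ae ?_
  filter_upwards [Lp.coeFn_abs f, Lp.coeFn_abs g] with q h1 h2
  rw [h1, h2]
  simp [mul_comm]

lemma cos_sub_one (t : ℝ) : |Real.cos t - 1| ≤ |t| * |t| := by
  have h1 := Real.one_sub_sq_div_two_le_cos (x := t)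
  have h2 := Real.cos_le_one t
  have h3 : |t| * |t| = t ^ 2 := by rw [abs_mul_abs_self]; ring
  rw [h3, abs_le]
  constructor <;> nlinarith [sq_nonneg t]

lemma cos_sub_cos (a b : ℝ) :
    |Real.cos a - Real.cos b| ≤ |a - b| * |a| + |a - b| * |b| := by
  rw [Real.cos_sub_cos]
  have h1 : |Real.sin ((a + b) / 2)| ≤ |(a + b) / 2| := Real.abs_sin_le_abs
  have h2 : |Real.sin ((a - b) / 2)| ≤ |(a - b) / 2| := Real.abs_sin_le_abs
  have h3 : |(a + b) / 2| ≤ |a| + |b| := by
    rw [abs_div, abs_two]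
    have := abs_add_le a b
    have := abs_nonneg a
    have := abs_nonneg b
    linarith
  have h4 : |(a - b) / 2| = |a - b| / 2 := by rw [abs_div, abs_two]
  rw [abs_mul, abs_mul, abs_neg, abs_two]
  rw [h4] at h2
  have h5 : |Real.sin ((a + b) / 2)| * |Real.sin ((a - b) / 2)| ≤ (|a| + |b|) * (|a - b| / 2) :=
    mul_le_mul (h1.trans h3) h2 (abs_nonneg _) (by positivity)
  nlinarith

lemma int_cos (F : L2 μ) (u : ℝ) : Integrable (fun q => Real.cos (u * F q) - 1) μ := by
  refine Integrable.mono' ((int_mul F F).const_mul (|u| * |u|)) ?_ ?_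
  · have h := (Lp.aestronglyMeasurable F).const_mul u
    exact (Real.continuous_cos.comp_aestronglyMeasurable h).sub aestronglyMeasurable_const
  · refine Eventually.of_forall fun q => ?_
    have h := cos_sub_one (u * F q)
    rw [abs_mul] at h
    rw [Real.norm_eq_abs]
    nlinarith

lemma cos_dist (F G : L2 μ) (u : ℝ) :
    |∫ q, (Real.cos (u * F q) - 1) ∂μ - ∫ q, (Real.cos (u * G q) - 1) ∂μ| ≤
      |u| * |u| * (‖F - G‖ * ‖F‖ + ‖F - G‖ * ‖G‖) := by
  rw [← integral_sub (int_cos F u) (int_cos G u)]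
  have hi : Integrable (fun q => |u| * |u| * (|(F - G) q| * |F q| + |(F - G) q| * |G q|)) μ :=
    ((int_mul (F - G) F).add (int_mul (F - G) G)).const_mul _
  have h1 : ‖∫ q, ((Real.cos (u * F q) - 1) - (Real.cos (u * G q) - 1)) ∂μ‖ ≤
      ∫ q, |u| * |u| * (|(F - G) q| * |F q| + |(F - G) q| * |G q|) ∂μ := by
    refine norm_integral_le_of_norm_le hi ?_
    filter_upwards [Lp.coeFn_sub F G] with q hq
    have h := cos_sub_cos (u * F q) (u * G q)
    rw [← mul_sub, abs_mul, abs_mul, abs_mul] at h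
    rw [hq, Pi.sub_apply, Real.norm_eq_abs, sub_sub_sub_cancel_right]
    nlinarith
  rw [Real.norm_eq_abs, integral_const_mul, integral_add (int_mul _ _) (int_mul _ _)] at h1
  refine h1.trans (mul_le_mul_of_nonneg_left (add_le_add (cs _ _) (cs _ _)) (by positivity))

lemma cont_cos (u : ℝ) : Continuous fun F : L2 μ => ∫ q, (Real.cos (u * F q) - 1) ∂μ := by
  refine continuous_iff_continuousAt.2 fun G => ?_
  rw [ContinuousAt, tendsto_iff_dist_tendsto_zero]
  have hc : Continuous fun F : L2 μ => |u| * |u| * (‖F - G‖ * ‖F‖ + ‖F - G‖ * ‖G‖) := by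
    fun_prop
  have h := hc.tendsto G
  simp only [sub_self, norm_zero, zero_mul, add_zero, mul_zero] at h
  exact squeeze_zero (fun _ => dist_nonneg) (fun F => cos_dist F G u) h

lemma exp_sub (a b : ℝ) :
    ‖Complex.exp (a * Complex.I) - Complex.exp (b * Complex.I)‖ ≤ |a - b| := by
  have h : Complex.exp (a * Complex.I) - Complex.exp (b * Complex.I) =
      Complex.exp (b * Complex.I) * (Complex.exp (Complex.I * ((a - b : ℝ) : ℂ)) - 1) := by
    rw [mul_sub, ← Complex.exp_add, mul_one]
    congr 2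
    push_cast
    ring
  rw [h, norm_mul, Complex.norm_exp_ofReal_mul_I, one_mul]
  exact Real.norm_exp_I_mul_ofReal_sub_one_le

lemma int_exp [IsFiniteMeasure μ] (f : L2 μ) (u : ℝ) :
    Integrable (fun ν => Complex.exp ((u * f ν : ℝ) * Complex.I)) μ := by
  refine Integrable.of_bound ?_ 1 (Eventually.of_forall fun q => ?_)
  · have h := (Lp.aestronglyMeasurable f).const_mul u
    have hc : Continuous fun t : ℝ => Complex.exp ((t : ℂ) * Complex.I) := by fun_prop
    exact hc.comp_aestronglyMeasurable h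
  · rw [Complex.norm_exp_ofReal_mul_I]

lemma cont_exp [IsFiniteMeasure μ] (u : ℝ) :
    Continuous fun f : L2 μ => ∫ ν, Complex.exp ((u * f ν : ℝ) * Complex.I) ∂μ := by
  refine continuous_iff_continuousAt.2 fun g => ?_
  rw [ContinuousAt, tendsto_iff_dist_tendsto_zero]
  set o : L2 μ := Lp.const 2 μ (1 : ℝ) with ho
  have hc : Continuous fun f : L2 μ => |u| * (‖f - g‖ * ‖o‖) := by fun_prop
  have h := hc.tendsto g
  simp only [sub_self, norm_zero, zero_mul, mul_zero] at h
  refine squeeze_zero (fun _ => dist_nonneg) (fun f => ?_) h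
  rw [dist_eq_norm, ← integral_sub (int_exp f u) (int_exp g u)]
  have h1 : ‖∫ ν, (Complex.exp ((u * f ν : ℝ) * Complex.I) -
      Complex.exp ((u * g ν : ℝ) * Complex.I)) ∂μ‖ ≤ ∫ ν, |u| * (|(f - g) ν| * |o ν|) ∂μ := by
    refine norm_integral_le_of_norm_le ((int_mul _ _).const_mul _) ?_
    filter_upwards [Lp.coeFn_sub f g, Lp.coeFn_const 2 μ (1 : ℝ)] with q hq hq'
    have h := exp_sub (u * f q) (u * g q)
    rw [← mul_sub, abs_mul] at h
    rw [hq, Pi.sub_apply, ho, hq']
    simpa using h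
  rw [integral_const_mul] at h1
  exact h1.trans (mul_le_mul_of_nonneg_left (cs _ _) (abs_nonneg _))

/-- The simple function attached to a list. -/
noncomputable def sf (l : List (CO × ℝ)) (q : Q) : ℝ :=
  (l.map fun e => e.1.1.indicator (fun _ => e.2) q).sum

lemma sf_int {ξ : Measure Xi} (hE : ∀ E : CO, MeasurableSet E.1 ∧ mQ ξ E.1 ≠ ∞)
    (l : List (CO × ℝ)) : Integrable (sf l) (mQ ξ) := by
  induction l with
  | nil => exact integrable_zero _ _ _
  | cons e l ih =>
    have h1 : Integrable (e.1.1.indicator fun _ : Q => e.2) (mQ ξ) :=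
      (integrableOn_const (hE e.1).2).integrable_indicator (hE e.1).1
    refine (h1.add ih).congr (Eventually.of_forall fun q => ?_)
    simp [sf]

lemma chaos_sf {ξ : Measure Xi} {P : Measure Cf} {I : L2 (mQ ξ) →ₗᵢ[ℝ] L2 P}
    (hE : ∀ E : CO, MeasurableSet E.1 ∧ mQ ξ E.1 ≠ ∞) (hI : IsChaos ξ P I)
    (l : List (CO × ℝ)) : ∀ F : L2 (mQ ξ), F =ᵐ[mQ ξ] sf l →
      I F =ᵐ[P] fun ν => (l.map fun e => e.2 * (ν e.1 : ℝ)).sum -
        (l.map fun e => e.2 * (mQ ξ e.1.1).toReal).sum := by
  induction l with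
  | nil =>
    intro F hF
    have : F = 0 := by
      refine Lp.ext ?_
      filter_upwards [hF, Lp.coeFn_zero ℝ 2 (mQ ξ)] with q h1 h2
      rw [h1, h2]
      simp [sf]
    rw [this, map_zero]
    filter_upwards [Lp.coeFn_zero ℝ 2 P] with ν h
    rw [h]
    simp
  | cons e l ih =>
    intro F hF
    set G : L2 (mQ ξ) := indicatorConstLp 2 (hE e.1).1 (hE e.1).2 (1 : ℝ) with hG
    have hG1 : G =ᵐ[mQ ξ] e.1.1.indicator (fun _ => (1 : ℝ)) := indicatorConstLp_coeFn
    have h1 := hI.ind e.1 G hG1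
    have h2 : (F - e.2 • G : L2 (mQ ξ)) =ᵐ[mQ ξ] sf l := by
      filter_upwards [hF, hG1, Lp.coeFn_sub F (e.2 • G), Lp.coeFn_smul e.2 G] with q a b c d
      rw [c, Pi.sub_apply, d, Pi.smul_apply, a, b]
      by_cases hq : q ∈ e.1.1 <;> simp [sf, hq]
    have h3 := ih _ h2
    have h4 : I F = I (F - e.2 • G) + e.2 • I G := by
      rw [← map_smul, ← map_add, sub_add_cancel]
    rw [h4]
    filter_upwards [h1, h3, Lp.coeFn_add (I (F - e.2 • G)) (e.2 • I G),
      Lp.coeFn_smul e.2 (I G)] with ν a b c d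
    rw [c, Pi.add_apply, d, Pi.smul_apply, a, b]
    simp only [List.map_cons, List.sum_cons, smul_eq_mul]
    ring

/-- The list of unimodular weights. -/
noncomputable def cl (u : ℝ) (l : List (CO × ℝ)) : List (CO × ℂ) :=
  l.map fun e => (e.1, Complex.exp ((u * e.2 : ℝ) * Complex.I))

lemma exC_cl (u : ℝ) (l : List (CO × ℝ)) (ν : Cf) :
    exC (cl u l) ν =
      Complex.exp ((u * (l.map fun e => e.2 * (ν e.1 : ℝ)).sum : ℝ) * Complex.I) := by
  induction l with
  | nil => simp [exC, cl]
  | cons e l ih =>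
    have h : exC (cl u (e :: l)) ν =
        Complex.exp ((u * e.2 : ℝ) * Complex.I) ^ ν e.1 * exC (cl u l) ν := by
      simp [exC, cl]
    rw [h, ih, ← Complex.exp_nat_mul, ← Complex.exp_add, List.map_cons, List.sum_cons]
    congr 1
    push_cast
    ring

lemma gC_cl (u : ℝ) (l : List (CO × ℝ)) (q : Q) :
    gC (cl u l) q = Complex.exp ((u * sf l q : ℝ) * Complex.I) := by
  induction l with
  | nil => simp [gC, cl, sf]
  | cons e l ih =>
    have hs : sf (e :: l) q = e.1.1.indicator (fun _ => e.2) q + sf l q := by simp [sf]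
    by_cases hq : q ∈ e.1.1
    · have h : gC (cl u (e :: l)) q =
          Complex.exp ((u * e.2 : ℝ) * Complex.I) * gC (cl u l) q := by
        simp [gC, cl, hq]
      rw [h, ih, ← Complex.exp_add, hs, indicator_of_mem hq]
      congr 1
      push_cast
      ring
    · have h : gC (cl u (e :: l)) q = gC (cl u l) q := by
        simp [gC, cl, hq]
      rw [h, ih, hs, indicator_of_notMem hq, zero_add]

end CharF

open CharF in
theorem char_ok (ha : S_approx) : S_char := by
  intro ξ _ P _ I hL hI F u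
  refine ⟨int_cos F u, ?_⟩
  obtain ⟨hE, -, hcl⟩ := ha ξ
  refine hcl (fun F => ‖∫ ν, Complex.exp ((u * I F ν : ℝ) * Complex.I) ∂P‖ =
      Real.exp (∫ q, (Real.cos (u * F q) - 1) ∂(mQ ξ))) ?_ ?_ F
  · exact isClosed_eq ((cont_exp u).comp I.continuous).norm
      (Real.continuous_exp.comp (cont_cos u))
  · intro l F hF
    have hF' : F =ᵐ[mQ ξ] sf l := hF
    have h1 := chaos_sf hE hI l F hF'
    set c : ℝ := (l.map fun e => e.2 * (mQ ξ e.1.1).toReal).sum with hc
    have h2 : ∫ ν, Complex.exp ((u * I F ν : ℝ) * Complex.I) ∂P =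
        Complex.exp ((-(u * c) : ℝ) * Complex.I) * ∫ ν, exC (cl u l) ν ∂P := by
      rw [← integral_const_mul]
      refine integral_congr_ae ?_
      filter_upwards [h1] with ν hν
      rw [hν, exC_cl, ← Complex.exp_add]
      congr 1
      push_cast
      ring
    have h3 : Integrable (fun q => gC (cl u l) q - 1) (mQ ξ) := by
      refine Integrable.mono' ((sf_int hE l).const_mul u).norm ?_
        (Eventually.of_forall fun q => ?_)
      · have h := ((sf_int hE l).const_mul u).aestronglyMeasurable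
        have hc : Continuous fun t : ℝ => Complex.exp ((t : ℂ) * Complex.I) - 1 := by fun_prop
        refine (hc.comp_aestronglyMeasurable h).congr (Eventually.of_forall fun q => ?_)
        simp only [gC_cl]
      · have h := exp_sub (u * sf l q) 0
        rw [gC_cl]
        simpa using h
    rw [h2, norm_mul, Complex.norm_exp_ofReal_mul_I, one_mul, (hL (cl u l)).2,
      Complex.norm_exp]
    congr 1
    have h4 := integral_re h3
    simp only [RCLike.re_to_complex] at h4
    rw [← h4]
    refine integral_congr_ae ?_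
    filter_upwards [hF'] with q hq
    rw [gC_cl, hq, Complex.sub_re, Complex.exp_ofReal_mul_I_re, Complex.one_re]

end Pool.Agent.P.MP_c1aa6a_an
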