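import Pool.Agent.P.MP_c1aa6a_an.Defs

/-! Isomorphic wall models give orbit equivalent points. -/

set_option autoImplicit false
open Set Filter Topology
open scoped symmDiff

namespace Pool.Agent.P.MP_c1aa6a_an

namespace ConvAux

theorem wt_pos (l : ℕ) : 0 < wt l := by unfold wt; positivity

theorem exists_wt_lt {δ : ℝ} (hδ : 0 < δ) : ∃ l, wt l < δ := by
  obtain ⟨n, hn⟩ := exists_pow_lt_of_lt_one hδ (by norm_num : (1 / 2 : ℝ) < 1)
  refine ⟨n, lt_of_le_of_lt ?_ hn⟩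
  unfold wt
  exact pow_le_pow_of_le_one (by norm_num) (by norm_num) (Nat.le_succ n)

theorem vert_iff (M : WS) (A : Finset ℕ) :
    M.Vert A ↔ ∀ m ∈ A, ¬ M.dead m ∧ ∀ h, ¬ M.pp m (sd A h) := by
  constructor
  · intro hv m hm
    refine ⟨fun hd => hv m m (Or.inr (Or.inr ⟨rfl, by simp [sd, hm], hd⟩)), fun h hp => ?_⟩
    exact hv m h (Or.inl ⟨by simp [sd, hm], hp⟩)
  · intro H h h' hp
    rcases hp with ⟨h1, h2⟩ | ⟨h1, h2⟩ | ⟨_, h1, h2⟩
    · exact (H h (by simpa [sd] using h1)).2 h' h2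
    · exact (H h' (by simpa [sd] using h1)).2 h h2
    · exact (H h (by simpa [sd] using h1)).1 h2

theorem vert_empty (M : WS) : M.Vert ∅ := by
  rw [vert_iff]; intro m hm; simp at hm

/-- Data of an isomorphism of wall structures. -/
structure IsoD (M M' : WS) (τ : ℕ ≃ ℕ) (fl : ℕ → Bool) : Prop where
  lev : ∀ h, M'.lev (τ h) = M.lev h
  lab : ∀ k, M'.Lab (hsMap τ fl k) = M.Lab k
  perp : ∀ k k', M'.perp (hsMap τ fl k) (hsMap τ fl k') ↔ M.perp k k'
  sum : Summable (fun h => if fl h = true then wt (M.lev h) else 0)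

theorem hsMap_hsMap (τ : ℕ ≃ ℕ) (fl : ℕ → Bool) (k : HS) :
    hsMap τ fl (hsMap τ.symm (fun h => fl (τ.symm h)) k) = k := by
  obtain ⟨a, b⟩ := k
  simp [hsMap]

theorem IsoD.symm {M M' : WS} {τ : ℕ ≃ ℕ} {fl : ℕ → Bool} (H : IsoD M M' τ fl) :
    IsoD M' M τ.symm (fun h => fl (τ.symm h)) where
  lev h := by rw [← H.lev (τ.symm h), Equiv.apply_symm_apply]
  lab k := by rw [← H.lab, hsMap_hsMap]
  perp k k' := by rw [← H.perp, hsMap_hsMap, hsMap_hsMap]
  sum := by
    rw [← τ.summable_iff]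
    refine H.sum.congr fun h => ?_
    simp [H.lev]

/-- The defect of wall `h` between `A` and `A'`. -/
noncomputable def tm (M : WS) (τ : ℕ ≃ ℕ) (fl : ℕ → Bool) (A A' : Finset ℕ) (h : ℕ) : ℝ :=
  if xor (decide (h ∈ A)) (fl h) = decide (τ h ∈ A') then 0 else wt (M.lev h)

noncomputable def rh (M : WS) (τ : ℕ ≃ ℕ) (fl : ℕ → Bool) (A A' : Finset ℕ) : ℝ :=
  ∑' h, tm M τ fl A A' h

theorem tm_nonneg (M : WS) (τ : ℕ ≃ ℕ) (fl : ℕ → Bool) (A A' : Finset ℕ) (h : ℕ) :
    0 ≤ tm M τ fl A A' h := by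
  unfold tm; split_ifs
  · exact le_rfl
  · exact (wt_pos _).le

theorem summable_ite_mem (f : ℕ → ℝ) (A : Finset ℕ) :
    Summable (fun h => if h ∈ A then f h else 0) :=
  summable_of_ne_finset_zero (s := A) fun h hh => by simp [hh]

theorem tm_summable {M M' : WS} {τ : ℕ ≃ ℕ} {fl : ℕ → Bool} (H : IsoD M M' τ fl)
    (A A' : Finset ℕ) : Summable (tm M τ fl A A') := by
  have h1 := summable_ite_mem (fun h => wt (M.lev h)) A
  have h2 := summable_ite_mem (fun h => wt (M.lev h)) (A'.map τ.symm.toEmbedding)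
  refine Summable.of_nonneg_of_le (tm_nonneg M τ fl A A') (fun h => ?_) ((H.sum.add h1).add h2)
  have hw := wt_pos (M.lev h)
  have e : h ∈ A'.map τ.symm.toEmbedding ↔ τ h ∈ A' := by
    simp [Finset.mem_map_equiv]
  simp only [e]
  unfold tm
  by_cases a : h ∈ A <;> by_cases b : τ h ∈ A' <;> cases fl h <;> simp [a, b] <;> linarith

theorem rh_symm {M M' : WS} {τ : ℕ ≃ ℕ} {fl : ℕ → Bool} (H : IsoD M M' τ fl)
    (A A' : Finset ℕ) : rh M' τ.symm (fun h => fl (τ.symm h)) A' A = rh M τ fl A A' := by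
  unfold rh
  rw [← τ.tsum_eq]
  refine tsum_congr fun h => ?_
  unfold tm
  simp only [Equiv.symm_apply_apply, H.lev]
  by_cases a : h ∈ A <;> by_cases b : τ h ∈ A' <;> cases fl h <;> simp [a, b]

theorem ell_le {M M' : WS} {τ : ℕ ≃ ℕ} {fl : ℕ → Bool} (H : IsoD M M' τ fl)
    (A B A' : Finset ℕ) : M.ell A B ≤ rh M τ fl A A' + rh M τ fl B A' := by
  unfold rh
  rw [← (tm_summable H A A').tsum_add (tm_summable H B A')]
  refine le_trans ?_ (((tm_summable H A A').add (tm_summable H B A')).sum_le_tsum (A ∆ B)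
    fun h _ => add_nonneg (tm_nonneg _ _ _ _ _ _) (tm_nonneg _ _ _ _ _ _))
  unfold WS.ell
  refine Finset.sum_le_sum fun h hh => ?_
  rw [Finset.mem_symmDiff] at hh
  unfold tm
  rcases hh with ⟨a, b⟩ | ⟨a, b⟩ <;> by_cases c : τ h ∈ A' <;> cases fl h <;> simp [a, b, c]

theorem rh_insert {M M' : WS} {τ : ℕ ≃ ℕ} {fl : ℕ → Bool} (H : IsoD M M' τ fl)
    (A A' : Finset ℕ) (m : ℕ) :
    rh M τ fl (insert m A) A' ≤ rh M τ fl A A' + wt (M.lev m) := by
  unfold rh
  have h2 : Summable (fun h : ℕ => if h = m then wt (M.lev m) else 0) :=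
    summable_of_ne_finset_zero (s := {m}) fun h hh => by simpa using fun e => (hh (by simp [e])).elim
  have e : ∑' h : ℕ, (if h = m then wt (M.lev m) else 0) = wt (M.lev m) := tsum_ite_eq m _
  rw [← e, ← (tm_summable H A A').tsum_add h2]
  refine (tm_summable H _ A').tsum_le_tsum (fun h => ?_) ((tm_summable H A A').add h2)
  by_cases hm : h = m
  · subst hm
    have := tm_nonneg M τ fl A A' h
    have h3 : tm M τ fl (insert h A) A' h ≤ wt (M.lev h) := by
      unfold tm; split_ifs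
      · exact (wt_pos _).le
      · exact le_rfl
    simp only [if_true]
    linarith
  · simp [tm, hm]

/-- Truncated image of a vertex. -/
def trunc (τ : ℕ ≃ ℕ) (fl : ℕ → Bool) (A : Finset ℕ) (L : ℕ) : Finset ℕ :=
  (Finset.range L).filter fun h => xor (decide (τ.symm h ∈ A)) (fl (τ.symm h)) = true

theorem sd_trunc (τ : ℕ ≃ ℕ) (fl : ℕ → Bool) (A : Finset ℕ) {L h : ℕ} (hL : τ h < L) :
    sd (trunc τ fl A L) (τ h) = hsMap τ fl (sd A h) := by
  by_cases a : h ∈ A <;> cases hf : fl h <;> simp [sd, trunc, hsMap, hL, a, hf]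

theorem trunc_vert {M M' : WS} {τ : ℕ ≃ ℕ} {fl : ℕ → Bool} (H : IsoD M M' τ fl)
    (hlt : ∀ m k, M'.pp m k → k.1 < m) {A : Finset ℕ} (hA : M.Vert A) (L : ℕ) :
    M'.Vert (trunc τ fl A L) := by
  have key : ∀ a b, a < L → b < L →
      ¬ M'.perp (sd (trunc τ fl A L) a) (sd (trunc τ fl A L) b) := by
    intro a b ha hb
    obtain ⟨a, rfl⟩ := τ.surjective a
    obtain ⟨b, rfl⟩ := τ.surjective b
    rw [sd_trunc τ fl A ha, sd_trunc τ fl A hb, H.perp]
    exact hA a b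
  rw [vert_iff]
  intro m hm
  have hmL : m < L := Finset.mem_range.1 (Finset.mem_filter.1 hm).1
  refine ⟨fun hd => key m m hmL hmL (Or.inr (Or.inr ⟨rfl, by simp [sd, hm], hd⟩)), fun h hp => ?_⟩
  have : h < m := hlt m _ hp
  exact key m h hmL (this.trans hmL) (Or.inl ⟨by simp [sd, hm], hp⟩)

theorem rh_trunc {M M' : WS} {τ : ℕ ≃ ℕ} {fl : ℕ → Bool} (H : IsoD M M' τ fl) (A : Finset ℕ) :
    Tendsto (fun L => rh M τ fl A (trunc τ fl A L)) atTop (𝓝 0) := by
  have h1 := summable_ite_mem (fun h => wt (M.lev h)) A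
  have := tendsto_tsum_of_dominated_convergence (𝓕 := atTop)
    (f := fun L h => tm M τ fl A (trunc τ fl A L) h) (g := fun _ => (0 : ℝ)) (H.sum.add h1)
    (fun h => ?_) (Eventually.of_forall fun L h => ?_)
  · simpa [rh] using this
  · refine tendsto_const_nhds.congr' ?_
    filter_upwards [eventually_gt_atTop (τ h)] with L hL
    by_cases a : h ∈ A <;> cases hf : fl h <;> simp [tm, trunc, hL, a, hf]
  · rw [Real.norm_of_nonneg (tm_nonneg _ _ _ _ _ _)]
    have hw := wt_pos (M.lev h)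
    unfold tm
    by_cases hL : τ h < L <;> by_cases a : h ∈ A <;> cases hf : fl h <;>
      simp [trunc, a, hL, hf] <;> linarith

theorem exists_trunc {M M' : WS} {τ : ℕ ≃ ℕ} {fl : ℕ → Bool} (H : IsoD M M' τ fl)
    (hlt : ∀ m k, M'.pp m k → k.1 < m) {A : Finset ℕ} (hA : M.Vert A) {ε : ℝ} (hε : 0 < ε)
    (m : ℕ) : ∃ A', M'.Vert A' ∧ rh M τ fl A A' < ε ∧ sd A' (τ m) = hsMap τ fl (sd A m) := by
  obtain ⟨L, h1, h2⟩ :=
    (((rh_trunc H A).eventually (gt_mem_nhds hε)).and (eventually_gt_atTop (τ m))).exists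
  exact ⟨_, trunc_vert H hlt hA L, h1, sd_trunc τ fl A h2⟩

section
variable {G X : Type} [Group G] [TopologicalSpace G] [MulAction G X] {N : G → ℝ}
  {V : ℕ → Set X} {x : X} {M : WS} {π : Finset ℕ → G} {D : Set G}

theorem lip_le (hN : IsNorm N) (hM : IsModel N V x M π D) {A B : Finset ℕ} (hA : M.Vert A)
    (hB : M.Vert B) : N ((π A)⁻¹ * π B) ≤ M.ell A B := by
  by_cases e : A = B
  · subst e
    simp [WS.ell, hN.one]
  · exact (hM.lip A B hA hB e).le

theorem pendant [IsTopologicalGroup G] [TopologicalSpace X] [ContinuousSMul G X]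
    (hN : IsNorm N) (hV : ∀ j, IsOpen (V j)) (hM : IsModel N V x M π D) {A : Finset ℕ}
    (hA : M.Vert A) (l j : ℕ) (hj : (π A)⁻¹ • x ∈ V j) :
    ∃ m, M.Vert (insert m A) ∧ M.lev m = l ∧ M.lab m = j := by
  classical
  obtain ⟨L, hL⟩ := A.exists_nat_subset_range
  set S := Finset.range L with hS
  set R : Finset HS := S.image fun h => (h, !decide (h ∈ A)) with hR
  have hc : Continuous fun g : G => g⁻¹ • x := continuous_inv.smul continuous_const
  have hU1 : {g : G | g⁻¹ • x ∈ V j} ∈ 𝓝 (π A) := ((hV j).preimage hc).mem_nhds hj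
  have hU2 : {g : G | ∀ h ∈ A, g⁻¹ • x ∈ V (M.lab h)} ∈ 𝓝 (π A) := by
    have : ∀ᶠ g in 𝓝 (π A), ∀ h ∈ A, g⁻¹ • x ∈ V (M.lab h) :=
      (eventually_all_finset A).2 fun h hh => ((hV _).preimage hc).mem_nhds (hM.labl A hA h hh)
    exact this
  have hU3 : {g : G | N (g⁻¹ * π A) < wt l} ∈ 𝓝 (π A) := by
    have hc2 : Continuous fun g : G => g⁻¹ * π A := continuous_inv.mul continuous_const
    have := hc2.continuousAt (x := π A)
    rw [ContinuousAt, inv_mul_cancel] at this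
    exact this (hN.nhds _ (wt_pos l))
  obtain ⟨d, hdD, ⟨hd1, hd2⟩, hd3⟩ :=
    hM.dense.inter_nhds_nonempty (inter_mem (inter_mem hU1 hU2) hU3)
  have hcomp : ∀ A', M.Comp S R A' → A' = A := by
    intro A' ⟨_, h2, h3⟩
    ext h
    by_cases hh : h ∈ S
    · have := h3 h
      by_contra hne
      apply this
      rw [hR, Finset.mem_image]
      refine ⟨h, hh, ?_⟩
      by_cases a : h ∈ A <;> by_cases b : h ∈ A' <;> simp_all [sd]
    · exact ⟨fun a => (hh (h2 a)).elim, fun a => (hh (hL a)).elim⟩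
  obtain ⟨m, hm1, hm2, hm3, hm4, hm5, -⟩ := hM.ext S l j R false (fun _ => d)
    (fun m hm h hp => Finset.mem_range.2 ((hM.lt m _ hp).trans (Finset.mem_range.1 hm)))
    (fun k hk => by
      obtain ⟨h, hh, rfl⟩ := Finset.mem_image.1 hk
      exact hh)
    (fun _ => hdD)
    (fun _ => ⟨fun A' hA' => by rw [hcomp A' hA']; exact ⟨hd1, hd2⟩,
      fun A1 A2 h1 h2 hne => (hne ((hcomp A1 h1).trans (hcomp A2 h2).symm)).elim,
      fun A' B hA' hB _ => by
        rw [hcomp A' hA']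
        have h1 := hN.mul (d⁻¹ * π A) ((π A)⁻¹ * π B)
        have h2 := lip_le hN hM hA hB
        have h3 : N (d⁻¹ * π A) < wt l := hd3
        have e : d⁻¹ * π A * ((π A)⁻¹ * π B) = d⁻¹ * π B := by group
        rw [e] at h1
        show N (d⁻¹ * π B) < _
        linarith⟩)
  refine ⟨m, ?_, hm2, hm3⟩
  rw [vert_iff] at hA ⊢
  have hsd : ∀ h, h < m → sd (insert m A) h = sd A h := fun h hh => by simp [sd, hh.ne]
  intro a ha
  rcases Finset.mem_insert.1 ha with rfl | ha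
  · refine ⟨fun hd => by simpa using hm4.1 hd, fun h hp => ?_⟩
    have hlt : h < a := hM.lt a _ hp
    rw [hsd h hlt] at hp
    rcases (hm5 _).1 hp with h1 | ⟨_, h2, h3⟩
    · obtain ⟨b, _, e⟩ := Finset.mem_image.1 h1
      simp only [sd, Prod.mk.injEq] at e
      obtain ⟨rfl, e⟩ := e
      simp at e
    · exact h2 (hL (by simpa [sd] using h3))
  · refine ⟨(hA a ha).1, fun h hp => ?_⟩
    have hlt : h < a := hM.lt a _ hp
    rw [hsd h (hlt.trans (hm1 a (hL ha)))] at hp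
    exact (hA a ha).2 h hp

end

theorem exists_seq_of {α : Type} (P : ℕ → α → Prop) (Q : ℕ → α → α → Prop) (a0 : α)
    (h0 : P 0 a0) (hs : ∀ n a, P n a → ∃ b, P (n + 1) b ∧ Q n a b) :
    ∃ f : ℕ → α, ∀ n, Q n (f n) (f (n + 1)) := by
  choose g hg using hs
  let F : (n : ℕ) → {a // P n a} := fun n =>
    Nat.rec (motive := fun n => {a // P n a}) ⟨a0, h0⟩ (fun n a => ⟨g n a.1 a.2, (hg n a.1 a.2).1⟩) n
  exact ⟨fun n => (F n).1, fun n => (hg n (F n).1 (F n).2).2⟩

end ConvAux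

open ConvAux in
theorem conv_ok : S_conv := by
  intro G X _ _ _ _ _ _ _ N V x y M M' π π' D D' hN hV hV0 hsm hM hM' ⟨τ, fl, i1, i2, i3, i4⟩
  have H : IsoD M M' τ fl := ⟨i1, i2, i3, i4⟩
  have hδ : ∀ (g : G) (n : ℕ), ∃ δ > 0, ∀ g', N (g⁻¹ * g') < δ → dist g g' ≤ 1 * (1 / 2) ^ n := by
    intro g n
    have hc : Continuous fun u : G => g * u := continuous_const.mul continuous_id
    have h1 : (fun u : G => g * u) ⁻¹' Metric.closedBall g ((1 / 2) ^ n) ∈ 𝓝 (1 : G) :=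
      hc.continuousAt.preimage_mem_nhds
        (by simpa using Metric.closedBall_mem_nhds g (by positivity : (0 : ℝ) < (1 / 2) ^ n))
    obtain ⟨ε, hε, h2⟩ := hN.basis _ h1
    refine ⟨ε, hε, fun g' hg' => ?_⟩
    have := h2 hg'
    simp only [mem_preimage, mul_inv_cancel_left, Metric.mem_closedBall] at this
    rw [dist_comm, one_mul]
    exact this
  choose δ hδ0 hδ using hδ
  obtain ⟨A0, hA0, hA0', -⟩ := exists_trunc H hM'.lt (vert_empty M) (half_pos (hδ0 (π ∅) 0)) 0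
  obtain ⟨f, hf⟩ := exists_seq_of
    (fun n (p : Finset ℕ × Finset ℕ) => M.Vert p.1 ∧ M'.Vert p.2 ∧
      rh M τ fl p.1 p.2 < δ (π p.1) n / 2)
    (fun n p q => dist (π p.1) (π q.1) ≤ 1 * (1 / 2) ^ n ∧
      dist (π' p.2) (π' q.2) ≤ 1 * (1 / 2) ^ n ∧
      dist ((π q.1)⁻¹ • x) ((π' q.2)⁻¹ • y) ≤ (1 / 2) ^ n)
    (∅, A0) ⟨vert_empty M, hA0, hA0'⟩ (by
      rintro n ⟨A, A'⟩ ⟨hA, hA', hρ⟩
      dsimp only at hA hA' hρ
      have d1 := hδ0 (π A) n
      have d2 := hδ0 (π' A') n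
      have hμ : 0 < min (δ (π A) n) (δ (π' A') n) / 4 := by positivity
      have m1 := min_le_left (δ (π A) n) (δ (π' A') n)
      have m2 := min_le_right (δ (π A) n) (δ (π' A') n)
      obtain ⟨C, hC, hC', -⟩ := exists_trunc H.symm hM.lt hA' hμ 0
      rw [rh_symm H] at hC'
      obtain ⟨l, hl⟩ := exists_wt_lt hμ
      obtain ⟨j, hj, hj'⟩ := hsm ((π C)⁻¹ • x) ((1 / 2) ^ n) (by positivity)
      obtain ⟨m, hB, hml, hmj⟩ := pendant hN hV hM hC l j hj
      have hins := rh_insert H C A' m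
      rw [hml] at hins
      have d3 := hδ0 (π (insert m C)) (n + 1)
      have hν : 0 < min (δ (π' A') n) (δ (π (insert m C)) (n + 1)) / 2 := by positivity
      have m3 := min_le_left (δ (π' A') n) (δ (π (insert m C)) (n + 1))
      have m4 := min_le_right (δ (π' A') n) (δ (π (insert m C)) (n + 1))
      obtain ⟨B', hB', hρ', hsd⟩ := exists_trunc H hM'.lt hB hν m
      refine ⟨(insert m C, B'), ⟨hB, hB', by dsimp only; linarith⟩, ?_, ?_, ?_⟩
      · refine hδ _ _ _ ?_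
        have h1 := lip_le hN hM hA hB
        have h2 := ell_le H A (insert m C) A'
        dsimp only
        linarith
      · refine hδ _ _ _ ?_
        have h1 := lip_le hN hM' hA' hB'
        have h2 := ell_le H.symm A' B' (insert m C)
        rw [rh_symm H, rh_symm H] at h2
        dsimp only
        linarith
      · refine (hj' _ ?_ _ ?_).le
        · rw [← hmj]
          exact hM.labl _ hB m (Finset.mem_insert_self _ _)
        · have h1 := H.lab (sd (insert m C) m)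
          rw [← hsd] at h1
          have h2 : M.Lab (sd (insert m C) m) = j := by simp [WS.Lab, sd, hmj]
          rw [h2] at h1
          by_cases hb : τ m ∈ B'
          · have h3 : M'.lab (τ m) = j := by simpa [WS.Lab, sd, hb] using h1
            rw [← h3]
            exact hM'.labl _ hB' _ hb
          · have h3 : 0 = j := by simpa [WS.Lab, sd, hb] using h1
            rw [← h3, hV0]
            exact mem_univ _)
  obtain ⟨g, hg⟩ := cauchySeq_tendsto_of_complete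
    (cauchySeq_of_le_geometric (f := fun n => π (f n).1) (1 / 2) 1 (by norm_num) fun n => (hf n).1)
  obtain ⟨g', hg'⟩ := cauchySeq_tendsto_of_complete
    (cauchySeq_of_le_geometric (f := fun n => π' (f n).2) (1 / 2) 1 (by norm_num)
      fun n => (hf n).2.1)
  have t1 : Tendsto (fun n => (π (f (n + 1)).1)⁻¹ • x) atTop (𝓝 (g⁻¹ • x)) :=
    ((hg.comp (tendsto_add_atTop_nat 1)).inv).smul tendsto_const_nhds
  have t2 : Tendsto (fun n => (π' (f (n + 1)).2)⁻¹ • y) atTop (𝓝 (g'⁻¹ • y)) :=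
    ((hg'.comp (tendsto_add_atTop_nat 1)).inv).smul tendsto_const_nhds
  have t3 : Tendsto (fun n : ℕ => (1 / 2 : ℝ) ^ n) atTop (𝓝 0) :=
    tendsto_pow_atTop_nhds_zero_of_lt_one (by norm_num) (by norm_num)
  have t4 : dist (g⁻¹ • x) (g'⁻¹ • y) ≤ 0 :=
    le_of_tendsto_of_tendsto' (t1.dist t2) t3 fun n => (hf n).2.2
  have e : g⁻¹ • x = g'⁻¹ • y := dist_le_zero.1 t4
  exact ⟨g' * g⁻¹, by rw [mul_smul, e, smul_inv_smul]⟩

end Pool.Agent.P.MP_c1aa6a_an
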