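import Pool.Agent.P.MP_c1aa6a_an.Defs

/-! The measure algebra isomorphism induced by a conjugacy that preserves the first chaos. -/

set_option autoImplicit false
open MeasureTheory Set Filter Topology
open scoped ENNReal NNReal symmDiff

namespace Pool.Agent.P.MP_c1aa6a_an
namespace CorrAux

section general
variable {Y : Type} [MeasurableSpace Y] {μ : Measure Y}

/-- Almost everywhere values in `{0, 1, -1}`. -/
def Tri (μ : Measure Y) (F : L2 μ) : Prop := ∀ᵐ q ∂μ, F q = 0 ∨ F q = 1 ∨ F q = -1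

/-- `|F|` is the indicator of `A`. -/
def Sup (μ : Measure Y) (F : L2 μ) (A : Set Y) : Prop :=
  ∀ᵐ q ∂μ, (q ∈ A ∧ (F q = 1 ∨ F q = -1)) ∨ (q ∉ A ∧ F q = 0)

lemma sq_int (F : L2 μ) : Integrable (fun q => F q ^ 2) μ := (Lp.memLp F).integrable_sq

lemma norm_sq_eq (F : L2 μ) : ‖F‖ ^ 2 = ∫ q, F q ^ 2 ∂μ := by
  rw [← real_inner_self_eq_norm_sq, L2.inner_def]
  refine integral_congr_ae (Eventually.of_forall fun q => ?_)
  simp

lemma int_of_cos {x : ℝ} (h : Real.cos (2 * Real.pi * x) = 1) : ∃ n : ℤ, x = n := by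
  obtain ⟨n, hn⟩ := (Real.cos_eq_one_iff _).1 h
  refine ⟨n, ?_⟩
  have hp : (2 * Real.pi) ≠ 0 := by positivity
  have : (2 * Real.pi) * x = (2 * Real.pi) * n := by rw [← hn]; ring
  exact mul_left_cancel₀ hp this

lemma int_nonneg (n : ℤ) : 0 ≤ 2 * (n : ℝ) ^ 2 + (Real.cos (Real.pi * n) - 1) := by
  by_cases h : n = 0
  · subst h; simp
  · have h1 : (1 : ℤ) ≤ n ^ 2 := by
      have := Int.one_le_abs h
      nlinarith [sq_abs n]
    have h2 : (1 : ℝ) ≤ (n : ℝ) ^ 2 := by exact_mod_cast h1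
    have := Real.neg_one_le_cos (Real.pi * n)
    linarith

lemma int_eq (n : ℤ) (h : 2 * (n : ℝ) ^ 2 + (Real.cos (Real.pi * n) - 1) = 0) :
    (n : ℝ) = 0 ∨ (n : ℝ) = 1 ∨ (n : ℝ) = -1 := by
  have h0 := Real.neg_one_le_cos (Real.pi * n)
  have h2 : (n : ℝ) ^ 2 ≤ 1 := by linarith
  have h3 : n ^ 2 ≤ 1 := by exact_mod_cast h2
  have h4 : n ≤ 1 := by nlinarith
  have h5 : -1 ≤ n := by nlinarith
  interval_cases n <;> simp

lemma tri_of (F F' : L2 μ) (hF : Tri μ F)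
    (hint : ∀ u : ℝ, Integrable (fun q => Real.cos (u * F' q) - 1) μ)
    (hc : ∀ u : ℝ, ∫ q, (Real.cos (u * F q) - 1) ∂μ = ∫ q, (Real.cos (u * F' q) - 1) ∂μ)
    (hint0 : ∀ u : ℝ, Integrable (fun q => Real.cos (u * F q) - 1) μ)
    (hn : ‖F‖ = ‖F'‖) : Tri μ F' := by
  have h1 : ∫ q, (Real.cos (2 * Real.pi * F q) - 1) ∂μ = 0 := by
    refine integral_eq_zero_of_ae ?_
    filter_upwards [hF] with q hq
    rcases hq with hq | hq | hq <;> simp [hq]
  have h2 : ∀ᵐ q ∂μ, ∃ n : ℤ, F' q = n := by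
    have h3 : ∫ q, -(Real.cos (2 * Real.pi * F' q) - 1) ∂μ = 0 := by
      rw [integral_neg, ← hc, h1, neg_zero]
    have h4 := (integral_eq_zero_iff_of_nonneg (fun q => by
      have := Real.cos_le_one (2 * Real.pi * F' q)
      simp only [Pi.zero_apply, Pi.neg_apply]
      linarith) (hint _).neg).1 h3
    filter_upwards [h4] with q hq
    refine int_of_cos ?_
    simp only [Pi.zero_apply, Pi.neg_apply] at hq
    linarith
  have h5 : ∫ q, (2 * F q ^ 2 + (Real.cos (Real.pi * F q) - 1)) ∂μ = 0 := by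
    refine integral_eq_zero_of_ae ?_
    filter_upwards [hF] with q hq
    rcases hq with hq | hq | hq <;> simp [hq] <;> norm_num
  have h6 : ∫ q, (2 * F' q ^ 2 + (Real.cos (Real.pi * F' q) - 1)) ∂μ = 0 := by
    rw [integral_add ((sq_int F').const_mul 2) (hint _), integral_const_mul, ← norm_sq_eq, ← hn,
      ← hc, norm_sq_eq, ← integral_const_mul, ← integral_add ((sq_int F).const_mul 2) (hint0 _), h5]
  have h7 := (integral_eq_zero_iff_of_nonneg_ae (by
    filter_upwards [h2] with q hq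
    obtain ⟨n, hn⟩ := hq
    simp only [Pi.zero_apply, Pi.add_apply, hn]
    exact int_nonneg n) (((sq_int F').const_mul 2).add (hint _))).1 h6
  filter_upwards [h2, h7] with q hq hq'
  obtain ⟨n, hn⟩ := hq
  simp only [Pi.zero_apply, Pi.add_apply, hn] at hq' ⊢
  exact int_eq n hq'

lemma Sup.tri {F : L2 μ} {A : Set Y} (h : Sup μ F A) : Tri μ F := by
  filter_upwards [h] with q hq
  tauto

lemma exists_sup (F : L2 μ) (h : Tri μ F) : ∃ B, MeasurableSet B ∧ μ B ≠ ∞ ∧ Sup μ F B := by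
  have hm : StronglyMeasurable F := Lp.stronglyMeasurable F
  have hB : MeasurableSet {q | F q ≠ 0} := (hm.measurable (measurableSet_singleton 0)).compl
  have hs : Sup μ F {q | F q ≠ 0} := by
    filter_upwards [h] with q hq
    rcases hq with hq | hq | hq <;> simp [hq]
  refine ⟨_, hB, ?_, hs⟩
  have hi : Integrable (({q | F q ≠ 0} : Set Y).indicator fun _ => (1 : ℝ)) μ := by
    refine (sq_int F).congr ?_
    filter_upwards [hs] with q hq
    rcases hq with ⟨h1, h2 | h2⟩ | ⟨h1, h2⟩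
    · rw [indicator_of_mem h1, h2]; norm_num
    · rw [indicator_of_mem h1, h2]; norm_num
    · rw [indicator_of_notMem h1, h2]; norm_num
  rw [integrable_indicator_iff hB, integrableOn_const_iff] at hi
  rcases hi with hi | hi
  · simp at hi
  · exact hi.ne

lemma sup_ind {A : Set Y} (hA : MeasurableSet A) (hf : μ A ≠ ∞) :
    Sup μ (indicatorConstLp 2 hA hf (1 : ℝ)) A := by
  filter_upwards [indicatorConstLp_coeFn (p := 2) (hs := hA) (hμs := hf) (c := (1 : ℝ))] with q hq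
  by_cases h : q ∈ A
  · left; rw [hq, indicator_of_mem h]; exact ⟨h, Or.inl rfl⟩
  · right; rw [hq, indicator_of_notMem h]; exact ⟨h, rfl⟩

lemma integral_one {F : L2 μ} {A : Set Y} (hA : MeasurableSet A) (h : Sup μ F A) :
    ∫ q, (Real.cos (Real.pi * F q) - 1) ∂μ = -2 * μ.real A := by
  have : (fun q => Real.cos (Real.pi * F q) - 1) =ᵐ[μ] A.indicator fun _ => (-2 : ℝ) := by
    filter_upwards [h] with q hq
    rcases hq with ⟨h1, h2 | h2⟩ | ⟨h1, h2⟩
    · rw [indicator_of_mem h1, h2]; simp; norm_num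
    · rw [indicator_of_mem h1, h2]; simp; norm_num
    · rw [indicator_of_notMem h1, h2]; simp
  rw [integral_congr_ae this, integral_indicator_const _ hA, smul_eq_mul, mul_comm]

lemma integral_two {F G : L2 μ} {A A' : Set Y} (hA : MeasurableSet A) (hA' : MeasurableSet A')
    (h : Sup μ F A) (h' : Sup μ G A') :
    ∫ q, (Real.cos (Real.pi * (F + G) q) - 1) ∂μ = -2 * μ.real (A ∆ A') := by
  have : (fun q => Real.cos (Real.pi * (F + G) q) - 1) =ᵐ[μ]
      (A ∆ A').indicator fun _ => (-2 : ℝ) := by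
    filter_upwards [h, h', Lp.coeFn_add F G] with q hq hq' ha
    rw [ha, Pi.add_apply]
    have c2 : Real.cos (Real.pi * (1 + 1)) = 1 := by
      rw [show Real.pi * (1 + 1) = 2 * Real.pi by ring, Real.cos_two_pi]
    have c3 : Real.cos (Real.pi * (-1 + -1)) = 1 := by
      rw [show Real.pi * (-1 + -1) = -(2 * Real.pi) by ring, Real.cos_neg, Real.cos_two_pi]
    rcases hq with ⟨h1, h2 | h2⟩ | ⟨h1, h2⟩ <;> rcases hq' with ⟨h3, h4 | h4⟩ | ⟨h3, h4⟩ <;>
      rw [h2, h4] <;> simp [indicator, mem_symmDiff, h1, h3, c2, c3] <;> norm_num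
  rw [integral_congr_ae this, integral_indicator_const _ (hA.symmDiff hA'), smul_eq_mul, mul_comm]

lemma real_symmDiff {A A' : Set Y} (hA : MeasurableSet A) (hA' : MeasurableSet A')
    (hf : μ A ≠ ∞) (hf' : μ A' ≠ ∞) :
    μ.real (A ∆ A') = μ.real A + μ.real A' - 2 * μ.real (A ∩ A') := by
  have h1 := measureReal_inter_add_sdiff (μ := μ) (s := A) hA' hf
  have h2 := measureReal_inter_add_sdiff (μ := μ) (s := A') hA hf'
  rw [inter_comm A' A] at h2
  have h3 : μ.real (A ∆ A') = μ.real (A \ A') + μ.real (A' \ A) := by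
    rw [symmDiff_def]
    exact measureReal_union disjoint_sdiff_sdiff (hA'.diff hA)
      (measure_ne_top_of_subset sdiff_subset hf) (measure_ne_top_of_subset sdiff_subset hf')
  linarith

lemma Sup.comp {F F₁ : L2 μ} {A : Set Y} {s : Y → Y} (hs : MeasurePreserving s μ μ)
    (h : Sup μ F A) (h₁ : F₁ =ᵐ[μ] fun q => F (s q)) : Sup μ F₁ (s ⁻¹' A) := by
  filter_upwards [hs.quasiMeasurePreserving.ae h, h₁] with q hq hq₁
  rw [hq₁]
  exact hq

lemma Sup.ind {F F₁ : L2 μ} {A C : Set Y} (h : Sup μ F A) (h₁ : F₁ =ᵐ[μ] C.indicator F) :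
    Sup μ F₁ (A ∩ C) := by
  filter_upwards [h, h₁] with q hq hq₁
  rw [hq₁]
  by_cases hc : q ∈ C
  · rw [indicator_of_mem hc]
    simp only [mem_inter_iff, hc, and_true]
    exact hq
  · rw [indicator_of_notMem hc]
    right
    exact ⟨fun h => hc h.2, rfl⟩

end general

section tr
variable {ξ : Measure Xi} {P : Measure Cf} {I : L2 (mQ ξ) →ₗᵢ[ℝ] L2 P} {h h' : Cf → Cf}

lemma tr_add (hh : MeasurePreserving h P P) {F F' G G' : L2 (mQ ξ)} (h1 : Tr I h F F')
    (h2 : Tr I h G G') : Tr I h (F + G) (F' + G') := by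
  unfold Tr at *
  rw [map_add, map_add]
  filter_upwards [h1, h2, hh.quasiMeasurePreserving.ae (Lp.coeFn_add (I F) (I G)),
    Lp.coeFn_add (I F') (I G')] with ν a1 a2 a3 a4
  rw [a3, a4, Pi.add_apply, Pi.add_apply, a1, a2]

lemma tr_symm (hc : Conj P P h h') {F F' : L2 (mQ ξ)} (h1 : Tr I h' F F') : Tr I h F' F := by
  unfold Tr at *
  filter_upwards [hc.1.quasiMeasurePreserving.ae h1, hc.2.2.1] with ν a1 a2
  rw [← a1, a2, id]

lemma integral_tr {E : Type} [NormedAddCommGroup E] [NormedSpace ℝ E]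
    (hh : MeasurePreserving h P P) {F F' : L2 (mQ ξ)} (h1 : Tr I h F F') {φ : ℝ → E}
    (hφ : Continuous φ) : ∫ ν, φ (I F ν) ∂P = ∫ ν, φ (I F' ν) ∂P := by
  have hm : AEStronglyMeasurable (fun ν => φ (I F ν)) (P.map h) := by
    rw [hh.map_eq]
    exact hφ.comp_aestronglyMeasurable (Lp.aestronglyMeasurable _)
  have h2 := integral_map hh.measurable.aemeasurable hm
  rw [hh.map_eq] at h2
  rw [h2]
  refine integral_congr_ae ?_
  filter_upwards [h1] with ν a1
  rw [a1]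

lemma tr_norm (hh : MeasurePreserving h P P) {F F' : L2 (mQ ξ)} (h1 : Tr I h F F') :
    ‖F‖ = ‖F'‖ := by
  have h2 := integral_tr hh h1 (φ := fun x => x ^ 2) (by fun_prop)
  rw [← norm_sq_eq, ← norm_sq_eq, I.norm_map, I.norm_map] at h2
  exact (sq_eq_sq₀ (norm_nonneg _) (norm_nonneg _)).1 h2

lemma tr_cos [IsProbabilityMeasure ξ] [IsProbabilityMeasure P] (hc : S_char) (hL : Lap ξ P)
    (hI : IsChaos ξ P I) (hh : MeasurePreserving h P P) {F F' : L2 (mQ ξ)} (h1 : Tr I h F F')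
    (u : ℝ) :
    ∫ q, (Real.cos (u * F q) - 1) ∂(mQ ξ) = ∫ q, (Real.cos (u * F' q) - 1) ∂(mQ ξ) := by
  have h2 := integral_tr hh h1 (φ := fun x => Complex.exp ((u * x : ℝ) * Complex.I)) (by fun_prop)
  have h3 := (hc ξ P I hL hI F u).2
  have h4 := (hc ξ P I hL hI F' u).2
  rw [h2, h4] at h3
  exact (Real.exp_injective h3).symm

lemma tr_tri [IsProbabilityMeasure ξ] [IsProbabilityMeasure P] (hc : S_char) (hL : Lap ξ P)
    (hI : IsChaos ξ P I) (hh : MeasurePreserving h P P) {F F' : L2 (mQ ξ)} (h1 : Tr I h F F')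
    (hF : Tri (mQ ξ) F) : Tri (mQ ξ) F' :=
  tri_of F F' hF (fun u => (hc ξ P I hL hI F' u).1) (tr_cos hc hL hI hh h1)
    (fun u => (hc ξ P I hL hI F u).1) (tr_norm hh h1)

lemma tr_comp (hh : MeasurePreserving h P P) {t t' : Q → Q} (ht : Lifts I (act t) t)
    (ht' : Lifts I (act t') t') (hcomm : (fun ν => h (act t' ν)) =ᵐ[P] fun ν => act t (h ν))
    {F F' G G' : L2 (mQ ξ)} (h1 : Tr I h F F') (hG : G =ᵐ[mQ ξ] fun q => F (t q))
    (hG' : G' =ᵐ[mQ ξ] fun q => F' (t' q)) : Tr I h G G' := by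
  have a1 := ht.2.2 F G hG
  have a2 := ht'.2.2 F' G' hG'
  unfold Tr at *
  filter_upwards [hh.quasiMeasurePreserving.ae a1, a2, hcomm,
    ht'.2.1.quasiMeasurePreserving.ae h1] with ν b1 b2 b3 b4
  rw [← b1, ← b3, b4, b2]

lemma comm_symm (hc : Conj P P h h') {U : Cf → Cf} (hU : MeasurePreserving U P P)
    (hcomm : (fun ν => h (U ν)) =ᵐ[P] fun ν => U (h ν)) :
    (fun ν => h' (U ν)) =ᵐ[P] fun ν => U (h' ν) := by
  filter_upwards [hc.2.1.quasiMeasurePreserving.ae hcomm, hc.2.2.2,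
    (hU.comp hc.2.1).quasiMeasurePreserving.ae hc.2.2.1] with ν b1 b2 b3
  simp only [id, Function.comp] at b1 b2 b3
  rw [← b3, b1, b2]

/-- The correspondence of sets. -/
def Cor (I : L2 (mQ ξ) →ₗᵢ[ℝ] L2 P) (h : Cf → Cf) (A B : Set Q) : Prop :=
  (MeasurableSet A ∧ MeasurableSet B ∧ mQ ξ A ≠ ∞ ∧ mQ ξ B ≠ ∞) ∧
    ∃ F F', Tr I h F F' ∧ Sup (mQ ξ) F A ∧ Sup (mQ ξ) F' B

lemma real_eq [IsProbabilityMeasure ξ] [IsProbabilityMeasure P] (hc : S_char) (hL : Lap ξ P)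
    (hI : IsChaos ξ P I) (hh : MeasurePreserving h P P) {F F' : L2 (mQ ξ)} (h1 : Tr I h F F')
    {A B : Set Q} (hA : MeasurableSet A) (hB : MeasurableSet B) (sA : Sup (mQ ξ) F A)
    (sB : Sup (mQ ξ) F' B) : (mQ ξ).real A = (mQ ξ).real B := by
  have := tr_cos hc hL hI hh h1 Real.pi
  rw [integral_one hA sA, integral_one hB sB] at this
  linarith

end tr
end CorrAux

open CorrAux in
theorem corr_ok (hf : S_first) (hc : S_char) (hl : S_lift) (hm : S_maps) : S_corr := by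
  intro lev P _ I hL hI h h' hC hcomm t t' ht ht' htc
  have hU : ∀ p, MeasurePreserving (act (uC p)) P P := fun p =>
    ((hl (xi lev) P I hI).2.1 (uC p) (hm.2.1 lev p).1 (hm.2.1 lev p).2).2.1
  have hC' : Conj P P h' h := ⟨hC.2.1, hC.1, hC.2.2.2, hC.2.2.1⟩
  obtain ⟨f1, f2⟩ := (hf lev P I hI).2 h h' hC hcomm
  obtain ⟨g1, -⟩ := (hf lev P I hI).2 h' h hC' (fun p => comm_symm hC (hU p) (hcomm p))
  refine ⟨Cor I h, ⟨?_, ?_, fun A B hAB => hAB.1, ?_, ?_⟩, ?_⟩
  · intro A hA hfin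
    obtain ⟨F', hF'⟩ := f1 (indicatorConstLp 2 hA hfin (1 : ℝ))
    obtain ⟨B, b1, b2, b3⟩ := exists_sup F' (tr_tri hc hL hI hC.1 hF' (sup_ind hA hfin).tri)
    exact ⟨B, ⟨hA, b1, hfin, b2⟩, _, _, hF', sup_ind hA hfin, b3⟩
  · intro B hB hfin
    obtain ⟨F', hF'⟩ := g1 (indicatorConstLp 2 hB hfin (1 : ℝ))
    obtain ⟨A, b1, b2, b3⟩ := exists_sup F' (tr_tri hc hL hI hC.2.1 hF' (sup_ind hB hfin).tri)
    exact ⟨A, ⟨b1, hB, b2, hfin⟩, _, _, tr_symm hC hF', b3, sup_ind hB hfin⟩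
  · rintro A B A' B' ⟨⟨a1, a2, a3, a4⟩, F, F', t1, s1, s2⟩ ⟨⟨b1, b2, b3, b4⟩, G, G', t2, s3, s4⟩
    have e1 := real_eq hc hL hI hC.1 t1 a1 a2 s1 s2
    have e2 := real_eq hc hL hI hC.1 t2 b1 b2 s3 s4
    have e3 := tr_cos hc hL hI hC.1 (tr_add hC.1 t1 t2) Real.pi
    rw [integral_two a1 b1 s1 s3, integral_two a2 b2 s2 s4, real_symmDiff a1 b1 a3 b3,
      real_symmDiff a2 b2 a4 b4] at e3
    have e4 : (mQ (xi lev)).real (A ∩ A') = (mQ (xi lev)).real (B ∩ B') := by linarith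
    exact (ENNReal.toReal_eq_toReal_iff' (measure_ne_top_of_subset inter_subset_left a3)
      (measure_ne_top_of_subset inter_subset_left a4)).1 e4
  · rintro A B c ⟨⟨a1, a2, a3, a4⟩, F, F', t1, s1, s2⟩
    have hmc : MeasurableSet (cell (Sum.inl c)) :=
      measurable_fst (MeasurableSet.of_discrete (s := {i : Idx | i.c = c}))
    have k1 := (Lp.memLp F).indicator hmc
    have k2 := (Lp.memLp F').indicator hmc
    have t2 := f2 F F' (Sum.inl c) (k1.toLp _) (k2.toLp _) t1 k1.coeFn_toLp k2.coeFn_toLp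
    have e1 := real_eq hc hL hI hC.1 t2 (a1.inter hmc) (a2.inter hmc) (s1.ind k1.coeFn_toLp)
      (s2.ind k2.coeFn_toLp)
    exact (ENNReal.toReal_eq_toReal_iff' (measure_ne_top_of_subset inter_subset_left a3)
      (measure_ne_top_of_subset inter_subset_left a4)).1 e1
  · rintro i A B ⟨⟨a1, a2, a3, a4⟩, F, F', t1, s1, s2⟩
    have m1 := (ht i).1
    have m2 := (ht' i).1
    have k1 := Lp.coeFn_compMeasurePreserving F m1
    have k2 := Lp.coeFn_compMeasurePreserving F' m2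
    refine ⟨⟨m1.measurable a1, m2.measurable a2, ?_, ?_⟩, _, _,
      tr_comp hC.1 (ht i) (ht' i) (htc i) t1 k1 k2, s1.comp m1 k1, s2.comp m2 k2⟩
    · rwa [m1.measure_preimage a1.nullMeasurableSet]
    · rwa [m2.measure_preimage a2.nullMeasurableSet]

end Pool.Agent.P.MP_c1aa6a_an
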