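import Pool.Agent.P.MP_c1aa6a_an.Defs

/-! Decoding the permutation of atoms from an equivariant correspondence. -/

set_option autoImplicit false
open MeasureTheory Set Filter Topology
open scoped ENNReal NNReal symmDiff

namespace Pool.Agent.P.MP_c1aa6a_an

namespace Dec1

theorem bern_false (l : ℕ) : bern l {false} = 1 - (2 : ℝ≥0∞)⁻¹ ^ (l + 1) := by
  simp [bern]

theorem bern_true (l : ℕ) : bern l {true} = (2 : ℝ≥0∞)⁻¹ ^ (l + 1) := by
  simp [bern]

theorem xi_eval (lev : ℕ → ℕ) (c : Crd) (s : Set Bool) :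
    xi lev {x | x c ∈ s} = bern (clev lev c) s := by
  have h := (measurePreserving_eval_infinitePi (fun c => bern (clev lev c)) c).measure_preimage
    (s := s) (MeasurableSet.of_discrete).nullMeasurableSet
  exact h

theorem mQ_prod (ξ : Measure Xi) [IsProbabilityMeasure ξ] (i : Idx) (s : Set Xi) :
    mQ ξ {q | q.1 = i ∧ q.2 ∈ s} = ξ s := by
  have : {q : Q | q.1 = i ∧ q.2 ∈ s} = ({i} : Set Idx) ×ˢ s := by
    ext q; simp
  rw [this, mQ, Measure.prod_prod, Measure.count_singleton, one_mul]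

theorem meas_prod (i : Idx) (s : Set Xi) (hs : MeasurableSet s) :
    MeasurableSet {q : Q | q.1 = i ∧ q.2 ∈ s} := by
  have : {q : Q | q.1 = i ∧ q.2 ∈ s} = ({i} : Set Idx) ×ˢ s := by
    ext q; simp
  rw [this]
  exact (MeasurableSet.of_discrete).prod hs

theorem corrOK_flip {ξ : Measure Xi} {Corr : Set Q → Set Q → Prop} (h : CorrOK ξ Corr) :
    CorrOK ξ (fun B A => Corr A B) where
  exl := h.exr
  exr := h.exl
  meas := fun B A hc => by
    obtain ⟨h1, h2, h3, h4⟩ := h.meas A B hc
    exact ⟨h2, h1, h4, h3⟩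
  inter := fun B A B' A' hc hc' => (h.inter A B A' B' hc hc').symm
  col := fun B A c hc => (h.col A B c hc).symm

/-- On a piece of colour zero the translation depends on one bit only. -/
theorem rho_col0 (R : ℕ → HS → HS → Prop) (a : At → Bool) (q : Q) (hq : q.1.c = 0) :
    rho R a q = (q.1, fun c => xor (q.2 c)
      (a (q.1.k, q.1.n) && decide (c = Sum.inr (Sum.inr q.1.k)))) := by
  unfold rho
  refine Prod.ext rfl ?_
  funext c
  show xor (q.2 c) (msk R a q c) = _
  congr 1
  rcases c with c | c | k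
  · simp [msk]
  · simp [msk]
  · have hJ : Jm R q k ↔ k = q.1.k := by
      unfold Jm
      rw [hq]
    by_cases hk : k = q.1.k
    · subst hk
      simp [msk, hJ]
    · simp [msk, hJ, hk]

theorem rho_id (R : ℕ → HS → HS → Prop) (a : At → Bool) (q : Q) (hq : q.1.c = 0)
    (ha : a (q.1.k, q.1.n) = false) : rho R a q = q := by
  rw [rho_col0 R a q hq, ha]
  simp

theorem rho_fst (R : ℕ → HS → HS → Prop) (a : At → Bool) (q : Q) : (rho R a q).1 = q.1 := rfl

theorem one_side (lev : ℕ → ℕ) (R R' : ℕ → HS → HS → Prop) (η η' : Yl)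
    (Corr : Set Q → Set Q → Prop) (hη : Generic η) (hC : CorrOK (xi lev) Corr)
    (hE : CorrEq R R' η η' Corr) (a : At) : ∃ a' : At, ∀ i, η' (a', i) = η (a, i) := by
  classical
  set ia : Idx := ⟨0, a.1, a.1, a.2, ∅, ∅⟩ with hia
  set s : Set Xi := {x | x (Sum.inr (Sum.inr a.1)) ∈ ({false} : Set Bool)} with hs
  set A : Set Q := {q | q.1 = ia ∧ q.2 ∈ s} with hA
  have hsm : MeasurableSet s := (measurable_pi_apply _) (MeasurableSet.of_discrete)
  have hAm : MeasurableSet A := meas_prod ia s hsm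
  have hAv : mQ (xi lev) A = 1 - (2 : ℝ≥0∞)⁻¹ ^ (0 + 1) := by
    rw [hA, mQ_prod, hs, xi_eval]
    exact bern_false 0
  have hA0 : mQ (xi lev) A ≠ 0 := by
    rw [hAv]
    simp
  have hAf : mQ (xi lev) A ≠ ∞ := by
    rw [hAv]
    exact ENNReal.sub_ne_top ENNReal.one_ne_top
  obtain ⟨B, hB⟩ := hC.exl A hAm hAf
  obtain ⟨-, hBm, -, hBf⟩ := hC.meas A B hB
  have hAB : mQ (xi lev) A = mQ (xi lev) B := by
    have := hC.inter A B A B hB hB
    rwa [inter_self, inter_self] at this
  have hcol : mQ (xi lev) (B ∩ {q | q.1.c = 0}) ≠ 0 := by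
    rw [← hC.col A B 0 hB]
    have : A ∩ {q : Q | q.1.c = 0} = A := by
      apply inter_eq_left.2
      intro q hq
      show q.1.c = 0
      rw [hq.1]
    rwa [this]
  have hpiece : ∃ i' : Idx, i'.c = 0 ∧ mQ (xi lev) (B ∩ {q | q.1 = i'}) ≠ 0 := by
    by_contra hcon
    push Not at hcon
    apply hcol
    have : B ∩ {q : Q | q.1.c = 0} ⊆ ⋃ i' : {i : Idx // i.c = 0}, B ∩ {q | q.1 = i'.1} := by
      intro q hq
      exact mem_iUnion.2 ⟨⟨q.1, hq.2⟩, hq.1, rfl⟩
    exact measure_mono_null this (measure_iUnion_null fun i' => hcon i'.1 i'.2)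
  obtain ⟨i', hi'c, hi'⟩ := hpiece
  refine ⟨(i'.k, i'.n), ?_⟩
  have hfalse : ∀ i, η (a, i) = false → rho R (fun b => η (b, i)) ⁻¹' A = A := by
    intro i hi
    ext q
    constructor
    · intro hq
      have h1 : q.1 = ia := hq.1
      have h2 : rho R (fun b => η (b, i)) q = q := by
        apply rho_id
        · rw [h1]
        · rw [h1]; exact hi
      have h3 : rho R (fun b => η (b, i)) q ∈ A := hq
      rwa [h2] at h3
    · intro hq
      have h1 : q.1 = ia := hq.1
      have h2 : rho R (fun b => η (b, i)) q = q := by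
        apply rho_id
        · rw [h1]
        · rw [h1]; exact hi
      show rho R (fun b => η (b, i)) q ∈ A
      rwa [h2]
  have htrue : ∀ i, η (a, i) = true → rho R (fun b => η (b, i)) ⁻¹' A ∩ A = ∅ := by
    intro i hi
    apply eq_empty_of_forall_notMem
    rintro q ⟨hq, hq'⟩
    have h1 : q.1 = ia := hq'.1
    have h2 : q.2 (Sum.inr (Sum.inr a.1)) = false := hq'.2
    have h3 : (rho R (fun b => η (b, i)) q).2 (Sum.inr (Sum.inr a.1)) = false := hq.2
    rw [rho_col0 R _ q (by rw [h1]), h1] at h3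
    have hi' : η ((a.1, a.2), i) = true := hi
    simp [hia, h2, hi'] at h3
  have hnull : ∀ i, η (a, i) = true →
      mQ (xi lev) (rho R' (fun b => η' (b, i)) ⁻¹' B ∩ B) = 0 := by
    intro i hi
    rw [← hC.inter _ _ A B (hE i A B hB) hB, htrue i hi, measure_empty]
  have htt : ∀ i, η (a, i) = true → η' ((i'.k, i'.n), i) = true := by
    intro i hi
    by_contra hne
    have hne' : η' ((i'.k, i'.n), i) = false := by simpa using hne
    apply hi'
    refine measure_mono_null ?_ (hnull i hi)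
    rintro q ⟨hq, hq'⟩
    have h1 : q.1 = i' := hq'
    refine ⟨?_, hq⟩
    show rho R' (fun b => η' (b, i)) q ∈ B
    rw [rho_id R' _ q (by rw [h1, hi'c]) (by rw [h1]; exact hne')]
    exact hq
  intro i
  cases hi : η (a, i)
  · by_contra hne
    have hne' : η' ((i'.k, i'.n), i) = true := by simpa using hne
    obtain ⟨i₁, hi₁⟩ := hη {a} (fun _ => true)
    have hi₁' : η (a, i₁) = true := hi₁ a (Finset.mem_singleton_self a)
    have h1 := hnull i₁ hi₁'
    have h2 := htt i₁ hi₁'
    have hc := hE i A B hB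
    rw [hfalse i hi] at hc
    have h3 : mQ (xi lev) (B ∩ rho R' (fun b => η' (b, i)) ⁻¹' B) = mQ (xi lev) B := by
      rw [← hC.inter A B A _ hB hc, inter_self, hAB]
    have hm := (hC.meas _ _ hc).2.1
    have h4 : mQ (xi lev) (B \ rho R' (fun b => η' (b, i)) ⁻¹' B) = 0 := by
      have h5 := measure_inter_add_sdiff (μ := mQ (xi lev)) B hm
      rw [h3] at h5
      exact (ENNReal.add_right_inj hBf).1 (h5.trans (add_zero _).symm)
    apply hi'
    refine measure_mono_null ?_ (measure_union_null h4 h1)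
    rintro q ⟨hq, hq'⟩
    have h6 : q.1 = i' := hq'
    by_cases h7 : q ∈ rho R' (fun b => η' (b, i)) ⁻¹' B
    · right
      refine ⟨?_, hq⟩
      have h8 : rho R' (fun b => η' (b, i₁)) q = rho R' (fun b => η' (b, i)) q := by
        rw [rho_col0 R' _ q (by rw [h6, hi'c]), rho_col0 R' _ q (by rw [h6, hi'c])]
        simp only [h6, h2, hne']
      show rho R' (fun b => η' (b, i₁)) q ∈ B
      rw [h8]
      exact h7
    · left
      exact ⟨hq, h7⟩
  · exact htt i hi

theorem gen_inj (η : Yl) (hη : Generic η) (a b : At) (h : ∀ i, η (a, i) = η (b, i)) : a = b := by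
  classical
  by_contra hab
  obtain ⟨i, hi⟩ := hη {a, b} (fun x => decide (x = a))
  have h1 := hi a (by simp)
  have h2 := hi b (by simp)
  rw [h i, h2] at h1
  simp at h1
  exact hab h1.symm

end Dec1

theorem dec1_ok' : S_dec1 := by
  intro lev R R' η η' Corr hη hη' hC hE
  have hE' : CorrEq R' R η' η (fun B A => Corr A B) := fun i B A h => hE i A B h
  choose f hf using Dec1.one_side lev R R' η η' Corr hη hC hE
  choose g hg using Dec1.one_side lev R' R η' η _ hη' (Dec1.corrOK_flip hC) hE'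
  refine ⟨⟨f, g, fun a => ?_, fun a => ?_⟩, fun a i => hf a i⟩
  · exact Dec1.gen_inj η hη _ _ fun i => by rw [hg, hf]
  · exact Dec1.gen_inj η' hη' _ _ fun i => by rw [hf, hg]

theorem dec1_ok (_hm : S_maps) : S_dec1 := dec1_ok'

end Pool.Agent.P.MP_c1aa6a_an
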