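import Pool.Agent.P.MP_c1aa6a_an.Defs

/-! Transport of the attached sets by an equivariant measure algebra isomorphism. -/

set_option autoImplicit false
open MeasureTheory Set Filter Topology
open scoped ENNReal NNReal symmDiff

namespace Pool.Agent.P.MP_c1aa6a_an

namespace Dec2

lemma meas_Jt (R : ℕ → HS → HS → Prop) (a : At) : Measurable fun q : Q => Jt R q a := by
  have h1 : Measurable fun q : Q => (q.1, q.2 (Sum.inl a.1.1)) :=
    measurable_fst.prodMk ((measurable_pi_apply _).comp measurable_snd)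
  have h2 : Measurable fun p : Idx × Bool => Jt R (p.1, fun _ => p.2) a := Measurable.of_discrete
  exact h2.comp h1

/-- The points to which the atom `a` is attached. -/
def Ba (R : ℕ → HS → HS → Prop) (a : At) : Set Q := {q | Jt R q a = true}

lemma meas_Ba (R : ℕ → HS → HS → Prop) (a : At) : MeasurableSet (Ba R a) :=
  meas_Jt R a (measurableSet_singleton true)

lemma mem_Ba {R : ℕ → HS → HS → Prop} {a : At} {q : Q} :
    q ∈ Ba R a ↔ a.2 = q.1.n ∧ Jm R q a.1 := by
  simp [Ba, Jt]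

lemma rho_flip {R : ℕ → HS → HS → Prop} {a : At} {q : Q} (hq : q ∈ Ba R a) {α : At → Bool}
    (hα : α a = true) :
    (rho R α q).2 (Sum.inr (Sum.inr a.1)) = !q.2 (Sum.inr (Sum.inr a.1)) := by
  obtain ⟨h1, h2⟩ := mem_Ba.1 hq
  simp [rho, msk, ← h1, h2, hα]

lemma rho_fix {R : ℕ → HS → HS → Prop} {a : At} {q : Q} (hq : q ∉ Ba R a) {α : At → Bool}
    (hα : ∀ b, α b = true → b = a) : rho R α q = q := by
  refine Prod.ext rfl (funext fun c => ?_)
  rcases c with c | c | k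
  · simp [rho, msk]
  · simp [rho, msk]
  · by_cases h : α (k, q.1.n) = true
    · have e := hα _ h
      subst e
      have : ¬ Jm R q k := fun h' => hq (mem_Ba.2 ⟨rfl, h'⟩)
      simp [rho, msk, this]
    · simp [rho, msk, h]

lemma generic_nhds {η : Yl} (hη : Generic η) (δ : At → Bool) {U : Set (At → Bool)}
    (hU : U ∈ 𝓝 δ) : ∃ i, (fun a => η (a, i)) ∈ U := by
  rw [nhds_pi, Filter.mem_pi] at hU
  obtain ⟨I, hI, t, ht, hsub⟩ := hU
  obtain ⟨i, hi⟩ := hη hI.toFinset δ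
  refine ⟨i, hsub fun a ha => ?_⟩
  show η (a, i) ∈ t a
  rw [hi a (hI.mem_toFinset.2 ha)]
  exact mem_of_mem_nhds (ht a)

/-- The hypotheses of the transport lemma. -/
structure Hyp (lev : ℕ → ℕ) (R R' : ℕ → HS → HS → Prop) (η η' : Yl)
    (Corr : Set Q → Set Q → Prop) (σ : At ≃ At) : Prop where
  g : Generic η
  g' : Generic η'
  ok : CorrOK (xi lev) Corr
  eqv : CorrEq R R' η η' Corr
  lab : ∀ a i, η' (σ a, i) = η (a, i)

variable {lev : ℕ → ℕ} {R R' : ℕ → HS → HS → Prop} {η η' : Yl}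
  {Corr : Set Q → Set Q → Prop} {σ : At ≃ At}

lemma Hyp.flip (h : Hyp lev R R' η η' Corr σ) :
    Hyp lev R' R η' η (fun B A => Corr A B) σ.symm where
  g := h.g'
  g' := h.g
  ok := ⟨h.ok.exr, h.ok.exl, fun B A c =>
      have := h.ok.meas A B c
      ⟨this.2.1, this.1, this.2.2.2, this.2.2.1⟩,
    fun B A B' A' c c' => (h.ok.inter A B A' B' c c').symm, fun B A c k => (h.ok.col A B c k).symm⟩
  eqv := fun i B A c => h.eqv i A B c
  lab := fun a i => by rw [← h.lab, σ.apply_symm_apply]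

lemma k1 (hm : S_maps) (ha : S_approx) (h : Hyp lev R R' η η' Corr σ) {A B : Set Q}
    (c : Corr A B) (a : At) (s : Bool) (hA : A ⊆ Ba R a)
    (hs : ∀ q ∈ A, q.2 (Sum.inr (Sum.inr a.1)) = s) :
    mQ (xi lev) (B \ Ba R' (σ a)) = 0 := by
  classical
  obtain ⟨mA, mB, fA, fB⟩ := h.ok.meas A B c
  obtain ⟨hE, happ, -⟩ := ha (xi lev)
  refine le_antisymm (ENNReal.le_of_forall_pos_le_add fun ε hε _ => ?_) zero_le
  have hε3 : (0 : ℝ≥0∞) < ε / 3 := ENNReal.div_pos (by simpa using hε.ne') (by simp)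
  obtain ⟨E, hBE⟩ := happ B mB fB (ε / 3) hε3
  set δ : At → Bool := fun b => decide (b = σ a) with hδ
  have cl : IsClopen E.1 := ⟨E.2.1.isClosed, E.2.2⟩
  have hc := hm.2.2.2.2.2.2 R'
  have ev : ∀ᶠ α in 𝓝 δ, ∀ q ∈ E.1, rho R' δ q ∈ E.1 → rho R' α q ∈ E.1 := by
    refine E.2.1.eventually_forall_of_forall_eventually fun q _ => ?_
    by_cases hq : rho R' δ q ∈ E.1
    · have : ∀ᶠ z : (At → Bool) × Q in 𝓝 (δ, q), rho R' z.1 z.2 ∈ E.1 :=
        hc.continuousAt.eventually (cl.isOpen.mem_nhds hq)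
      exact this.mono fun z hz _ => hz
    · have h1 : Continuous fun z : (At → Bool) × Q => rho R' δ z.2 :=
        hc.comp (continuous_const.prodMk continuous_snd)
      have : ∀ᶠ z : (At → Bool) × Q in 𝓝 (δ, q), rho R' δ z.2 ∈ E.1ᶜ :=
        h1.continuousAt.eventually (cl.isClosed.isOpen_compl.mem_nhds hq)
      exact this.mono fun z hz h' => (hz h').elim
  have ev2 : ∀ᶠ α : At → Bool in 𝓝 δ, α (σ a) = true := by
    have hcont : Continuous fun α : At → Bool => α (σ a) := continuous_apply (σ a)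
    have : IsOpen {α : At → Bool | α (σ a) = true} :=
      (isOpen_discrete ({true} : Set Bool)).preimage hcont
    exact this.mem_nhds (by simp [hδ])
  obtain ⟨i, hi1, hi2⟩ := generic_nhds h.g' δ (ev.and ev2)
  have hi3 : η (a, i) = true := by rw [← h.lab]; exact hi2
  have z1 : mQ (xi lev) (B ∩ rho R' (fun b => η' (b, i)) ⁻¹' B) = 0 := by
    rw [← h.ok.inter _ _ _ _ c (h.eqv i A B c)]
    convert measure_empty (μ := mQ (xi lev))
    refine eq_empty_of_forall_notMem fun q ⟨h1, h2⟩ => ?_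
    have e1 := rho_flip (hA h1) (α := fun b => η (b, i)) hi3
    rw [hs _ h2, hs _ h1] at e1
    simp at e1
  have mp := (hm.1 lev R' fun b => η' (b, i)).2
  have sub : B \ Ba R' (σ a) ⊆ (B ∩ rho R' (fun b => η' (b, i)) ⁻¹' B) ∪
      (B ∆ E.1 ∪ rho R' (fun b => η' (b, i)) ⁻¹' (B ∆ E.1)) := by
    rintro q ⟨h1, h2⟩
    by_cases hq : q ∈ E.1
    · have h3 := hi1 q hq (by rwa [rho_fix h2 fun b hb => by simpa [hδ] using hb])
      by_cases h4 : rho R' (fun b => η' (b, i)) q ∈ B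
      · exact Or.inl ⟨h1, h4⟩
      · exact Or.inr (Or.inr (Or.inr ⟨h3, h4⟩))
    · exact Or.inr (Or.inl (Or.inl ⟨h1, hq⟩))
  calc mQ (xi lev) (B \ Ba R' (σ a))
      ≤ 0 + (ε / 3 + ε / 3) := by
        refine (measure_mono sub).trans ((measure_union_le _ _).trans (add_le_add z1.le
          ((measure_union_le _ _).trans (add_le_add hBE.le ?_))))
        rw [mp.measure_preimage (mB.symmDiff (hE E).1).nullMeasurableSet]
        exact hBE.le
    _ ≤ 0 + ε := by
        gcongr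
        calc (ε : ℝ≥0∞) / 3 + ε / 3 ≤ ε / 3 + ε / 3 + ε / 3 := le_self_add
          _ = ε := ENNReal.add_thirds _

lemma diff_null {μ : Measure Q} {B C : Set Q} (hC : MeasurableSet C) (fB : μ B ≠ ∞)
    (h : μ B ≤ μ (B ∩ C)) : μ (B \ C) = 0 := by
  have h1 := measure_inter_add_sdiff B hC (μ := μ)
  have f2 : μ (B ∩ C) ≠ ∞ := ne_top_of_le_ne_top fB (measure_mono inter_subset_left)
  have : μ (B ∩ C) + μ (B \ C) ≤ μ (B ∩ C) + 0 := by rw [h1, add_zero]; exact h
  exact le_antisymm ((ENNReal.add_le_add_iff_left f2).1 this) zero_le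

lemma k2 (hm : S_maps) (ha : S_approx) (h : Hyp lev R R' η η' Corr σ) {A B : Set Q}
    (c : Corr A B) (a : At) (hA : A ⊆ Ba R a) : mQ (xi lev) (B \ Ba R' (σ a)) = 0 := by
  obtain ⟨mA, mB, fA, fB⟩ := h.ok.meas A B c
  set S : Set Q := {q | q.2 (Sum.inr (Sum.inr a.1)) = true} with hS
  have mS0 : Measurable fun q : Q => q.2 (Sum.inr (Sum.inr a.1)) :=
    (measurable_pi_apply _).comp measurable_snd
  have mS : MeasurableSet S := mS0 (measurableSet_singleton true)
  obtain ⟨C, hC⟩ := h.ok.exl (A ∩ S) (mA.inter mS)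
    (ne_top_of_le_ne_top fA (measure_mono inter_subset_left))
  obtain ⟨D, hD⟩ := h.ok.exl (A \ S) (mA.diff mS)
    (ne_top_of_le_ne_top fA (measure_mono sdiff_subset))
  have z1 := k1 hm ha h hC a true (inter_subset_left.trans hA) fun q hq => hq.2
  have z2 := k1 hm ha h hD a false (sdiff_subset.trans hA) fun q hq => by simpa [hS] using hq.2
  have mC := (h.ok.meas _ _ hC).2.1
  have mD := (h.ok.meas _ _ hD).2.1
  have e0 := h.ok.inter _ _ _ _ c c
  have e1 := h.ok.inter _ _ _ _ c hC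
  have e2 := h.ok.inter _ _ _ _ c hD
  have e3 := h.ok.inter _ _ _ _ hC hD
  rw [inter_self, inter_self] at e0
  rw [← inter_assoc, inter_self] at e1
  rw [inter_eq_right.2 sdiff_subset] at e2
  rw [(disjoint_sdiff_self_right.mono_left inter_subset_right : Disjoint (A ∩ S) (A \ S)).inter_eq,
    measure_empty] at e3
  have e4 : mQ (xi lev) (B ∩ (C ∪ D)) = mQ (xi lev) (B ∩ C) + mQ (xi lev) (B ∩ D) := by
    rw [inter_union_distrib_left]
    refine measure_union₀ (mB.inter mD).nullMeasurableSet ?_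
    show mQ (xi lev) ((B ∩ C) ∩ (B ∩ D)) = 0
    exact measure_mono_null (t := C ∩ D) (fun q hq => ⟨hq.1.2, hq.2.2⟩) e3.symm
  have z3 : mQ (xi lev) (B \ (C ∪ D)) = 0 := by
    refine diff_null (mC.union mD) fB (le_of_eq ?_)
    rw [e4, ← e0, ← e1, ← e2, measure_inter_add_sdiff A mS]
  refine measure_mono_null (fun q hq => ?_) (measure_union_null z3 (measure_union_null z1 z2))
  by_cases h1 : q ∈ C
  · exact Or.inr (Or.inl ⟨h1, hq.2⟩)
  · by_cases h2 : q ∈ D
    · exact Or.inr (Or.inr ⟨h2, hq.2⟩)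
    · exact Or.inl ⟨hq.1, fun h3 => h3.elim h1 h2⟩

lemma k3 (hm : S_maps) (ha : S_approx) (h : Hyp lev R R' η η' Corr σ) {A B : Set Q}
    (c : Corr A B) (a : At) : ∃ C, Corr (A ∩ Ba R a) C ∧ C ≤ᵐ[mQ (xi lev)] (B ∩ Ba R' (σ a) : Set Q) ∧
      mQ (xi lev) C = mQ (xi lev) (A ∩ Ba R a) := by
  obtain ⟨mA, mB, fA, fB⟩ := h.ok.meas A B c
  obtain ⟨C, hC⟩ := h.ok.exl (A ∩ Ba R a) (mA.inter (meas_Ba R a))
    (ne_top_of_le_ne_top fA (measure_mono inter_subset_left))
  have e0 := h.ok.inter _ _ _ _ hC hC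
  have e1 := h.ok.inter _ _ _ _ hC c
  rw [inter_self, inter_self] at e0
  rw [inter_eq_left.2 inter_subset_left] at e1
  have z1 : mQ (xi lev) (C \ B) = 0 :=
    diff_null mB (h.ok.meas _ _ hC).2.2.2 (by rw [← e0, e1])
  have z2 := k2 hm ha h hC a inter_subset_right
  refine ⟨C, hC, ae_le_set.2 ?_, e0.symm⟩
  rw [sdiff_inter]
  exact measure_union_null z1 z2

lemma k4 (hm : S_maps) (ha : S_approx) (h : Hyp lev R R' η η' Corr σ) {A B : Set Q}
    (c : Corr A B) (a : At) :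
    ∃ C, Corr (A ∩ Ba R a) C ∧ C =ᵐ[mQ (xi lev)] (B ∩ Ba R' (σ a) : Set Q) := by
  obtain ⟨C, h1, h2, h3⟩ := k3 hm ha h c a
  obtain ⟨D, -, h5, h6⟩ := k3 hm ha h.flip (A := B) (B := A) c (σ a)
  rw [σ.symm_apply_apply] at h5
  refine ⟨C, h1, ae_eq_of_ae_subset_of_measure_ge h2 ?_ (h.ok.meas _ _ h1).2.1.nullMeasurableSet
    (ne_top_of_le_ne_top (h.ok.meas _ _ c).2.2.2 (measure_mono inter_subset_left))⟩
  rw [h3, ← h6]
  exact measure_mono_ae h5

lemma k5 (hm : S_maps) (ha : S_approx) (h : Hyp lev R R' η η' Corr σ) (T : Finset At) :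
    ∀ A B, Corr A B → mQ (xi lev) (A ∩ {q | ∀ a ∈ T, Jt R q a = true}) =
      mQ (xi lev) (B ∩ {q | ∀ a ∈ T, Jt R' q (σ a) = true}) := by
  classical
  induction T using Finset.induction_on with
  | empty =>
    intro A B c
    simpa using h.ok.inter _ _ _ _ c c
  | insert a T _ ih =>
    intro A B c
    obtain ⟨C, h1, h2⟩ := k4 hm ha h c a
    have e := ih _ _ h1
    have e2 : mQ (xi lev) (C ∩ {q | ∀ a ∈ T, Jt R' q (σ a) = true}) =
        mQ (xi lev) ((B ∩ Ba R' (σ a)) ∩ {q | ∀ a ∈ T, Jt R' q (σ a) = true}) :=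
      measure_congr (ae_eq_set_inter h2 (ae_eq_refl _))
    rw [e2] at e
    convert e using 2
    · ext q
      simp [Ba, and_assoc]
    · ext q
      simp [Ba, and_assoc]

end Dec2

open Dec2 in
theorem dec2_ok (hm : S_maps) (ha : S_approx) : S_dec2 := by
  classical
  intro lev R R' η η' Corr g g' ok eqv σ lab A B c W hW
  have h : Hyp lev R R' η η' Corr σ := ⟨g, g', ok, eqv, lab⟩
  obtain ⟨mA, mB, fA, fB⟩ := ok.meas A B c
  have m1 : Measurable (Jt R) := measurable_pi_iff.2 (meas_Jt R)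
  have m2 : Measurable fun (q : Q) (a : At) => Jt R' q (σ a) :=
    measurable_pi_iff.2 fun a => meas_Jt R' (σ a)
  have : Fact (mQ (xi lev) A < ∞) := ⟨fA.lt_top⟩
  set C : Set (Set (At → Bool)) := range fun T : Finset At => {w | ∀ a ∈ T, w a = true} with hC
  have mC : ∀ T : Finset At, MeasurableSet {w : At → Bool | ∀ a ∈ T, w a = true} := fun T => by
    have : {w : At → Bool | ∀ a ∈ T, w a = true} = ⋂ a ∈ T, (fun w => w a) ⁻¹' {true} := by
      ext w
      simp
    rw [this]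
    exact T.measurableSet_biInter fun a _ => measurable_pi_apply a (measurableSet_singleton true)
  have key : ∀ V : Set (At → Bool), MeasurableSet V →
      ((mQ (xi lev)).restrict A).map (Jt R) V = mQ (xi lev) (A ∩ {q | Jt R q ∈ V}) ∧
      ((mQ (xi lev)).restrict B).map (fun (q : Q) (a : At) => Jt R' q (σ a)) V =
        mQ (xi lev) (B ∩ {q | (fun a => Jt R' q (σ a)) ∈ V}) := fun V hV => by
    rw [Measure.map_apply m1 hV, Measure.map_apply m2 hV, Measure.restrict_apply' mA,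
      Measure.restrict_apply' mB, inter_comm _ A, inter_comm _ B]
    exact ⟨rfl, rfl⟩
  have hT : ∀ T : Finset At,
      ((mQ (xi lev)).restrict A).map (Jt R) {w | ∀ a ∈ T, w a = true} =
      ((mQ (xi lev)).restrict B).map (fun (q : Q) (a : At) => Jt R' q (σ a))
        {w | ∀ a ∈ T, w a = true} := fun T => by
    rw [(key _ (mC T)).1, (key _ (mC T)).2]
    exact k5 hm ha h T A B c
  have e : ((mQ (xi lev)).restrict A).map (Jt R) =
      ((mQ (xi lev)).restrict B).map (fun (q : Q) (a : At) => Jt R' q (σ a)) := by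
    refine ext_of_generate_finite C (le_antisymm ?_ ?_) ?_ ?_ ?_
    · have : @Measurable _ _ (MeasurableSpace.generateFrom C) MeasurableSpace.pi
          (id : (At → Bool) → At → Bool) := by
        refine (@measurable_pi_iff _ _ _ (MeasurableSpace.generateFrom C) _ _).2 fun a => ?_
        refine @measurable_to_bool _ (MeasurableSpace.generateFrom C) _ ?_
        refine MeasurableSpace.measurableSet_generateFrom ⟨{a}, ?_⟩
        ext w
        simp
      exact fun s hs => this hs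
    · exact MeasurableSpace.generateFrom_le (by rintro _ ⟨T, rfl⟩; exact mC T)
    · rintro _ ⟨T, rfl⟩ _ ⟨U, rfl⟩ -
      refine ⟨T ∪ U, ?_⟩
      ext w
      simp [or_imp, forall_and]
    · rintro _ ⟨T, rfl⟩
      exact hT T
    · simpa using hT ∅
  rw [← (key W hW).1, ← (key W hW).2, e]

end Pool.Agent.P.MP_c1aa6a_an
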