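import Pool.Agent.P.MP_c1aa6a_an.Dec1

/-! Decoding the relations and the summability of the flips. -/

set_option autoImplicit false
open MeasureTheory Set Filter Topology
open scoped ENNReal NNReal symmDiff

namespace Pool.Agent.P.MP_c1aa6a_an

namespace Dec3

/-- Transfer of a positive measure event along the correspondence, inside one colour. -/
theorem transfer {ξ : Measure Xi} {Corr : Set Q → Set Q → Prop} (hC : CorrOK ξ Corr)
    (U V : Set Q) (hUV : ∀ A B, Corr A B → mQ ξ (A ∩ U) = mQ ξ (B ∩ V))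
    (A : Set Q) (hAm : MeasurableSet A) (hAf : mQ ξ A ≠ ∞) (c : ℕ)
    (hAc : ∀ q ∈ A, q.1.c = c) (hpos : mQ ξ (A ∩ U) ≠ 0) : ∃ q ∈ V, q.1.c = c := by
  obtain ⟨B, hB⟩ := hC.exl A hAm hAf
  obtain ⟨-, hBm, -, hBf⟩ := hC.meas A B hB
  have hAB : mQ ξ A = mQ ξ B := by
    have := hC.inter A B A B hB hB
    rwa [inter_self, inter_self] at this
  have hcm : MeasurableSet {q : Q | q.1.c = c} :=
    measurable_fst (MeasurableSet.of_discrete (s := {i : Idx | i.c = c}))
  have h3 : mQ ξ (B ∩ {q | q.1.c = c}) = mQ ξ B := by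
    rw [← hC.col A B c hB, ← hAB]
    congr 1
    exact inter_eq_left.2 hAc
  have h4 : mQ ξ (B \ {q | q.1.c = c}) = 0 := by
    have h5 := measure_inter_add_sdiff (μ := mQ ξ) B hcm
    rw [h3] at h5
    exact (ENNReal.add_right_inj hBf).1 (h5.trans (add_zero _).symm)
  by_contra hcon
  push Not at hcon
  apply hpos
  rw [hUV A B hB]
  refine measure_mono_null ?_ h4
  rintro q ⟨hq, hq'⟩
  exact ⟨hq, hcon q hq'⟩

/-- The same for a whole piece. -/
theorem transfer_piece {ξ : Measure Xi} [IsProbabilityMeasure ξ] {Corr : Set Q → Set Q → Prop}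
    (hC : CorrOK ξ Corr) (U V : Set Q)
    (hUV : ∀ A B, Corr A B → mQ ξ (A ∩ U) = mQ ξ (B ∩ V)) (i : Idx)
    (hU : ∀ q : Q, q.1 = i → q ∈ U) : ∃ q ∈ V, q.1.c = i.c := by
  have h1 : mQ ξ {q : Q | q.1 = i ∧ q.2 ∈ (univ : Set Xi)} = 1 := by
    rw [Dec1.mQ_prod, measure_univ]
  refine transfer hC U V hUV {q : Q | q.1 = i ∧ q.2 ∈ (univ : Set Xi)}
    (Dec1.meas_prod i univ MeasurableSet.univ) (by rw [h1]; exact ENNReal.one_ne_top) i.c
    (fun q hq => by rw [hq.1]) ?_
  rw [inter_eq_left.2 (fun q hq => hU q hq.1), h1]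
  exact one_ne_zero

theorem Jt_iff (R : ℕ → HS → HS → Prop) (q : Q) (a : At) :
    Jt R q a = true ↔ a.2 = q.1.n ∧ Jm R q a.1 := by
  simp [Jt]

theorem Jm_one (R : ℕ → HS → HS → Prop) (q : Q) (hq : q.1.c = 1) (k : HS) : Jm R q k := by
  unfold Jm
  rw [hq]
  trivial

theorem Jm_two (R : ℕ → HS → HS → Prop) (q : Q) (hq : q.1.c = 2) (k : HS) :
    Jm R q k ↔ q.2 (Sum.inl k.1) = true ∧ (k.2 = true ↔ k.1 ∈ q.1.F) := by
  unfold Jm
  rw [hq]

theorem Jm_three (R : ℕ → HS → HS → Prop) (q : Q) (c : ℕ) (hq : q.1.c = c + 3) (k : HS) :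
    Jm R q k ↔ R c q.1.k q.1.k' ∧ (k = q.1.k ∨ k = q.1.k') := by
  unfold Jm
  rw [hq]

theorem pair (R : ℕ → HS → HS → Prop) (hR : ∀ c k k', R c k k' → R c k' k) (q : Q) (c : ℕ)
    (hq : q.1.c = c + 3) (x y : At) (h : ∀ a, Jt R q a = true ↔ a = x ∨ a = y) :
    R c x.1 y.1 := by
  have hx := (h x).2 (Or.inl rfl)
  have hy := (h y).2 (Or.inr rfl)
  rw [Jt_iff, Jm_three R q c hq] at hx hy
  have hr := hx.2.1
  have h1 := (h (q.1.k, q.1.n)).1 (by rw [Jt_iff, Jm_three R q c hq]; exact ⟨rfl, hr, Or.inl rfl⟩)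
  have h2 := (h (q.1.k', q.1.n)).1 (by rw [Jt_iff, Jm_three R q c hq]; exact ⟨rfl, hr, Or.inr rfl⟩)
  have h1' : q.1.k = x.1 ∨ q.1.k = y.1 := h1.imp (fun e => by rw [← e]) (fun e => by rw [← e])
  have h2' : q.1.k' = x.1 ∨ q.1.k' = y.1 := h2.imp (fun e => by rw [← e]) (fun e => by rw [← e])
  rcases hx.2.2 with e1 | e1 <;> rcases hy.2.2 with e2 | e2
  · rcases h2' with e3 | e3
    · rw [e2]; rw [e3] at hr; exact hR _ _ _ hr
    · rw [e1]; rw [e3] at hr; exact hr
  · rw [e1, e2]; exact hr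
  · rw [e1, e2]; exact hR _ _ _ hr
  · rcases h1' with e3 | e3
    · rw [e2]; rw [e3] at hr; exact hr
    · rw [e1]; rw [e3] at hr; exact hR _ _ _ hr

theorem piece_pair (R : ℕ → HS → HS → Prop) (c : ℕ) (k k' : HS) (n : Finset ℕ) (hr : R c k k')
    (q : Q) (hq : q.1 = ⟨c + 3, k, k', n, ∅, ∅⟩) (a : At) :
    Jt R q a = true ↔ a = (k, n) ∨ a = (k', n) := by
  rw [Jt_iff, Jm_three R q c (by rw [hq]), hq]
  obtain ⟨a1, a2⟩ := a
  simp only [Prod.mk.injEq]
  tauto

/-- Second Borel-Cantelli lemma for the visible walls. -/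
theorem summable_of_null (lev : ℕ → ℕ) (p : ℕ → Bool)
    (h : xi lev {x | ∀ N, ∃ h, N ≤ h ∧ x (Sum.inl h) = true ∧ p h = true} = 0) :
    Summable (fun h => if p h = true then wt (lev h) else 0) := by
  classical
  set t : ℕ → Set Bool := fun h => {b | b = true ∧ p h = true} with ht
  set s : ℕ → Set Xi := fun h => {x | x (Sum.inl h) ∈ t h} with hs
  have hsm : ∀ h, MeasurableSet (s h) := fun h =>
    (measurable_pi_apply _) (MeasurableSet.of_discrete)
  have hind0 : ProbabilityTheory.iIndepFun (fun (c : Crd) (x : Xi) => x c) (xi lev) :=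
    ProbabilityTheory.iIndepFun_infinitePi (X := fun _ b => b) (fun _ => measurable_id)
  have hind1 : ProbabilityTheory.iIndepFun (fun (h : ℕ) (x : Xi) => x (Sum.inl h)) (xi lev) :=
    hind0.precomp (g := fun h : ℕ => (Sum.inl h : Crd)) Sum.inl_injective
  have hind : ProbabilityTheory.iIndepSet s (xi lev) := by
    rw [ProbabilityTheory.iIndepSet_iff_meas_biInter hsm]
    intro S
    exact hind1.measure_inter_preimage_eq_mul S (sets := t) (fun _ _ => MeasurableSet.of_discrete)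
  have hval : ∀ h, xi lev (s h) = ENNReal.ofReal (if p h = true then wt (lev h) else 0) := by
    intro h
    rw [hs]
    simp only
    rw [Dec1.xi_eval]
    by_cases hp : p h = true
    · have : t h = {true} := by
        ext b; simp [ht, hp]
      rw [this, Dec1.bern_true, if_pos hp, wt, ENNReal.ofReal_pow (by norm_num)]
      congr 1
      rw [one_div, ENNReal.ofReal_inv_of_pos (by norm_num)]
      simp
    · have : t h = ∅ := by
        ext b; simp [ht, hp]
      rw [this, if_neg hp]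
      simp
  have hfin : ∑' h, xi lev (s h) ≠ ∞ := by
    intro hinf
    have h1 := ProbabilityTheory.measure_limsup_eq_one hsm hind hinf
    have h2 : limsup s atTop ⊆
        {x | ∀ N, ∃ h, N ≤ h ∧ x (Sum.inl h) = true ∧ p h = true} := by
      intro x hx N
      rw [mem_limsup_iff_frequently_mem, frequently_atTop] at hx
      obtain ⟨h, hh, hx'⟩ := hx N
      exact ⟨h, hh, hx'⟩
    rw [measure_mono_null h2 h] at h1
    exact zero_ne_one h1
  have hnn : ∀ h, 0 ≤ (if p h = true then wt (lev h) else 0) := by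
    intro h
    split_ifs
    · unfold wt; positivity
    · exact le_rfl
  have := ENNReal.summable_toReal hfin
  refine this.congr fun h => ?_
  rw [hval, ENNReal.toReal_ofReal (hnn h)]

end Dec3

open Dec3 in
theorem dec3_ok : S_dec3 := by
  classical
  intro lev R R' Corr σ hR hR' hC hW
  have hC' := Dec1.corrOK_flip hC
  -- colour one
  obtain ⟨q₁, hq₁, hq₁c⟩ := transfer_piece hC _ _
    (fun A B h => hW A B h {fun a => decide (a.2 = ∅)} (measurableSet_singleton _))
    ⟨1, (0, true), (0, true), ∅, ∅, ∅⟩ (by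
      intro q hq
      show Jt R q = _
      funext a
      have h1 := Jm_one R q (by rw [hq]) a.1
      simp [Jt, h1, hq])
  set n' := q₁.1.n with hn'
  have hσ : ∀ a : At, (σ a).2 = n' ↔ a.2 = ∅ := by
    intro a
    have h1 : Jt R' q₁ (σ a) = decide (a.2 = ∅) := congrFun hq₁ a
    have h2 := Jt_iff R' q₁ (σ a)
    rw [h1] at h2
    have h3 := Jm_one R' q₁ hq₁c (σ a).1
    simp only [decide_eq_true_eq, h3, and_true] at h2
    exact h2.symm
  have e1 : ∀ k : HS, σ (k, ∅) = ((σ (k, ∅)).1, n') := fun k =>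
    Prod.ext rfl ((hσ (k, ∅)).2 rfl)
  have e2 : ∀ k : HS, σ.symm (k, n') = ((σ.symm (k, n')).1, ∅) := fun k =>
    Prod.ext rfl ((hσ (σ.symm (k, n'))).1 (by rw [Equiv.apply_symm_apply]))
  let σ₀ : HS ≃ HS :=
    { toFun := fun k => (σ (k, ∅)).1
      invFun := fun k => (σ.symm (k, n')).1
      left_inv := fun k => by
        show (σ.symm ((σ (k, ∅)).1, n')).1 = k
        rw [← e1, Equiv.symm_apply_apply]
      right_inv := fun k => by
        show (σ ((σ.symm (k, n')).1, ∅)).1 = k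
        rw [← e2, Equiv.apply_symm_apply] }
  have hσ₀ : ∀ k, σ (k, ∅) = (σ₀ k, n') := e1
  refine ⟨σ₀, fun c k k' => ⟨fun hr => ?_, fun hr => ?_⟩, ?_⟩
  · obtain ⟨q, hq, hqc⟩ := transfer_piece hC _ _
      (fun A B h => hW A B h {fun a => decide (a = (k, ∅) ∨ a = (k', ∅))}
        (measurableSet_singleton _))
      ⟨c + 3, k, k', ∅, ∅, ∅⟩ (by
        intro q hq
        show Jt R q = _
        funext a
        rw [Bool.eq_iff_iff, piece_pair R c k k' ∅ hr q hq a, decide_eq_true_eq])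
    refine pair R' hR' q c hqc (σ₀ k, n') (σ₀ k', n') fun b => ?_
    obtain ⟨a, rfl⟩ := σ.surjective b
    have h1 : Jt R' q (σ a) = decide (a = (k, ∅) ∨ a = (k', ∅)) := congrFun hq a
    rw [h1, decide_eq_true_eq, ← hσ₀, ← hσ₀, σ.apply_eq_iff_eq, σ.apply_eq_iff_eq]
  · obtain ⟨q, hq, hqc⟩ := transfer_piece hC' _ _
      (fun B A h => (hW A B h {fun a => decide (a = (k, ∅) ∨ a = (k', ∅))}
        (measurableSet_singleton _)).symm)
      ⟨c + 3, σ₀ k, σ₀ k', n', ∅, ∅⟩ (by
        intro q hq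
        show (fun a => Jt R' q (σ a)) = _
        funext a
        rw [Bool.eq_iff_iff, piece_pair R' c _ _ n' hr q hq (σ a), decide_eq_true_eq, ← hσ₀,
          ← hσ₀, σ.apply_eq_iff_eq, σ.apply_eq_iff_eq])
    refine pair R hR q c hqc (k, ∅) (k', ∅) fun a => ?_
    have h1 : Jt R q a = decide (a = (k, ∅) ∨ a = (k', ∅)) := congrFun hq a
    rw [h1, decide_eq_true_eq]
  · apply summable_of_null lev (fun h => (σ₀ (h, false)).2)
    set W : Set (At → Bool) :=
      {w | ∀ N, ∃ h, N ≤ h ∧ w ((h, false), ∅) = true ∧ (σ₀ (h, false)).2 = true} with hWdef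
    have hWm : MeasurableSet W := by
      have : W = ⋂ N, ⋃ h, {w : At → Bool | w ((h, false), ∅) ∈
          {b : Bool | N ≤ h ∧ b = true ∧ (σ₀ (h, false)).2 = true}} := by
        ext w
        simp [hWdef]
      rw [this]
      exact MeasurableSet.iInter fun N => MeasurableSet.iUnion fun h =>
        (measurable_pi_apply _) (MeasurableSet.of_discrete)
    set i₂ : Idx := ⟨2, (0, true), (0, true), ∅, ∅, ∅⟩ with hi₂
    have h1 : mQ (xi lev) {q : Q | q.1 = i₂ ∧ q.2 ∈ (univ : Set Xi)} = 1 := by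
      rw [Dec1.mQ_prod, measure_univ]
    by_contra hne
    obtain ⟨q, hq, hqc⟩ := transfer hC _ _ (fun A B h => hW A B h W hWm)
      {q : Q | q.1 = i₂ ∧ q.2 ∈ (univ : Set Xi)}
      (Dec1.meas_prod i₂ univ MeasurableSet.univ) (by rw [h1]; exact ENNReal.one_ne_top) 2
      (fun q hq => by rw [hq.1]) (by
        intro h0
        apply hne
        rw [← Dec1.mQ_prod (xi lev) i₂]
        refine measure_mono_null ?_ h0
        rintro q ⟨hq1, hq2⟩
        refine ⟨⟨hq1, mem_univ _⟩, fun N => ?_⟩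
        obtain ⟨h, hh, hx, hp⟩ := hq2 N
        refine ⟨h, hh, ?_, hp⟩
        rw [Jt_iff, Jm_two R q (by rw [hq1]), hq1]
        simp [hi₂, hx])
    have hfin : {h : ℕ | σ₀ (h, false) ∈ (q.1.F : Set ℕ) ×ˢ ({true} : Set Bool)}.Finite := by
      apply Finite.preimage (f := fun h : ℕ => σ₀ (h, false))
      · intro a _ b _ hab
        have := σ₀.injective hab
        exact (Prod.mk.inj this).1
      · exact (q.1.F.finite_toSet).prod (finite_singleton _)
    obtain ⟨M, hM⟩ := hfin.bddAbove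
    obtain ⟨h, hh, hx, hp⟩ := hq (M + 1)
    have hx' : Jt R' q (σ ((h, false), ∅)) = true := hx
    rw [hσ₀, Jt_iff, Jm_two R' q hqc] at hx'
    have h2 : h ≤ M := hM ⟨hx'.2.2.1 hp, hp⟩
    omega

end Pool.Agent.P.MP_c1aa6a_an
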