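import Pool.Agent.P.MP_c1aa6a_an.First1

/-! First chaos rigidity. -/

set_option autoImplicit false
set_option linter.unusedSectionVars false
open MeasureTheory Set Filter Topology
open scoped ENNReal NNReal symmDiff InnerProductSpace

namespace Pool.Agent.P.MP_c1aa6a_an
namespace First

theorem cellM (hm : S_maps) (C : Cell) : MeasurableSet (cell C) := (hm.2.2.2.1 C).isOpen.measurableSet

/-- weak convergence of the shifted functions on the intensity space -/
theorem weak_K (ha : S_approx) (hm : S_maps) (lev : ℕ → ℕ) (C : Cell) (F F' : L2 (mQ (xi lev))) :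
    Tendsto (fun j => ⟪cmp (hm.2.1 lev (C, j)).2 F, F'⟫_ℝ) atTop (𝓝 ⟪pr (cellM hm C) F, F'⟫_ℝ) := by
  have hcl := (ha (xi lev)).2.2
  have hsym : ∀ F F' : L2 (mQ (xi lev)),
      Tendsto (fun j => ⟪cmp (hm.2.1 lev (C, j)).2 F, F'⟫_ℝ) atTop (𝓝 ⟪pr (cellM hm C) F, F'⟫_ℝ) →
      Tendsto (fun j => ⟪cmp (hm.2.1 lev (C, j)).2 F', F⟫_ℝ) atTop (𝓝 ⟪pr (cellM hm C) F', F⟫_ℝ) := by
    intro F F' h
    rw [pr_symm, real_inner_comm]
    refine h.congr fun j => ?_
    rw [cmp_symm _ (hm.2.1 lev (C, j)).1.2, real_inner_comm]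
  have hclo : ∀ F : L2 (mQ (xi lev)), IsClosed {F' | Tendsto
      (fun j => ⟪cmp (hm.2.1 lev (C, j)).2 F, F'⟫_ℝ) atTop (𝓝 ⟪pr (cellM hm C) F, F'⟫_ℝ)} :=
    fun F => isClosed_weak (B := ‖F‖) fun j => (LinearIsometry.norm_map _ _).le
  refine hcl _ (hclo F) (fun l' G' hG' => hsym _ _ ?_) F'
  refine hcl _ (hclo G') (fun l G hG => ?_) F
  obtain ⟨T, hT⟩ := simple_supp l
  obtain ⟨T', hT'⟩ := simple_supp l'
  refine tendsto_const_nhds.congr' ?_
  filter_upwards [eventually_sep C T' T hT' hT] with j hj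
  rw [inner_eq (pr_ae _ hG') hG, inner_eq (cmp_ae _ hG') hG]
  simp only [hj]

variable {lev : ℕ → ℕ} {P : Measure Cf} [IsProbabilityMeasure P]
  {I : L2 (mQ (xi lev)) →ₗᵢ[ℝ] L2 P} (hI : IsChaos (xi lev) P I)

/-- the function `g - 1` -/
noncomputable def GG (l : List (CO × ℝ)) : L2 (mQ (xi lev)) := (hI.memg l).toLp _

/-- the normalising constant -/
noncomputable def zz (lev : ℕ → ℕ) (l : List (CO × ℝ)) : ℝ :=
  Real.exp (∫ q, (gR l q - 1) ∂(mQ (xi lev)))

/-- the normalised exponential vector -/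
noncomputable def ee (l : List (CO × ℝ)) : L2 P := (zz lev l)⁻¹ • (hI.mem l).toLp _

theorem zz_pos (lev : ℕ → ℕ) (l : List (CO × ℝ)) : 0 < zz lev l := Real.exp_pos _

theorem GG_ae (l : List (CO × ℝ)) : GG hI l =ᵐ[mQ (xi lev)] fun q => gR l q - 1 :=
  MemLp.coeFn_toLp _

theorem ee_ae (l : List (CO × ℝ)) : ee hI l =ᵐ[P] fun ν => (zz lev l)⁻¹ * ex l ν := by
  filter_upwards [Lp.coeFn_smul (zz lev l)⁻¹ ((hI.mem l).toLp _), (hI.mem l).coeFn_toLp] with ν h1 h2
  rw [ee, h1, Pi.smul_apply, h2, smul_eq_mul]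

theorem inner_I_ee (F : L2 (mQ (xi lev))) (l : List (CO × ℝ)) :
    ⟪I F, ee hI l⟫_ℝ = ⟪F, GG hI l⟫_ℝ := by
  rw [ee, inner_smul_right, inner_eq EventuallyEq.rfl (hI.mem l).coeFn_toLp, hI.form,
    inner_eq EventuallyEq.rfl (GG_ae hI l), ← mul_assoc]
  exact (congrArg (· * _) (inv_mul_cancel₀ (zz_pos lev l).ne')).trans (one_mul _)

theorem inner_ee_ee (l l' : List (CO × ℝ)) :
    ⟪ee hI l, ee hI l'⟫_ℝ = Real.exp ⟪GG hI l, GG hI l'⟫_ℝ := by
  have h1 : zz lev (l ++ l') = zz lev l * zz lev l' * Real.exp ⟪GG hI l, GG hI l'⟫_ℝ := by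
    rw [zz, zz, zz, ← Real.exp_add, ← Real.exp_add, inner_eq (GG_ae hI l) (GG_ae hI l'),
      ← integral_add (hI.intg l) (hI.intg l'), ← integral_add
        (f := fun q => gR l q - 1 + (gR l' q - 1)) ((hI.intg l).add (hI.intg l'))
        (integrable_mul' (GG_ae hI l) (GG_ae hI l'))]
    congr 2
    funext q
    rw [gR_append]
    ring
  rw [ee, ee, inner_smul_right, real_inner_smul_left,
    inner_eq (hI.mem l).coeFn_toLp (hI.mem l').coeFn_toLp]
  simp only [← ex_append]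
  rw [hI.exex]
  change _ * (_ * zz lev (l ++ l')) = _
  rw [h1]
  have := (zz_pos lev l).ne'
  have := (zz_pos lev l').ne'
  field_simp

theorem GG_nil : GG hI [] = 0 :=
  Lp.ext ((GG_ae hI []).trans (EventuallyEq.trans
    (Eventually.of_forall fun q => by simp [gR_nil]) (Lp.coeFn_zero _ _ _).symm))

theorem ee_nil_ae : ee hI [] =ᵐ[P] fun _ => (1 : ℝ) := by
  filter_upwards [ee_ae hI []] with ν h
  rw [h]
  simp [zz, gR_nil, ex]

theorem ee_total (hu : S_uniq) (f : L2 P) (h : ∀ l, ⟪f, ee hI l⟫_ℝ = 0) : f = 0 := by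
  refine hu.2 P f fun l => ?_
  have h1 := h (l.map fun E => (E, 1 / 2))
  rw [ee, inner_smul_right, inner_eq EventuallyEq.rfl (hI.mem _).coeFn_toLp] at h1
  exact (mul_eq_zero.1 h1).resolve_left (inv_ne_zero (zz_pos lev _).ne')

theorem ext_ee (hu : S_uniq) {f g : L2 P} (h : ∀ l, ⟪f, ee hI l⟫_ℝ = ⟪g, ee hI l⟫_ℝ) : f = g :=
  sub_eq_zero.1 (ee_total hI hu _ fun l => by rw [inner_sub_left, h, sub_self])

theorem GG_cut {C : Set Q} (hC : IsClopen C) (l : List (CO × ℝ)) :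
    GG hI (cut hC l) = pr hC.isOpen.measurableSet (GG hI l) :=
  Lp.ext ((GG_ae hI _).trans (EventuallyEq.trans (Eventually.of_forall fun q => gR_cut hC l q)
    (pr_ae _ (GG_ae hI l)).symm))

theorem tr_iff {S : Cf → Cf} (hS : MeasurePreserving S P P) (F F' : L2 (mQ (xi lev))) :
    Tr I S F F' ↔ cmp hS (I F) = I F' :=
  ⟨fun h => Lp.ext ((cmp_ae hS EventuallyEq.rfl).trans h),
    fun h => (cmp_ae hS (f := I F) EventuallyEq.rfl).symm.trans (by rw [h])⟩

section shifts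
variable (hl : S_lift) (hm : S_maps)
include hI hl hm

theorem lifts (p : Cell × ℕ) : Lifts I (act (uC p)) (uC p) :=
  (hl (xi lev) P I hI).2.1 _ (hm.2.1 lev p).1 (hm.2.1 lev p).2

theorem U_I (p : Cell × ℕ) (F : L2 (mQ (xi lev))) :
    cmp (lifts hI hl hm p).2.1 (I F) = I (cmp (hm.2.1 lev p).2 F) :=
  (tr_iff _ _ _).1 ((lifts hI hl hm p).2.2 _ _ (cmp_ae _ EventuallyEq.rfl))

omit hl in
theorem GG_pull (p : Cell × ℕ) (l : List (CO × ℝ)) :
    GG hI (pull (uC p) l) = cmp (hm.2.1 lev p).2 (GG hI l) :=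
  Lp.ext ((GG_ae hI _).trans (EventuallyEq.trans (Eventually.of_forall fun q => by
    simp only [gR_pull (hm.2.2.2.2.2.1 _ (hm.2.1 lev p).1)]) (cmp_ae _ (GG_ae hI l)).symm))

theorem U_ee (p : Cell × ℕ) (l : List (CO × ℝ)) :
    cmp (lifts hI hl hm p).2.1 (ee hI l) = ee hI (pull (uC p) l) := by
  have hz : zz lev (pull (uC p) l) = zz lev l := by
    rw [zz, zz]
    simp only [gR_pull (hm.2.2.2.2.2.1 _ (hm.2.1 lev p).1)]
    congr 1
    have h := (hm.2.1 lev p).2
    rw [← integral_map (f := fun q => gR l q - 1) h.measurable.aemeasurable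
      (by rw [h.map_eq]; exact (hI.intg l).1), h.map_eq]
  refine Lp.ext ((cmp_ae _ (ee_ae hI l)).trans (EventuallyEq.trans ?_ (ee_ae hI _).symm))
  exact Eventually.of_forall fun ν => by simp only [hz, ex_pull]

theorem U_symm (p : Cell × ℕ) (f g : L2 P) :
    ⟪cmp (lifts hI hl hm p).2.1 f, g⟫_ℝ = ⟪f, cmp (lifts hI hl hm p).2.1 g⟫_ℝ :=
  cmp_symm _ (act_invol (hm.2.2.2.2.2.1 _ (hm.2.1 lev p).1) (hm.2.1 lev p).1.2) f g

theorem weak_ee (ha : S_approx) (hu : S_uniq) (C : Cell) (l : List (CO × ℝ)) (g : L2 P) :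
    Tendsto (fun j => ⟪cmp (lifts hI hl hm (C, j)).2.1 (ee hI l), g⟫_ℝ) atTop
      (𝓝 ⟪ee hI (cut (hm.2.2.2.1 C) l), g⟫_ℝ) := by
  refine weak_of_total (ee hI) (ee_total hI hu) (B := ‖ee hI l‖)
    (fun j => (LinearIsometry.norm_map _ _).le) (fun l' => ?_) g
  simp only [U_ee hI hl hm, inner_ee_ee, GG_pull hI hm, GG_cut]
  exact (Real.continuous_exp.tendsto _).comp (weak_K ha hm lev C _ _)

theorem weak_I (ha : S_approx) (hu : S_uniq) (C : Cell) (F : L2 (mQ (xi lev))) (g : L2 P) :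
    Tendsto (fun j => ⟪cmp (lifts hI hl hm (C, j)).2.1 (I F), g⟫_ℝ) atTop
      (𝓝 ⟪I (pr (cellM hm C) F), g⟫_ℝ) := by
  refine weak_of_total (ee hI) (ee_total hI hu) (B := ‖I F‖)
    (fun j => (LinearIsometry.norm_map _ _).le) (fun l' => ?_) g
  simp only [U_I hI hl hm, inner_I_ee]
  exact weak_K ha hm lev C _ _

theorem erg (ha : S_approx) (hu : S_uniq) : ErgFam P (fun p => act (uC p)) := by
  intro A hA hinv
  set f : L2 P := indicatorConstLp 2 hA (measure_ne_top P A) (1 : ℝ) with hf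
  have hfa : f =ᵐ[P] A.indicator fun _ => (1 : ℝ) := indicatorConstLp_coeFn
  have hU : ∀ p, cmp (lifts hI hl hm p).2.1 f = f := fun p => by
    refine Lp.ext ((cmp_ae _ hfa).trans (EventuallyEq.trans ?_ hfa.symm))
    filter_upwards [hinv p] with ν hν
    have h1 : act (uC p) ν ∈ A ↔ ν ∈ A := hν.to_iff
    by_cases h : ν ∈ A
    · rw [indicator_of_mem h, indicator_of_mem (h1.2 h)]
    · rw [indicator_of_notMem h, indicator_of_notMem fun h' => h (h1.1 h')]
  have h0 : ∀ l, ee hI (cut (hm.2.2.2.1 (Sum.inr (Sum.inr ()))) l) = ee hI [] := fun l => by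
    have : GG hI (cut (hm.2.2.2.1 (Sum.inr (Sum.inr ()))) l) = 0 :=
      Lp.ext ((GG_ae hI _).trans (EventuallyEq.trans (Eventually.of_forall fun q => by
        simp only [gR_cut]; simp [cell]) (Lp.coeFn_zero _ _ _).symm))
    exact ext_ee hI hu fun l' => by rw [inner_ee_ee, inner_ee_ee, this, GG_nil]
  have h1 : f = ⟪ee hI [], f⟫_ℝ • ee hI [] := ext_ee hI hu fun l => by
    have h2 := weak_ee hI hl hm ha hu (Sum.inr (Sum.inr ())) l f
    simp only [U_symm hI hl hm, hU, h0] at h2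
    rw [real_inner_smul_left, inner_ee_ee, GG_nil, inner_zero_left, Real.exp_zero, mul_one,
      real_inner_comm]
    exact tendsto_nhds_unique tendsto_const_nhds h2
  have h2 : ∀ᵐ ν ∂P, A.indicator (fun _ => (1 : ℝ)) ν = ⟪ee hI [], f⟫_ℝ := by
    filter_upwards [hfa, Lp.coeFn_smul ⟪ee hI [], f⟫_ℝ (ee hI []), ee_nil_ae hI] with ν h3 h4 h5
    rw [← h3]
    conv_lhs => rw [h1]
    rw [h4, Pi.smul_apply, h5, smul_eq_mul, mul_one]
  by_cases hc : ⟪ee hI [], f⟫_ℝ = 1
  · right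
    refine measure_mono_null (fun ν hν => ?_) (ae_iff.1 h2)
    rw [mem_ofPred_eq, hc, indicator_of_notMem hν]
    exact zero_ne_one
  · left
    refine measure_mono_null (fun ν hν => ?_) (ae_iff.1 h2)
    rw [mem_ofPred_eq, indicator_of_mem hν]
    exact fun h => hc h.symm

end shifts

/-- the part of an exponential vector in the higher chaoses -/
noncomputable def rr (l : List (CO × ℝ)) : L2 P := ee hI l - ee hI [] - I (GG hI l)

theorem inner_rr (l l' : List (CO × ℝ)) : ⟪rr hI l, rr hI l'⟫_ℝ =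
    Real.exp ⟪GG hI l, GG hI l'⟫_ℝ - 1 - ⟪GG hI l, GG hI l'⟫_ℝ := by
  have h1 : ∀ F l, ⟪ee hI l, I F⟫_ℝ = ⟪GG hI l, F⟫_ℝ := fun F l => by
    rw [real_inner_comm, inner_I_ee, real_inner_comm]
  simp only [rr, inner_sub_left, inner_sub_right, inner_ee_ee, inner_I_ee, h1, GG_nil,
    inner_zero_left, inner_zero_right, Real.exp_zero, LinearIsometry.inner_map_map]
  ring

theorem small_cells (hm : S_maps) (l : List (CO × ℝ)) : ∃ K : ℝ, ∀ n s,
    ⟪pr (cellM hm (Sum.inr (Sum.inl (n, s)))) (GG hI l),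
      pr (cellM hm (Sum.inr (Sum.inl (n, s)))) (GG hI l)⟫_ℝ ≤ K * (1 / 2) ^ n := by
  obtain ⟨T, hT⟩ := list_finite l
  obtain ⟨B, hB⟩ := gR_bdd l
  refine ⟨(B + 1) ^ 2 * T.card, fun n s => ?_⟩
  set C := cell (Sum.inr (Sum.inl (n, s))) with hC
  have hCm : MeasurableSet C := cellM hm _
  set S : Set Q := ⋃ i ∈ T, {q | q.1 = i} ∩ C with hS
  have hSm : MeasurableSet S := T.measurableSet_biUnion fun i _ =>
    (measurable_fst (measurableSet_singleton i)).inter hCm
  have h1 : mQ (xi lev) S ≤ T.card * (2 : ℝ≥0∞)⁻¹ ^ n := by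
    refine (measure_biUnion_finset_le _ _).trans ?_
    refine (Finset.sum_le_card_nsmul _ _ _ fun i _ => hm.2.2.2.2.1 lev i n s).trans ?_
    rw [nsmul_eq_mul]
  have hfin : (T.card * (2 : ℝ≥0∞)⁻¹ ^ n) ≠ ∞ := by finiteness
  have h2 : (mQ (xi lev)).real S ≤ T.card * (1 / 2) ^ n := by
    refine (ENNReal.toReal_mono hfin h1).trans (le_of_eq ?_)
    simp
  have hpr := pr_ae hCm (GG_ae hI l)
  rw [inner_eq hpr hpr]
  calc _ ≤ ∫ q, S.indicator (fun _ => (B + 1) ^ 2) q ∂(mQ (xi lev)) := by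
        refine integral_mono (integrable_mul' hpr hpr) ((integrable_indicator_iff hSm).2
          (integrableOn_const (ne_top_of_le_ne_top hfin h1))) fun q => ?_
        by_cases hq : q ∈ S
        · have hqC : q ∈ C := by
            obtain ⟨i, -, h⟩ := mem_iUnion₂.1 hq
            exact h.2
          simp only [indicator_of_mem hq, indicator_of_mem hqC]
          have := abs_le.1 (hB q)
          nlinarith
        · simp only [indicator_of_notMem hq]
          by_cases hqC : q ∈ C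
          · have : gR l q = 1 := gR_eq_one fun p hp h =>
              hq (mem_iUnion₂.2 ⟨q.1, hT p hp q h, rfl, hqC⟩)
            simp [indicator_of_mem hqC, this]
          · simp [indicator_of_notMem hqC]
    _ = (mQ (xi lev)).real S * (B + 1) ^ 2 := by
        rw [integral_indicator_const _ hSm, smul_eq_mul]
    _ ≤ _ := by nlinarith [sq_nonneg (B + 1)]

theorem rr_sum_tendsto (hm : S_maps) (l : List (CO × ℝ)) :
    Tendsto (fun n => ∑ s ∈ (Finset.range n).powerset,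
      rr hI (cut (hm.2.2.2.1 (Sum.inr (Sum.inl (n, s)))) l)) atTop (𝓝 0) := by
  obtain ⟨K, hK⟩ := small_cells hI hm l
  have h0 : Tendsto (fun n : ℕ => K * (1 / 2 : ℝ) ^ n) atTop (𝓝 0) := by
    simpa using (tendsto_pow_atTop_nhds_zero_of_lt_one (r := (1 / 2 : ℝ)) (by norm_num)
      (by norm_num)).const_mul K
  rw [tendsto_zero_iff_norm_tendsto_zero]
  have h1 : Tendsto (fun n : ℕ => √(K * (1 / 2 : ℝ) ^ n * ⟪GG hI l, GG hI l⟫_ℝ)) atTop (𝓝 0) := by
    simpa using (h0.mul_const ⟪GG hI l, GG hI l⟫_ℝ).sqrt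
  refine squeeze_zero' (Eventually.of_forall fun n => norm_nonneg _) ?_ h1
  filter_upwards [h0.eventually (ge_mem_nhds one_pos)] with n hn
  apply Real.le_sqrt_of_sq_le
  have hdisj : ∀ s ∈ (Finset.range n).powerset, ∀ t ∈ (Finset.range n).powerset, t ≠ s →
      ⟪pr (cellM hm (Sum.inr (Sum.inl (n, s)))) (GG hI l),
        pr (cellM hm (Sum.inr (Sum.inl (n, t)))) (GG hI l)⟫_ℝ = 0 := by
    intro s hs t ht hts
    refine pr_disj _ _ (disjoint_left.2 fun q h1 h2 => ?_) _ _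
    obtain ⟨u, -, -, hu⟩ := cell_part n q
    exact hts ((hu t ht h2).trans (hu s hs h1).symm)
  have hsum := pr_sum (Finset.range n).powerset (fun s => cellM hm (Sum.inr (Sum.inl (n, s))))
    (cell_part n) (GG hI l)
  rw [← real_inner_self_eq_norm_sq, sum_inner]
  conv_rhs => rw [← hsum, sum_inner, Finset.mul_sum]
  refine Finset.sum_le_sum fun s hs => ?_
  rw [inner_sum, inner_sum, Finset.sum_eq_single_of_mem s hs, Finset.sum_eq_single_of_mem s hs]
  · rw [inner_rr, GG_cut]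
    have h2 := hK n s
    have h3 := real_inner_self_nonneg (x := pr (cellM hm (Sum.inr (Sum.inl (n, s)))) (GG hI l))
    have h4 := (le_abs_self _).trans (Real.abs_exp_sub_one_sub_id_le (x := ⟪pr (cellM hm
      (Sum.inr (Sum.inl (n, s)))) (GG hI l), pr (cellM hm (Sum.inr (Sum.inl (n, s)))) (GG hI l)⟫_ℝ)
      (by rw [abs_of_nonneg h3]; exact h2.trans hn))
    refine h4.trans ?_
    rw [sq]
    exact mul_le_mul_of_nonneg_right h2 h3
  · exact hdisj s hs
  · intro t ht hts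
    rw [inner_rr, GG_cut, GG_cut, hdisj s hs t ht hts]
    simp

end First

open First in
theorem first_ok (ha : S_approx) (hu : S_uniq) (hl : S_lift) (hm : S_maps) : S_first := by
  intro lev P _ I hI
  refine ⟨erg hI hl hm ha hu, fun h h' hc hcomm => ?_⟩
  obtain ⟨hh, hh', -, hinv⟩ := id hc
  have hW : ∀ g, cmp hh (cmp hh' g) = g := cmp_inv hh hh' hc.2.2.1
  have hWU : ∀ p g, cmp hh (cmp (lifts hI hl hm p).2.1 g) = cmp (lifts hI hl hm p).2.1 (cmp hh g) :=
    fun p g => cmp_cmp _ _ _ _ (hcomm p).symm g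
  have key : ∀ (C : Cell) (F : L2 (mQ (xi lev))) (g : L2 P),
      Tendsto (fun j => ⟪cmp (lifts hI hl hm (C, j)).2.1 (cmp hh (I F)), g⟫_ℝ) atTop
        (𝓝 ⟪cmp hh (I (pr (cellM hm C) F)), g⟫_ℝ) := by
    intro C F g
    rw [← hW g]
    simp only [← hWU, LinearIsometry.inner_map_map]
    exact weak_I hI hl hm ha hu C F _
  refine ⟨fun F => ?_, fun F F' C F₁ F₁' hF h1 h1' => ?_⟩
  · set f := cmp hh (I F) with hf
    refine ⟨ContinuousLinearMap.adjoint I.toContinuousLinearMap f, (tr_iff hh _ _).2 ?_⟩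
    refine ext_ee hI hu fun l => ?_
    rw [inner_I_ee, ContinuousLinearMap.adjoint_inner_left, LinearIsometry.coe_toContinuousLinearMap]
    have h0 : ⟪f, ee hI []⟫_ℝ = 0 := by
      have : cmp hh (ee hI []) = ee hI [] :=
        Lp.ext ((cmp_ae hh (ee_nil_ae hI)).trans (ee_nil_ae hI).symm)
      rw [hf, ← this, LinearIsometry.inner_map_map, inner_I_ee, GG_nil, inner_zero_right]
    have h2 : ∀ C, ⟪cmp hh (I (pr (cellM hm C) F)), ee hI l⟫_ℝ =
        ⟪f, I (pr (cellM hm C) (GG hI l))⟫_ℝ + ⟪f, rr hI (cut (hm.2.2.2.1 C) l)⟫_ℝ := by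
      intro C
      have h3 := key C F (ee hI l)
      have h4 := weak_ee hI hl hm ha hu C l f
      simp only [U_symm hI hl hm _ (cmp hh (I F))] at h3
      simp only [real_inner_comm f] at h4
      rw [tendsto_nhds_unique h3 h4, rr, inner_sub_right, inner_sub_right, h0, GG_cut]
      ring
    have h5 : ∀ n, ⟪f, ee hI l⟫_ℝ = ⟪f, I (GG hI l)⟫_ℝ + ⟪f, ∑ s ∈ (Finset.range n).powerset,
        rr hI (cut (hm.2.2.2.1 (Sum.inr (Sum.inl (n, s)))) l)⟫_ℝ := by
      intro n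
      have hsum := fun G : L2 (mQ (xi lev)) => pr_sum (Finset.range n).powerset
        (fun s => cellM hm (Sum.inr (Sum.inl (n, s)))) (cell_part n) G
      conv_lhs => rw [hf, ← hsum F, map_sum, map_sum, sum_inner]
      conv_rhs => rw [← hsum (GG hI l), map_sum, inner_sum, inner_sum, ← Finset.sum_add_distrib]
      exact Finset.sum_congr rfl fun s _ => h2 _
    have h6 := ((tendsto_const_nhds (x := f)).inner (𝕜 := ℝ) (rr_sum_tendsto hI hm l)).const_add
      ⟪f, I (GG hI l)⟫_ℝ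
    simp only [← h5, inner_zero_right, add_zero] at h6
    exact tendsto_nhds_unique tendsto_const_nhds h6
  · have e1 : F₁ = pr (cellM hm C) F := Lp.ext (h1.trans (pr_ae _ EventuallyEq.rfl).symm)
    have e2 : F₁' = pr (cellM hm C) F' := Lp.ext (h1'.trans (pr_ae _ EventuallyEq.rfl).symm)
    rw [tr_iff hh, e1, e2]
    refine ext_ee hI hu fun l => ?_
    have h3 := key C F (ee hI l)
    rw [(tr_iff hh _ _).1 hF] at h3
    exact tendsto_nhds_unique h3 (weak_I hI hl hm ha hu C F' _)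

end Pool.Agent.P.MP_c1aa6a_an
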