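import Pool.Agent.P.MP_c1aa6a_an.Defs

/-! A structure isomorphism with summable flips gives a conjugacy of the families `alpha`. -/

set_option autoImplicit false
open MeasureTheory Set Filter Topology
open scoped ENNReal NNReal symmDiff

namespace Pool.Agent.P.MP_c1aa6a_an

theorem iso_mp_reindex {ι : Type} (μ : ι → Measure Bool) [∀ i, IsProbabilityMeasure (μ i)]
    (e : ι ≃ ι) (he : ∀ i, μ (e i) = μ i) :
    MeasurePreserving (fun (ξ : ι → Bool) i => ξ (e i)) (Measure.infinitePi μ)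
      (Measure.infinitePi μ) := by
  have hm : Measurable (fun (ξ : ι → Bool) i => ξ (e i)) :=
    measurable_pi_lambda _ fun i => measurable_pi_apply _
  refine ⟨hm, Measure.eq_infinitePi _ fun s t ht => ?_⟩
  rw [Measure.map_apply hm (MeasurableSet.pi s.countable_toSet fun i _ => ht i)]
  have : (fun (ξ : ι → Bool) i => ξ (e i)) ⁻¹' (Set.pi s t) =
      Set.pi (s.map e.toEmbedding) (fun j => t (e.symm j)) := by
    ext ξ
    simp only [mem_preimage, Set.mem_pi, Finset.mem_coe, Finset.mem_map_equiv]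
    constructor
    · intro h j hj
      simpa using h _ hj
    · intro h i hi
      simpa using h (e i) (by simpa using hi)
  rw [this, Measure.infinitePi_pi _ fun j _ => ht _, Finset.prod_map]
  simp [he]

theorem iso_mp_count (e : Idx ≃ Idx) :
    MeasurePreserving e (Measure.count : Measure Idx) Measure.count := by
  refine ⟨Measurable.of_discrete, ?_⟩
  ext s hs
  rw [Measure.map_apply Measurable.of_discrete hs, Measure.count_apply hs,
    Measure.count_apply MeasurableSet.of_discrete, ← e.injective.encard_image,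
    e.image_preimage]

/-- `hsMap` as a permutation -/
def isoSig (τ : ℕ ≃ ℕ) (fl : ℕ → Bool) : HS ≃ HS where
  toFun := hsMap τ fl
  invFun k := (τ.symm k.1, xor k.2 (fl (τ.symm k.1)))
  left_inv k := by simp [hsMap]
  right_inv k := by simp [hsMap]

def isoIdx (τ : ℕ ≃ ℕ) (σ : HS ≃ HS) : Idx ≃ Idx where
  toFun i := ⟨i.c, σ i.k, σ i.k', i.n, i.d, i.F.map τ.toEmbedding⟩
  invFun i := ⟨i.c, σ.symm i.k, σ.symm i.k', i.n, i.d, i.F.map τ.symm.toEmbedding⟩
  left_inv i := by
    ext <;> simp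
  right_inv i := by
    ext <;> simp

def isoCrd (τ : ℕ ≃ ℕ) (σ : HS ≃ HS) : Crd ≃ Crd :=
  Equiv.sumCongr τ (Equiv.sumCongr (Equiv.refl ℕ) σ)

def isoPerm (τ : ℕ ≃ ℕ) (σ : HS ≃ HS) (q : Q) : Q :=
  (isoIdx τ σ q.1, fun c => q.2 ((isoCrd τ σ).symm c))

def isoPerm' (τ : ℕ ≃ ℕ) (σ : HS ≃ HS) (q : Q) : Q :=
  ((isoIdx τ σ).symm q.1, fun c => q.2 (isoCrd τ σ c))

theorem iso_perm_perm' (τ : ℕ ≃ ℕ) (σ : HS ≃ HS) (q : Q) : isoPerm τ σ (isoPerm' τ σ q) = q := by
  simp [isoPerm, isoPerm']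

theorem iso_perm'_perm (τ : ℕ ≃ ℕ) (σ : HS ≃ HS) (q : Q) : isoPerm' τ σ (isoPerm τ σ q) = q := by
  simp [isoPerm, isoPerm']

theorem iso_clev {lev : ℕ → ℕ} {τ : ℕ ≃ ℕ} (σ : HS ≃ HS) (h : ∀ h, lev (τ h) = lev h) (c : Crd) :
    clev lev (isoCrd τ σ c) = clev lev c := by
  rcases c with c | c | c <;> simp [clev, isoCrd, h]

theorem iso_mp_perm {lev : ℕ → ℕ} {τ : ℕ ≃ ℕ} (σ : HS ≃ HS) (h : ∀ h, lev (τ h) = lev h) :
    MeasurePreserving (isoPerm τ σ) (mQ (xi lev)) (mQ (xi lev)) := by
  refine (iso_mp_count (isoIdx τ σ)).prod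
    (iso_mp_reindex (fun c => bern (clev lev c)) (isoCrd τ σ).symm fun c => ?_)
  rw [← iso_clev σ h, Equiv.apply_symm_apply]

theorem iso_mp_perm' {lev : ℕ → ℕ} {τ : ℕ ≃ ℕ} (σ : HS ≃ HS) (h : ∀ h, lev (τ h) = lev h) :
    MeasurePreserving (isoPerm' τ σ) (mQ (xi lev)) (mQ (xi lev)) := by
  refine (iso_mp_count (isoIdx τ σ).symm).prod
    (iso_mp_reindex (fun c => bern (clev lev c)) (isoCrd τ σ) fun c => ?_)
  rw [iso_clev σ h]

/-- `T` is the set of visible flipped walls -/
def isoIs (fl : ℕ → Bool) (x : ℕ → Bool) (T : Finset ℕ) : Prop :=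
  ∀ h, h ∈ T ↔ (fl h = true ∧ x h = true)

open Classical in
noncomputable def isoFs (fl : ℕ → Bool) (x : ℕ → Bool) : Finset ℕ :=
  if h : ∃ T, isoIs fl x T then h.choose else ∅

theorem iso_is_meas (fl : ℕ → Bool) (T : Finset ℕ) : MeasurableSet {x | isoIs fl x T} := by
  unfold isoIs
  rw [ofPred_forall]
  refine MeasurableSet.iInter fun h => ?_
  have hm : Measurable fun x : ℕ → Bool => x h := measurable_pi_apply h
  exact hm (MeasurableSet.of_discrete (s := {b : Bool | h ∈ T ↔ (fl h = true ∧ b = true)}))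

theorem iso_fs_meas (fl : ℕ → Bool) (T : Finset ℕ) : MeasurableSet {x | isoFs fl x = T} := by
  have : {x | isoFs fl x = T} =
      {x | isoIs fl x T} ∪ ((⋃ T', {x | isoIs fl x T'})ᶜ ∩ {_x | T = ∅}) := by
    ext x
    simp only [mem_ofPred_eq, mem_union, mem_inter_iff, mem_compl_iff, mem_iUnion, isoFs]
    split_ifs with h
    · have h1 := h.choose_spec
      constructor
      · rintro rfl
        exact Or.inl h1
      · rintro (h2 | h2)
        · ext a
          rw [h1 a, h2 a]
        · exact absurd h h2.1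
    · constructor
      · rintro rfl
        exact Or.inr ⟨h, rfl⟩
      · rintro (h2 | h2)
        · exact absurd ⟨T, h2⟩ h
        · exact h2.2.symm
  rw [this]
  exact (iso_is_meas fl T).union
    ((MeasurableSet.iUnion fun T' => iso_is_meas fl T').compl.inter (MeasurableSet.const _))

def isoFlipIdx (T : Finset ℕ) : Idx ≃ Idx where
  toFun i := {i with F := i.F ∆ T}
  invFun i := {i with F := i.F ∆ T}
  left_inv i := by simp
  right_inv i := by simp

noncomputable def isoFlip (fl : ℕ → Bool) (q : Q) : Q :=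
  (isoFlipIdx (isoFs fl fun h => q.2 (Sum.inl h)) q.1, q.2)

theorem iso_flip_flip (fl : ℕ → Bool) (q : Q) : isoFlip fl (isoFlip fl q) = q := by
  simp [isoFlip, isoFlipIdx]

theorem iso_mp_flip (ξ : Measure Xi) [IsProbabilityMeasure ξ] (fl : ℕ → Bool) :
    MeasurePreserving (isoFlip fl) (mQ ξ) (mQ ξ) := by
  have hm : Measurable (Function.uncurry fun (x : Xi) (i : Idx) =>
      isoFlipIdx (isoFs fl fun h => x (Sum.inl h)) i) := by
    refine measurable_to_countable' fun j => ?_
    have : (Function.uncurry fun (x : Xi) (i : Idx) =>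
        isoFlipIdx (isoFs fl fun h => x (Sum.inl h)) i) ⁻¹' {j} =
        ⋃ T : Finset ℕ, ((fun (x : Xi) h => x (Sum.inl h)) ⁻¹' {x | isoFs fl x = T}) ×ˢ
          {i | isoFlipIdx T i = j} := by
      ext ⟨x, i⟩
      simp
    rw [this]
    exact MeasurableSet.iUnion fun T => MeasurableSet.prod
      (measurable_pi_lambda _ (fun h => measurable_pi_apply _) (iso_fs_meas fl T))
      MeasurableSet.of_discrete
  have h1 := (MeasurePreserving.id ξ).skew_product (μc := (Measure.count : Measure Idx))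
    (μd := (Measure.count : Measure Idx)) hm
    (Eventually.of_forall fun x => (iso_mp_count _).map_eq)
  exact (Measure.measurePreserving_swap.comp h1).comp Measure.measurePreserving_swap

theorem iso_good_ae {lev : ℕ → ℕ} {fl : ℕ → Bool}
    (hs : Summable (fun h => if fl h = true then wt (lev h) else 0)) :
    ∀ᵐ q ∂(mQ (xi lev)), isoIs fl (fun h => q.2 (Sum.inl h)) (isoFs fl fun h => q.2 (Sum.inl h)) := by
  have h1 : ∀ h, xi lev {x | fl h = true ∧ x (Sum.inl h) = true} =
      ENNReal.ofReal (if fl h = true then wt (lev h) else 0) := by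
    intro h
    split_ifs with hf
    · have e := (measurePreserving_eval_infinitePi (fun c => bern (clev lev c))
        (Sum.inl h)).measure_preimage (s := {true}) MeasurableSet.of_discrete.nullMeasurableSet
      have e2 : {x : Xi | fl h = true ∧ x (Sum.inl h) = true} =
          Function.eval (β := fun _ : Crd => Bool) (Sum.inl h) ⁻¹' {true} := by
        ext x; simp [hf]
      rw [e2, xi, e, wt, ENNReal.ofReal_pow (by norm_num), one_div,
        ENNReal.ofReal_inv_of_pos (by norm_num)]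
      simp [bern, clev]
    · simp [hf]
  have h2 : ∀ᵐ x ∂(xi lev), {h | x ∈ {x : Xi | fl h = true ∧ x (Sum.inl h) = true}}.Finite := by
    refine ae_finite_setOfPred_mem ?_
    simp only [h1]
    exact hs.tsum_ofReal_ne_top
  have h3 : ∀ᵐ x ∂(xi lev),
      isoIs fl (fun h => x (Sum.inl h)) (isoFs fl fun h => x (Sum.inl h)) := by
    filter_upwards [h2] with x hx
    have h4 : ∃ T, isoIs fl (fun h => x (Sum.inl h)) T := ⟨hx.toFinset, fun h => by simp⟩
    unfold isoFs
    rw [dif_pos h4]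
    exact h4.choose_spec
  exact Measure.quasiMeasurePreserving_snd.ae h3

noncomputable def isoMap (τ : ℕ ≃ ℕ) (fl : ℕ → Bool) (q : Q) : Q :=
  isoPerm τ (isoSig τ fl) (isoFlip fl q)

theorem iso_Jm {R R' : ℕ → HS → HS → Prop} {τ : ℕ ≃ ℕ} {fl : ℕ → Bool}
    (hR : ∀ c k k', R' c (hsMap τ fl k) (hsMap τ fl k') ↔ R c k k') {q : Q}
    (hq : isoIs fl (fun h => q.2 (Sum.inl h)) (isoFs fl fun h => q.2 (Sum.inl h))) (k : HS) :
    Jm R' (isoMap τ fl q) (isoSig τ fl k) ↔ Jm R q k := by
  obtain ⟨⟨c, k₁, k₂, n, d, F⟩, x⟩ := q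
  have e1 : (isoMap τ fl (⟨c, k₁, k₂, n, d, F⟩, x)).1 = ⟨c, isoSig τ fl k₁, isoSig τ fl k₂, n, d,
      (F ∆ isoFs fl fun h => x (Sum.inl h)).map τ.toEmbedding⟩ := rfl
  have e2 : (isoMap τ fl (⟨c, k₁, k₂, n, d, F⟩, x)).2 (Sum.inl (isoSig τ fl k).1) =
      x (Sum.inl k.1) := by
    simp [isoMap, isoPerm, isoFlip, isoCrd, isoSig, hsMap]
  unfold Jm
  rw [e2, e1]
  match c with
  | 0 => simp
  | 1 => simp
  | 2 =>
    simp only
    refine and_congr_right fun hx => ?_
    have h1 := hq k.1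
    simp only [hx, and_true] at h1
    have h2 : (isoSig τ fl k).1 = τ k.1 := rfl
    have h3 : (isoSig τ fl k).2 = xor k.2 (fl k.1) := rfl
    rw [h2, h3, Finset.mem_map_equiv, Equiv.symm_apply_apply, Finset.mem_symmDiff, h1]
    cases k.2 <;> cases fl k.1 <;> simp
  | c + 3 =>
    simp only [EmbeddingLike.apply_eq_iff_eq]
    exact and_congr_left' (hR c k₁ k₂)

theorem iso_rho {R R' : ℕ → HS → HS → Prop} {τ : ℕ ≃ ℕ} {fl : ℕ → Bool}
    (hR : ∀ c k k', R' c (hsMap τ fl k) (hsMap τ fl k') ↔ R c k k') (a : At → Bool) {q : Q}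
    (hq : isoIs fl (fun h => q.2 (Sum.inl h)) (isoFs fl fun h => q.2 (Sum.inl h))) :
    isoMap τ fl (rho R a q) =
      rho R' (fun b => a ((isoSig τ fl).symm b.1, b.2)) (isoMap τ fl q) := by
  have e : (fun h => (rho R a q).2 (Sum.inl h)) = fun h => q.2 (Sum.inl h) := by
    funext h; simp [rho, msk]
  refine Prod.ext ?_ ?_
  · change isoIdx τ _ (isoFlipIdx (isoFs fl fun h => (rho R a q).2 (Sum.inl h)) q.1) = _
    rw [e]
    rfl
  · funext c
    change xor (q.2 ((isoCrd τ _).symm c)) (msk R a q ((isoCrd τ _).symm c)) =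
      xor (q.2 ((isoCrd τ _).symm c)) (msk R' _ (isoMap τ fl q) c)
    congr 1
    rcases c with c | c | c
    · rfl
    · rfl
    · have h1 := iso_Jm hR hq ((isoSig τ fl).symm c)
      rw [Equiv.apply_symm_apply] at h1
      change (a ((isoSig τ fl).symm c, q.1.n) &&
          @decide (Jm R q ((isoSig τ fl).symm c)) (Classical.propDecidable _)) =
        (a ((isoSig τ fl).symm c, q.1.n) &&
          @decide (Jm R' (isoMap τ fl q) c) (Classical.propDecidable _))
      rw [h1]

theorem iso_cell (τ : ℕ ≃ ℕ) (fl : ℕ → Bool) (C : Cell) (q : Q) :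
    isoMap τ fl q ∈ cell C ↔ q ∈ cell C := by
  rcases C with c | p | u <;> rfl

theorem iso_uC (τ : ℕ ≃ ℕ) (fl : ℕ → Bool) (p : Cell × ℕ) (q : Q) :
    isoMap τ fl (uC p q) = uC p (isoMap τ fl q) := by
  unfold uC
  rw [iso_cell]
  split_ifs <;> rfl

theorem iso_nsh (τ : ℕ ≃ ℕ) (fl : ℕ → Bool) (j : ℕ) (q : Q) :
    isoMap τ fl (nsh j q) = nsh j (isoMap τ fl q) := rfl

theorem iso_meas_act (hm : S_maps) (R : ℕ → HS → HS → Prop) :
    Measurable (fun p : (At → Bool) × Cf => act (rho R p.1) p.2) := by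
  obtain ⟨h1, -, -, -, -, h6, h7⟩ := hm
  refine measurable_pi_lambda _ fun E => measurable_to_countable' fun m => ?_
  have hE : ∀ E' : CO, MeasurableSet {a : At → Bool | preCO (rho R a) E = E'} := by
    intro E'
    have : {a : At → Bool | preCO (rho R a) E = E'} =
        ⋂ q, {a | rho R a q ∈ E.1 ↔ q ∈ E'.1} := by
      ext a
      simp only [mem_ofPred_eq, mem_iInter]
      have h8 := h6 _ (h1 (fun _ => 0) R a).1 E
      constructor
      · rintro rfl q
        rw [h8]; rfl
      · intro h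
        exact Subtype.ext (h8.trans (Set.ext h))
    rw [this]
    refine (isClosed_iInter fun q => ?_).measurableSet
    have hc : Continuous fun a : At → Bool => rho R a q :=
      (h7 R).comp (continuous_id.prodMk continuous_const)
    by_cases hq : q ∈ E'.1
    · simp only [hq, iff_true]
      exact E.2.1.isClosed.preimage hc
    · simp only [hq, iff_false]
      exact (E.2.2.preimage hc).isClosed_compl
  have : (fun p : (At → Bool) × Cf => act (rho R p.1) p.2 E) ⁻¹' {m} =
      ⋃ E' : CO, {a : At → Bool | preCO (rho R a) E = E'} ×ˢ {ν : Cf | ν E' = m} := by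
    ext ⟨a, ν⟩
    simp [act]
  rw [this]
  refine MeasurableSet.iUnion fun E' => (hE E').prod ?_
  have hm : Measurable fun ν : Cf => ν E' := measurable_pi_apply E'
  exact hm (measurableSet_singleton m)

theorem iso_ok (hl : S_lift) (hm : S_maps) : S_iso := by
  intro lev P _ I hI R R' τ fl hlev hR hs
  obtain ⟨l1, l2, l3, l4, l5⟩ := hl (xi lev) P I hI
  have m1 : MeasurePreserving (isoMap τ fl) (mQ (xi lev)) (mQ (xi lev)) :=
    (iso_mp_perm _ hlev).comp (iso_mp_flip _ fl)
  have m2 : MeasurePreserving (isoFlip fl ∘ isoPerm' τ (isoSig τ fl)) (mQ (xi lev))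
      (mQ (xi lev)) := (iso_mp_flip _ fl).comp (iso_mp_perm' _ hlev)
  obtain ⟨S, hS⟩ := l1 _ m1
  obtain ⟨S', hS'⟩ := l1 _ m2
  have i1 : S' ∘ S =ᵐ[P] id := l4 _ _ _ _ (l3 _ _ _ _ hS hS') l5 (Eventually.of_forall fun q => by
    simp [isoMap, iso_perm'_perm, iso_flip_flip])
  have i2 : S ∘ S' =ᵐ[P] id := l4 _ _ _ _ (l3 _ _ _ _ hS' hS) l5 (Eventually.of_forall fun q => by
    simp [isoMap, iso_perm_perm', iso_flip_flip])
  have com : ∀ t t', Good t ∧ MeasurePreserving t (mQ (xi lev)) (mQ (xi lev)) →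
      Good t' ∧ MeasurePreserving t' (mQ (xi lev)) (mQ (xi lev)) →
      (∀ᵐ q ∂(mQ (xi lev)), isoMap τ fl (t q) = t' (isoMap τ fl q)) →
      ∀ᵐ ν ∂P, S (act t ν) = act t' (S ν) := fun t t' ht ht' h =>
    l4 _ _ _ _ (l3 _ _ _ _ (l2 t ht.1 ht.2) hS) (l3 _ _ _ _ hS (l2 t' ht'.1 ht'.2)) h
  let e : At × ℕ ≃ At × ℕ :=
    Equiv.prodCongr (Equiv.prodCongr (isoSig τ fl).symm (Equiv.refl _)) (Equiv.refl _)
  have u1 : MeasurePreserving (fun (η : Yl) i => η (e i)) (unif (At × ℕ)) (unif (At × ℕ)) :=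
    iso_mp_reindex (fun _ => bern 0) e fun _ => rfl
  have u2 : MeasurePreserving (fun (η : Yl) i => η (e.symm i)) (unif (At × ℕ)) (unif (At × ℕ)) :=
    iso_mp_reindex (fun _ => bern 0) e.symm fun _ => rfl
  have hsnd : Measure.QuasiMeasurePreserving Prod.snd ((unif (At × ℕ)).prod P) P :=
    Measure.quasiMeasurePreserving_snd
  refine ⟨Prod.map (fun (η : Yl) i => η (e i)) S, Prod.map (fun (η : Yl) i => η (e.symm i)) S',
    ⟨u1.prod hS.2.1, u2.prod hS'.2.1, ?_, ?_⟩, ?_⟩
  · filter_upwards [hsnd.ae i1] with w hw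
    exact Prod.ext (by funext i; simp) hw
  · filter_upwards [hsnd.ae i2] with w hw
    exact Prod.ext (by funext i; simp) hw
  · rintro (j | i | p)
    · filter_upwards [hsnd.ae (com _ _ (hm.2.2.1 lev j) (hm.2.2.1 lev j)
        (Eventually.of_forall (iso_nsh τ fl j)))] with w hw
      exact Prod.ext rfl hw
    · have hmeas : MeasurableSet {w : Yl × Cf | S (act (rho R fun a => w.1 (a, i)) w.2) =
          act (rho R' fun a => w.1 (e (a, i))) (S w.2)} := by
        refine measurableSet_eq_fun (hS.2.1.measurable.comp ((iso_meas_act hm R).comp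
          (f := fun w : Yl × Cf => (fun a => w.1 (a, i), w.2)) ?_))
          ((iso_meas_act hm R').comp
            (f := fun w : Yl × Cf => (fun a => w.1 (e (a, i)), S w.2)) ?_)
        · exact (measurable_pi_lambda _ fun a => (measurable_pi_apply _).comp measurable_fst).prodMk
            measurable_snd
        · exact (measurable_pi_lambda _ fun a => (measurable_pi_apply _).comp measurable_fst).prodMk
            (hS.2.1.measurable.comp measurable_snd)
      have h3 : ∀ η : Yl, ∀ᵐ ν ∂P, S (act (rho R fun a => η (a, i)) ν) =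
          act (rho R' fun a => η (e (a, i))) (S ν) := fun η =>
        com (rho R fun a => η (a, i)) (rho R' fun a => η (e (a, i))) (hm.1 lev R _) (hm.1 lev R' _)
          ((iso_good_ae hs).mono fun q hq => iso_rho hR (fun a => η (a, i)) hq)
      have h2 := (Measure.ae_prod_iff_ae_ae (μ := unif (At × ℕ)) (ν := P) hmeas).2
        (Eventually.of_forall h3)
      filter_upwards [h2] with w hw
      exact Prod.ext rfl hw
    · filter_upwards [hsnd.ae (com _ _ (hm.2.1 lev p) (hm.2.1 lev p)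
        (Eventually.of_forall (iso_uC τ fl p)))] with w hw
      exact Prod.ext rfl hw

end Pool.Agent.P.MP_c1aa6a_an
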