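import Pool.Agent.P.MP_c1aa6a_an.Defs

/-! The odometer skew product is measure preserving and its square is the next one. -/

set_option autoImplicit false
set_option linter.unusedSectionVars false
open MeasureTheory Set Filter Topology
open scoped ENNReal

namespace Pool.Agent.P.MP_c1aa6a_an

namespace L0a

theorem flip_apply (m j : ℕ) (ξ : ℕ → Bool) :
    flipAt m ξ j = if j = m then !ξ j else ξ j := by
  unfold flipAt
  by_cases h : j = m
  · subst h; simp
  · simp [h]

theorem flip_flip (m : ℕ) (ξ : ℕ → Bool) : flipAt m (flipAt m ξ) = ξ := by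
  funext j
  rw [flip_apply, flip_apply]
  split_ifs <;> simp

theorem flip_comm (m m' : ℕ) (ξ : ℕ → Bool) :
    flipAt m (flipAt m' ξ) = flipAt m' (flipAt m ξ) := by
  funext j
  simp only [flip_apply]
  split_ifs <;> simp

theorem flip_meas (m : ℕ) : Measurable (flipAt m) := by
  refine measurable_pi_iff.mpr fun j => ?_
  simp only [flip_apply]
  split_ifs
  · exact (measurable_from_top (f := fun b : Bool => !b)).comp (measurable_pi_apply j)
  · exact measurable_pi_apply j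

variable {Y : Type}

theorem gam_cases (m : ℕ) :
    (∃ j, ∀ {Z : Type} (α : ℕ → Z → Z), gam α m = α j) ∨
      ∀ {Z : Type} (α : ℕ → Z → Z), gam α m = id := by
  by_cases h : ∃ k, m = k * k
  · exact Or.inl ⟨_, fun α => by unfold gam; rw [if_pos h]⟩
  · exact Or.inr fun α => by unfold gam; rw [if_neg h]

theorem tau_tau {α : ℕ → Y → Y} (h : ∀ j, Function.Involutive (α j)) (m : ℕ)
    (ω : (ℕ → Bool) × Y) : tau α m (tau α m ω) = ω := by
  refine Prod.ext (flip_flip m ω.1) ?_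
  change gam α m (gam α m ω.2) = ω.2
  rcases gam_cases m with ⟨j, hj⟩ | hj
  · rw [hj]; exact h j _
  · rw [hj]; rfl

theorem tau_comm {α : ℕ → Y → Y} (h : ∀ i j, Function.Commute (α i) (α j)) (m m' : ℕ)
    (ω : (ℕ → Bool) × Y) : tau α m (tau α m' ω) = tau α m' (tau α m ω) := by
  refine Prod.ext (flip_comm m m' ω.1) ?_
  change gam α m (gam α m' ω.2) = gam α m' (gam α m ω.2)
  rcases gam_cases m with ⟨j, hj⟩ | hj <;> rcases gam_cases m' with ⟨j', hj'⟩ | hj' <;>
    rw [hj, hj']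
  · exact h j j' _
  · rfl
  · rfl

theorem run_succ (α : ℕ → Y → Y) (k n : ℕ) (ω : (ℕ → Bool) × Y) :
    tauRun α k (n + 1) ω = tau α (k + n) (tauRun α k n ω) := rfl

theorem run_zero (α : ℕ → Y → Y) (k : ℕ) (ω : (ℕ → Bool) × Y) : tauRun α k 0 ω = ω := rfl

theorem run_succ' (α : ℕ → Y → Y) (k n : ℕ) (ω : (ℕ → Bool) × Y) :
    tauRun α k (n + 1) ω = tauRun α (k + 1) n (tau α k ω) := by
  induction n with
  | zero => rfl
  | succ n ih =>
    rw [run_succ, ih, run_succ]
    congr 1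
    omega

theorem tau_run {α : ℕ → Y → Y} (h : ∀ i j, Function.Commute (α i) (α j)) (m k n : ℕ)
    (ω : (ℕ → Bool) × Y) : tau α m (tauRun α k n ω) = tauRun α k n (tau α m ω) := by
  induction n with
  | zero => rfl
  | succ n ih => rw [run_succ, run_succ, tau_comm h, ih]

theorem run_run {α : ℕ → Y → Y} (hi : ∀ j, Function.Involutive (α j))
    (h : ∀ i j, Function.Commute (α i) (α j)) (k n : ℕ) (ω : (ℕ → Bool) × Y) :
    tauRun α k n (tauRun α k n ω) = ω := by
  induction n with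
  | zero => rfl
  | succ n ih => rw [run_succ, run_succ, ← tau_run h, tau_tau hi, ih]

theorem run_fst (α : ℕ → Y → Y) (k n j : ℕ) (ω : (ℕ → Bool) × Y) :
    (tauRun α k n ω).1 j = if k ≤ j ∧ j < k + n then !ω.1 j else ω.1 j := by
  induction n with
  | zero => rw [if_neg (by omega)]; rfl
  | succ n ih =>
    rw [run_succ]
    change flipAt (k + n) (tauRun α k n ω).1 j = _
    rw [flip_apply, ih]
    by_cases h1 : j = k + n
    · rw [if_pos h1, if_neg (by omega), if_pos (by omega)]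
    · rw [if_neg h1]
      by_cases h2 : k ≤ j ∧ j < k + n
      · rw [if_pos h2, if_pos (by omega)]
      · rw [if_neg h2, if_neg (by omega)]

/-- The first index from `k` on with digit `b` is `k + n`. -/
def D (b : Bool) (k n : ℕ) : Set (ℕ → Bool) := {ξ | ξ (k + n) = b ∧ ∀ i < n, ξ (k + i) ≠ b}

theorem D_meas (b : Bool) (k n : ℕ) : MeasurableSet (D b k n) := by
  unfold D
  measurability

theorem exists_D {b : Bool} {k : ℕ} {ξ : ℕ → Bool} (h : ∃ n, ξ (k + n) = b) :
    ∃ n, ξ ∈ D b k n := by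
  classical
  exact ⟨Nat.find h, Nat.find_spec h, fun i hi => Nat.find_min h hi⟩

theorem D_disj (b : Bool) (k : ℕ) : Pairwise (Function.onFun Disjoint (D b k)) := by
  intro n m hnm
  refine Set.disjoint_left.mpr fun ξ h1 h2 => ?_
  rcases lt_or_gt_of_ne hnm with h | h
  · exact h2.2 n h h1.1
  · exact h1.2 m h h2.1

theorem Tb_of_D {b : Bool} (α : ℕ → Y → Y) {k n : ℕ} {ω : (ℕ → Bool) × Y} (h : ω.1 ∈ D b k n) :
    Tb b α k ω = tauRun α k (n + 1) ω := by
  classical
  have h1 : ∃ n, ω.1 (k + n) = b := ⟨n, h.1⟩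
  unfold Tb
  rw [dif_pos h1]
  congr 2
  exact (Nat.find_eq_iff h1).mpr ⟨h.1, h.2⟩

theorem Tb_of_not {b : Bool} (α : ℕ → Y → Y) {k : ℕ} {ω : (ℕ → Bool) × Y}
    (h : ¬ ∃ n, ω.1 (k + n) = b) : Tb b α k ω = ω := by
  unfold Tb
  rw [dif_neg h]

theorem run_D {b : Bool} (α : ℕ → Y → Y) {k n : ℕ} {ω : (ℕ → Bool) × Y} (h : ω.1 ∈ D b k n) :
    (tauRun α k (n + 1) ω).1 ∈ D (!b) k n := by
  refine ⟨?_, fun i hi => ?_⟩
  · rw [run_fst, if_pos (by omega), h.1]
  · rw [run_fst, if_pos (by omega)]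
    have := h.2 i hi
    simpa using this

theorem Tb_Tb {b : Bool} {α : ℕ → Y → Y} (hi : ∀ j, Function.Involutive (α j))
    (h : ∀ i j, Function.Commute (α i) (α j)) {k : ℕ} {ω : (ℕ → Bool) × Y}
    (hω : ∃ n, ω.1 (k + n) = b) : Tb (!b) α k (Tb b α k ω) = ω := by
  obtain ⟨n, hn⟩ := exists_D hω
  rw [Tb_of_D α hn, Tb_of_D α (run_D α hn), run_run hi h]

theorem Tb_sq {α : ℕ → Y → Y} (hi : ∀ j, Function.Involutive (α j))
    (h : ∀ i j, Function.Commute (α i) (α j)) {k : ℕ} {ω : (ℕ → Bool) × Y}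
    (hω : ∃ n, ω.1 (k + 1 + n) = false) :
    Tb false α k (Tb false α k ω) = Tb false α (k + 1) ω := by
  obtain ⟨n, hn⟩ := exists_D hω
  rw [Tb_of_D α hn]
  cases h0 : ω.1 k with
  | false =>
    have h1 : ω.1 ∈ D false k 0 := ⟨h0, fun i hi => absurd hi (by omega)⟩
    have h2 : (tau α k ω).1 ∈ D false k (n + 1) := by
      refine ⟨?_, fun i hi => ?_⟩
      · change flipAt k ω.1 _ = _
        rw [flip_apply, if_neg (by omega), show k + (n + 1) = k + 1 + n by omega]
        exact hn.1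
      · change flipAt k ω.1 _ ≠ _
        rw [flip_apply]
        rcases i with _ | i
        · simp [h0]
        · rw [if_neg (by omega), show k + (i + 1) = k + 1 + i by omega]
          exact hn.2 i (by omega)
    rw [Tb_of_D α h1, run_succ', run_zero, Tb_of_D α h2, run_succ', tau_tau hi]
  | true =>
    have h1 : ω.1 ∈ D false k (n + 1) := by
      refine ⟨?_, fun i hi => ?_⟩
      · rw [show k + (n + 1) = k + 1 + n by omega]
        exact hn.1
      · rcases i with _ | i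
        · simp [h0]
        · rw [show k + (i + 1) = k + 1 + i by omega]
          exact hn.2 i (by omega)
    have h2 : (tauRun α k (n + 1 + 1) ω).1 ∈ D false k 0 := by
      refine ⟨?_, fun i hi => absurd hi (by omega)⟩
      rw [run_fst, if_pos (by omega)]
      simp [h0]
    rw [Tb_of_D α h1, Tb_of_D α h2, run_succ', run_zero, run_succ', tau_run h, tau_tau hi]

section Meas

variable [MeasurableSpace Y] {X : Type} [MeasurableSpace X]

theorem tau_meas {α : X → ℕ → Y → Y} (h : ∀ j, Measurable (fun p : X × Y => α p.1 j p.2))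
    (m : ℕ) : Measurable (fun p : X × ((ℕ → Bool) × Y) => tau (α p.1) m p.2) := by
  refine Measurable.prodMk ((flip_meas m).comp (measurable_fst.comp measurable_snd)) ?_
  rcases gam_cases m with ⟨j, hj⟩ | hj
  · simp only [hj]
    exact (h j).comp (measurable_fst.prodMk (measurable_snd.comp measurable_snd))
  · simp only [hj]
    exact measurable_snd.comp measurable_snd

theorem run_meas {α : X → ℕ → Y → Y} (h : ∀ j, Measurable (fun p : X × Y => α p.1 j p.2))
    (k n : ℕ) : Measurable (fun p : X × ((ℕ → Bool) × Y) => tauRun (α p.1) k n p.2) := by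
  induction n with
  | zero => exact measurable_snd
  | succ n ih => exact (tau_meas h (k + n)).comp (measurable_fst.prodMk ih)

theorem Tb_meas {α : X → ℕ → Y → Y} (h : ∀ j, Measurable (fun p : X × Y => α p.1 j p.2))
    (b : Bool) (k : ℕ) : Measurable (fun p : X × ((ℕ → Bool) × Y) => Tb b (α p.1) k p.2) := by
  intro A hA
  have hD : ∀ n, MeasurableSet {p : X × ((ℕ → Bool) × Y) | p.2.1 ∈ D b k n} := fun n =>
    (measurable_fst.comp measurable_snd) (D_meas b k n)
  have : (fun p : X × ((ℕ → Bool) × Y) => Tb b (α p.1) k p.2) ⁻¹' A =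
      (⋃ n, {p | p.2.1 ∈ D b k n} ∩ (fun p => tauRun (α p.1) k (n + 1) p.2) ⁻¹' A) ∪
        ((⋃ n, {p | p.2.1 ∈ D b k n})ᶜ ∩ Prod.snd ⁻¹' A) := by
    ext p
    simp only [mem_preimage, mem_union, mem_iUnion, mem_inter_iff, mem_ofPred_eq, mem_compl_iff]
    by_cases hp : ∃ n, p.2.1 (k + n) = b
    · obtain ⟨n, hn⟩ := exists_D hp
      constructor
      · intro h1
        exact Or.inl ⟨n, hn, by rwa [← Tb_of_D _ hn]⟩
      · rintro (⟨m, hm, h1⟩ | ⟨h1, -⟩)
        · rwa [Tb_of_D _ hm]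
        · exact absurd ⟨n, hn⟩ h1
    · rw [Tb_of_not _ hp]
      constructor
      · intro h1
        exact Or.inr ⟨fun ⟨n, hn⟩ => hp ⟨n, hn.1⟩, h1⟩
      · rintro (⟨m, hm, -⟩ | ⟨-, h1⟩)
        · exact absurd ⟨m, hm.1⟩ hp
        · exact h1
  rw [this]
  exact (MeasurableSet.iUnion fun n => (hD n).inter (run_meas h k (n + 1) hA)).union
    ((MeasurableSet.iUnion hD).compl.inter (measurable_snd hA))

theorem Tb_meas' {α : ℕ → Y → Y} (h : ∀ j, Measurable (α j)) (b : Bool) (k : ℕ) :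
    Measurable (Tb b α k) :=
  (Tb_meas (X := Unit) (α := fun _ => α) (fun j => (h j).comp measurable_snd) b k).comp
    (measurable_prodMk_left (x := ()))

variable {μ : Measure Y} [IsProbabilityMeasure μ]

theorem tau_mp (hb : S_bern) {α : ℕ → Y → Y} (h : ∀ j, MeasurePreserving (α j) μ μ) (m : ℕ) :
    MeasurePreserving (tau α m) ((unif ℕ).prod μ) ((unif ℕ).prod μ) := by
  have h1 : MeasurePreserving (gam α m) μ μ := by
    rcases gam_cases m with ⟨j, hj⟩ | hj
    · rw [hj]; exact h j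
    · rw [hj]; exact MeasurePreserving.id μ
  exact (hb.1 m).prod h1

theorem run_mp (hb : S_bern) {α : ℕ → Y → Y} (h : ∀ j, MeasurePreserving (α j) μ μ) (k n : ℕ) :
    MeasurePreserving (tauRun α k n) ((unif ℕ).prod μ) ((unif ℕ).prod μ) := by
  induction n with
  | zero => exact MeasurePreserving.id _
  | succ n ih => exact (tau_mp hb h (k + n)).comp ih

theorem ae_digit (hb : S_bern) (b : Bool) (k : ℕ) :
    ∀ᵐ ω ∂((unif ℕ).prod μ), ∃ n, ω.1 (k + n) = b := by
  have h1 : ∀ᵐ ξ ∂(unif ℕ), ∃ n, ξ (k + n) = b := by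
    rw [ae_iff]
    have h2 : ∀ L : ℕ, unif ℕ {ξ | ¬ ∃ n, ξ (k + n) = b} ≤ (2 : ℝ≥0∞)⁻¹ ^ L := fun L => by
      rw [← hb.2.2.2.1 k L b]
      exact measure_mono fun ξ hξ n _ hn => hξ ⟨n, hn⟩
    have h3 : Tendsto (fun L : ℕ => (2 : ℝ≥0∞)⁻¹ ^ L) atTop (𝓝 0) :=
      ENNReal.tendsto_pow_atTop_nhds_zero_of_lt_one (by simp)
    exact le_antisymm (ge_of_tendsto' h3 h2) zero_le
  exact Measure.quasiMeasurePreserving_fst.ae h1

theorem meas_sum (hb : S_bern) (b : Bool) (k : ℕ) {B : Set ((ℕ → Bool) × Y)}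
    (hB : MeasurableSet B) :
    ((unif ℕ).prod μ) B = ∑' n, ((unif ℕ).prod μ) (B ∩ Prod.fst ⁻¹' D b k n) := by
  rw [← measure_iUnion]
  · refine measure_congr ?_
    filter_upwards [ae_digit (μ := μ) hb b k] with ω hω
    obtain ⟨n, hn⟩ := exists_D hω
    apply propext
    constructor
    · intro h
      exact mem_iUnion.mpr ⟨n, h, hn⟩
    · intro h
      obtain ⟨m, hm⟩ := mem_iUnion.mp h
      exact hm.1
  · intro n m hnm
    exact Set.disjoint_left.mpr fun ω h1 h2 => Set.disjoint_left.mp (D_disj b k hnm) h1.2 h2.2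
  · exact fun n => hB.inter (measurable_fst (D_meas b k n))

theorem Tb_mp (hb : S_bern) {α : ℕ → Y → Y} (h : Fam μ α) (b : Bool) (k : ℕ) :
    MeasurePreserving (Tb b α k) ((unif ℕ).prod μ) ((unif ℕ).prod μ) := by
  have hm := Tb_meas' (fun j => (h.1 j).measurable) b k
  refine ⟨hm, ?_⟩
  ext A hA
  rw [Measure.map_apply hm hA, meas_sum hb b k (hm hA), meas_sum hb (!b) k hA]
  refine tsum_congr fun n => ?_
  rw [← (run_mp hb h.1 k (n + 1)).measure_preimage
    (hA.inter (measurable_fst (D_meas (!b) k n))).nullMeasurableSet]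
  congr 1
  ext ω
  simp only [mem_inter_iff, mem_preimage]
  constructor
  · rintro ⟨h1, h2⟩
    exact ⟨by rwa [← Tb_of_D α h2], run_D α h2⟩
  · rintro ⟨h1, h2⟩
    have h3 := run_D α h2
    rw [run_run h.2.1 h.2.2, Bool.not_not] at h3
    exact ⟨by rwa [Tb_of_D α h3], h3⟩

theorem run_conj (hb : S_bern) {α β : ℕ → Y → Y} {θ : Y → Y}
    (h : ∀ j, MeasurePreserving (α j) μ μ)
    (hθ : ∀ j, (fun y => θ (α j y)) =ᵐ[μ] fun y => β j (θ y)) (k n : ℕ) :
    ∀ᵐ ω ∂((unif ℕ).prod μ),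
      Prod.map id θ (tauRun α k n ω) = tauRun β k n (Prod.map id θ ω) := by
  induction n with
  | zero => exact Eventually.of_forall fun _ => rfl
  | succ n ih =>
    have h1 : ∀ᵐ y ∂μ, θ (gam α (k + n) y) = gam β (k + n) (θ y) := by
      rcases gam_cases (k + n) with ⟨j, hj⟩ | hj
      · rw [hj, hj]; exact hθ j
      · rw [hj, hj]; exact Eventually.of_forall fun _ => rfl
    have h2 : ∀ᵐ ω ∂((unif ℕ).prod μ), θ (gam α (k + n) ω.2) = gam β (k + n) (θ ω.2) :=
      Measure.quasiMeasurePreserving_snd.ae h1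
    filter_upwards [ih, (run_mp hb h k n).quasiMeasurePreserving.ae h2] with ω h3 h4
    rw [run_succ, run_succ, ← h3]
    exact Prod.ext rfl h4

end Meas

end L0a

open L0a in
theorem l0a_ok (hb : S_bern) : S_L0a := by
  refine ⟨fun Y _ μ _ α h k => ⟨⟨Tb_mp hb h false k, Tb_mp hb h true k, ?_, ?_⟩, ?_⟩,
    fun X Y _ _ α h => Tb_meas h false 0, fun Y _ _ μ _ α β θ h _ _ hθ => ?_⟩
  · filter_upwards [ae_digit (μ := μ) hb false k] with ω hω
    exact Tb_Tb h.2.1 h.2.2 hω
  · filter_upwards [ae_digit (μ := μ) hb true k] with ω hω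
    exact Tb_Tb h.2.1 h.2.2 hω
  · filter_upwards [ae_digit (μ := μ) hb false (k + 1)] with ω hω
    exact Tb_sq h.2.1 h.2.2 hω
  · filter_upwards [ae_digit (μ := μ) hb false 0,
      ae_all_iff.mpr fun n => run_conj hb h.1 hθ 0 n] with ω hω h1
    obtain ⟨n, hn⟩ := exists_D hω
    rw [Tb_of_D α hn, Tb_of_D β (ω := Prod.map id θ ω) hn, h1]

end Pool.Agent.P.MP_c1aa6a_an
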