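import Pool.Agent.P.MP_c1aa6a_an.Defs

/-! Strong limits of the powers `T ^ (2 ^ m)` of the odometer skew product. -/

set_option autoImplicit false
open MeasureTheory Set Filter Topology
open scoped ENNReal NNReal symmDiff

namespace Pool.Agent.P.MP_c1aa6a_an

namespace L0b

/-- The sets along which measure preserving maps converge form a sigma-algebra. -/
theorem exists_sigma {Ω Ω' : Type} [MeasurableSpace Ω] [m : MeasurableSpace Ω'] (ν : Measure Ω)
    (ν' : Measure Ω') [IsFiniteMeasure ν'] (f : ℕ → Ω → Ω') (g : Ω → Ω')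
    (hf : ∀ i, MeasurePreserving (f i) ν ν') (hg : MeasurePreserving g ν ν') :
    ∃ m' : MeasurableSpace Ω', ∀ A, MeasurableSet[m'] A ↔
      MeasurableSet[m] A ∧ Tendsto (fun i => ν ((f i ⁻¹' A) ∆ (g ⁻¹' A))) atTop (𝓝 0) := by
  refine ⟨⟨fun A => MeasurableSet[m] A ∧
    Tendsto (fun i => ν ((f i ⁻¹' A) ∆ (g ⁻¹' A))) atTop (𝓝 0), ?_, ?_, ?_⟩, fun A => Iff.rfl⟩
  · exact ⟨MeasurableSet.empty, by simp⟩
  · rintro A ⟨h1, h2⟩
    refine ⟨h1.compl, ?_⟩
    simpa only [preimage_compl, compl_symmDiff_compl] using h2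
  · intro A hA
    have hm : ∀ n, MeasurableSet[m] (A n) := fun n => (hA n).1
    refine ⟨MeasurableSet.iUnion hm, ?_⟩
    let B : ℕ → Set Ω' := fun N => ⋃ n ∈ Finset.range N, A n
    have hB : ∀ N, MeasurableSet[m] (B N) := fun N =>
      Finset.measurableSet_biUnion _ fun n _ => hm n
    have hD : ∀ N, MeasurableSet[m] ((⋃ n, A n) \ B N) := fun N =>
      (MeasurableSet.iUnion hm).diff (hB N)
    have hlim : Tendsto (fun N => ν' ((⋃ n, A n) \ B N)) atTop (𝓝 0) := by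
      have h1 := tendsto_measure_iInter_atTop (μ := ν') (s := fun N => (⋃ n, A n) \ B N)
        (fun N => (hD N).nullMeasurableSet) ?_ ⟨0, measure_ne_top _ _⟩
      · have h2 : (⋂ N, (⋃ n, A n) \ B N) = ∅ := by
          refine eq_empty_of_forall_notMem fun x hx => ?_
          rw [mem_iInter] at hx
          obtain ⟨n, hn⟩ := mem_iUnion.mp (hx 0).1
          exact (hx (n + 1)).2 (mem_biUnion (Finset.mem_coe.mpr (Finset.self_mem_range_succ n)) hn)
        rwa [h2, measure_empty] at h1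
      · intro N N' hN
        refine sdiff_subset_sdiff_right ?_
        exact biUnion_subset_biUnion_left (Finset.coe_subset.mpr (Finset.range_mono hN))
    have hbound : ∀ N i, ν ((f i ⁻¹' ⋃ n, A n) ∆ (g ⁻¹' ⋃ n, A n)) ≤
        (ν' ((⋃ n, A n) \ B N) + ν' ((⋃ n, A n) \ B N)) +
          ∑ n ∈ Finset.range N, ν ((f i ⁻¹' A n) ∆ (g ⁻¹' A n)) := by
      intro N i
      have hsub : (f i ⁻¹' ⋃ n, A n) ∆ (g ⁻¹' ⋃ n, A n) ⊆
          (f i ⁻¹' ((⋃ n, A n) \ B N) ∪ g ⁻¹' ((⋃ n, A n) \ B N)) ∪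
            ⋃ n ∈ Finset.range N, (f i ⁻¹' A n) ∆ (g ⁻¹' A n) := by
        rintro x (⟨h1, h2⟩ | ⟨h1, h2⟩)
        · by_cases hx : f i x ∈ B N
          · obtain ⟨n, hn, hx⟩ := mem_iUnion₂.mp hx
            exact Or.inr (mem_iUnion₂.mpr ⟨n, hn, Or.inl ⟨hx, fun h => h2 (mem_iUnion.mpr ⟨n, h⟩)⟩⟩)
          · exact Or.inl (Or.inl ⟨h1, hx⟩)
        · by_cases hx : g x ∈ B N
          · obtain ⟨n, hn, hx⟩ := mem_iUnion₂.mp hx
            exact Or.inr (mem_iUnion₂.mpr ⟨n, hn, Or.inr ⟨hx, fun h => h2 (mem_iUnion.mpr ⟨n, h⟩)⟩⟩)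
          · exact Or.inl (Or.inr ⟨h1, hx⟩)
      refine (measure_mono hsub).trans ((measure_union_le _ _).trans (add_le_add ?_ ?_))
      · refine (measure_union_le _ _).trans (le_of_eq ?_)
        rw [(hf i).measure_preimage (hD N).nullMeasurableSet,
          hg.measure_preimage (hD N).nullMeasurableSet]
      · exact measure_biUnion_finset_le _ _
    rw [ENNReal.tendsto_nhds_zero]
    intro ε hε
    have hε2 : 0 < ε / 2 := ENNReal.half_pos hε.ne'
    have h1 : Tendsto (fun N => ν' ((⋃ n, A n) \ B N) + ν' ((⋃ n, A n) \ B N)) atTop (𝓝 0) := by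
      simpa using hlim.add hlim
    obtain ⟨N, hN⟩ := ((ENNReal.tendsto_nhds_zero.mp h1) _ hε2).exists
    have h2 : Tendsto (fun i => ∑ n ∈ Finset.range N, ν ((f i ⁻¹' A n) ∆ (g ⁻¹' A n))) atTop
        (𝓝 0) := by
      simpa using tendsto_finsetSum (Finset.range N) fun n _ => (hA n).2
    filter_upwards [(ENNReal.tendsto_nhds_zero.mp h2) _ hε2] with i hi
    exact (hbound N i).trans ((add_le_add hN hi).trans (ENNReal.add_halves ε).le)

variable {Y : Type}

theorem gam_sq (α : ℕ → Y → Y) (j i : ℕ) : gam α (Nat.pair j i * Nat.pair j i) = α j := by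
  unfold gam
  rw [if_pos ⟨_, rfl⟩, Nat.sqrt_eq, Nat.unpair_pair]

theorem gam_between (α : ℕ → Y → Y) (k n : ℕ) (h1 : 0 < n) (h2 : n ≤ 2 * k) :
    gam α (k * k + n) = id := by
  unfold gam
  rw [if_neg]
  rintro ⟨l, hl⟩
  rcases le_or_gt l k with h | h
  · have := Nat.mul_le_mul h h
    omega
  · have h3 : k + 1 ≤ l := h
    have := Nat.mul_le_mul h3 h3
    nlinarith

theorem tauRun_fst (α : ℕ → Y → Y) (k n : ℕ) (ω : (ℕ → Bool) × Y) (d : ℕ) (hd : d < k) :
    (tauRun α k n ω).1 d = ω.1 d := by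
  induction n with
  | zero => rfl
  | succ n ih =>
    simp only [tauRun, Function.comp, tau, flipAt]
    rw [Function.update_of_ne (by omega), ih]

theorem tauRun_snd (α : ℕ → Y → Y) (j i n : ℕ) (hn : n ≤ 2 * Nat.pair j i)
    (ω : (ℕ → Bool) × Y) :
    (tauRun α (Nat.pair j i * Nat.pair j i) (n + 1) ω).2 = α j ω.2 := by
  induction n with
  | zero => simp [tauRun, tau, gam_sq]
  | succ n ih =>
    have := ih (by omega)
    rw [tauRun, Function.comp, tau]
    simp only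
    rw [gam_between α _ _ (by omega) hn, this, id]

theorem Tb_fst (α : ℕ → Y → Y) (k : ℕ) (ω : (ℕ → Bool) × Y) (d : ℕ) (hd : d < k) :
    (Tb false α k ω).1 d = ω.1 d := by
  unfold Tb
  split_ifs
  · exact tauRun_fst α k _ ω d hd
  · rfl

theorem Tb_snd (α : ℕ → Y → Y) (j i : ℕ) (ω : (ℕ → Bool) × Y)
    (h : ¬ ∀ n < 2 * Nat.pair j i + 1, ω.1 (Nat.pair j i * Nat.pair j i + n) ≠ false) :
    (Tb false α (Nat.pair j i * Nat.pair j i) ω).2 = α j ω.2 := by
  classical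
  push Not at h
  obtain ⟨n, hn, h⟩ := h
  unfold Tb
  rw [dif_pos ⟨n, h⟩]
  refine tauRun_snd α j i _ ?_ ω
  have := Nat.find_min' (⟨n, h⟩ : ∃ n, ω.1 (Nat.pair j i * Nat.pair j i + n) = false) h
  omega

theorem Tb_eq_tau (α : ℕ → Y → Y) (m : ℕ) (ω : (ℕ → Bool) × Y) (h : ω.1 m = false) :
    Tb false α m ω = tau α m ω := by
  classical
  have h0 : ∃ n, ω.1 (m + n) = false := ⟨0, h⟩
  unfold Tb
  rw [dif_pos h0, (Nat.find_eq_zero h0).mpr h]
  rfl

variable [MeasurableSpace Y] {μ : Measure Y} [IsProbabilityMeasure μ]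

omit [IsProbabilityMeasure μ] in
theorem gam_mp {α : ℕ → Y → Y} (hα : Fam μ α) (m : ℕ) :
    MeasurePreserving (gam α m) μ μ ∧ Function.Involutive (gam α m) := by
  unfold gam
  split_ifs
  · exact ⟨hα.1 _, hα.2.1 _⟩
  · exact ⟨MeasurePreserving.id μ, fun _ => rfl⟩

/-- rigidity: `T_(k_i * k_i)` converges to `id × α j` -/
theorem rigid (ha : S_L0a) (hb : S_bern) {α : ℕ → Y → Y} (hα : Fam μ α) (j : ℕ)
    (A : Set ((ℕ → Bool) × Y)) (hA : MeasurableSet A) :
    Tendsto (fun i => ((unif ℕ).prod μ) ((Tb false α (Nat.pair j i * Nat.pair j i) ⁻¹' A) ∆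
      (Prod.map id (α j) ⁻¹' A))) atTop (𝓝 0) := by
  have hR : MeasurePreserving (Prod.map id (α j)) ((unif ℕ).prod μ) ((unif ℕ).prod μ) :=
    (MeasurePreserving.id _).prod (hα.1 j)
  obtain ⟨m', hm'⟩ := exists_sigma ((unif ℕ).prod μ) ((unif ℕ).prod μ)
    (fun i => Tb false α (Nat.pair j i * Nat.pair j i)) (Prod.map id (α j))
    (fun i => (ha.1 Y μ α hα _).1.1) hR
  have h1 : Measurable[m'] (Prod.fst : (ℕ → Bool) × Y → ℕ → Bool) := by
    refine (@measurable_pi_iff _ _ _ m' _ _).mpr fun d s hs => (hm' _).mpr ⟨?_, ?_⟩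
    · exact ((measurable_pi_apply d).comp measurable_fst) hs
    · refine tendsto_const_nhds.congr' ?_
      filter_upwards [eventually_gt_atTop d] with i hi
      have h1 : d < Nat.pair j i * Nat.pair j i :=
        hi.trans_le ((Nat.right_le_pair j i).trans (Nat.le_mul_self _))
      have : (Tb false α (Nat.pair j i * Nat.pair j i) ⁻¹'
          ((fun x : (ℕ → Bool) × Y => x.1 d) ⁻¹' s)) =
          Prod.map id (α j) ⁻¹' ((fun x : (ℕ → Bool) × Y => x.1 d) ⁻¹' s) := by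
        ext ω
        simp only [mem_preimage, Tb_fst α _ ω d h1, Prod.map_fst, id]
      rw [this, symmDiff_self]
      simp
  have h2 : Measurable[m'] (Prod.snd : (ℕ → Bool) × Y → Y) := by
    intro s hs
    refine (hm' _).mpr ⟨measurable_snd hs, ?_⟩
    have hlim : Tendsto (fun i : ℕ => (2 : ℝ≥0∞)⁻¹ ^ i) atTop (𝓝 0) :=
      ENNReal.tendsto_pow_atTop_nhds_zero_of_lt_one (by simp)
    refine tendsto_of_tendsto_of_tendsto_of_le_of_le tendsto_const_nhds hlim
      (fun _ => zero_le) fun i => ?_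
    have hsub : (Tb false α (Nat.pair j i * Nat.pair j i) ⁻¹' (Prod.snd ⁻¹' s)) ∆
        (Prod.map id (α j) ⁻¹' (Prod.snd ⁻¹' s)) ⊆
        {ξ : ℕ → Bool | ∀ n < 2 * Nat.pair j i + 1,
          ξ (Nat.pair j i * Nat.pair j i + n) ≠ false} ×ˢ (univ : Set Y) := by
      intro ω hω
      refine ⟨?_, mem_univ _⟩
      by_contra hc
      have := Tb_snd α j i ω hc
      simp only [mem_symmDiff, mem_preimage, this, Prod.map_snd] at hω
      tauto
    refine (measure_mono hsub).trans ?_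
    rw [Measure.prod_prod, measure_univ, mul_one, hb.2.2.2.1]
    refine pow_le_pow_of_le_one zero_le (by simp) ?_
    have := Nat.right_le_pair j i
    omega
  have h3 : @Measurable _ _ m' Prod.instMeasurableSpace (fun ω : (ℕ → Bool) × Y => (ω.1, ω.2)) :=
    Measurable.prodMk (m := m') h1 h2
  exact ((hm' A).mp (h3 hA)).2

theorem ae_eq_of_tendsto {Ω : Type} [MeasurableSpace Ω] {ν : Measure Ω} {A B : Set Ω}
    {u : ℕ → ℝ≥0∞} (hu : Tendsto u atTop (𝓝 0)) (h : ∀ i, ν (A ∆ B) ≤ u i) : A =ᵐ[ν] B :=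
  measure_symmDiff_eq_zero_iff.mp (le_antisymm (ge_of_tendsto' hu h) zero_le)

theorem ergodic (ha : S_L0a) (hb : S_bern) (hp : S_PE) {α : ℕ → Y → Y} (hα : Fam μ α)
    (he : ErgFam μ α) : Ergodic (Tb false α 0) ((unif ℕ).prod μ) := by
  have hT := fun k => ha.1 Y μ α hα k
  refine ⟨(hT 0).1.1, ⟨fun A hA hinv => ?_⟩⟩
  have h1 : ∀ k, Tb false α k ⁻¹' A =ᵐ[(unif ℕ).prod μ] A := by
    intro k
    induction k with
    | zero => rw [hinv]
    | succ k ih =>
      have h2 := (hT k).1.1.quasiMeasurePreserving.ae ih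
      filter_upwards [ih, h2, (hT k).2] with ω e1 e2 e3
      change (Tb false α (k + 1) ω ∈ A) = (ω ∈ A)
      rw [← e3]
      exact e2.trans e1
  have h2 : ∀ j, Prod.map id (α j) ⁻¹' A =ᵐ[(unif ℕ).prod μ] A := by
    intro j
    refine ae_eq_of_tendsto (rigid ha hb hα j A hA) fun i => le_of_eq ?_
    rw [symmDiff_comm]
    exact measure_congr ((h1 _).symm.symmDiff EventuallyEq.rfl)
  have h3 : ∀ m, Prod.map (flipAt m) (gam α m) ⁻¹' A =ᵐ[(unif ℕ).prod μ] A := by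
    intro m
    have hτ : MeasurePreserving (Prod.map (flipAt m) (gam α m)) ((unif ℕ).prod μ)
        ((unif ℕ).prod μ) := (hb.1 m).prod (gam_mp hα m).1
    have h4 := hτ.quasiMeasurePreserving.ae (h1 m)
    filter_upwards [h1 m, h4] with ω e1 e2
    change (Tb false α m ω ∈ A) = (ω ∈ A) at e1
    change (Tb false α m (tau α m ω) ∈ A) = (tau α m ω ∈ A) at e2
    change (tau α m ω ∈ A) = (ω ∈ A)
    cases h : ω.1 m with
    | false => rw [← Tb_eq_tau α m ω h, e1]
    | true =>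
      have h5 : (tau α m ω).1 m = false := by simp [tau, flipAt, h]
      have h6 : tau α m (tau α m ω) = ω := by
        refine Prod.ext ?_ ((gam_mp hα m).2 _)
        simp [tau, flipAt]
      rw [Tb_eq_tau α m _ h5, h6] at e2
      exact e2.symm
  rw [eventuallyConst_set']
  rcases hp _ _ _ _ (unif ℕ) μ α flipAt (gam α) hα.1 he hb.1 hb.2.1 (fun m => (gam_mp hα m).1)
    A hA h2 h3 with h | h
  · exact Or.inl (ae_eq_empty.mpr h)
  · exact Or.inr (ae_eq_univ.mpr h)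

theorem intertwine [StandardBorelSpace Y] (ha : S_L0a) (hb : S_bern) {α β : ℕ → Y → Y}
    (hα : Fam μ α) (hβ : Fam μ β) (Θ : (ℕ → Bool) × Y → (ℕ → Bool) × Y)
    (hΘ : MeasurePreserving Θ ((unif ℕ).prod μ) ((unif ℕ).prod μ))
    (h0 : (fun ω => Θ (Tb false α 0 ω)) =ᵐ[(unif ℕ).prod μ] (fun ω => Tb false β 0 (Θ ω)))
    (j : ℕ) : (fun ω => Θ (Prod.map id (α j) ω)) =ᵐ[(unif ℕ).prod μ]
      fun ω => Prod.map id (β j) (Θ ω) := by
  have hT := fun k => ha.1 Y μ α hα k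
  have hT' := fun k => ha.1 Y μ β hβ k
  have h1 : ∀ k, (fun ω => Θ (Tb false α k ω)) =ᵐ[(unif ℕ).prod μ]
      (fun ω => Tb false β k (Θ ω)) := by
    intro k
    induction k with
    | zero => exact h0
    | succ k ih =>
      filter_upwards [ih, (hT k).1.1.quasiMeasurePreserving.ae ih, (hT k).2,
        hΘ.quasiMeasurePreserving.ae (hT' k).2] with ω e1 e2 e3 e4
      rw [← e3, ← e4, e2, e1]
  refine EventuallyEq.of_forall_separating_preimage MeasurableSet fun A hA => ?_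
  have l1 := rigid ha hb hα j (Θ ⁻¹' A) (hΘ.measurable hA)
  have l2 := rigid ha hb hβ j A hA
  refine ae_eq_of_tendsto (by simpa using l1.add l2) fun i => ?_
  set m := Nat.pair j i * Nat.pair j i
  have hm : MeasurableSet ((Tb false β m ⁻¹' A) ∆ (Prod.map id (β j) ⁻¹' A)) :=
    ((hT' m).1.1.measurable hA).symmDiff
      ((((MeasurePreserving.id (unif ℕ)).prod (hβ.1 j)).measurable) hA)
  rw [← hΘ.measure_preimage hm.nullMeasurableSet]
  refine le_trans (measure_mono_ae ?_) (measure_union_le _ _)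
  filter_upwards [h1 m] with ω e hω
  have hω' : ω ∈ ((fun ω => Θ (Prod.map id (α j) ω)) ⁻¹' A) ∆
    ((fun ω => Prod.map id (β j) (Θ ω)) ⁻¹' A) := hω
  change ω ∈ (Tb false α m ⁻¹' (Θ ⁻¹' A)) ∆ (Prod.map id (α j) ⁻¹' (Θ ⁻¹' A)) ∪
    Θ ⁻¹' ((Tb false β m ⁻¹' A) ∆ (Prod.map id (β j) ⁻¹' A))
  simp only [mem_symmDiff, mem_preimage, mem_union, e] at hω' ⊢
  tauto

end L0b

theorem l0b_ok (ha : S_L0a) (hb : S_bern) (hp : S_PE) : S_L0b := by
  intro Y _ _ μ _ α hα
  exact ⟨fun he => L0b.ergodic ha hb hp hα he,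
    fun β Θ hβ hΘ h0 j => L0b.intertwine ha hb hα hβ Θ hΘ h0 j⟩

end Pool.Agent.P.MP_c1aa6a_an
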