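import Pool.Agent.P.MP_c1aa6a_an.Defs

/-! The Poisson point model and its Laplace functional. -/

set_option autoImplicit false
open MeasureTheory Set ProbabilityTheory
open scoped ENNReal NNReal

namespace Pool.Agent.P.MP_c1aa6a_an

theorem lap_prod {ι : Type} {X : Type} [MeasurableSpace X] (μ : Measure X) [IsProbabilityMeasure μ]
    (T : Finset ι) (f : ι → X → ℂ) (hf : ∀ i, Integrable (f i) μ) :
    Integrable (fun ω : ι → X => ∏ i ∈ T, f i (ω i)) (Measure.infinitePi fun _ => μ) ∧
      ∫ ω : ι → X, ∏ i ∈ T, f i (ω i) ∂(Measure.infinitePi fun _ => μ) = ∏ i ∈ T, ∫ x, f i x ∂μ := by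
  have h1 : Integrable (fun y : T → X => ∏ i : T, f i (y i)) (Measure.pi fun _ => μ) :=
    Integrable.fintype_prod fun i => hf i
  have e : (fun ω : ι → X => ∏ i ∈ T, f i (ω i)) =
      fun ω => (fun y : T → X => ∏ i : T, f i (y i)) (T.restrict ω) := by
    ext ω
    exact (Finset.prod_coe_sort T fun i => f i (ω i)).symm
  rw [e]
  constructor
  · have h2 : MeasurePreserving T.restrict (Measure.infinitePi fun _ : ι => μ)
        (Measure.pi fun _ : T => μ) := ⟨Finset.measurable_restrict _, Measure.infinitePi_map_restrict _⟩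
    exact h2.integrable_comp_of_integrable h1
  · rw [integral_restrict_infinitePi (μ := fun _ : ι => μ) h1.1,
      integral_fintype_prod_eq_prod (fun (i : T) x => f i x),
      Finset.prod_coe_sort T fun i => ∫ x, f i x ∂μ]

theorem lap_piece {X : Type} [MeasurableSpace X] (ξ : Measure X) [IsProbabilityMeasure ξ]
    {g : X → ℂ} (hg : Measurable g) {C : ℝ} (hC : ∀ x, ‖g x‖ ≤ C) :
    Integrable (fun p : ℕ × (ℕ → X) => ∏ j ∈ Finset.range p.1, g (p.2 j))
        ((poissonMeasure 1).prod (Measure.infinitePi fun _ => ξ)) ∧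
      ∫ p : ℕ × (ℕ → X), ∏ j ∈ Finset.range p.1, g (p.2 j)
        ∂((poissonMeasure 1).prod (Measure.infinitePi fun _ => ξ)) = Complex.exp (∫ x, g x ∂ξ - 1) := by
  have hm : Measurable fun p : ℕ × (ℕ → X) => ∏ j ∈ Finset.range p.1, g (p.2 j) :=
    measurable_from_prod_countable_right fun n =>
      Finset.measurable_prod (Finset.range n) fun j _ => hg.comp (measurable_pi_apply j)
  have hp : Integrable (fun n : ℕ => C ^ n) (poissonMeasure 1) := by
    rw [integrable_poissonMeasure_iff]
    refine ((Real.summable_pow_div_factorial |C|).mul_left (Real.exp (-1))).congr fun n => ?_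
    simp only [NNReal.coe_one, one_pow, mul_one, norm_pow, Real.norm_eq_abs]
    ring
  have hi : Integrable (fun p : ℕ × (ℕ → X) => ∏ j ∈ Finset.range p.1, g (p.2 j))
      ((poissonMeasure 1).prod (Measure.infinitePi fun _ => ξ)) := by
    refine (hp.comp_fst _).mono' hm.aestronglyMeasurable (ae_of_all _ fun p => ?_)
    rw [norm_prod]
    refine (Finset.prod_le_prod (fun _ _ => norm_nonneg _) fun j _ => hC _).trans_eq ?_
    simp
  refine ⟨hi, ?_⟩
  have hg' : Integrable g ξ := .of_bound hg.aestronglyMeasurable C (ae_of_all _ hC)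
  rw [integral_prod _ hi, integral_poissonMeasure]
  simp only [(lap_prod ξ _ (fun _ => g) fun _ => hg').2, Finset.prod_const, Finset.card_range]
  have h := (NormedSpace.expSeries_div_hasSum_exp (∫ x, g x ∂ξ)).mul_left (Complex.exp (-1))
  rw [← Complex.exp_eq_exp_ℂ, ← Complex.exp_add, neg_add_eq_sub] at h
  rw [← h.tsum_eq]
  refine tsum_congr fun n => ?_
  simp only [NNReal.coe_one, one_pow, mul_one, Complex.real_smul]
  push_cast
  ring

/-- the finite set of indices met by a compact set -/
noncomputable def lap_supp (E : CO) : Finset Idx :=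
  (E.2.1.image continuous_fst).finite_of_discrete.toFinset

theorem lap_mem_supp {E : CO} {q : Q} (h : q ∈ E.1) : q.1 ∈ lap_supp E :=
  (Set.Finite.mem_toFinset _).2 ⟨q, h, rfl⟩

open Classical in
/-- number of points in a compact open set -/
noncomputable def lap_cnt (ω : Idx → ℕ × (ℕ → Xi)) : Cf := fun E =>
  ∑ i ∈ lap_supp E, ∑ j ∈ Finset.range (ω i).1, if (i, (ω i).2 j) ∈ E.1 then 1 else 0

theorem lap_cnt_meas : Measurable lap_cnt := by
  classical
  refine measurable_pi_lambda _ fun E => Finset.measurable_sum _ fun i _ => ?_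
  have : Measurable fun p : ℕ × (ℕ → Xi) =>
      ∑ j ∈ Finset.range p.1, if (i, p.2 j) ∈ E.1 then 1 else 0 :=
    measurable_from_prod_countable_right fun n => Finset.measurable_sum (Finset.range n) fun j _ =>
      Measurable.ite ((measurable_const.prodMk (measurable_pi_apply j)) E.2.2.measurableSet)
        measurable_const measurable_const
  exact this.comp (measurable_pi_apply i)

theorem lap_exC (l : List (CO × ℂ)) (T : Finset Idx) (hT : ∀ p ∈ l, lap_supp p.1 ⊆ T)
    (ω : Idx → ℕ × (ℕ → Xi)) :
    exC l (lap_cnt ω) = ∏ i ∈ T, ∏ j ∈ Finset.range (ω i).1, gC l (i, (ω i).2 j) := by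
  classical
  induction l with
  | nil => simp [exC, gC]
  | cons p l ih =>
    have h := ih fun p hp => hT p (List.mem_cons_of_mem _ hp)
    simp only [exC, gC, List.map_cons, List.prod_cons, Finset.prod_mul_distrib] at h ⊢
    rw [h]
    congr 1
    rw [lap_cnt, ← Finset.prod_pow_eq_pow_sum, ← Finset.prod_subset (hT p List.mem_cons_self)]
    · refine Finset.prod_congr rfl fun i _ => ?_
      rw [← Finset.prod_pow_eq_pow_sum]
      refine Finset.prod_congr rfl fun j _ => ?_
      split_ifs <;> simp
    · intro i _ hi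
      exact Finset.prod_eq_one fun j _ => if_neg fun h => hi (lap_mem_supp h)

theorem lap_exC_meas (l : List (CO × ℂ)) : Measurable (exC l) := by
  induction l with
  | nil => exact measurable_const
  | cons p l ih =>
    exact ((measurable_of_countable fun n : ℕ => p.2 ^ n).comp (measurable_pi_apply p.1)).mul ih

theorem lap_gC_meas (l : List (CO × ℂ)) : Measurable (gC l) := by
  classical
  induction l with
  | nil => exact measurable_const
  | cons p l ih =>
    exact (Measurable.ite p.1.2.2.measurableSet measurable_const measurable_const).mul ih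

theorem lap_gC_bdd (l : List (CO × ℂ)) : ∃ C, ∀ q, ‖gC l q‖ ≤ C := by
  induction l with
  | nil => exact ⟨1, fun q => by simp [gC]⟩
  | cons p l ih =>
    obtain ⟨C, hC⟩ := ih
    refine ⟨(‖p.2‖ + 1) * C, fun q => ?_⟩
    have h := hC q
    simp only [gC, List.map_cons, List.prod_cons, norm_mul] at h ⊢
    refine mul_le_mul ?_ h (norm_nonneg _) (by positivity)
    split_ifs <;> simp

theorem lap_gC_out (l : List (CO × ℂ)) (T : Finset Idx) (hT : ∀ p ∈ l, lap_supp p.1 ⊆ T) {q : Q}
    (hq : q.1 ∉ T) : gC l q = 1 := by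
  refine List.prod_eq_one fun x hx => ?_
  obtain ⟨p, hp, rfl⟩ := List.mem_map.1 hx
  exact if_neg fun h => hq (hT p hp (lap_mem_supp h))

theorem lap_ok : S_lap := by
  classical
  intro ξ _
  refine ⟨(Measure.infinitePi fun _ : Idx =>
    (poissonMeasure 1).prod (Measure.infinitePi fun _ : ℕ => ξ)).map lap_cnt,
    Measure.isProbabilityMeasure_map lap_cnt_meas.aemeasurable, fun l => ?_⟩
  obtain ⟨T, hT⟩ : ∃ T : Finset Idx, ∀ p ∈ l, lap_supp p.1 ⊆ T :=
    ⟨l.toFinset.biUnion fun p => lap_supp p.1, fun p hp =>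
      Finset.subset_biUnion_of_mem (fun p : CO × ℂ => lap_supp p.1) (List.mem_toFinset.2 hp)⟩
  obtain ⟨C, hC⟩ := lap_gC_bdd l
  have hm : ∀ i : Idx, Measurable fun x => gC l (i, x) := fun i =>
    (lap_gC_meas l).comp measurable_prodMk_left
  have hp := fun i => lap_piece ξ (hm i) fun x => hC (i, x)
  have h := lap_prod _ T _ fun i => (hp i).1
  simp only [← lap_exC l T hT, fun i => (hp i).2] at h
  have hs := (lap_exC_meas l).aestronglyMeasurable (μ := (Measure.infinitePi fun _ : Idx =>
    (poissonMeasure 1).prod (Measure.infinitePi fun _ : ℕ => ξ)).map lap_cnt)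
  refine ⟨(integrable_map_measure hs lap_cnt_meas.aemeasurable).2 h.1, ?_⟩
  rw [integral_map lap_cnt_meas.aemeasurable hs, h.2, ← Complex.exp_sum]
  congr 1
  have hi : ∀ i : Idx, Integrable (fun x => gC l (i, x)) ξ := fun i =>
    .of_bound (hm i).aestronglyMeasurable C (ae_of_all _ fun x => hC _)
  have h0 : ∀ i, i ∉ T → ∀ x, gC l (i, x) - 1 = 0 := fun i hi x => by
    rw [lap_gC_out l T hT hi, sub_self]
  have hI : Integrable (fun q => gC l q - 1) (Measure.count.prod ξ) := by
    rw [integrable_prod_iff ((lap_gC_meas l).sub_const 1).aestronglyMeasurable]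
    refine ⟨ae_of_all _ fun i => (hi i).sub (integrable_const _), ?_⟩
    rw [integrable_count_iff]
    exact summable_of_ne_finset_zero (s := T) fun i hi => by simp [h0 i hi]
  rw [mQ, integral_prod _ hI, integral_countable hI.integral_prod_left,
    tsum_eq_sum (s := T) fun i hi => by simp [h0 i hi]]
  refine Finset.sum_congr rfl fun i _ => ?_
  rw [integral_sub (hi i) (integrable_const _)]
  simp

end Pool.Agent.P.MP_c1aa6a_an
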