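import Pool.Agent.P.MP_c1aa6a_an.Defs

/-! The Poisson suspension functor. -/

set_option autoImplicit false
open MeasureTheory Set Filter Topology
open scoped ENNReal NNReal symmDiff

namespace Pool.Agent.P.MP_c1aa6a_an

namespace Lift

variable {ξ : Measure Xi} {P : Measure Cf} {I : L2 (mQ ξ) →ₗᵢ[ℝ] L2 P}

theorem natLim (hI : IsChaos ξ P I) (h1 : ∀ E : CO, MeasurableSet E.1 ∧ mQ ξ E.1 ≠ ∞)
    (h2 : ∀ A, MeasurableSet A → mQ ξ A ≠ ∞ → ∀ ε > 0, ∃ E : CO, mQ ξ (A ∆ E.1) < ε)
    {A : Set Q} (hA : MeasurableSet A) (hm : mQ ξ A ≠ ∞) :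
    ∃ (N : Cf → ℕ) (E : ℕ → CO), Measurable N ∧
      Tendsto (fun n => mQ ξ ((E n).1 ∆ A)) atTop (𝓝 0) ∧
      (∀ᵐ ν ∂P, ∀ᶠ n in atTop, ν (E n) = N ν) ∧
      I (indicatorConstLp 2 hA hm (1 : ℝ)) =ᵐ[P] fun ν => (N ν : ℝ) - (mQ ξ A).toReal := by
  choose E hE using fun n : ℕ => h2 A hA hm ((n : ℝ≥0∞)⁻¹) (by simp)
  have t1 : Tendsto (fun n => mQ ξ ((E n).1 ∆ A)) atTop (𝓝 0) :=
    tendsto_of_tendsto_of_tendsto_of_le_of_le tendsto_const_nhds ENNReal.tendsto_inv_nat_nhds_zero
      (fun _ => zero_le) fun n => by rw [symmDiff_comm]; exact (hE n).le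
  have t2 := tendsto_indicatorConstLp_set (p := 2) (c := (1 : ℝ)) (hs := hA) (hμs := hm)
    (ht := fun n => (h1 (E n)).1) (hμt := fun n => (h1 (E n)).2) (by simp) t1
  obtain ⟨ns, hns, t3⟩ := (tendstoInMeasure_of_tendsto_Lp
    ((I.continuous.tendsto _).comp t2)).exists_seq_tendsto_ae
  have t4 : Tendsto (fun n => (mQ ξ (E n).1).toReal) atTop (𝓝 (mQ ξ A).toReal) := by
    rw [tendsto_iff_norm_sub_tendsto_zero]
    refine squeeze_zero (fun _ => norm_nonneg _) (fun n =>
      abs_measureReal_sub_le_measureReal_symmDiff' (h1 (E n)).1.nullMeasurableSet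
        hA.nullMeasurableSet (h1 (E n)).2 hm) ?_
    exact (ENNReal.tendsto_toReal ENNReal.zero_ne_top).comp t1
  have t5 := ae_all_iff.2 fun n => hI.ind (E n) _
    (indicatorConstLp_coeFn (p := 2) (hs := (h1 (E n)).1) (hμs := (h1 (E n)).2) (c := (1 : ℝ)))
  set f := I (indicatorConstLp 2 hA hm (1 : ℝ)) with hf
  have key : ∀ᵐ ν ∂P, ∃ k : ℕ, (k : ℝ) = f ν + (mQ ξ A).toReal ∧
      ∀ᶠ n in atTop, ν (E (ns n)) = k := by
    filter_upwards [t3, t5] with ν a1 a2
    have a3 : Tendsto (fun n => (ν (E (ns n)) : ℝ)) atTop (𝓝 (f ν + (mQ ξ A).toReal)) := by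
      refine (a1.add (t4.comp hns.tendsto_atTop)).congr fun n => ?_
      simp only [Function.comp]
      rw [a2 (ns n)]
      ring
    obtain ⟨k, hk⟩ := Nat.isClosedEmbedding_coe_real.isClosed_range.mem_of_tendsto a3
      (Eventually.of_forall fun n => ⟨_, rfl⟩)
    refine ⟨k, hk, ?_⟩
    rw [← hk] at a3
    have a4 := Nat.isClosedEmbedding_coe_real.isEmbedding.tendsto_nhds_iff.2 a3
    rwa [nhds_discrete, tendsto_pure] at a4
  refine ⟨fun ν => ⌊f ν + (mQ ξ A).toReal⌋₊, fun n => E (ns n),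
    Nat.measurable_floor.comp ((Lp.stronglyMeasurable f).measurable.add_const _),
    t1.comp hns.tendsto_atTop, ?_, ?_⟩
  · filter_upwards [key] with ν ⟨k, hk, a⟩
    rw [← hk, Nat.floor_natCast]
    exact a
  · filter_upwards [key] with ν ⟨k, hk, _⟩
    rw [← hk, Nat.floor_natCast, hk]
    ring

theorem ex_bound (l : List CO) (ν : Cf) :
    0 ≤ ex (l.map fun E => (E, 1 / 2)) ν ∧ ex (l.map fun E => (E, 1 / 2)) ν ≤ 1 := by
  induction l with
  | nil => simp [ex]
  | cons E l ih =>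
    simp only [ex, List.map_cons, List.prod_cons] at ih ⊢
    exact ⟨mul_nonneg (by positivity) ih.1,
      mul_le_one₀ (pow_le_one₀ (by norm_num) (by norm_num)) ih.1 ih.2⟩

theorem gR_bound (l : List CO) (q : Q) :
    0 ≤ gR (l.map fun E => (E, 1 / 2)) q ∧ gR (l.map fun E => (E, 1 / 2)) q ≤ 1 := by
  induction l with
  | nil => simp [gR]
  | cons E l ih =>
    simp only [gR, List.map_cons, List.prod_cons] at ih ⊢
    split_ifs
    · constructor <;> linarith [ih.1, ih.2]
    · constructor <;> linarith [ih.1, ih.2]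

theorem measurable_ex (l : List (CO × ℝ)) : Measurable (ex l) := by
  induction l with
  | nil => exact measurable_const
  | cons E l ih =>
    exact ((measurable_of_countable fun n : ℕ => E.2 ^ n).comp (measurable_pi_apply E.1)).mul ih

theorem ex_map (l : List CO) (ψ : CO → CO) {ν ν' : Cf} (h : ∀ E ∈ l, ν (ψ E) = ν' E) :
    ex ((l.map ψ).map fun E => (E, 1 / 2)) ν = ex (l.map fun E => (E, 1 / 2)) ν' := by
  simp only [ex, List.map_map]
  exact congrArg _ (List.map_congr_left fun E hE => by simp only [Function.comp, h E hE])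

theorem gR_map (l : List CO) (ψ : CO → CO) {q q' : Q} (h : ∀ E ∈ l, q ∈ (ψ E).1 ↔ q' ∈ E.1) :
    gR ((l.map ψ).map fun E => (E, 1 / 2)) q = gR (l.map fun E => (E, 1 / 2)) q' := by
  simp only [gR, List.map_map]
  refine congrArg _ (List.map_congr_left fun E hE => ?_)
  by_cases hq : q' ∈ E.1 <;> simp [h E hE, hq]

theorem tendsto_bad {μ : Measure Q} (l : List CO) (U : ℕ → CO → Set Q)
    (h : ∀ E, Tendsto (fun n => μ (U n E)) atTop (𝓝 0)) :
    Tendsto (fun n => μ {q | ∃ E ∈ l, q ∈ U n E}) atTop (𝓝 0) := by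
  induction l with
  | nil => simp
  | cons E l ih =>
    have := (h E).add ih
    rw [add_zero] at this
    refine tendsto_of_tendsto_of_tendsto_of_le_of_le tendsto_const_nhds this
      (fun _ => zero_le) fun n => le_trans (measure_mono fun q hq => ?_) (measure_union_le _ _)
    simpa using hq

/-- linear maps agreeing on indicators of compact open sets agree -/
theorem ext_ind [IsProbabilityMeasure ξ] (ha : S_approx) (T₁ T₂ : L2 (mQ ξ) →ₗᵢ[ℝ] L2 P)
    (h : ∀ E : CO, T₁ (indicatorConstLp 2 ((ha ξ).1 E).1 ((ha ξ).1 E).2 1) =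
      T₂ (indicatorConstLp 2 ((ha ξ).1 E).1 ((ha ξ).1 E).2 1)) (F : L2 (mQ ξ)) : T₁ F = T₂ F := by
  refine (ha ξ).2.2 (fun F => T₁ F = T₂ F) (isClosed_eq T₁.continuous T₂.continuous)
    (fun l => ?_) F
  induction l with
  | nil =>
    intro F hF
    have : F = 0 := Lp.ext (hF.trans (Lp.coeFn_zero _ _ _).symm)
    simp [this]
  | cons e l ih =>
    intro F hF
    set G := indicatorConstLp (μ := mQ ξ) 2 ((ha ξ).1 e.1).1 ((ha ξ).1 e.1).2 (1 : ℝ) with hG
    have h1 := ih (F - e.2 • G) (by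
      filter_upwards [hF, Lp.coeFn_sub F (e.2 • G), Lp.coeFn_smul e.2 G,
        indicatorConstLp_coeFn (p := 2) (hs := ((ha ξ).1 e.1).1) (hμs := ((ha ξ).1 e.1).2)
          (c := (1 : ℝ))] with q a1 a2 a3 a4
      rw [a2, Pi.sub_apply, a1, a3, Pi.smul_apply, hG, a4]
      by_cases hq : q ∈ e.1.1 <;> simp [hq])
    simp only [map_sub, map_smul, h e.1, hG] at h1
    exact sub_left_injective h1

theorem exists_lift [IsProbabilityMeasure ξ] [IsProbabilityMeasure P] (ha : S_approx)
    (hu : S_uniq) (hI : IsChaos ξ P I) {s : Q → Q} (hs : MeasurePreserving s (mQ ξ) (mQ ξ)) :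
    ∃ S, Lifts I S s := by
  obtain ⟨h1, h2, -⟩ := ha ξ
  have hA : ∀ E : CO, MeasurableSet (s ⁻¹' E.1) := fun E => hs.measurable (h1 E).1
  have hmA : ∀ E : CO, mQ ξ (s ⁻¹' E.1) = mQ ξ E.1 := fun E =>
    hs.measure_preimage (h1 E).1.nullMeasurableSet
  choose N En hN t1 t2 t3 using fun E : CO => natLim hI h1 h2 (hA E) ((hmA E).trans_ne (h1 E).2)
  set S : Cf → Cf := fun ν E => N E ν with hS
  have hSm : Measurable S := measurable_pi_lambda _ hN
  have hSP : MeasurePreserving S P P := by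
    refine ⟨hSm, ?_⟩
    have := Measure.isProbabilityMeasure_map (μ := P) hSm.aemeasurable
    refine hu.1 _ _ fun l => ?_
    rw [integral_map hSm.aemeasurable (measurable_ex _).aestronglyMeasurable]
    have a1 : Tendsto (fun n => ∫ ν, ex ((l.map (En · n)).map fun E => (E, 1 / 2)) ν ∂P) atTop
        (𝓝 (∫ ν, ex (l.map fun E => (E, 1 / 2)) (S ν) ∂P)) := by
      refine tendsto_integral_of_dominated_convergence (fun _ => 1)
        (fun n => (measurable_ex _).aestronglyMeasurable) (integrable_const _)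
        (fun n => Eventually.of_forall fun ν => ?_) ?_
      · rw [Real.norm_of_nonneg (ex_bound _ _).1]; exact (ex_bound _ _).2
      · filter_upwards [ae_all_iff.2 t2] with ν hν
        refine tendsto_const_nhds.congr' ?_
        filter_upwards [(eventually_all_finite (List.finite_toSet l)).2 fun E _ => hν E] with n hn
        exact (ex_map l _ hn).symm
    have a2 : Tendsto (fun n => ∫ q, (gR ((l.map (En · n)).map fun E => (E, 1 / 2)) q - 1) ∂(mQ ξ))
        atTop (𝓝 (∫ q, (gR (l.map fun E => (E, 1 / 2)) (s q) - 1) ∂(mQ ξ))) := by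
      refine tendsto_integral_of_L1 _ ((hI.intg _).1.comp_measurePreserving hs)
        (Eventually.of_forall fun n => hI.intg _) ?_
      refine tendsto_of_tendsto_of_tendsto_of_le_of_le tendsto_const_nhds
        (tendsto_bad l (fun n E => (En E n).1 ∆ (s ⁻¹' E.1)) t1) (fun _ => zero_le)
        fun n => le_trans (lintegral_mono fun q => ?_) (lintegral_indicator_one_le _)
      by_cases hq : q ∈ {q | ∃ E ∈ l, q ∈ (En E n).1 ∆ (s ⁻¹' E.1)}
      · rw [indicator_of_mem hq, Pi.one_apply, ← ofReal_norm, ENNReal.ofReal_le_one,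
          Real.norm_eq_abs, abs_le, Function.comp_apply]
        have b1 := gR_bound (l.map (En · n)) q
        have b2 := gR_bound l (s q)
        constructor <;> linarith [b1.1, b1.2, b2.1, b2.2]
      · rw [gR_map l _ (q' := s q) fun E hE => ?_]
        · simp
        · have : q ∉ (En E n).1 ∆ (s ⁻¹' E.1) := fun h => hq ⟨E, hE, h⟩
          rw [mem_symmDiff] at this
          simp only [mem_preimage] at this
          tauto
    have a3 : ∫ q, (gR (l.map fun E => (E, 1 / 2)) (s q) - 1) ∂(mQ ξ) =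
        ∫ q, (gR (l.map fun E => (E, 1 / 2)) q - 1) ∂(mQ ξ) := by
      have b1 := (hI.intg (l.map fun E => (E, 1 / 2))).1
      rw [← hs.map_eq] at b1
      rw [← integral_map hs.measurable.aemeasurable b1, hs.map_eq]
    rw [a3] at a2
    simp only [hI.exex] at a1 ⊢
    exact tendsto_nhds_unique a1 ((Real.continuous_exp.tendsto _).comp a2)
  refine ⟨S, hs, hSP, fun F F' hF => ?_⟩
  have a1 := ext_ind ha ((Lp.compMeasurePreservingₗᵢ ℝ S hSP).comp I)
    (I.comp (Lp.compMeasurePreservingₗᵢ ℝ s hs)) (fun E => ?_) F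
  · have a2 : F' = Lp.compMeasurePreserving s hs F :=
      Lp.ext (hF.trans (Lp.coeFn_compMeasurePreserving F hs).symm)
    change Lp.compMeasurePreserving S hSP (I F) = I (Lp.compMeasurePreserving s hs F) at a1
    rw [Tr, a2, ← a1]
    exact (Lp.coeFn_compMeasurePreserving (I F) hSP).symm
  · change Lp.compMeasurePreserving S hSP (I _) = I (Lp.compMeasurePreserving s hs _)
    have a2 : Lp.compMeasurePreserving s hs (indicatorConstLp 2 (h1 E).1 (h1 E).2 (1 : ℝ)) =
        indicatorConstLp 2 (hA E) ((hmA E).trans_ne (h1 E).2) (1 : ℝ) := by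
      refine Lp.ext ((Lp.coeFn_compMeasurePreserving _ hs).trans
        (EventuallyEq.trans ?_ indicatorConstLp_coeFn.symm))
      exact hs.quasiMeasurePreserving.ae_eq_comp indicatorConstLp_coeFn
    rw [a2]
    refine Lp.ext ((Lp.coeFn_compMeasurePreserving _ hSP).trans
      (EventuallyEq.trans ?_ (t3 E).symm))
    rw [hmA E]
    exact hSP.quasiMeasurePreserving.ae_eq_comp (hI.ind E _ indicatorConstLp_coeFn)

theorem lift_count (hI : IsChaos ξ P I) {S : Cf → Cf} {s : Q → Q} (h : Lifts I S s) (E : CO)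
    (hE : MeasurableSet E.1) (hE' : mQ ξ E.1 ≠ ∞) (F' : L2 (mQ ξ))
    (hF : F' =ᵐ[mQ ξ] fun q => E.1.indicator (fun _ => (1 : ℝ)) (s q)) :
    ∀ᵐ ν ∂P, (S ν E : ℝ) - (mQ ξ E.1).toReal = I F' ν := by
  have a1 := h.2.2 (indicatorConstLp 2 hE hE' (1 : ℝ)) F'
    (hF.trans (h.1.quasiMeasurePreserving.ae_eq_comp indicatorConstLp_coeFn).symm)
  have a2 := h.2.1.quasiMeasurePreserving.ae_eq_comp (hI.ind E _
    (indicatorConstLp_coeFn (p := 2) (hs := hE) (hμs := hE') (c := (1 : ℝ))))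
  exact a2.symm.trans a1

theorem ind_comp {s : Q → Q} (hs : MeasurePreserving s (mQ ξ) (mQ ξ)) (E : CO)
    (hE : MeasurableSet E.1) (hE' : mQ ξ E.1 ≠ ∞) :
    ∃ F' : L2 (mQ ξ), F' =ᵐ[mQ ξ] fun q => E.1.indicator (fun _ => (1 : ℝ)) (s q) :=
  ⟨Lp.compMeasurePreserving s hs (indicatorConstLp 2 hE hE' (1 : ℝ)),
    (Lp.coeFn_compMeasurePreserving _ hs).trans
      (hs.quasiMeasurePreserving.ae_eq_comp indicatorConstLp_coeFn)⟩

end Lift

open Lift in
theorem lift_ok (ha : S_approx) (hu : S_uniq) (hm : S_maps) : S_lift := by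
  intro ξ _ P _ I hI
  have h1 := (ha ξ).1
  refine ⟨fun s hs => exists_lift ha hu hI hs, fun t ht hs => ?_, fun S s S' s' h h' => ?_,
    fun S s S' s' h h' he => ?_, MeasurePreserving.id _, MeasurePreserving.id _,
    fun F F' hF => ?_⟩
  · obtain ⟨S, hS⟩ := exists_lift ha hu hI hs
    have a1 : S =ᵐ[P] act t := by
      have : ∀ E : CO, ∀ᵐ ν ∂P, S ν E = act t ν E := fun E => by
        obtain ⟨F', hF⟩ := ind_comp hs E (h1 E).1 (h1 E).2
        have b1 := hm.2.2.2.2.2.1 t ht E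
        have b2 := hI.ind (preCO t E) F' (by rw [b1]; exact hF)
        rw [b1, hs.measure_preimage (h1 E).1.nullMeasurableSet] at b2
        filter_upwards [lift_count hI hS E (h1 E).1 (h1 E).2 F' hF, b2] with ν c1 c2
        rw [c2] at c1
        exact_mod_cast sub_left_injective c1
      filter_upwards [ae_all_iff.2 this] with ν hν using funext hν
    refine ⟨hs, hS.2.1.congr (measurable_pi_lambda _ fun E => measurable_pi_apply _) a1,
      fun F F' hF => EventuallyEq.trans ?_ (hS.2.2 F F' hF)⟩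
    filter_upwards [a1] with ν hν
    rw [hν]
  · refine ⟨h'.1.comp h.1, h'.2.1.comp h.2.1, fun F F' hF => ?_⟩
    have a1 := Lp.coeFn_compMeasurePreserving F h'.1
    exact (h.2.1.quasiMeasurePreserving.ae_eq_comp (h'.2.2 F _ a1)).trans
      (h.2.2 _ F' (hF.trans (h.1.quasiMeasurePreserving.ae_eq_comp a1).symm))
  · have : ∀ E : CO, ∀ᵐ ν ∂P, S ν E = S' ν E := fun E => by
      obtain ⟨F', hF⟩ := ind_comp h.1 E (h1 E).1 (h1 E).2
      filter_upwards [lift_count hI h E (h1 E).1 (h1 E).2 F' hF,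
        lift_count hI h' E (h1 E).1 (h1 E).2 F' (hF.trans (by
          filter_upwards [he] with q hq
          rw [hq]))] with ν c1 c2
      rw [← c2] at c1
      exact_mod_cast sub_left_injective c1
    filter_upwards [ae_all_iff.2 this] with ν hν using funext hν
  · rw [show F' = F from Lp.ext hF]
    exact EventuallyEq.rfl

end Pool.Agent.P.MP_c1aa6a_an
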