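import Pool.Agent.P.MP_c1aa6a_an.Defs

/-! Basic facts on the maps of the intensity space. -/

set_option autoImplicit false
open MeasureTheory Set Filter Topology
open scoped ENNReal NNReal symmDiff

namespace Pool.Agent.P.MP_c1aa6a_an

namespace Maps

theorem elim_mp {ι κ : Type} (μ : ι ⊕ κ → Measure Bool) [∀ c, IsProbabilityMeasure (μ c)] :
    MeasurePreserving (fun p : (ι → Bool) × (κ → Bool) => Sum.elim p.1 p.2)
      ((Measure.infinitePi fun i => μ (Sum.inl i)).prod (Measure.infinitePi fun j => μ (Sum.inr j)))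
      (Measure.infinitePi μ) := by
  have hm : Measurable (fun p : (ι → Bool) × (κ → Bool) => Sum.elim p.1 p.2) := by
    refine measurable_pi_lambda _ fun c => ?_
    rcases c with i | j
    · exact (measurable_pi_apply i).comp measurable_fst
    · exact (measurable_pi_apply j).comp measurable_snd
  refine ⟨hm, Measure.eq_infinitePi _ fun s t ht => ?_⟩
  rw [Measure.map_apply hm (MeasurableSet.pi s.countable_toSet fun c _ => ht c)]
  have e : (fun p : (ι → Bool) × (κ → Bool) => Sum.elim p.1 p.2) ⁻¹' Set.pi s t =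
      (Set.pi s.toLeft fun i => t (Sum.inl i)) ×ˢ (Set.pi s.toRight fun j => t (Sum.inr j)) := by
    ext p
    simp [Set.mem_pi, Sum.forall]
  rw [e, Measure.prod_prod, Measure.infinitePi_pi _ fun i _ => ht _,
    Measure.infinitePi_pi _ fun i _ => ht _, Finset.prod_sum_eq_prod_toLeft_mul_prod_toRight]

theorem bern0 : bern 0 = (2 : ℝ≥0∞)⁻¹ • Measure.dirac true + (2 : ℝ≥0∞)⁻¹ • Measure.dirac false := by
  simp [bern]

theorem bern_xor (b : Bool) : (bern 0).map (fun x => xor x b) = bern 0 := by
  have hm : Measurable fun x => xor x b := measurable_of_countable _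
  rw [bern0, Measure.map_add _ _ hm, Measure.map_smul, Measure.map_smul, Measure.map_dirac' hm,
    Measure.map_dirac' hm]
  cases b
  · rfl
  · exact add_comm _ _

theorem bern_single (b : Bool) : bern 0 {b} = (2 : ℝ≥0∞)⁻¹ := by
  cases b <;> simp [bern0]

theorem Jm_congr (R : ℕ → HS → HS → Prop) {q q' : Q} (k : HS) (h1 : q.1 = q'.1)
    (h2 : q.2 (Sum.inl k.1) = q'.2 (Sum.inl k.1)) : Jm R q k ↔ Jm R q' k := by
  unfold Jm
  rw [h1, h2]

theorem msk_congr (R : ℕ → HS → HS → Prop) (a : At → Bool) {q q' : Q} (h1 : q.1 = q'.1)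
    (h2 : ∀ h, q.2 (Sum.inl h) = q'.2 (Sum.inl h)) : msk R a q = msk R a q' := by
  funext c
  rcases c with h | j | k
  · rfl
  · rfl
  · simp only [msk, Sum.elim_inr]
    rw [propext (Jm_congr R k h1 (h2 _)), h1]

theorem cont_rho (R : ℕ → HS → HS → Prop) :
    Continuous (fun p : (At → Bool) × Q => rho R p.1 p.2) := by
  classical
  refine (continuous_fst.comp continuous_snd).prodMk (continuous_pi fun c => ?_)
  have hx : Continuous fun z : Bool × Bool => xor z.1 z.2 := continuous_of_discreteTopology
  have ha : Continuous fun z : Bool × Bool => (z.1 && z.2) := continuous_of_discreteTopology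
  refine hx.comp (f := fun p : (At → Bool) × Q => (p.2.2 c, msk R p.1 p.2 c))
    (Continuous.prodMk (by fun_prop) ?_)
  rcases c with h | j | k
  · exact continuous_const
  · exact continuous_const
  have h1 : Continuous fun z : (At → Bool) × Idx => z.1 (k, z.2.n) :=
    continuous_prod_of_discrete_right.2 fun i => continuous_apply (k, i.n)
  have h2 : Continuous fun z : Idx × Bool => decide (Jm R (z.1, fun _ => z.2) k) :=
    continuous_of_discreteTopology
  have h3 := ha.comp ((h1.comp (f := fun p : (At → Bool) × Q => (p.1, p.2.1)) (by fun_prop)).prodMk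
    (h2.comp (f := fun p : (At → Bool) × Q => (p.2.1, p.2.2 (Sum.inl k.1))) (by fun_prop)))
  refine h3.congr fun p => ?_
  simp only [msk, Sum.elim_inr, Function.comp]
  congr 1

theorem good_rho (R : ℕ → HS → HS → Prop) (a : At → Bool) : Good (rho R a) := by
  refine ⟨(cont_rho R).comp (f := fun q => (a, q)) (by fun_prop), fun q => ?_⟩
  have h : msk R a (rho R a q) = msk R a q := msk_congr R a rfl fun h => by simp [rho, msk]
  refine Prod.ext rfl (funext fun c => ?_)
  change xor (xor (q.2 c) (msk R a q c)) (msk R a (rho R a q) c) = q.2 c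
  rw [h]
  simp

theorem mp_rho (lev : ℕ → ℕ) (R : ℕ → HS → HS → Prop) (a : At → Bool) :
    MeasurePreserving (rho R a) (mQ (xi lev)) (mQ (xi lev)) := by
  have hm : Measurable (rho R a) := (good_rho R a).1.measurable
  refine MeasurePreserving.skew_product (g := fun i x => (rho R a (i, x)).2)
    (MeasurePreserving.id _) hm.snd (Eventually.of_forall fun i => ?_)
  have hf : Measurable fun x : Xi => (rho R a (i, x)).2 := hm.snd.comp measurable_prodMk_left
  have he := elim_mp fun c => bern (clev lev c)
  have hs : MeasurePreserving (fun p : (ℕ → Bool) × (ℕ ⊕ HS → Bool) =>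
      (id p.1, fun c => (rho R a (i, Sum.elim p.1 p.2)).2 (Sum.inr c)))
      ((Measure.infinitePi fun i => bern (clev lev (Sum.inl i))).prod
        (Measure.infinitePi fun j => bern (clev lev (Sum.inr j))))
      ((Measure.infinitePi fun i => bern (clev lev (Sum.inl i))).prod
        (Measure.infinitePi fun j => bern (clev lev (Sum.inr j)))) := by
    refine MeasurePreserving.skew_product
      (g := fun u z c => (rho R a (i, Sum.elim u z)).2 (Sum.inr c)) (MeasurePreserving.id _)
      (measurable_pi_lambda _ fun c => (measurable_pi_apply _).comp (hf.comp he.measurable))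
      (Eventually.of_forall fun u => ?_)
    have e : (fun (z : ℕ ⊕ HS → Bool) c => (rho R a (i, Sum.elim u z)).2 (Sum.inr c)) =
        fun z c => xor (z c) (msk R a (i, Sum.elim u fun _ => false) (Sum.inr c)) := by
      funext z c
      exact congrArg (fun m : Crd → Bool => xor (z c) (m (Sum.inr c))) (msk_congr R a
        (q := (i, Sum.elim u z)) (q' := (i, Sum.elim u fun _ => false)) rfl fun _ => rfl)
    rw [e, Measure.infinitePi_map_pi _ (f := fun c x =>
      xor x (msk R a (i, Sum.elim u fun _ => false) (Sum.inr c)))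
      fun _ => measurable_of_countable _]
    congr 1
    funext c
    exact bern_xor _
  have h1 := (he.comp hs).map_eq
  unfold xi
  conv_lhs => rw [← he.map_eq, Measure.map_map hf he.measurable]
  rw [← h1]
  congr 1
  funext p c
  rcases c with h | c
  · simp [rho, msk]
  · rfl

theorem mp_idx (ξ : Measure Xi) [SigmaFinite ξ] {g : Idx → Idx} (hg : Function.Involutive g) :
    MeasurePreserving (Prod.map g id) (mQ ξ) (mQ ξ) := by
  refine MeasurePreserving.prod ⟨measurable_of_countable _, ?_⟩ (MeasurePreserving.id ξ)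
  ext s hs
  rw [Measure.map_apply (measurable_of_countable _) hs,
    ← congrFun (Set.image_eq_preimage_of_inverse hg hg) s, Measure.count_injective_image hg.injective]

theorem good_idx {g : Idx → Idx} (hg : Function.Involutive g) : Good (Prod.map g id) :=
  ⟨continuous_of_discreteTopology.prodMap continuous_id, fun q => Prod.ext (hg q.1) rfl⟩

theorem inv_n (j : ℕ) : Function.Involutive fun i : Idx => {i with n := i.n ∆ {j}} := fun i => by
  simp

theorem inv_d (j : ℕ) : Function.Involutive fun i : Idx => {i with d := i.d ∆ {j}} := fun i => by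
  simp

theorem clopen (C : Cell) : IsClopen (cell C) := by
  rcases C with c | p | u
  · exact (isClopen_discrete {i : Idx | i.c = c}).preimage continuous_fst
  · have : cell (Sum.inr (Sum.inl p)) = ⋂ i ∈ Finset.range p.1,
        (fun q : Q => q.2 (Sum.inr (Sum.inl i))) ⁻¹' {decide (i ∈ p.2)} := by
      ext q; simp [cell]
    rw [this]
    exact isClopen_biInter_finset fun i _ => (isClopen_discrete _).preimage (by fun_prop)
  · exact isClopen_empty

theorem dsh_mem (C : Cell) (j : ℕ) (q : Q) : dsh j q ∈ cell C ↔ q ∈ cell C := by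
  rcases C with c | p | u <;> rfl

theorem uC_pos {p : Cell × ℕ} {q : Q} (h : q ∈ cell p.1) : uC p q = q := if_pos h

theorem uC_neg {p : Cell × ℕ} {q : Q} (h : q ∉ cell p.1) : uC p q = dsh p.2 q := if_neg h

theorem good_uC (p : Cell × ℕ) : Good (uC p) := by
  classical
  have hd : Good (dsh p.2) := good_idx (inv_d p.2)
  refine ⟨?_, fun q => ?_⟩
  · unfold uC
    refine Continuous.if (fun q hq => ?_) continuous_id hd.1
    have : frontier (cell p.1) = ∅ := (clopen p.1).frontier_eq
    exact absurd (this ▸ hq) (notMem_empty q)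
  · by_cases h : q ∈ cell p.1
    · rw [uC_pos h, uC_pos h]
    · rw [uC_neg h, uC_neg fun h' => h ((dsh_mem p.1 p.2 q).1 h')]
      exact hd.2 q

theorem mp_uC (ξ : Measure Xi) [SigmaFinite ξ] (p : Cell × ℕ) :
    MeasurePreserving (uC p) (mQ ξ) (mQ ξ) := by
  have hd : MeasurePreserving (dsh p.2) (mQ ξ) (mQ ξ) := mp_idx ξ (inv_d p.2)
  have hm : Measurable (uC p) := (good_uC p).1.measurable
  have hc : MeasurableSet (cell p.1) := (clopen p.1).isOpen.measurableSet
  refine ⟨hm, ?_⟩
  ext A hA
  rw [Measure.map_apply hm hA, ← measure_inter_add_sdiff _ hc, ← measure_inter_add_sdiff A hc,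
    ← hd.measure_preimage (hA.diff hc).nullMeasurableSet]
  congr 2
  · ext q
    by_cases h : q ∈ cell p.1 <;> simp [uC, h]
  · ext q
    by_cases h : q ∈ cell p.1 <;> simp [uC, h, dsh_mem]

theorem cell_le (lev : ℕ → ℕ) (i : Idx) (n : ℕ) (s : Finset ℕ) :
    mQ (xi lev) ({q | q.1 = i} ∩ cell (Sum.inr (Sum.inl (n, s)))) ≤ (2 : ℝ≥0∞)⁻¹ ^ n := by
  classical
  have hinj : Function.Injective fun j : ℕ => (Sum.inr (Sum.inl j) : Crd) :=
    Sum.inr_injective.comp Sum.inl_injective
  have e : {q : Q | q.1 = i} ∩ cell (Sum.inr (Sum.inl (n, s))) = {i} ×ˢ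
      Set.pi ((Finset.range n).map ⟨_, hinj⟩ : Finset Crd) (Sum.elim (fun _ => univ)
        (Sum.elim (fun j => {decide (j ∈ s)}) fun _ => univ)) := by
    ext q
    simp [cell, Set.mem_pi]
  rw [e, mQ, Measure.prod_prod, Measure.count_singleton, one_mul, xi,
    Measure.infinitePi_pi _ fun _ _ => MeasurableSet.of_discrete, Finset.prod_map]
  simp [clev, bern_single]

end Maps

theorem maps_ok : S_maps := by
  refine ⟨fun lev R a => ⟨Maps.good_rho R a, Maps.mp_rho lev R a⟩,
    fun lev p => ⟨Maps.good_uC p, Maps.mp_uC _ p⟩,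
    fun lev j => ⟨Maps.good_idx (Maps.inv_n j), Maps.mp_idx _ (Maps.inv_n j)⟩,
    Maps.clopen, Maps.cell_le, fun s hs E => ?_, Maps.cont_rho⟩
  have h : IsCompact (s ⁻¹' E.1) ∧ IsOpen (s ⁻¹' E.1) := by
    refine ⟨?_, E.2.2.preimage hs.1⟩
    rw [← congrFun (Set.image_eq_preimage_of_inverse hs.2 hs.2) E.1]
    exact E.2.1.image hs.1
  exact congrArg Subtype.val (dif_pos h : preCO s E = ⟨_, h⟩)

end Pool.Agent.P.MP_c1aa6a_an
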