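import Pool.Agent.P.MP_c1aa6a_an.Defs

/-! Construction of the wall model by recursion on the walls. -/

set_option autoImplicit false
open MeasureTheory Set Filter Topology
open scoped ENNReal NNReal symmDiff

namespace Pool.Agent.P.MP_c1aa6a_an

namespace Model

/-- Codes of one-wall extensions. -/
abbrev Code := Finset ℕ × ℕ × Finset HS × ℕ × Bool × (Finset ℕ →₀ ℕ)

lemma exists_cd : ∃ cd : ℕ → Code, ∀ c n, ∃ m, n ≤ m ∧ cd m = c := by
  obtain ⟨f, hf⟩ := exists_surjective_nat (Code × ℕ)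
  refine ⟨fun m => (f m).1, fun c n => ?_⟩
  by_contra hcon
  push Not at hcon
  choose g hg using hf
  have hinj : Function.Injective (fun i : ℕ => g (c, i)) := by
    intro i j hij
    have h1 := hg (c, i)
    have h2 := hg (c, j)
    simp only at hij
    rw [hij, h2] at h1
    exact (Prod.mk.inj h1).2.symm
  have hlt : ∀ i : ℕ, g (c, i) ∈ Finset.range n := by
    intro i
    rw [Finset.mem_range]
    by_contra hge
    exact hcon _ (not_lt.mp hge) (by rw [hg])
  exact (Set.infinite_range_of_injective hinj)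
    ((Finset.range n).finite_toSet.subset (by rintro _ ⟨i, rfl⟩; exact hlt i))

lemma exists_rec (F : ℕ → (ℕ → Prop) → Prop) :
    ∃ d : ℕ → Prop, ∀ m, d m ↔ F m (fun h => h < m ∧ d h) := by
  let d : ℕ → Prop := fun m =>
    Nat.strongRec (motive := fun _ => Prop) (fun m ih => F m (fun h => ∃ hh : h < m, ih h hh)) m
  refine ⟨d, fun m => ?_⟩
  have : d m = F m (fun h => ∃ _ : h < m, d h) := by
    simp only [d]
    rw [Nat.strongRec_eq]
  rw [this]
  simp only [exists_prop]

lemma vert_iff (M : WS) (A : Finset ℕ) :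
    M.Vert A ↔ ∀ m ∈ A, ¬ M.dead m ∧ ∀ h, ¬ M.pp m (sd A h) := by
  constructor
  · intro hv m hm
    refine ⟨fun hd => hv m m ?_, fun h hp => hv m h ?_⟩
    · exact Or.inr (Or.inr ⟨rfl, by simp [sd, hm], hd⟩)
    · exact Or.inl ⟨by simp [sd, hm], hp⟩
  · intro hv h h' hp
    rcases hp with ⟨h1, h2⟩ | ⟨h1, h2⟩ | ⟨-, h1, h2⟩
    · have : h ∈ A := by simpa [sd] using h1
      exact (hv h this).2 h' h2
    · have : h' ∈ A := by simpa [sd] using h1
      exact (hv h' this).2 h h2
    · have : h ∈ A := by simpa [sd] using h1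
      exact (hv h this).1 h2

/-- Vertices below `m` compatible with the minus side of `m`. -/
def Cp (M : WS) (m : ℕ) (A : Finset ℕ) : Prop :=
  A ⊆ Finset.range m ∧ M.Vert A ∧ ∀ h, ¬ M.pp m (sd A h)

/-- The conditions that make the minus side of `m` alive. -/
def OK {G X : Type} [Group G] [MulAction G X] (N : G → ℝ) (V : ℕ → Set X) (π : Finset ℕ → G)
    (x : X) (M : WS) (m : ℕ) : Prop :=
  (∀ A, Cp M m A → ∀ h ∈ insert m A, (π (insert m A))⁻¹ • x ∈ V (M.lab h)) ∧
  (∀ A A', Cp M m A → Cp M m A' → A ≠ A' →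
    N ((π (insert m A))⁻¹ * π (insert m A')) < M.ell A A') ∧
  (∀ A B, Cp M m A → (B ⊆ Finset.range m ∧ M.Vert B) →
    N ((π (insert m A))⁻¹ * π B) < M.ell A B + wt (M.lev m))

lemma vert_cut (lev lab : ℕ → ℕ) (pp : ℕ → HS → Prop) (d : ℕ → Prop) (m : ℕ) (A : Finset ℕ)
    (hA : A ⊆ Finset.range m) :
    (WS.mk lev lab pp (fun h => h < m ∧ d h)).Vert A ↔ (WS.mk lev lab pp d).Vert A := by
  rw [vert_iff, vert_iff]
  refine forall_congr' fun k => forall_congr' fun hk => ?_
  have : k < m := Finset.mem_range.mp (hA hk)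
  simp [this]

lemma ok_cut {G X : Type} [Group G] [MulAction G X] (N : G → ℝ) (V : ℕ → Set X)
    (π : Finset ℕ → G) (x : X) (lev lab : ℕ → ℕ) (pp : ℕ → HS → Prop) (d : ℕ → Prop) (m : ℕ) :
    OK N V π x (WS.mk lev lab pp (fun h => h < m ∧ d h)) m ↔ OK N V π x (WS.mk lev lab pp d) m := by
  have h1 : ∀ A, (A ⊆ Finset.range m ∧ (WS.mk lev lab pp (fun h => h < m ∧ d h)).Vert A) ↔
      (A ⊆ Finset.range m ∧ (WS.mk lev lab pp d).Vert A) := fun A =>
    and_congr_right fun hA => vert_cut lev lab pp d m A hA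
  have h2 : ∀ A, Cp (WS.mk lev lab pp (fun h => h < m ∧ d h)) m A ↔ Cp (WS.mk lev lab pp d) m A := by
    intro A
    unfold Cp
    rw [← and_assoc, ← and_assoc, h1]
  unfold OK
  simp only [h1, h2]
  rfl

lemma meas_vert {X : Type} [MeasurableSpace X] (lev lab : ℕ → ℕ) (pp : ℕ → HS → Prop)
    (d : X → ℕ → Prop) (hd : ∀ h, Measurable (fun x => d x h)) (A : Finset ℕ) :
    Measurable (fun x => (WS.mk lev lab pp (d x)).Vert A) := by
  simp only [vert_iff]
  exact Measurable.forall fun m => measurable_const.imp ((hd m).not.and measurable_const)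

lemma meas_ok {G X : Type} [TopologicalSpace G] [Group G] [TopologicalSpace X] [MeasurableSpace X]
    [BorelSpace X] [MulAction G X] [ContinuousSMul G X] (N : G → ℝ) (V : ℕ → Set X)
    (hV : ∀ j, IsOpen (V j)) (π : Finset ℕ → G) (lev lab : ℕ → ℕ) (pp : ℕ → HS → Prop)
    (d : X → ℕ → Prop) (hd : ∀ h, Measurable (fun x => d x h)) (m : ℕ) :
    Measurable (fun x => OK N V π x (WS.mk lev lab pp (d x)) m) := by
  have hv := meas_vert lev lab pp d hd
  have hc : ∀ A, Measurable (fun x => Cp (WS.mk lev lab pp (d x)) m A) := fun A =>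
    measurable_const.and ((hv A).and (measurable_const (a := ∀ h, ¬ pp m (sd A h))))
  have ho : ∀ (g : G) j, Measurable (fun x : X => g • x ∈ V j) := fun g j =>
    measurableSet_setOfPred.mp (((hV j).preimage (continuous_const_smul g)).measurableSet)
  unfold OK
  refine Measurable.and ?_ (Measurable.and ?_ ?_)
  · exact Measurable.forall fun A => (hc A).imp
      (Measurable.forall fun h => measurable_const.imp (ho _ _))
  · exact Measurable.forall fun A => Measurable.forall fun A' => (hc A).imp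
      ((hc A').imp (measurable_const (a := A ≠ A' → N ((π (insert m A))⁻¹ * π (insert m A')) <
        ∑ h ∈ A ∆ A', wt (lev h))))
  · exact Measurable.forall fun A => Measurable.forall fun B => (hc A).imp
      ((measurable_const.and (hv B)).imp (measurable_const (a := N ((π (insert m A))⁻¹ * π B) <
        ∑ h ∈ A ∆ B, wt (lev h) + wt (lev m))))

lemma cp_erase (M : WS) (hlt : ∀ m k, M.pp m k → k.1 < m) (A : Finset ℕ) (hA : M.Vert A)
    (m : ℕ) (hm : m ∈ A) (hmax : ∀ h ∈ A, h ≤ m) : Cp M m (A.erase m) := by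
  have hsd : ∀ h, h < m → sd (A.erase m) h = sd A h := by
    intro h hh
    simp [sd, hh.ne]
  rw [vert_iff] at hA
  refine ⟨fun h hh => ?_, ?_, fun h hp => ?_⟩
  · rw [Finset.mem_erase] at hh
    exact Finset.mem_range.mpr (lt_of_le_of_ne (hmax h hh.2) hh.1)
  · rw [vert_iff]
    intro k hk
    have hk' := Finset.mem_of_mem_erase hk
    refine ⟨(hA k hk').1, fun h hp => ?_⟩
    have h1 : h < k := hlt _ _ hp
    rw [hsd h (lt_of_lt_of_le h1 (hmax k hk'))] at hp
    exact (hA k hk').2 h hp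
  · have h1 : h < m := hlt _ _ hp
    rw [hsd h h1] at hp
    exact (hA m hm).2 h hp

lemma ell_comm (M : WS) (A B : Finset ℕ) : M.ell A B = M.ell B A := by
  unfold WS.ell
  rw [symmDiff_comm]

section
variable {G X : Type} [Group G] [TopologicalSpace G] [MulAction G X] {N : G → ℝ} {V : ℕ → Set X}
  {π : Finset ℕ → G} {x : X} {M : WS}

omit [TopologicalSpace G] in
lemma lip_aux (hlt : ∀ m k, M.pp m k → k.1 < m) (hok : ∀ m, ¬ M.dead m → OK N V π x M m)
    (A B : Finset ℕ) (hA : M.Vert A) (hB : M.Vert B) (hne : A ≠ B) (m : ℕ) (hm : m ∈ A)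
    (hA' : ∀ h ∈ A, h ≤ m) (hB' : ∀ h ∈ B, h ≤ m) : N ((π A)⁻¹ * π B) < M.ell A B := by
  have hO := hok m (((vert_iff M A).mp hA m hm).1)
  have hc := cp_erase M hlt A hA m hm hA'
  by_cases hmB : m ∈ B
  · have hc' := cp_erase M hlt B hB m hmB hB'
    have hne' : A.erase m ≠ B.erase m := by
      intro h
      apply hne
      rw [← Finset.insert_erase hm, ← Finset.insert_erase hmB, h]
    have h1 := hO.2.1 _ _ hc hc' hne'
    rw [Finset.insert_erase hm, Finset.insert_erase hmB] at h1
    have h2 : (A.erase m) ∆ (B.erase m) = A ∆ B := by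
      ext h
      by_cases hh : h = m
      · subst hh
        simp [Finset.mem_symmDiff, hm, hmB]
      · simp [Finset.mem_symmDiff, hh]
    unfold WS.ell at h1 ⊢
    rwa [h2] at h1
  · have hBr : B ⊆ Finset.range m := fun h hh =>
      Finset.mem_range.mpr (lt_of_le_of_ne (hB' h hh) (fun e => hmB (e ▸ hh)))
    have h1 := hO.2.2 _ B hc ⟨hBr, hB⟩
    rw [Finset.insert_erase hm] at h1
    have h2 : A ∆ B = insert m ((A.erase m) ∆ B) := by
      ext h
      by_cases hh : h = m
      · subst hh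
        simp [Finset.mem_symmDiff, hm, hmB]
      · simp [Finset.mem_symmDiff, hh]
    have h3 : m ∉ (A.erase m) ∆ B := by
      simp [Finset.mem_symmDiff, hmB]
    unfold WS.ell at h1 ⊢
    rw [h2, Finset.sum_insert h3]
    linarith

lemma lip (hN : IsNorm N) (hlt : ∀ m k, M.pp m k → k.1 < m)
    (hok : ∀ m, ¬ M.dead m → OK N V π x M m)
    (A B : Finset ℕ) (hA : M.Vert A) (hB : M.Vert B) (hne : A ≠ B) :
    N ((π A)⁻¹ * π B) < M.ell A B := by
  have hnon : (A ∪ B).Nonempty := by
    rw [Finset.nonempty_iff_ne_empty]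
    intro h
    rw [Finset.union_eq_empty] at h
    exact hne (h.1.trans h.2.symm)
  have hA' : ∀ h ∈ A, h ≤ (A ∪ B).max' hnon := fun h hh =>
    Finset.le_max' _ _ (Finset.mem_union_left _ hh)
  have hB' : ∀ h ∈ B, h ≤ (A ∪ B).max' hnon := fun h hh =>
    Finset.le_max' _ _ (Finset.mem_union_right _ hh)
  rcases Finset.mem_union.mp (Finset.max'_mem _ hnon) with hm | hm
  · exact lip_aux hlt hok A B hA hB hne _ hm hA' hB'
  · have h1 := lip_aux hlt hok B A hB hA hne.symm _ hm hB' hA'
    rw [← hN.inv, ell_comm]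
    simpa using h1

omit [TopologicalSpace G] in
lemma labl (hlt : ∀ m k, M.pp m k → k.1 < m) (hok : ∀ m, ¬ M.dead m → OK N V π x M m)
    (A : Finset ℕ) (hA : M.Vert A) (h : ℕ) (hh : h ∈ A) : (π A)⁻¹ • x ∈ V (M.lab h) := by
  have hnon : A.Nonempty := ⟨h, hh⟩
  have hm := Finset.max'_mem _ hnon
  have hO := hok _ (((vert_iff M A).mp hA _ hm).1)
  have hc := cp_erase M hlt A hA _ hm (fun h hh => Finset.le_max' _ _ hh)
  have h1 := hO.1 _ hc h (by rw [Finset.insert_erase hm]; exact hh)
  rwa [Finset.insert_erase hm] at h1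

lemma vert_inter (S B : Finset ℕ) (hS : M.Strong S) (hB : M.Vert B) : M.Vert (B ∩ S) := by
  rw [vert_iff] at hB ⊢
  intro m hm
  rw [Finset.mem_inter] at hm
  refine ⟨(hB m hm.1).1, fun h hp => ?_⟩
  by_cases hh : h ∈ B ∩ S
  · have : sd (B ∩ S) h = sd B h := by
      simp [sd, hh, (Finset.mem_inter.mp hh).1]
    rw [this] at hp
    exact (hB m hm.1).2 h hp
  · have h1 : sd (B ∩ S) h = (h, false) := by simp only [sd, hh, decide_false]
    rw [h1] at hp
    have h2 : h ∈ S := hS m hm.2 h hp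
    have h3 : h ∉ B := fun hb => hh (Finset.mem_inter.mpr ⟨hb, h2⟩)
    have h4 : sd B h = (h, false) := by simp only [sd, h3, decide_false]
    exact (hB m hm.1).2 h (h4 ▸ hp)

lemma ell_split (S A B : Finset ℕ) (hA : A ⊆ S) :
    M.ell A B = M.ell A (B ∩ S) + M.ell (B ∩ S) B := by
  unfold WS.ell
  have h1 : A ∆ B = (A ∆ (B ∩ S)) ∪ ((B ∩ S) ∆ B) := by
    ext h
    have := @hA h
    simp only [Finset.mem_symmDiff, Finset.mem_union, Finset.mem_inter]
    tauto
  have h2 : Disjoint (A ∆ (B ∩ S)) ((B ∩ S) ∆ B) := by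
    rw [Finset.disjoint_left]
    intro h
    have := @hA h
    simp only [Finset.mem_symmDiff, Finset.mem_inter]
    tauto
  rw [h1, Finset.sum_union h2]

lemma ok_of_ext (hN : IsNorm N)
    (hlip : ∀ A B, M.Vert A → M.Vert B → A ≠ B → N ((π A)⁻¹ * π B) < M.ell A B)
    (S : Finset ℕ) (l j : ℕ) (R : Finset HS) (φ : Finset ℕ → G) (hS : M.Strong S)
    (hE : ExtOK N V x M π S l j R φ) (m : ℕ) (hl : M.lev m = l) (hj : M.lab m = j)
    (hpp : ∀ k, M.pp m k ↔ (k ∈ R ∨ (k.1 < m ∧ k.1 ∉ S ∧ k.2 = true)))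
    (hπ : ∀ A, A ⊆ S → π (insert m A) = φ A) : OK N V π x M m := by
  have hcomp : ∀ A, Cp M m A → M.Comp S R A := by
    intro A hA
    refine ⟨hA.2.1, fun h hh => ?_, fun h hh => hA.2.2 h ((hpp _).mpr (Or.inl hh))⟩
    by_contra hS'
    exact hA.2.2 h ((hpp _).mpr (Or.inr ⟨Finset.mem_range.mp (hA.1 hh), hS', by simp [sd, hh]⟩))
  refine ⟨fun A hA h hh => ?_, fun A A' hA hA' hne => ?_, fun A B hA hB => ?_⟩
  · have hc := hcomp A hA
    rw [hπ A hc.2.1]
    rcases Finset.mem_insert.mp hh with rfl | hh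
    · rw [hj]
      exact (hE.1 A hc).1
    · exact (hE.1 A hc).2 h hh
  · rw [hπ A (hcomp A hA).2.1, hπ A' (hcomp A' hA').2.1]
    exact hE.2.1 A A' (hcomp A hA) (hcomp A' hA') hne
  · have hc := hcomp A hA
    rw [hπ A hc.2.1, hl, ell_split S A B hc.2.1]
    have hv := vert_inter S B hS hB.2
    have h1 := hE.2.2 A (B ∩ S) hc hv Finset.inter_subset_right
    have h2 : N ((π (B ∩ S))⁻¹ * π B) ≤ M.ell (B ∩ S) B := by
      by_cases he : B ∩ S = B
      · rw [he]
        simp [hN.one, WS.ell]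
      · exact (hlip _ _ hv hB.2 he).le
    have h3 := hN.mul ((φ A)⁻¹ * π (B ∩ S)) ((π (B ∩ S))⁻¹ * π B)
    have h4 : (φ A)⁻¹ * π (B ∩ S) * ((π (B ∩ S))⁻¹ * π B) = (φ A)⁻¹ * π B := by group
    rw [h4] at h3
    linarith

end

end Model

open Model in
theorem model_ok : S_model := by
  intro G X _ _ _ _ _ _ _ _ _ N V hN hV
  classical
  obtain ⟨cd, hcd⟩ := exists_cd
  let dn : ℕ → G := TopologicalSpace.denseSeq G
  let lev : ℕ → ℕ := fun m => (cd m).2.1
  let lab : ℕ → ℕ := fun m => (cd m).2.2.2.1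
  let pp : ℕ → HS → Prop := fun m k =>
    k.1 < m ∧ (k ∈ (cd m).2.2.1 ∨ (k.1 ∉ (cd m).1 ∧ k.2 = true))
  let π : Finset ℕ → G := fun A =>
    if h : A.Nonempty then dn ((cd (A.max' h)).2.2.2.2.2 (A.erase (A.max' h))) else 1
  have hrec : ∀ x : X, ∃ d : ℕ → Prop, ∀ m, d m ↔
      ((cd m).2.2.2.2.1 = true ∨ ¬ OK N V π x (WS.mk lev lab pp (fun h => h < m ∧ d h)) m) :=
    fun x => exists_rec (fun m d => (cd m).2.2.2.2.1 = true ∨ ¬ OK N V π x (WS.mk lev lab pp d) m)
  choose dead hdead using hrec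
  refine ⟨lev, lab, pp, dead, π, Set.range dn, fun m => ?_, fun x => ?_⟩
  · rw [measurableSet_setOfPred]
    induction m using Nat.strong_induction_on with
    | _ m ih =>
      simp only [hdead _ m]
      refine measurable_const.or (Measurable.not ?_)
      refine meas_ok N V hV π lev lab pp (fun x h => h < m ∧ dead x h) (fun h => ?_) m
      by_cases hh : h < m
      · exact measurable_const.and (ih h hh)
      · simp only [hh, false_and]
        exact measurable_const
  · have hd : ∀ m, dead x m ↔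
        ((cd m).2.2.2.2.1 = true ∨ ¬ OK N V π x (WS.mk lev lab pp (dead x)) m) := fun m => by
      rw [hdead x m, ok_cut]
    have hlt : ∀ m k, (WS.mk lev lab pp (dead x)).pp m k → k.1 < m := fun m k h => h.1
    have hok : ∀ m, ¬ (WS.mk lev lab pp (dead x)).dead m →
        OK N V π x (WS.mk lev lab pp (dead x)) m := by
      intro m hm
      by_contra hc
      exact hm ((hd m).mpr (Or.inr hc))
    have hlip := lip hN hlt hok
    refine ⟨TopologicalSpace.denseRange_denseSeq G, hlt, hlip, labl hlt hok, ?_⟩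
    intro S l j R flag φ hS hR hφ hE
    choose n hn using hφ
    let val : Finset ℕ →₀ ℕ := Finsupp.onFinset S.powerset (fun A => if A ⊆ S then n A else 0)
      (fun A hA => by
        by_contra hc
        rw [Finset.mem_powerset] at hc
        simp [hc] at hA)
    obtain ⟨m, hm, hc⟩ := hcd (S, l, R, j, flag, val) (S.sup id + 1)
    have hSm : ∀ h ∈ S, h < m := fun h hh =>
      lt_of_lt_of_le (Nat.lt_succ_of_le (Finset.le_sup (f := id) hh)) hm
    have hl : lev m = l := by simp only [lev, hc]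
    have hj : lab m = j := by simp only [lab, hc]
    have hpp : ∀ k, pp m k ↔ (k ∈ R ∨ (k.1 < m ∧ k.1 ∉ S ∧ k.2 = true)) := by
      intro k
      simp only [pp, hc]
      constructor
      · rintro ⟨h1, h2 | h2⟩
        · exact Or.inl h2
        · exact Or.inr ⟨h1, h2⟩
      · rintro (h1 | h1)
        · exact ⟨hSm _ (hR k h1), Or.inl h1⟩
        · exact ⟨h1.1, Or.inr h1.2⟩
    have hπ : ∀ A, A ⊆ S → π (insert m A) = φ A := by
      intro A hA
      have hnon : (insert m A).Nonempty := Finset.insert_nonempty m A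
      have hmax : (insert m A).max' hnon = m := by
        apply le_antisymm
        · apply Finset.max'_le
          intro y hy
          rcases Finset.mem_insert.mp hy with rfl | hy
          · exact le_rfl
          · exact (hSm y (hA hy)).le
        · exact Finset.le_max' _ _ (Finset.mem_insert_self m A)
      have hmA : m ∉ A := fun h => lt_irrefl m (hSm m (hA h))
      simp only [π, hnon, dite_true, hmax, hc, Finset.erase_insert hmA]
      rw [← hn A]
      simp [val, hA]
    refine ⟨m, hSm, hl, hj, ?_, hpp, hπ⟩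
    change dead x m ↔ flag = true
    rw [hd m, hc]
    constructor
    · rintro (h | h)
      · exact h
      · by_contra hf
        exact h (ok_of_ext hN hlip S l j R φ hS (hE (by simpa using hf)) m hl hj hpp hπ)
    · exact fun h => Or.inl h

end Pool.Agent.P.MP_c1aa6a_an
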