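import Pool.Agent.P.MP_c1aa6a_an.Defs

/-! A bounded norm inducing the topology of a first countable group. -/

set_option autoImplicit false
open MeasureTheory Set Filter Topology

namespace Pool.Agent.P.MP_c1aa6a_an

namespace Norm

theorem exists_dist (G : Type) [TopologicalSpace G] [Group G] [IsTopologicalGroup G]
    [FirstCountableTopology G] : ∃ d : G → G → ℝ, (∀ a, d a a = 0) ∧ (∀ a b, 0 ≤ d a b) ∧
      (∀ a b, d a b = d b a) ∧ (∀ a b c, d a c ≤ d a b + d b c) ∧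
      (∀ ε > 0, ∃ U ∈ 𝓝 (1 : G), ∀ a b, a⁻¹ * b ∈ U → d a b < ε) ∧
      (∀ U ∈ 𝓝 (1 : G), ∃ ε > 0, ∀ a b, d a b < ε → a⁻¹ * b ∈ U) := by
  have hc : IsCountablyGenerated (@uniformity G (IsTopologicalGroup.leftUniformSpace G)) :=
    comap.isCountablyGenerated (𝓝 (1 : G)) (fun p : G × G => p.1⁻¹ * p.2)
  obtain ⟨I, hI⟩ := @UniformSpace.metrizable_uniformity G (IsTopologicalGroup.leftUniformSpace G) hc
  have hu : ∀ s : Set (G × G), s ∈ comap (fun p : G × G => p.1⁻¹ * p.2) (𝓝 (1 : G)) ↔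
      ∃ ε > 0, ∀ ⦃a b : G⦄, @dist G I.toDist a b < ε → (a, b) ∈ s := by
    intro s
    rw [← @Metric.mem_uniformity_dist G I s, hI]
    rfl
  refine ⟨@dist G I.toDist, @dist_self G I, fun a b => @dist_nonneg G I a b, @dist_comm G I,
    @dist_triangle G I, ?_, ?_⟩
  · intro ε hε
    obtain ⟨U, hU, h⟩ := (hu {p | @dist G I.toDist p.1 p.2 < ε}).2 ⟨ε, hε, fun _ _ h => h⟩
    exact ⟨U, hU, fun a b hab => h (show (a, b) ∈ _ from hab)⟩
  · intro U hU
    obtain ⟨ε, hε, h⟩ := (hu _).1 (preimage_mem_comap hU)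
    exact ⟨ε, hε, fun a b hab => h hab⟩

end Norm

theorem norm_ok : S_norm := by
  intro G _ _ _ _
  obtain ⟨d, d0, dn, ds, dt, d1, d2⟩ := Norm.exists_dist G
  have hb : ∀ g : G, BddAbove (range fun h => min (1 / 8 : ℝ) (d h (h * g))) := fun g =>
    ⟨1 / 8, by rintro _ ⟨h, rfl⟩; exact min_le_left _ _⟩
  have hle : ∀ g h : G, min (1 / 8 : ℝ) (d h (h * g)) ≤ ⨆ h, min (1 / 8 : ℝ) (d h (h * g)) :=
    fun g h => le_ciSup (hb g) h
  have hn : ∀ g : G, 0 ≤ ⨆ h, min (1 / 8 : ℝ) (d h (h * g)) := fun g =>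
    le_trans (le_min (by norm_num) (dn _ _)) (hle g 1)
  have hi : ∀ g : G, ⨆ h, min (1 / 8 : ℝ) (d h (h * g⁻¹)) ≤ ⨆ h, min (1 / 8 : ℝ) (d h (h * g)) := by
    intro g
    refine ciSup_le fun h => le_trans (le_of_eq ?_) (hle g (h * g⁻¹))
    rw [inv_mul_cancel_right, ds]
  refine ⟨fun g => ⨆ h, min (1 / 8 : ℝ) (d h (h * g)), ?_, hn, ?_, ?_, ?_, ?_, ?_⟩
  · refine le_antisymm (ciSup_le fun h => ?_) (hn 1)
    rw [mul_one, d0]
    exact min_le_right _ _
  · intro g
    refine le_antisymm (hi g) ?_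
    have := hi g⁻¹
    rwa [inv_inv] at this
  · intro g k
    refine ciSup_le fun h => le_trans ?_ (add_le_add (hle g h) (hle k (h * g)))
    have h1 := dt h (h * g) (h * g * k)
    have h2 := dn h (h * g)
    have h3 := dn (h * g) (h * g * k)
    rw [← mul_assoc]
    simp only [min_def]
    split_ifs <;> linarith
  · intro g
    exact ciSup_le fun h => min_le_left _ _
  · intro ε hε
    obtain ⟨U, hU, h⟩ := d1 (ε / 2) (by linarith)
    refine mem_of_superset hU fun g hg => ?_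
    refine lt_of_le_of_lt (ciSup_le fun k => ?_) (half_lt_self hε)
    exact (min_le_right _ _).trans (h k (k * g) (by rwa [inv_mul_cancel_left])).le
  · intro U hU
    obtain ⟨ε, hε, h⟩ := d2 U hU
    refine ⟨min (1 / 8) ε, lt_min (by norm_num) hε, fun g hg => ?_⟩
    have h1 := (hle g 1).trans_lt hg
    have h2 : d 1 (1 * g) < ε := by
      by_contra h3
      exact absurd h1 (not_lt.2 (min_le_min le_rfl (not_lt.1 h3)))
    have := h _ _ h2
    rwa [inv_mul_cancel_left] at this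

end Pool.Agent.P.MP_c1aa6a_an
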