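import Pool.Agent.P.MP_c1aa6a_an.Defs

/-! The product ergodicity lemma. -/

set_option autoImplicit false
open MeasureTheory Set Filter Topology
open scoped ENNReal NNReal symmDiff

namespace Pool.Agent.P.MP_c1aa6a_an

theorem pe_ok : S_PE := by
  intro B F ι κ _ _ _ β P _ _ g r S hg hge hr hre hS A hA h1 h2
  have f1 : ∀ᵐ b ∂β, P (Prod.mk b ⁻¹' A) = 0 ∨ P (Prod.mk b ⁻¹' Aᶜ) = 0 := by
    have h3 : ∀ᵐ b ∂β, ∀ j, ∀ᵐ y ∂P,
        ((b, y) ∈ Prod.map id (g j) ⁻¹' A) = ((b, y) ∈ A) :=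
      ae_all_iff.2 fun j => Measure.ae_ae_of_ae_prod (h1 j)
    filter_upwards [h3] with b hb
    exact hge _ (measurable_prodMk_left hA) fun j => hb j
  have hm : Measurable fun b => P (Prod.mk b ⁻¹' Aᶜ) := measurable_measure_prodMk_left hA.compl
  have hB0 : MeasurableSet {b | P (Prod.mk b ⁻¹' Aᶜ) = 0} := hm (measurableSet_singleton 0)
  have f2 : ∀ j, r j ⁻¹' {b | P (Prod.mk b ⁻¹' Aᶜ) = 0} =ᵐ[β] {b | P (Prod.mk b ⁻¹' Aᶜ) = 0} := by
    intro j
    filter_upwards [Measure.ae_ae_of_ae_prod (h2 j)] with b hb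
    have e1 : P (Prod.mk (r j b) ⁻¹' Aᶜ) = P (Prod.mk b ⁻¹' Aᶜ) := by
      rw [← (hS j).measure_preimage (measurable_prodMk_left hA.compl).nullMeasurableSet]
      refine measure_congr ?_
      filter_upwards [hb] with y hy
      exact congrArg Not hy
    change (P (Prod.mk (r j b) ⁻¹' Aᶜ) = 0) = (P (Prod.mk b ⁻¹' Aᶜ) = 0)
    rw [e1]
  rcases hre _ hB0 f2 with h | h
  · left
    rw [Measure.measure_prod_null hA]
    filter_upwards [f1, measure_eq_zero_iff_ae_notMem.1 h] with b hb hb'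
    exact hb.resolve_right hb'
  · right
    rw [Measure.measure_prod_null hA.compl]
    filter_upwards [measure_eq_zero_iff_ae_notMem.1 h] with b hb
    exact not_not.1 hb

end Pool.Agent.P.MP_c1aa6a_an
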