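import Pool.Agent.P.MP_c1aa6a_an.Defs

/-! The family `alpha`: commuting measure preserving involutions, ergodicity, measurability. -/

set_option autoImplicit false
open MeasureTheory Set Filter Topology
open scoped ENNReal NNReal symmDiff

namespace Pool.Agent.P.MP_c1aa6a_an

namespace Sys

theorem act_comm (hm : S_maps) {s t s' t' : Q → Q} (hs : Good s) (ht : Good t) (hs' : Good s')
    (ht' : Good t') (h : ∀ q, s (t q) = s' (t' q)) (ν : Cf) :
    act s (act t ν) = act s' (act t' ν) := by
  have hpre := hm.2.2.2.2.2.1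
  funext E
  simp only [act]
  congr 1
  apply Subtype.ext
  rw [hpre t ht, hpre s hs, hpre t' ht', hpre s' hs']
  ext q
  simp only [mem_preimage, h]

theorem act_invol (hm : S_maps) {s : Q → Q} (hs : Good s) (ν : Cf) : act s (act s ν) = ν := by
  have hpre := hm.2.2.2.2.2.1
  funext E
  simp only [act]
  congr 1
  apply Subtype.ext
  rw [hpre s hs, hpre s hs]
  ext q
  simp only [mem_preimage, hs.2 q]

theorem Jm_congr (R : ℕ → HS → HS → Prop) {q q' : Q} (hc : q'.1.c = q.1.c) (hk : q'.1.k = q.1.k)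
    (hk' : q'.1.k' = q.1.k') (hF : q'.1.F = q.1.F)
    (h2 : ∀ h, q'.2 (Sum.inl h) = q.2 (Sum.inl h)) (k : HS) : Jm R q' k ↔ Jm R q k := by
  unfold Jm
  rw [hc]
  generalize q.1.c = c
  rcases c with _ | _ | _ | c <;> simp [hk, hk', hF, h2]

theorem msk_congr (R : ℕ → HS → HS → Prop) {a a' : At → Bool} {q q' : Q} (hc : q'.1.c = q.1.c)
    (hk : q'.1.k = q.1.k) (hk' : q'.1.k' = q.1.k') (hF : q'.1.F = q.1.F)
    (h2 : ∀ h, q'.2 (Sum.inl h) = q.2 (Sum.inl h))
    (ha : ∀ k, a' (k, q'.1.n) = a (k, q.1.n)) : msk R a' q' = msk R a q := by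
  funext c
  rcases c with h | h | k
  · rfl
  · rfl
  · have e : Jm R q' k = Jm R q k := propext (Jm_congr R hc hk hk' hF h2 k)
    simp only [msk, Sum.elim_inr, ha k]
    rw [e]

theorem msk_rho (R : ℕ → HS → HS → Prop) (a a' : At → Bool) (q : Q) :
    msk R a (rho R a' q) = msk R a q :=
  msk_congr R rfl rfl rfl rfl (fun h => by simp [rho, msk]) (fun _ => rfl)

theorem msk_dsh (R : ℕ → HS → HS → Prop) (a : At → Bool) (j : ℕ) (q : Q) :
    msk R a (dsh j q) = msk R a q :=
  msk_congr R rfl rfl rfl rfl (fun _ => rfl) (fun _ => rfl)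

theorem msk_nsh (R : ℕ → HS → HS → Prop) (η : Yl) (i j : ℕ) (q : Q) :
    msk R (fun a => ysh j η (a, i)) (nsh j q) = msk R (fun a => η (a, i)) q :=
  msk_congr R rfl rfl rfl rfl (fun _ => rfl) (fun k => by
    simp [ysh, nsh])

theorem rho_rho (R : ℕ → HS → HS → Prop) (a a' : At → Bool) (q : Q) :
    rho R a (rho R a' q) = rho R a' (rho R a q) := by
  refine Prod.ext rfl ?_
  funext c
  change xor (xor (q.2 c) (msk R a' q c)) (msk R a (rho R a' q) c) =
    xor (xor (q.2 c) (msk R a q c)) (msk R a' (rho R a q) c)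
  rw [msk_rho, msk_rho]
  cases q.2 c <;> cases msk R a' q c <;> cases msk R a q c <;> rfl

theorem rho_dsh (R : ℕ → HS → HS → Prop) (a : At → Bool) (j : ℕ) (q : Q) :
    rho R a (dsh j q) = dsh j (rho R a q) := by
  refine Prod.ext rfl ?_
  funext c
  change xor (q.2 c) (msk R a (dsh j q) c) = xor (q.2 c) (msk R a q c)
  rw [msk_dsh]

theorem nsh_rho (R : ℕ → HS → HS → Prop) (η : Yl) (i j : ℕ) (q : Q) :
    nsh j (rho R (fun a => η (a, i)) q) = rho R (fun a => ysh j η (a, i)) (nsh j q) := by
  refine Prod.ext rfl ?_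
  funext c
  change xor (q.2 c) (msk R (fun a => η (a, i)) q c) =
    xor (q.2 c) (msk R (fun a => ysh j η (a, i)) (nsh j q) c)
  rw [msk_nsh]

theorem cell_congr (C : Cell) {q q' : Q} (hc : q'.1.c = q.1.c)
    (h2 : ∀ h, q'.2 (Sum.inr (Sum.inl h)) = q.2 (Sum.inr (Sum.inl h))) :
    q' ∈ cell C ↔ q ∈ cell C := by
  rcases C with c | p | u <;> simp [cell, hc, h2]

theorem cell_rho (C : Cell) (R : ℕ → HS → HS → Prop) (a : At → Bool) (q : Q) :
    rho R a q ∈ cell C ↔ q ∈ cell C :=
  cell_congr C rfl (fun h => by simp [rho, msk])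

theorem cell_dsh (C : Cell) (j : ℕ) (q : Q) : dsh j q ∈ cell C ↔ q ∈ cell C :=
  cell_congr C rfl (fun _ => rfl)

theorem cell_nsh (C : Cell) (j : ℕ) (q : Q) : nsh j q ∈ cell C ↔ q ∈ cell C :=
  cell_congr C rfl (fun _ => rfl)

theorem dsh_dsh (i j : ℕ) (q : Q) : dsh i (dsh j q) = dsh j (dsh i q) := by
  simp only [dsh, symmDiff_right_comm q.1.d {j} {i}]

theorem nsh_nsh (i j : ℕ) (q : Q) : nsh i (nsh j q) = nsh j (nsh i q) := by
  simp only [nsh, symmDiff_right_comm q.1.n {j} {i}]

theorem nsh_dsh (i j : ℕ) (q : Q) : nsh i (dsh j q) = dsh j (nsh i q) := rfl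

theorem rho_uC (R : ℕ → HS → HS → Prop) (a : At → Bool) (p : Cell × ℕ) (q : Q) :
    rho R a (uC p q) = uC p (rho R a q) := by
  unfold uC
  by_cases h : q ∈ cell p.1
  · rw [if_pos h, if_pos ((cell_rho _ _ _ _).2 h)]
  · rw [if_neg h, if_neg (fun h' => h ((cell_rho _ _ _ _).1 h')), rho_dsh]

theorem nsh_uC (j : ℕ) (p : Cell × ℕ) (q : Q) : nsh j (uC p q) = uC p (nsh j q) := by
  unfold uC
  by_cases h : q ∈ cell p.1
  · rw [if_pos h, if_pos ((cell_nsh _ _ _).2 h)]
  · rw [if_neg h, if_neg (fun h' => h ((cell_nsh _ _ _).1 h')), nsh_dsh]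

theorem uC_uC (p p' : Cell × ℕ) (q : Q) : uC p (uC p' q) = uC p' (uC p q) := by
  unfold uC
  by_cases h : q ∈ cell p.1 <;> by_cases h' : q ∈ cell p'.1 <;>
    simp only [h, h', if_true, if_false, cell_dsh]
  exact dsh_dsh _ _ _

theorem ysh_ysh (i j : ℕ) (η : Yl) : ysh i (ysh j η) = ysh j (ysh i η) := by
  funext p
  simp only [ysh, symmDiff_right_comm p.1.2 {i} {j}]

theorem ysh_invol (j : ℕ) (η : Yl) : ysh j (ysh j η) = η := by
  funext p
  simp [ysh]

theorem meas_ysh (j : ℕ) : Measurable (ysh j) :=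
  measurable_pi_iff.2 fun _ => measurable_pi_apply _

/-- joint measurability of the push-forward of configurations -/
theorem meas_act (hm : S_maps) {Z : Type} [MeasurableSpace Z] (s : Z → Q → Q)
    (hs : ∀ z, Good (s z)) (hq : ∀ q, Measurable fun z => s z q) :
    Measurable fun p : Z × Cf => act (s p.1) p.2 := by
  have hpre := hm.2.2.2.2.2.1
  obtain ⟨D, hDc, hD⟩ := TopologicalSpace.exists_countable_dense Q
  refine measurable_pi_iff.2 fun E => ?_
  have key : ∀ E' : CO, MeasurableSet {z | preCO (s z) E = E'} := by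
    intro E'
    have : {z | preCO (s z) E = E'} = ⋂ q ∈ D, {z | s z q ∈ E.1 ↔ q ∈ E'.1} := by
      ext z
      simp only [mem_ofPred_eq, mem_iInter]
      constructor
      · rintro rfl q -
        rw [hpre _ (hs z)]; rfl
      · intro h
        apply Subtype.ext
        have c1 : IsClopen (preCO (s z) E).1 :=
          ⟨(preCO (s z) E).2.1.isClosed, (preCO (s z) E).2.2⟩
        have c2 : IsClopen E'.1 := ⟨E'.2.1.isClosed, E'.2.2⟩
        have h' : ∀ q ∈ D, q ∈ (preCO (s z) E).1 ↔ q ∈ E'.1 := by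
          intro q hq
          rw [hpre _ (hs z)]; exact h q hq
        apply Subset.antisymm
        · by_contra hn
          obtain ⟨q, hq1, hq2⟩ := hD.exists_mem_open (c1.diff c2).isOpen
            (by rwa [sdiff_nonempty])
          exact hq2.2 ((h' q hq1).1 hq2.1)
        · by_contra hn
          obtain ⟨q, hq1, hq2⟩ := hD.exists_mem_open (c2.diff c1).isOpen
            (by rwa [sdiff_nonempty])
          exact hq2.2 ((h' q hq1).2 hq2.1)
    rw [this]
    refine MeasurableSet.biInter hDc fun q _ => ?_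
    have hE : MeasurableSet {z | s z q ∈ E.1} := hq q E.2.2.measurableSet
    by_cases h : q ∈ E'.1
    · simpa [h] using hE
    · have e : {z | s z q ∈ E.1 ↔ q ∈ E'.1} = {z | s z q ∈ E.1}ᶜ := by
        ext z; simp [h]
      rw [e]; exact hE.compl
  refine measurable_to_countable' fun n => ?_
  have : (fun p : Z × Cf => act (s p.1) p.2 E) ⁻¹' {n} =
      ⋃ E' : CO, {z | preCO (s z) E = E'} ×ˢ {ν : Cf | ν E' = n} := by
    ext p
    simp [act]
  rw [this]
  refine MeasurableSet.iUnion fun E' => (key E').prod ?_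
  have hm' : Measurable fun ν : Cf => ν E' := measurable_pi_apply E'
  exact hm' (measurableSet_singleton n)

theorem meas_Jm {Z : Type} [MeasurableSpace Z] (R : Z → ℕ → HS → HS → Prop)
    (hR : ∀ c k k', MeasurableSet {z | R z c k k'}) (q : Q) (k : HS) :
    MeasurableSet {z | Jm (R z) q k} := by
  unfold Jm
  generalize q.1.c = c
  rcases c with _ | _ | _ | c
  · exact MeasurableSet.const _
  · exact MeasurableSet.const _
  · exact MeasurableSet.const _
  · exact (hR c _ _).inter (MeasurableSet.const _)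

theorem meas_rho {Z : Type} [MeasurableSpace Z] (R : Z → ℕ → HS → HS → Prop)
    (hR : ∀ c k k', MeasurableSet {z | R z c k k'}) (a : Z → At → Bool)
    (ha : ∀ x, Measurable fun z => a z x) (q : Q) : Measurable fun z => rho (R z) (a z) q := by
  classical
  refine measurable_const.prodMk (measurable_pi_iff.2 fun c => ?_)
  have h : Measurable fun z => msk (R z) (a z) q c := by
    rcases c with h | h | k
    · exact measurable_const
    · exact measurable_const
    · have h1 : Measurable fun z => decide (Jm (R z) q k) := by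
        refine measurable_to_countable' fun b => ?_
        cases b
        · have e : (fun z => decide (Jm (R z) q k)) ⁻¹' {false} = {z | Jm (R z) q k}ᶜ := by
            ext z; simp
          rw [e]; exact (meas_Jm R hR q k).compl
        · have e : (fun z => decide (Jm (R z) q k)) ⁻¹' {true} = {z | Jm (R z) q k} := by
            ext z; simp
          rw [e]; exact meas_Jm R hR q k
      have h2 : Measurable fun p : Bool × Bool => (p.1 && p.2) := measurable_of_countable _
      exact h2.comp ((ha (k, q.1.n)).prodMk h1)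
  exact (measurable_of_countable (fun b : Bool => xor (q.2 c) b)).comp h

theorem meas_alpha (hm : S_maps) (lev : ℕ → ℕ) (X : Type) [MeasurableSpace X]
    (R : X → ℕ → HS → HS → Prop) (hR : ∀ c k k', MeasurableSet {x | R x c k k'}) (g : Gen) :
    Measurable (fun p : X × (Yl × Cf) => alpha (R p.1) g p.2) := by
  rcases g with j | i | p
  · have h := meas_act hm (Z := Unit) (fun _ => nsh j) (fun _ => (hm.2.2.1 lev j).1)
      (fun _ => measurable_const)
    exact ((meas_ysh j).comp measurable_snd.fst).prodMk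
      (h.comp (measurable_const (a := ()) |>.prodMk measurable_snd.snd))
  · have h := meas_act hm (Z := X × Yl) (fun z => rho (R z.1) (fun a => z.2 (a, i)))
      (fun z => (hm.1 lev _ _).1)
      (meas_rho (fun z : X × Yl => R z.1) (fun c k k' => measurable_fst (hR c k k'))
        (fun z a => z.2 (a, i)) (fun x => (measurable_pi_apply _).comp measurable_snd))
    exact measurable_snd.fst.prodMk
      (h.comp ((measurable_fst.prodMk measurable_snd.fst).prodMk measurable_snd.snd))
  · have h := meas_act hm (Z := Unit) (fun _ => uC p) (fun _ => (hm.2.1 lev p).1)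
      (fun _ => measurable_const)
    exact measurable_snd.fst.prodMk
      (h.comp (measurable_const (a := ()) |>.prodMk measurable_snd.snd))

theorem alpha_invol (hm : S_maps) (lev : ℕ → ℕ) (R : ℕ → HS → HS → Prop) (g : Gen) :
    Function.Involutive (alpha R g) := by
  intro w
  rcases g with j | i | p
  · exact Prod.ext (ysh_invol j w.1) (act_invol hm (hm.2.2.1 lev j).1 w.2)
  · exact Prod.ext rfl (act_invol hm (hm.1 lev _ _).1 w.2)
  · exact Prod.ext rfl (act_invol hm (hm.2.1 lev p).1 w.2)

theorem alpha_comm (hm : S_maps) (lev : ℕ → ℕ) (R : ℕ → HS → HS → Prop) (g g' : Gen) :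
    Function.Commute (alpha R g) (alpha R g') := by
  have gr := fun a => (hm.1 lev R a).1
  have gu := fun p => (hm.2.1 lev p).1
  have gn := fun j => (hm.2.2.1 lev j).1
  intro w
  rcases g with j | i | p <;> rcases g' with j' | i' | p'
  · exact Prod.ext (ysh_ysh _ _ _) (act_comm hm (gn _) (gn _) (gn _) (gn _) (nsh_nsh _ _) _)
  · exact Prod.ext rfl (act_comm hm (gn _) (gr _) (gr _) (gn _) (nsh_rho R w.1 i' j) _)
  · exact Prod.ext rfl (act_comm hm (gn _) (gu _) (gu _) (gn _) (nsh_uC j p') _)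
  · exact Prod.ext rfl
      (act_comm hm (gr _) (gn _) (gn _) (gr _) (fun q => (nsh_rho R w.1 i j' q).symm) _)
  · exact Prod.ext rfl (act_comm hm (gr _) (gr _) (gr _) (gr _) (rho_rho R _ _) _)
  · exact Prod.ext rfl (act_comm hm (gr _) (gu _) (gu _) (gr _) (rho_uC R _ p') _)
  · exact Prod.ext rfl
      (act_comm hm (gu _) (gn _) (gn _) (gu _) (fun q => (nsh_uC j' p q).symm) _)
  · exact Prod.ext rfl
      (act_comm hm (gu _) (gr _) (gr _) (gu _) (fun q => (rho_uC R _ p q).symm) _)
  · exact Prod.ext rfl (act_comm hm (gu _) (gu _) (gu _) (gu _) (uC_uC p p') _)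

end Sys

theorem sys_ok (hl : S_lift) (hm : S_maps) (hf : S_first) (hp : S_PE) (hb : S_bern) : S_sys := by
  intro lev P _ I hI
  have hact : ∀ t, Good t → MeasurePreserving t (mQ (xi lev)) (mQ (xi lev)) →
      MeasurePreserving (act t) P P := fun t ht hmp => ((hl (xi lev) P I hI).2.1 t ht hmp).2.1
  have mr := fun R a => hact _ (hm.1 lev R a).1 (hm.1 lev R a).2
  have mu := fun p => hact _ (hm.2.1 lev p).1 (hm.2.1 lev p).2
  have mn := fun j => hact _ (hm.2.2.1 lev j).1 (hm.2.2.1 lev j).2
  have my := hb.2.2.2.2.1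
  refine ⟨fun R => ⟨⟨fun g => ?_, Sys.alpha_invol hm lev R, Sys.alpha_comm hm lev R⟩, ?_⟩,
    fun X _ R hR g => Sys.meas_alpha hm lev X R hR g⟩
  · rcases g with j | i | p
    · exact (my j).prod (mn j)
    · have h := Sys.meas_act hm (Z := Yl) (fun η => rho R (fun a => η (a, i)))
        (fun z => (hm.1 lev _ _).1)
        (Sys.meas_rho (fun _ : Yl => R) (fun c k k' => MeasurableSet.const _)
          (fun η a => η (a, i)) (fun x => measurable_pi_apply _))
      exact (MeasurePreserving.id (unif (At × ℕ))).skew_product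
        (g := fun η ν => act (rho R (fun a => η (a, i))) ν) h
        (Eventually.of_forall fun η => (mr R _).map_eq)
    · exact (MeasurePreserving.id (unif (At × ℕ))).prod (mu p)
  · intro A hA hinv
    exact hp Yl Cf (Cell × ℕ) ℕ (unif (At × ℕ)) P (fun p => act (uC p)) ysh
      (fun j => act (nsh j)) mu (hf lev P I hI).1 my hb.2.2.2.2.2.1 mn A hA
      (fun p => hinv (Sum.inr (Sum.inr p))) (fun j => hinv (Sum.inl j))

end Pool.Agent.P.MP_c1aa6a_an
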