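import Pool.Agent.P.MP_c1aa6a_an.Defs

/-! Finite measures on configurations are determined by their Laplace functionals. -/

open MeasureTheory Set Filter Topology BoundedContinuousFunction
open scoped ENNReal NNReal symmDiff

namespace Pool.Agent.P.MP_c1aa6a_an

namespace Uniq

/-- the test function attached to a list of compact open sets -/
noncomputable def tf (l : List CO) (ν : Cf) : ℝ := ex (l.map fun E => (E, 1 / 2)) ν

theorem tf_nil : tf [] = fun _ => 1 := by
  funext ν
  simp [tf, ex]

theorem tf_cons (E : CO) (l : List CO) (ν : Cf) : tf (E :: l) ν = (1 / 2) ^ ν E * tf l ν := by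
  simp [tf, ex]

theorem tf_append (l l' : List CO) (ν : Cf) : tf (l ++ l') ν = tf l ν * tf l' ν := by
  simp [tf, ex]

theorem tf_cont (l : List CO) : Continuous (tf l) := by
  induction l with
  | nil => rw [tf_nil]; exact continuous_const
  | cons E l ih =>
    have h : Continuous fun ν : Cf => ((1 : ℝ) / 2) ^ ν E :=
      (continuous_of_discreteTopology (f := fun n : ℕ => ((1 : ℝ) / 2) ^ n)).comp
        (continuous_apply E)
    exact (h.mul ih).congr fun ν => (tf_cons E l ν).symm

theorem tf_bd (l : List CO) (ν : Cf) : ‖tf l ν‖ ≤ 1 := by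
  induction l with
  | nil => simp [tf_nil]
  | cons E l ih =>
    rw [tf_cons, norm_mul]
    refine mul_le_one₀ ?_ (norm_nonneg _) ih
    rw [norm_pow]
    exact pow_le_one₀ (norm_nonneg _) (by norm_num)

/-- the test function as a bounded continuous function -/
noncomputable def tb (l : List CO) : Cf →ᵇ ℝ :=
  ofNormedAddCommGroup (tf l) (tf_cont l) 1 (tf_bd l)

theorem tb_apply (l : List CO) (ν : Cf) : tb l ν = tf l ν := rfl

/-- the monoid of test functions -/
def mon : Submonoid (Cf →ᵇ ℝ) where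
  carrier := range tb
  mul_mem' := by
    rintro _ _ ⟨l, rfl⟩ ⟨l', rfl⟩
    exact ⟨l ++ l', by ext ν; simp [tb_apply, tf_append]⟩
  one_mem' := ⟨[], by ext ν; simp [tb_apply, tf_nil]⟩

/-- the algebra generated by the test functions -/
noncomputable def alg : StarSubalgebra ℝ (Cf →ᵇ ℝ) where
  toSubalgebra := Algebra.adjoin ℝ (range tb)
  star_mem' := fun {f} hf => by
    have : star f = f := by ext ν; simp
    rwa [this]

theorem alg_span {g : Cf →ᵇ ℝ} (hg : g ∈ alg) : g ∈ Submodule.span ℝ (range tb) := by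
  have h1 : g ∈ Subalgebra.toSubmodule (Algebra.adjoin ℝ (range tb)) := hg
  rw [Algebra.adjoin_eq_span] at h1
  have h2 : Submonoid.closure (range tb) = mon := Submonoid.closure_eq mon
  rwa [h2] at h1

theorem ext_tf (μ₁ μ₂ : Measure Cf) [IsFiniteMeasure μ₁] [IsFiniteMeasure μ₂]
    (h : ∀ l, ∫ ν, tf l ν ∂μ₁ = ∫ ν, tf l ν ∂μ₂) : μ₁ = μ₂ := by
  refine ext_of_forall_mem_subalgebra_integral_eq_of_polish (𝕜 := ℝ) (A := alg) ?_ ?_
  · intro ν ν' hne
    obtain ⟨E, hE⟩ := Function.ne_iff.1 hne
    refine ⟨tf [E], ⟨(tb [E]).toContinuousMap, ⟨tb [E], Algebra.subset_adjoin ⟨_, rfl⟩, rfl⟩, rfl⟩,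
      ?_⟩
    simp only [tf_cons, tf_nil, mul_one]
    exact fun h => hE (pow_right_injective₀ (by norm_num) (by norm_num) h)
  · intro g hg
    refine Submodule.span_induction (p := fun g _ => ∫ ν, g ν ∂μ₁ = ∫ ν, g ν ∂μ₂) ?_ ?_ ?_ ?_
      (alg_span hg)
    · rintro _ ⟨l, rfl⟩
      exact h l
    · simp
    · intro f g _ _ hf hg
      simp only [BoundedContinuousFunction.coe_add, Pi.add_apply]
      rw [integral_add (f.integrable _) (g.integrable _),
        integral_add (f.integrable _) (g.integrable _), hf, hg]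
    · intro c f _ hf
      simp only [BoundedContinuousFunction.coe_smul, smul_eq_mul]
      rw [integral_const_mul, integral_const_mul, hf]

theorem eq_zero (P : Measure Cf) [IsFiniteMeasure P] (f : L2 P)
    (h : ∀ l, ∫ ν, f ν * tf l ν ∂P = 0) : f = 0 := by
  have hm : Measurable f := (Lp.stronglyMeasurable f).measurable
  have hi : Integrable f P := (Lp.memLp f).integrable (by norm_num)
  have key : ∀ g : Cf → ℝ, Measurable g → ∀ l,
      ∫ ν, tf l ν ∂(P.withDensity fun ν => ENNReal.ofReal (g ν)) =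
        ∫ ν, max (g ν) 0 * tf l ν ∂P := fun g hg l => by
    have := integral_withDensity_eq_integral_smul (μ := P) hg.real_toNNReal (tf l)
    refine this.trans (integral_congr_ae (Eventually.of_forall fun ν => ?_))
    simp [NNReal.smul_def]
  have hb : ∀ g : Cf → ℝ, Integrable g P → ∀ l, Integrable (fun ν => max (g ν) 0 * tf l ν) P :=
    fun g hg l => hg.pos_part.mul_bdd (tf_cont l).aestronglyMeasurable
      (Eventually.of_forall (tf_bd l))
  have := isFiniteMeasure_withDensity_ofReal hi.2
  have := isFiniteMeasure_withDensity_ofReal hi.neg.2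
  have e := ext_tf (P.withDensity fun ν => ENNReal.ofReal (f ν))
    (P.withDensity fun ν => ENNReal.ofReal ((-⇑f) ν)) fun l => by
      rw [key _ hm, key _ hm.neg, ← sub_eq_zero, ← integral_sub (hb _ hi l) (hb _ hi.neg l)]
      refine Eq.trans (integral_congr_ae (Eventually.of_forall fun ν => ?_)) (h l)
      simp only [Pi.neg_apply]
      rw [← sub_mul, max_zero_sub_max_neg_zero_eq_self]
  rw [withDensity_eq_iff hm.ennreal_ofReal.aemeasurable hm.neg.ennreal_ofReal.aemeasurable
    hi.lintegral_lt_top.ne] at e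
  refine Lp.eq_zero_iff_ae_eq_zero.2 ?_
  filter_upwards [e] with ν hν
  simp only [Pi.neg_apply] at hν
  rcases lt_trichotomy (f ν) 0 with h0 | h0 | h0
  · rw [ENNReal.ofReal_of_nonpos h0.le, eq_comm, ENNReal.ofReal_eq_zero] at hν
    linarith
  · exact h0
  · rw [ENNReal.ofReal_of_nonpos (by linarith : -f ν ≤ 0), ENNReal.ofReal_eq_zero] at hν
    linarith

end Uniq

theorem uniq_ok : S_uniq :=
  ⟨fun μ₁ μ₂ _ _ h => Uniq.ext_tf μ₁ μ₂ h, fun P _ f h => Uniq.eq_zero P f h⟩

end Pool.Agent.P.MP_c1aa6a_an
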