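import Pool.Agent.P.MP_c1aa6a_an.Step1
import Pool.Agent.P.MP_c1aa6a_an.Approx
import Pool.Agent.P.MP_c1aa6a_an.Baf
import Pool.Agent.P.MP_c1aa6a_an.Bern
import Pool.Agent.P.MP_c1aa6a_an.Chaos
import Pool.Agent.P.MP_c1aa6a_an.CharF
import Pool.Agent.P.MP_c1aa6a_an.Conv
import Pool.Agent.P.MP_c1aa6a_an.Corr
import Pool.Agent.P.MP_c1aa6a_an.Dec1
import Pool.Agent.P.MP_c1aa6a_an.Dec2
import Pool.Agent.P.MP_c1aa6a_an.Dec3
import Pool.Agent.P.MP_c1aa6a_an.FL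
import Pool.Agent.P.MP_c1aa6a_an.First
import Pool.Agent.P.MP_c1aa6a_an.IsoS
import Pool.Agent.P.MP_c1aa6a_an.L0a
import Pool.Agent.P.MP_c1aa6a_an.L0b
import Pool.Agent.P.MP_c1aa6a_an.LapP
import Pool.Agent.P.MP_c1aa6a_an.Lift
import Pool.Agent.P.MP_c1aa6a_an.Maps
import Pool.Agent.P.MP_c1aa6a_an.Model
import Pool.Agent.P.MP_c1aa6a_an.Norm
import Pool.Agent.P.MP_c1aa6a_an.PE
import Pool.Agent.P.MP_c1aa6a_an.Sys
import Pool.Agent.P.MP_c1aa6a_an.Transfer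
import Pool.Agent.P.MP_c1aa6a_an.Uniq

/-! All interface statements, proved. -/

namespace Pool.Agent.P.MP_c1aa6a_an

theorem lift_all : S_lift := lift_ok approx_ok uniq_ok maps_ok

theorem first_all : S_first := first_ok approx_ok uniq_ok lift_all maps_ok

theorem step2_all : S_step2 :=
  step2_ok lap_ok (chaos_ok approx_ok) lift_all maps_ok first_all
    (corr_ok first_all (char_ok approx_ok) lift_all maps_ok) (dec1_ok maps_ok)
    (dec2_ok maps_ok approx_ok) dec3_ok (sys_ok lift_all maps_ok first_all pe_ok bern_ok)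
    (iso_ok lift_all maps_ok) bern_ok (l0a_ok bern_ok) (l0b_ok (l0a_ok bern_ok) bern_ok pe_ok)
    fl_ok transfer_ok

end Pool.Agent.P.MP_c1aa6a_an
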