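import Pool.Agent.P.MP_c1aa6a_an.Defs

/-! Back-and-forth between wall models: finite isomorphisms and basic lemmas. -/

set_option autoImplicit false
open Set Filter Topology
open scoped symmDiff

namespace Pool.Agent.P.MP_c1aa6a_an.Baf

/-- Finite isomorphism data between two finite sets of walls. -/
structure PI where
  S : Finset ℕ
  S' : Finset ℕ
  f : ℕ → ℕ
  g : ℕ → ℕ
  t : ℕ → Bool
  t' : ℕ → Bool

def PI.swap (p : PI) : PI := ⟨p.S', p.S, p.g, p.f, p.t', p.t⟩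

def PI.hm (p : PI) (k : HS) : HS := (p.f k.1, xor k.2 (p.t k.1))

structure PI.OK (M M' : WS) (p : PI) : Prop where
  mf : ∀ h ∈ p.S, p.f h ∈ p.S'
  mg : ∀ h ∈ p.S', p.g h ∈ p.S
  gf : ∀ h ∈ p.S, p.g (p.f h) = h
  fg : ∀ h ∈ p.S', p.f (p.g h) = h
  tt : ∀ h ∈ p.S, p.t' (p.f h) = p.t h
  lev : ∀ h ∈ p.S, M'.lev (p.f h) = M.lev h
  lab : ∀ k : HS, k.1 ∈ p.S → M'.Lab (p.hm k) = M.Lab k
  perp : ∀ k k' : HS, k.1 ∈ p.S → k'.1 ∈ p.S → (M'.perp (p.hm k) (p.hm k') ↔ M.perp k k')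

def PI.Ext (p q : PI) : Prop :=
  p.S ⊆ q.S ∧ p.S' ⊆ q.S' ∧ (∀ h ∈ p.S, q.f h = p.f h ∧ q.t h = p.t h) ∧
    ∀ h ∈ p.S', q.g h = p.g h ∧ q.t' h = p.t' h

theorem PI.Ext.refl (p : PI) : p.Ext p :=
  ⟨Finset.Subset.refl _, Finset.Subset.refl _, fun _ _ => ⟨rfl, rfl⟩, fun _ _ => ⟨rfl, rfl⟩⟩

theorem PI.Ext.trans {p q r : PI} (h : p.Ext q) (h' : q.Ext r) : p.Ext r :=
  ⟨h.1.trans h'.1, h.2.1.trans h'.2.1,
    fun a ha => ⟨((h'.2.2.1 a (h.1 ha)).1).trans (h.2.2.1 a ha).1,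
      ((h'.2.2.1 a (h.1 ha)).2).trans (h.2.2.1 a ha).2⟩,
    fun a ha => ⟨((h'.2.2.2 a (h.2.1 ha)).1).trans (h.2.2.2 a ha).1,
      ((h'.2.2.2 a (h.2.1 ha)).2).trans (h.2.2.2 a ha).2⟩⟩

theorem PI.Ext.swap {p q : PI} (h : p.Ext q) : p.swap.Ext q.swap :=
  ⟨h.2.1, h.1, h.2.2.2, h.2.2.1⟩

theorem PI.OK.hm_swap {M M' : WS} {p : PI} (h : p.OK M M') (k : HS) (hk : k.1 ∈ p.S') :
    p.hm (p.swap.hm k) = k := by
  obtain ⟨a, s⟩ := k
  have h1 := h.fg a hk
  have h2 := h.tt _ (h.mg a hk)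
  rw [h1] at h2
  simp only [PI.hm, PI.swap, h1, ← h2]
  cases s <;> cases p.t' a <;> rfl

theorem PI.OK.swap {M M' : WS} {p : PI} (h : p.OK M M') : p.swap.OK M' M := by
  refine ⟨h.mg, h.mf, h.fg, h.gf, fun a ha => ?_, fun a ha => ?_, fun k hk => ?_,
    fun k k' hk hk' => ?_⟩
  · have := h.tt _ (h.mg a ha)
    rw [h.fg a ha] at this
    exact this.symm
  · have := h.lev _ (h.mg a ha)
    rw [h.fg a ha] at this
    exact this.symm
  · have := h.lab (p.swap.hm k) (h.mg _ hk)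
    rw [h.hm_swap k hk] at this
    exact this.symm
  · have := h.perp (p.swap.hm k) (p.swap.hm k') (h.mg _ hk) (h.mg _ hk')
    rw [h.hm_swap k hk, h.hm_swap k' hk'] at this
    exact this.symm

/-- The orientations `A` and `A'` correspond on the domain. -/
def PI.Match (p : PI) (A A' : Finset ℕ) : Prop := ∀ h ∈ p.S, sd A' (p.f h) = p.hm (sd A h)

theorem PI.Match.swap {M M' : WS} {p : PI} (h : p.OK M M') {A A' : Finset ℕ}
    (hm : p.Match A A') : p.swap.Match A' A := by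
  intro a ha
  have h1 := hm _ (h.mg a ha)
  rw [h.fg a ha] at h1
  rw [h1]
  exact (h.swap.hm_swap (sd A (p.g a)) (h.mg a ha)).symm

/-- The orientation on the left that corresponds to `A'` and equals `b` off the domain. -/
def PI.back (p : PI) (A' b : Finset ℕ) : Finset ℕ :=
  p.S.filter (fun h => xor (decide (p.f h ∈ A')) (p.t h) = true) ∪ b

theorem PI.back_out (p : PI) (A' b : Finset ℕ) (h : ℕ) (hh : h ∉ p.S) :
    h ∈ p.back A' b ↔ h ∈ b := by
  simp [PI.back, hh]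

theorem PI.back_sub (p : PI) (A' b : Finset ℕ) : p.back A' b ⊆ p.S ∪ b :=
  Finset.union_subset_union (Finset.filter_subset _ _) (Finset.Subset.refl _)

theorem PI.back_match (p : PI) (A' b : Finset ℕ) (hb : ∀ e ∈ b, e ∉ p.S) :
    p.Match (p.back A' b) A' := by
  intro h hh
  have hn : h ∉ b := fun hb' => hb h hb' hh
  simp only [sd, PI.hm, PI.back, Finset.mem_union, Finset.mem_filter, hh, hn, true_and, or_false,
    Prod.mk.injEq]
  by_cases h1 : p.f h ∈ A' <;> cases p.t h <;> simp [h1]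

theorem PI.eq_back (p : PI) {A A' b : Finset ℕ} (hb : ∀ e ∈ b, e ∉ p.S) (hm : p.Match A A')
    (ho : ∀ h ∉ p.S, h ∈ A ↔ h ∈ b) : A = p.back A' b := by
  ext h
  by_cases hh : h ∈ p.S
  · have h1 := hm h hh
    have h2 := p.back_match A' b hb h hh
    rw [h1] at h2
    simp only [sd, PI.hm, Prod.mk.injEq, true_and] at h2
    revert h2
    by_cases h3 : h ∈ A <;> by_cases h4 : h ∈ p.back A' b <;> cases p.t h <;> simp [h3, h4]
  · rw [ho h hh, p.back_out A' b h hh]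

theorem perp_symm (M : WS) {k k' : HS} (h : M.perp k k') : M.perp k' k := by
  rcases h with h | h | ⟨rfl, h⟩
  · exact Or.inr (Or.inl h)
  · exact Or.inl h
  · exact Or.inr (Or.inr ⟨rfl, h⟩)

theorem perp_false (M : WS) {h : ℕ} {k : HS} (hp : M.perp (h, false) k) :
    k.2 = true ∧ M.pp k.1 (h, false) := by
  rcases hp with hp | hp | hp
  · simp at hp
  · exact hp
  · simp at hp

theorem vert_of {M : WS} {T A : Finset ℕ} (hT : M.Strong T) (hA : A ⊆ T)
    (h : ∀ a ∈ T, ∀ b ∈ T, ¬ M.perp (sd A a) (sd A b)) : M.Vert A := by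
  have key : ∀ a b, a ∉ T → ¬ M.perp (sd A a) (sd A b) := by
    intro a b ha hp
    have : sd A a = (a, false) := by simp [sd, show a ∉ A from fun h => ha (hA h)]
    rw [this] at hp
    obtain ⟨h1, h2⟩ := perp_false M hp
    exact ha (hT b (hA (by simpa [sd] using h1)) a h2)
  intro a b hp
  by_cases ha : a ∈ T
  · by_cases hb : b ∈ T
    · exact h a ha b hb hp
    · exact key b a hb (perp_symm M hp)
  · exact key a b ha hp

/-- `b` is an admissible set of exceptional minus walls outside `S`. -/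
structure Exc (M : WS) (S b : Finset ℕ) : Prop where
  disj : ∀ e ∈ b, e ∉ S
  str : M.Strong (S ∪ b)
  lab : ∀ e ∈ b, M.lab e = 0
  np : ∀ e ∈ b, ∀ k : HS, k.1 ∈ S ∪ b → ¬ M.perp (e, true) k

theorem exc_empty {M : WS} {S : Finset ℕ} (h : M.Strong S) : Exc M S ∅ :=
  ⟨by simp, by simpa using h, by simp, by simp⟩

theorem vert_back {M M' : WS} {p : PI} (h : p.OK M M') {b A' : Finset ℕ} (hb : Exc M p.S b)
    (hA : M'.Vert A') : M.Vert (p.back A' b) := by
  have hm := p.back_match A' b hb.disj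
  have key : ∀ e ∈ b, ∀ a ∈ p.S ∪ b, ¬ M.perp (sd (p.back A' b) e) (sd (p.back A' b) a) := by
    intro e he a ha
    have : sd (p.back A' b) e = (e, true) := by simp [sd, PI.back, he]
    rw [this]
    exact hb.np e he _ ha
  refine vert_of hb.str (p.back_sub A' b) fun a ha c hc hp => ?_
  rcases Finset.mem_union.1 ha with ha' | ha'
  · rcases Finset.mem_union.1 hc with hc' | hc'
    · have := (h.perp (sd _ a) (sd _ c) ha' hc').2 hp
      rw [← hm a ha', ← hm c hc'] at this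
      exact hA _ _ this
    · exact key c hc' a ha (perp_symm M hp)
  · exact key a ha' c hc hp

theorem wt_pos (l : ℕ) : 0 < wt l := by unfold wt; positivity

theorem ell_nonneg (M : WS) (A B : Finset ℕ) : 0 ≤ M.ell A B :=
  Finset.sum_nonneg fun _ _ => (wt_pos _).le

theorem ell_comm (M : WS) (A B : Finset ℕ) : M.ell A B = M.ell B A := by
  unfold WS.ell; rw [symmDiff_comm]

theorem ell_tri (M : WS) (A B C : Finset ℕ) : M.ell A C ≤ M.ell A B + M.ell B C := by
  unfold WS.ell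
  calc ∑ h ∈ A ∆ C, wt (M.lev h) ≤ ∑ h ∈ A ∆ B ∪ B ∆ C, wt (M.lev h) :=
        Finset.sum_le_sum_of_subset_of_nonneg (symmDiff_triangle A B C)
          fun _ _ _ => (wt_pos _).le
    _ ≤ _ := by
        rw [← Finset.sum_union_inter]
        exact le_add_of_nonneg_right (Finset.sum_nonneg fun _ _ => (wt_pos _).le)

theorem ell_single (M : WS) {A B : Finset ℕ} {g : ℕ} (h : A ∆ B = {g}) :
    M.ell A B = wt (M.lev g) := by
  unfold WS.ell; rw [h, Finset.sum_singleton]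

theorem ell_insert (M : WS) {A B : Finset ℕ} {e : ℕ} (hA : e ∈ A) (hB : e ∉ B) :
    M.ell A B = M.ell A (insert e B) + wt (M.lev e) := by
  unfold WS.ell
  have h1 : A ∆ B = insert e (A ∆ insert e B) := by
    ext a
    by_cases ha : a = e
    · subst ha; simp [Finset.mem_symmDiff, hA, hB]
    · simp [Finset.mem_symmDiff, ha]
  have h2 : e ∉ A ∆ insert e B := by simp [Finset.mem_symmDiff, hA]
  rw [h1, Finset.sum_insert h2, add_comm]

theorem match_mem {p : PI} {A A' B B' : Finset ℕ} (hA : p.Match A A') (hB : p.Match B B')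
    {h : ℕ} (hh : h ∈ p.S) : p.f h ∈ A' ∆ B' ↔ h ∈ A ∆ B := by
  have h1 := hA h hh
  have h2 := hB h hh
  simp only [sd, PI.hm, Prod.mk.injEq, true_and] at h1 h2
  simp only [Finset.mem_symmDiff]
  revert h1 h2
  by_cases a1 : h ∈ A <;> by_cases a2 : h ∈ B <;> by_cases a3 : p.f h ∈ A' <;>
    by_cases a4 : p.f h ∈ B' <;> cases p.t h <;> simp [a1, a2, a3, a4]

theorem ell_match {M M' : WS} {p : PI} (h : p.OK M M') {A A' B B' : Finset ℕ}
    (hA : p.Match A A') (hB : p.Match B B') (ho : ∀ a ∉ p.S, a ∈ A ↔ a ∈ B)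
    (ho' : ∀ a ∉ p.S', a ∈ A' ↔ a ∈ B') : M.ell A B = M'.ell A' B' := by
  have s1 : ∀ a ∈ A ∆ B, a ∈ p.S := fun a ha => by
    by_contra hn
    have := ho a hn
    simp only [Finset.mem_symmDiff] at ha
    tauto
  have s2 : ∀ a ∈ A' ∆ B', a ∈ p.S' := fun a ha => by
    by_contra hn
    have := ho' a hn
    simp only [Finset.mem_symmDiff] at ha
    tauto
  unfold WS.ell
  refine Finset.sum_nbij' p.f p.g (fun a ha => (match_mem hA hB (s1 a ha)).2 ha)
    (fun a ha => ?_) (fun a ha => h.gf a (s1 a ha)) (fun a ha => h.fg a (s2 a ha))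
    (fun a ha => by rw [h.lev a (s1 a ha)])
  have := match_mem hA hB (h.mg a (s2 a ha))
  rw [h.fg a (s2 a ha)] at this
  exact this.1 ha

theorem ne_match {M M' : WS} {p : PI} (h : p.OK M M') {A A' B B' : Finset ℕ}
    (hA : p.Match A A') (hB : p.Match B B') (ho' : ∀ a ∉ p.S', a ∈ A' ↔ a ∈ B')
    (hne : A' ≠ B') : A ≠ B := by
  rintro rfl
  apply hne
  ext a
  by_cases ha : a ∈ p.S'
  · have := match_mem hA hB (h.mg a ha)
    rw [h.fg a ha] at this
    simp only [symmDiff_self, Finset.bot_eq_empty, Finset.notMem_empty, iff_false,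
      Finset.mem_symmDiff] at this
    tauto
  · exact ho' a ha

end Pool.Agent.P.MP_c1aa6a_an.Baf
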