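import Pool.Agent.P.MP_c1aa6a_an.Baf1

/-! Back-and-forth between wall models: approximation, exceptional wall, copying one wall. -/

set_option autoImplicit false
open Set Filter Topology
open scoped symmDiff

namespace Pool.Agent.P.MP_c1aa6a_an.Baf

variable {G X : Type} [TopologicalSpace G] [Group G] [MulAction G X] {N : G → ℝ} {V : ℕ → Set X}
  {x : X} {M M' : WS} {π π' φ : Finset ℕ → G} {D D' : Set G}

structure GoodPhi (N : G → ℝ) (V : ℕ → Set X) (x : X) (M : WS) (D' : Set G) (T : Finset ℕ)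
    (φ : Finset ℕ → G) : Prop where
  mem : ∀ A, φ A ∈ D'
  lip : ∀ A B, M.Vert A → M.Vert B → A ⊆ T → B ⊆ T → A ≠ B → N ((φ A)⁻¹ * φ B) < M.ell A B
  lab : ∀ A, M.Vert A → A ⊆ T → ∀ h, (φ A)⁻¹ • x ∈ V (M.Lab (sd A h))

theorem ntri (hN : IsNorm N) (a b c : G) : N (a⁻¹ * c) ≤ N (a⁻¹ * b) + N (b⁻¹ * c) := by
  have : a⁻¹ * c = (a⁻¹ * b) * (b⁻¹ * c) := by group
  rw [this]; exact hN.mul _ _

theorem nsymm (hN : IsNorm N) (a b : G) : N (a⁻¹ * b) = N (b⁻¹ * a) := by
  rw [← hN.inv]; congr 1; group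

theorem lip_le (hN : IsNorm N) (hM : IsModel N V x M π D) {A B : Finset ℕ} (hA : M.Vert A)
    (hB : M.Vert B) : N ((π A)⁻¹ * π B) ≤ M.ell A B := by
  by_cases h : A = B
  · subst h; rw [inv_mul_cancel, hN.one]; exact ell_nonneg M _ _
  · exact (hM.lip A B hA hB h).le

theorem exists_phi [IsTopologicalGroup G] [TopologicalSpace X] [ContinuousSMul G X]
    (hN : IsNorm N) (hV : ∀ j, IsOpen (V j)) (hV0 : V 0 = univ) (hM : IsModel N V x M π D)
    (hD : Dense D') (T : Finset ℕ) {ε : ℝ} (hε : 0 < ε) :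
    ∃ φ, GoodPhi N V x M D' T φ ∧ ∀ A, N ((φ A)⁻¹ * π A) ≤ ε := by
  have h1 : ∀ᶠ δ in 𝓝[>] (0 : ℝ), ∀ p ∈ T.powerset ×ˢ T.powerset,
      M.Vert p.1 → M.Vert p.2 → p.1 ≠ p.2 → N ((π p.1)⁻¹ * π p.2) + 2 * δ < M.ell p.1 p.2 := by
    rw [Filter.eventually_all_finset]
    intro p _
    by_cases h : M.Vert p.1 ∧ M.Vert p.2 ∧ p.1 ≠ p.2
    · have h2 := hM.lip _ _ h.1 h.2.1 h.2.2
      have h3 : ∀ᶠ δ in 𝓝 (0 : ℝ), N ((π p.1)⁻¹ * π p.2) + 2 * δ < M.ell p.1 p.2 :=
        (show ContinuousAt (fun δ : ℝ => N ((π p.1)⁻¹ * π p.2) + 2 * δ) 0 by fun_prop).eventually_lt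
          continuousAt_const (by simpa using h2)
      exact (h3.filter_mono nhdsWithin_le_nhds).mono fun δ hδ _ _ _ => hδ
    · exact Eventually.of_forall fun δ a b c => absurd ⟨a, b, c⟩ h
  have h2 : ∀ᶠ δ in 𝓝[>] (0 : ℝ), δ < ε := (eventually_lt_nhds hε).filter_mono nhdsWithin_le_nhds
  obtain ⟨δ, ⟨hδ1, hδ2⟩, hδ3⟩ := ((h1.and h2).and self_mem_nhdsWithin).exists
  have h3 : ∀ A : Finset ℕ, ∃ d ∈ D', N (d⁻¹ * π A) < δ ∧
      (M.Vert A → ∀ h ∈ A, d⁻¹ • x ∈ V (M.lab h)) := by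
    intro A
    have a1 : ∀ᶠ d in 𝓝 (π A), N (d⁻¹ * π A) < δ := by
      have : Tendsto (fun d => d⁻¹ * π A) (𝓝 (π A)) (𝓝 1) := by
        have := (show Continuous fun d => d⁻¹ * π A by fun_prop).tendsto (π A)
        simpa using this
      exact this (hN.nhds δ hδ3)
    have a2 : ∀ᶠ d in 𝓝 (π A), M.Vert A → ∀ h ∈ A, d⁻¹ • x ∈ V (M.lab h) := by
      by_cases hA : M.Vert A
      · simp only [hA, forall_true_left]
        rw [Filter.eventually_all_finset]
        intro h hh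
        exact (show Continuous fun d : G => d⁻¹ • x by fun_prop).continuousAt.eventually
          ((hV _).mem_nhds (hM.labl A hA h hh))
      · simp [hA]
    obtain ⟨d, hd1, hd2⟩ := hD.inter_nhds_nonempty (a1.and a2)
    exact ⟨d, hd1, hd2⟩
  choose φ hφ1 hφ2 hφ3 using h3
  refine ⟨φ, ⟨hφ1, fun A B hA hB hAT hBT hne => ?_, fun A hA _ h => ?_⟩,
    fun A => (hφ2 A).le.trans hδ2.le⟩
  · have a1 := hδ1 (A, B) (by simp [hAT, hBT]) hA hB hne
    have a2 := ntri hN (φ A) (π A) (φ B)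
    have a3 := ntri hN (π A) (π B) (φ B)
    have a4 := hφ2 A
    have a5 := hφ2 B
    rw [nsymm hN] at a5
    simp only at a1
    linarith
  · by_cases hh : h ∈ A
    · simpa [WS.Lab, sd, hh] using hφ3 A hA h hh
    · simp [WS.Lab, sd, hh, hV0]

theorem back_congr {p : PI} (h : p.OK M M') {A₁ A₂ : Finset ℕ} (b : Finset ℕ)
    (hA : ∀ a ∈ p.S', a ∈ A₁ ↔ a ∈ A₂) : p.back A₁ b = p.back A₂ b := by
  unfold PI.back
  congr 1
  refine Finset.filter_congr fun a ha => ?_
  simp only [hA _ (h.mf a ha)]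

theorem lab_back {p : PI} (h : p.OK M M') {A A' : Finset ℕ} (hm : p.Match A A') {a : ℕ}
    (ha : a ∈ p.S') (ha' : a ∈ A') : M'.lab a = M.Lab (sd A (p.g a)) := by
  have h1 := hm _ (h.mg a ha)
  rw [h.fg a ha] at h1
  rw [← h.lab _ (h.mg a ha), ← h1]
  simp [WS.Lab, sd, ha']

/-- Exact state: on the minus side of `e'` the values of `π'` are those of `φ`. -/
structure XS (M M' : WS) (π' φ : Finset ℕ → G) (T : Finset ℕ) (p : PI) (b : Finset ℕ) (e' : ℕ) :
    Prop where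
  ok : p.OK M M'
  exc : Exc M p.S b
  sub : p.S ∪ b ⊆ T
  exc' : Exc M' p.S' {e'}
  exact : ∀ A', M'.Vert A' → (∀ h ∉ p.S', h ∈ A' ↔ h = e') → π' A' = φ (p.back A' b)

theorem add_exc (hN : IsNorm N) (hV0 : V 0 = univ) (hM : IsModel N V x M π D)
    (hM' : IsModel N V x M' π' D') {T b : Finset ℕ} {p : PI} (hφ : GoodPhi N V x M D' T φ)
    {ε ε' : ℝ} {n : ℕ} (hε : ε + ε' < wt n) (hcl : ∀ A, N ((φ A)⁻¹ * π A) ≤ ε')
    (ok : p.OK M M') (exc : Exc M p.S b) (sub : p.S ∪ b ⊆ T) (str : M'.Strong p.S')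
    (close : ∀ A', M'.Vert A' → A' ⊆ p.S' → N ((π (p.back A' b))⁻¹ * π' A') ≤ ε) :
    ∃ e', XS M M' π' φ T p b e' ∧ M'.lev e' = n := by
  have hell : ∀ A' B', A' ⊆ p.S' → B' ⊆ p.S' →
      M.ell (p.back A' b) (p.back B' b) = M'.ell A' B' := fun A' B' hA hB =>
    ell_match ok (p.back_match A' b exc.disj) (p.back_match B' b exc.disj)
      (fun a ha => by rw [p.back_out _ _ a ha, p.back_out _ _ a ha])
      (fun a ha => ⟨fun h => absurd (hA h) ha, fun h => absurd (hB h) ha⟩)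
  obtain ⟨m, h1, h2, h3, h4, h5, h6⟩ := hM'.ext p.S' n 0 ∅ false (fun A' => φ (p.back A' b)) str
    (by simp) (fun A => hφ.mem _) fun _ => by
      refine ⟨fun A' hA => ⟨by simp [hV0], fun a ha => ?_⟩, fun A' B' hA hB hne => ?_,
        fun A' B' hA hB hBS => ?_⟩
      · rw [lab_back ok (p.back_match A' b exc.disj) (hA.2.1 ha) ha]
        exact hφ.lab _ (vert_back ok exc hA.1) ((p.back_sub _ _).trans sub) _
      · rw [← hell A' B' hA.2.1 hB.2.1]
        exact hφ.lip _ _ (vert_back ok exc hA.1) (vert_back ok exc hB.1)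
          ((p.back_sub _ _).trans sub) ((p.back_sub _ _).trans sub)
          (ne_match ok (p.back_match A' b exc.disj) (p.back_match B' b exc.disj)
            (fun a ha => ⟨fun h => absurd (hA.2.1 h) ha, fun h => absurd (hB.2.1 h) ha⟩) hne)
      · have a1 := ntri hN (φ (p.back A' b)) (π (p.back A' b)) (π' B')
        have a2 := ntri hN (π (p.back A' b)) (π (p.back B' b)) (π' B')
        have a3 := lip_le hN hM (vert_back ok exc hA.1) (vert_back ok exc hB)
        have a4 := close B' hB hBS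
        have a5 := hcl (p.back A' b)
        rw [hell A' B' hA.2.1 hBS] at a3
        linarith
  have hm : m ∉ p.S' := fun h => lt_irrefl _ (h1 m h)
  refine ⟨m, ⟨ok, exc, sub, ⟨by simpa using hm, fun a ha h hp => ?_, by simpa using h3,
    fun e he k hk hp => ?_⟩, fun A' hA hout => ?_⟩, h2⟩
  · rcases Finset.mem_union.1 ha with ha | ha
    · exact Finset.mem_union_left _ (str a ha h hp)
    · rw [Finset.mem_singleton.1 ha, h5] at hp
      simp at hp
  · rw [Finset.mem_singleton.1 he] at hp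
    have hk' : k.1 ≤ m := by
      rcases Finset.mem_union.1 hk with hk | hk
      · exact (h1 _ hk).le
      · exact (Finset.mem_singleton.1 hk).le
    rcases hp with hp | hp | hp
    · have := (h5 k).1 hp.2
      simp only [Finset.notMem_empty, false_or] at this
      rcases Finset.mem_union.1 hk with hk | hk
      · exact this.2.1 hk
      · exact absurd (Finset.mem_singleton.1 hk) this.1.ne
    · exact absurd (hM'.lt _ _ hp.2) (not_lt.2 hk')
    · simpa using h4.1 hp.2.2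
  · have a1 : A' = insert m (A'.erase m) := (Finset.insert_erase ((hout m hm).2 rfl)).symm
    have a2 : A'.erase m ⊆ p.S' := fun a ha => by
      by_contra hn
      exact (Finset.mem_erase.1 ha).1 ((hout a hn).1 (Finset.mem_erase.1 ha).2)
    rw [a1, h6 _ a2, ← a1]
    congr 1
    exact back_congr ok b fun a ha => by simp [show a ≠ m from fun h => hm (h ▸ ha)]

end Pool.Agent.P.MP_c1aa6a_an.Baf
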