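import Pool.Agent.P.MP_c1aa6a_an.Baf2

/-! Back-and-forth between wall models: copying one wall. -/

set_option autoImplicit false
open Set Filter Topology
open scoped symmDiff

namespace Pool.Agent.P.MP_c1aa6a_an.Baf

variable {G X : Type} [TopologicalSpace G] [Group G] [MulAction G X] {N : G → ℝ} {V : ℕ → Set X}
  {x : X} {M M' : WS} {π π' φ : Finset ℕ → G} {D D' : Set G}

/-- Adding the pair `(a, m)` with flip `c`. -/
def PI.add (p : PI) (a m : ℕ) (c : Bool) : PI :=
  ⟨insert a p.S, insert m p.S', Function.update p.f a m, Function.update p.g m a,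
    Function.update p.t a c, Function.update p.t' m c⟩

theorem PI.add_ext (p : PI) {a m : ℕ} (c : Bool) (ha : a ∉ p.S) (hm : m ∉ p.S') :
    p.Ext (p.add a m c) := by
  refine ⟨Finset.subset_insert _ _, Finset.subset_insert _ _, fun h hh => ?_, fun h hh => ?_⟩
  · have : h ≠ a := fun e => ha (e ▸ hh)
    simp [PI.add, this]
  · have : h ≠ m := fun e => hm (e ▸ hh)
    simp [PI.add, this]

theorem PI.add_hm_old (p : PI) {a : ℕ} (m : ℕ) (c : Bool) (ha : a ∉ p.S) (k : HS) (hk : k.1 ∈ p.S) :
    (p.add a m c).hm k = p.hm k := by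
  have : k.1 ≠ a := fun e => ha (e ▸ hk)
  simp [PI.add, PI.hm, this]

theorem PI.add_hm_new (p : PI) (a m : ℕ) (c s : Bool) :
    (p.add a m c).hm (a, s) = (m, xor s c) := by
  simp [PI.add, PI.hm]

theorem add_ok {p : PI} (ok : p.OK M M') {a m : ℕ} {c : Bool} (ha : a ∉ p.S) (hm : m ∉ p.S')
    (hlev : M'.lev m = M.lev a) (hlab : ∀ s, M'.Lab (m, xor s c) = M.Lab (a, s))
    (hp1 : ∀ s (k : HS), k.1 ∈ p.S → (M'.perp (m, xor s c) (p.hm k) ↔ M.perp (a, s) k))
    (hp2 : ∀ s t, M'.perp (m, xor s c) (m, xor t c) ↔ M.perp (a, s) (a, t)) :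
    (p.add a m c).OK M M' := by
  have e := p.add_ext c ha hm
  have n1 : ∀ h ∈ p.S, h ≠ a := fun h hh e => ha (e ▸ hh)
  have n2 : ∀ h ∈ p.S', h ≠ m := fun h hh e => hm (e ▸ hh)
  refine ⟨fun h hh => ?_, fun h hh => ?_, fun h hh => ?_, fun h hh => ?_, fun h hh => ?_,
    fun h hh => ?_, fun k hk => ?_, fun k k' hk hk' => ?_⟩
  · rcases Finset.mem_insert.1 hh with rfl | hh
    · simp [PI.add]
    · rw [(e.2.2.1 h hh).1]; exact e.2.1 (ok.mf h hh)
  · rcases Finset.mem_insert.1 hh with rfl | hh
    · simp [PI.add]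
    · rw [(e.2.2.2 h hh).1]; exact e.1 (ok.mg h hh)
  · rcases Finset.mem_insert.1 hh with rfl | hh
    · simp [PI.add]
    · rw [(e.2.2.1 h hh).1, (e.2.2.2 _ (ok.mf h hh)).1, ok.gf h hh]
  · rcases Finset.mem_insert.1 hh with rfl | hh
    · simp [PI.add]
    · rw [(e.2.2.2 h hh).1, (e.2.2.1 _ (ok.mg h hh)).1, ok.fg h hh]
  · rcases Finset.mem_insert.1 hh with rfl | hh
    · simp [PI.add]
    · rw [(e.2.2.1 h hh).1, (e.2.2.1 h hh).2, (e.2.2.2 _ (ok.mf h hh)).2, ok.tt h hh]
  · rcases Finset.mem_insert.1 hh with rfl | hh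
    · simpa [PI.add] using hlev
    · rw [(e.2.2.1 h hh).1, ok.lev h hh]
  · obtain ⟨h, s⟩ := k
    rcases Finset.mem_insert.1 hk with rfl | hk
    · rw [PI.add_hm_new]; exact hlab s
    · rw [p.add_hm_old m c ha _ hk]; exact ok.lab _ hk
  · obtain ⟨h, s⟩ := k
    obtain ⟨h', s'⟩ := k'
    rcases Finset.mem_insert.1 hk with k1 | k1 <;> rcases Finset.mem_insert.1 hk' with k2 | k2
    · obtain rfl : h = a := k1
      obtain rfl : h' = h := k2
      rw [PI.add_hm_new, PI.add_hm_new]; exact hp2 s s'
    · obtain rfl : h = a := k1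
      rw [PI.add_hm_new, p.add_hm_old m c ha _ k2]; exact hp1 s _ k2
    · obtain rfl : h' = a := k2
      rw [PI.add_hm_new, p.add_hm_old m c ha _ k1]
      exact ⟨fun h => perp_symm _ ((hp1 s' _ k1).1 (perp_symm _ h)),
        fun h => perp_symm _ ((hp1 s' _ k1).2 (perp_symm _ h))⟩
    · rw [p.add_hm_old m c ha _ k1, p.add_hm_old m c ha _ k2]; exact ok.perp _ _ k1 k2

theorem perp_self (hlt : ∀ m k, M.pp m k → k.1 < m) (a : ℕ) (s t : Bool) :
    M.perp (a, s) (a, t) ↔ s = true ∧ t = true ∧ M.dead a := by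
  constructor
  · rintro (h | h | h)
    · exact absurd (hlt _ _ h.2) (lt_irrefl _)
    · exact absurd (hlt _ _ h.2) (lt_irrefl _)
    · obtain ⟨h1, h2, h3⟩ := h
      simp only [Prod.mk.injEq, true_and] at h1 h2
      exact ⟨h2, h1 ▸ h2, h3⟩
  · rintro ⟨rfl, rfl, h⟩
    exact Or.inr (Or.inr ⟨rfl, rfl, h⟩)

theorem vert_insert_exc {S B : Finset ℕ} {e : ℕ} (exc : Exc M S {e}) (hB : M.Vert B)
    (hBS : B ⊆ S ∪ {e}) : M.Vert (insert e B) := by
  have k1 : sd (insert e B) e = (e, true) := by simp [sd]
  have k2 : ∀ a, a ≠ e → sd (insert e B) a = sd B a := fun a ha => by simp [sd, ha]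
  refine vert_of exc.str (Finset.insert_subset (by simp) hBS) fun a ha c hc hp => ?_
  by_cases h1 : a = e
  · rw [h1, k1] at hp
    exact exc.np e (by simp) _ hc hp
  · by_cases h2 : c = e
    · rw [h2, k1] at hp
      exact exc.np e (by simp) _ ha (perp_symm _ hp)
    · rw [k2 a h1, k2 c h2] at hp
      exact hB _ _ hp

theorem copy_wall (hN : IsNorm N) (hV0 : V 0 = univ) (hlt : ∀ m k, M.pp m k → k.1 < m)
    (hM' : IsModel N V x M' π' D') {T b : Finset ℕ} {p : PI} (hφ : GoodPhi N V x M D' T φ)
    {e' a : ℕ} (hX : XS M M' π' φ T p b e') (haT : a ∈ T) (ha : a ∉ p.S) (hb : b ⊆ {a})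
    (hstr : M.Strong (insert a p.S)) :
    ∃ m, m ∉ p.S' ∧ XS M M' π' φ T (p.add a m (decide (a ∈ b))) ∅ e' := by
  classical
  obtain ⟨ok, exc, sub, exc', exact⟩ := hX
  set c := decide (a ∈ b) with hc
  set b₁ : Finset ℕ := if a ∈ b then ∅ else {a} with hb₁
  have hb₁a : b₁ ⊆ {a} := by rw [hb₁]; split_ifs <;> simp
  have hb₁d : ∀ e ∈ b₁, e ∉ p.S := fun e he => by rw [Finset.mem_singleton.1 (hb₁a he)]; exact ha
  have hsd₁ : ∀ A', sd (p.back A' b₁) a = (a, !c) := fun A' => by
    simp only [sd, hb₁, hc]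
    by_cases h : a ∈ b <;> simp [h, PI.back, ha]
  have hsub₁ : ∀ A', p.back A' b₁ ⊆ insert a p.S := fun A' h hh => by
    rcases Finset.mem_union.1 (p.back_sub _ _ hh) with h1 | h1
    · exact Finset.mem_insert_of_mem h1
    · rw [Finset.mem_singleton.1 (hb₁a h1)]; exact Finset.mem_insert_self _ _
  have hT₁ : ∀ A', p.back A' b₁ ⊆ T := fun A' => (hsub₁ A').trans
    (Finset.insert_subset haT (Finset.subset_union_left.trans sub))
  have he' : e' ∉ p.S' := exc'.disj e' (by simp)
  set R : Finset HS := insert (e', false)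
    (((p.S ×ˢ (Finset.univ : Finset Bool)).filter fun k => M.perp (a, !c) k).image p.hm) with hR
  have hRm : ∀ k : HS, k.1 ∈ p.S → (p.hm k ∈ R ↔ M.perp (a, !c) k) := fun k hk => by
    simp only [hR, Finset.mem_insert, Finset.mem_image, Finset.mem_filter, Finset.mem_product,
      Finset.mem_univ, and_true]
    constructor
    · rintro (h | ⟨k', ⟨h1, h2⟩, h3⟩)
      · exact absurd (show p.f k.1 = e' from congrArg Prod.fst h) fun e => he' (e ▸ ok.mf _ hk)
      · have := congrArg p.swap.hm h3
        rw [show p.swap.hm (p.hm k') = k' from ok.swap.hm_swap k' h1,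
          show p.swap.hm (p.hm k) = k from ok.swap.hm_swap k hk] at this
        exact this ▸ h2
    · exact fun h => Or.inr ⟨k, ⟨hk, h⟩, rfl⟩
  have hRS : ∀ k ∈ R, k.1 ∈ p.S' ∪ {e'} := fun k hk => by
    simp only [hR, Finset.mem_insert, Finset.mem_image, Finset.mem_filter, Finset.mem_product,
      Finset.mem_univ, and_true] at hk
    rcases hk with rfl | ⟨k', ⟨h1, -⟩, rfl⟩
    · simp
    · exact Finset.mem_union_left _ (ok.mf _ h1)
  have hout : ∀ A' : Finset ℕ, A' ⊆ p.S' ∪ {e'} → e' ∈ A' → ∀ h ∉ p.S', h ∈ A' ↔ h = e' :=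
    fun A' h1 h2 h hh => ⟨fun h3 => by simpa [hh] using h1 h3, fun h3 => h3 ▸ h2⟩
  obtain ⟨m, h1, h2, h3, h4, h5, h6⟩ := hM'.ext (p.S' ∪ {e'}) (M.lev a) (M.Lab (a, !c)) R
    (decide (M.perp (a, !c) (a, !c))) (fun A' => φ (p.back A' b₁)) exc'.str hRS
    (fun A => hφ.mem _) fun hfl => by
      have hfl' : ¬ M.perp (a, !c) (a, !c) := by simpa using hfl
      have ce : ∀ A', M'.Comp (p.S' ∪ {e'}) R A' → e' ∈ A' := fun A' hA => by
        by_contra hn
        exact hA.2.2 e' (by simp [sd, hn, hR])
      have cv : ∀ A', M'.Comp (p.S' ∪ {e'}) R A' → M.Vert (p.back A' b₁) := fun A' hA => by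
        have hm := p.back_match A' b₁ hb₁d
        have k1 : ∀ h ∈ p.S, ¬ M.perp (a, !c) (sd (p.back A' b₁) h) := fun h hh hp =>
          hA.2.2 (p.f h) (by rw [hm h hh]; exact (hRm _ hh).2 hp)
        refine vert_of hstr (hsub₁ A') fun u hu v hv hp => ?_
        rcases Finset.mem_insert.1 hu with hu | hu <;> rcases Finset.mem_insert.1 hv with hv | hv
        · rw [hu, hv, hsd₁] at hp; exact hfl' hp
        · rw [hu, hsd₁] at hp; exact k1 v hv hp
        · rw [hv, hsd₁] at hp; exact k1 u hu (perp_symm _ hp)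
        · have := (ok.perp (sd _ u) (sd _ v) hu hv).2 hp
          rw [← hm u hu, ← hm v hv] at this
          exact hA.1 _ _ this
      have c3 : ∀ A' B', M'.Comp (p.S' ∪ {e'}) R A' → M'.Vert B' → B' ⊆ p.S' ∪ {e'} → e' ∈ B' →
          N ((φ (p.back A' b₁))⁻¹ * π' B') < M'.ell A' B' + wt (M.lev a) := by
        intro A' B' hA hB hBS heB
        rw [exact B' hB (hout B' hBS heB)]
        have a1 := hφ.lip _ _ (cv A' hA) (vert_back ok exc hB) (hT₁ A')
          ((p.back_sub _ _).trans sub) (fun e => by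
            have := p.back_out A' b₁ a ha
            rw [e, p.back_out B' b a ha, hb₁] at this
            by_cases h : a ∈ b <;> simp [h] at this)
        have a2 := ell_tri M (p.back A' b₁) (p.back A' b) (p.back B' b)
        have a3 : M.ell (p.back A' b₁) (p.back A' b) = wt (M.lev a) := ell_single M (by
          ext u
          by_cases hu : u ∈ p.S
          · have u1 : u ∉ b₁ := fun h => hb₁d u h hu
            have u2 : u ∉ b := fun h => exc.disj u h hu
            have u3 : u ≠ a := fun e => ha (e ▸ hu)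
            simp [Finset.mem_symmDiff, PI.back, u1, u2, u3]
          · rw [Finset.mem_symmDiff, p.back_out _ _ u hu, p.back_out _ _ u hu, hb₁]
            have u2 : u ∈ b → u = a := fun h => Finset.mem_singleton.1 (hb h)
            by_cases h : a ∈ b <;> by_cases h' : u = a <;> simp_all)
        have a4 : M.ell (p.back A' b) (p.back B' b) = M'.ell A' B' :=
          ell_match ok (p.back_match A' b exc.disj) (p.back_match B' b exc.disj)
            (fun u hu => by rw [p.back_out _ _ u hu, p.back_out _ _ u hu])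
            (fun u hu => by rw [hout A' hA.2.1 (ce A' hA) u hu, hout B' hBS heB u hu])
        linarith
      refine ⟨fun A' hA => ⟨?_, fun u hu => ?_⟩, fun A' B' hA hB hne => ?_,
        fun A' B' hA hB hBS => ?_⟩
      · rw [← hsd₁ A']; exact hφ.lab _ (cv A' hA) (hT₁ A') a
      · rcases Finset.mem_union.1 (hA.2.1 hu) with hu' | hu'
        · rw [lab_back ok (p.back_match A' b₁ hb₁d) hu' hu]
          exact hφ.lab _ (cv A' hA) (hT₁ A') _
        · rw [exc'.lab u hu', hV0]; trivial
      · have ho : ∀ u ∉ p.S', u ∈ A' ↔ u ∈ B' := fun u hu => by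
          rw [hout A' hA.2.1 (ce A' hA) u hu, hout B' hB.2.1 (ce B' hB) u hu]
        rw [← ell_match ok (p.back_match A' b₁ hb₁d) (p.back_match B' b₁ hb₁d)
          (fun u hu => by rw [p.back_out _ _ u hu, p.back_out _ _ u hu]) ho]
        exact hφ.lip _ _ (cv A' hA) (cv B' hB) (hT₁ A') (hT₁ B')
          (ne_match ok (p.back_match A' b₁ hb₁d) (p.back_match B' b₁ hb₁d) ho hne)
      · by_cases heB : e' ∈ B'
        · exact c3 A' B' hA hB hBS heB
        · have v1 := vert_insert_exc exc' hB hBS
          have a1 := c3 A' _ hA v1 (Finset.insert_subset (by simp) hBS) (by simp)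
          have a2 := ntri hN (φ (p.back A' b₁)) (π' (insert e' B')) (π' B')
          have a3 := lip_le hN hM' v1 hB
          have a4 : M'.ell (insert e' B') B' = wt (M'.lev e') := ell_single M' (by
            ext u
            by_cases hu : u = e' <;> simp [Finset.mem_symmDiff, hu, heB])
          have a5 := ell_insert M' (ce A' hA) heB
          linarith
  have hmS : m ∉ p.S' := fun h => lt_irrefl _ (h1 m (Finset.mem_union_left _ h))
  have hme : e' < m := h1 e' (by simp)
  have hnb : ∀ k : HS, k.1 ∈ p.S → ¬ M.perp (a, c) k := fun k hk hp => by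
    by_cases h : a ∈ b
    · have : c = true := by simp [hc, h]
      rw [this] at hp
      exact exc.np a h k (Finset.mem_union_left _ hk) hp
    · have : c = false := by simp [hc, h]
      rw [this] at hp
      obtain ⟨-, h2⟩ := perp_false M hp
      have := exc.str k.1 (Finset.mem_union_left _ hk) a h2
      simp [ha, h] at this
  have ok₁ : (p.add a m c).OK M M' := by
    refine add_ok ok ha hmS h2 (fun s => ?_) (fun s k hk => ?_) fun s t => ?_
    · by_cases hs : s = c
      · subst hs
        by_cases h : a ∈ b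
        · simp [WS.Lab, exc.lab a h]
        · simp [WS.Lab, hc, h]
      · have : s = !c := by revert hs; cases s <;> cases c <;> simp
        rw [this, ← h3]
        cases c <;> simp [WS.Lab]
    · have hlt' : (p.hm k).1 < m := h1 _ (Finset.mem_union_left _ (ok.mf _ hk))
      by_cases hs : s = c
      · subst hs
        simp only [bne_self_eq_false]
        exact ⟨fun hp => absurd (hM'.lt _ _ (perp_false M' hp).2) (not_lt.2 hlt'.le),
          fun hp => absurd hp (hnb k hk)⟩
      · have e1 : s = !c := by revert hs; cases s <;> cases c <;> simp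
        have e2 : xor s c = true := by revert hs; cases s <;> cases c <;> simp
        rw [e2, e1, ← hRm k hk]
        constructor
        · rintro (h | h | h)
          · rcases (h5 _).1 h.2 with h | h
            · exact h
            · exact absurd (Finset.mem_union_left _ (ok.mf _ hk)) h.2.1
          · exact absurd (hM'.lt _ _ h.2) (not_lt.2 hlt'.le)
          · exact absurd (congrArg Prod.fst h.1) hlt'.ne'
        · exact fun h => Or.inl ⟨rfl, (h5 _).2 (Or.inl h)⟩
    · rw [perp_self hM'.lt, perp_self hlt, h4, decide_eq_true_iff, perp_self hlt]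
      by_cases h : a ∈ b
      · have : ¬ M.dead a := fun hd => exc.np a h (a, true) (Finset.mem_union_right _ h)
          ((perp_self hlt a true true).2 ⟨rfl, rfl, hd⟩)
        simp [hc, h, this]
      · simp [hc, h]
  refine ⟨m, hmS, ok₁, exc_empty hstr, ?_, ⟨?_, fun u hu h hp => ?_, exc'.lab,
    fun e he k hk hp => ?_⟩, fun A' hA ho => ?_⟩
  · simpa [PI.add] using Finset.insert_subset haT (Finset.subset_union_left.trans sub)
  · simpa [PI.add, he'] using hme.ne
  · have key : h ∈ p.S' ∪ {e'} := by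
      by_cases hum : u = m
      · rw [hum, h5] at hp
        simp only [Bool.false_eq_true, and_false, or_false] at hp
        exact hRS _ hp
      · exact exc'.str u (by simpa [PI.add, hum] using hu) h hp
    exact Finset.union_subset_union (Finset.subset_insert _ _) (Finset.Subset.refl _) key
  · by_cases hkm : k.1 = m
    · rw [Finset.mem_singleton.1 he] at hp
      rcases hp with hp | hp | hp
      · exact absurd (hM'.lt _ _ hp.2) (by rw [hkm]; exact not_lt.2 hme.le)
      · rw [hkm, h5] at hp
        rcases hp.2 with hp | hp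
        · simp only [hR, Finset.mem_insert, Prod.mk.injEq, Bool.true_eq_false, and_false,
            Finset.mem_image, false_or] at hp
          obtain ⟨k', hk', e⟩ := hp
          have : k'.1 ∈ p.S := (Finset.mem_product.1 (Finset.mem_filter.1 hk').1).1
          exact he' ((show p.f k'.1 = e' from congrArg Prod.fst e) ▸ ok.mf _ this)
        · simp at hp
      · exact absurd ((congrArg Prod.fst hp.1).trans hkm) hme.ne
    · exact exc'.np e he k (by simpa [PI.add, hkm] using hk) hp
  · have hA1 : ∀ h, h ≠ m → h ∉ p.S' → (h ∈ A' ↔ h = e') := fun h hh hh' =>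
      ho h (by simp [PI.add, hh, hh'])
    have hm₁ := (p.add a m c).back_match A' ∅ (by simp)
    have hm₂ : p.Match ((p.add a m c).back A' ∅) A' := fun h hh => by
      have := hm₁ h (Finset.mem_insert_of_mem hh)
      rwa [((p.add_ext c ha hmS).2.2.1 h hh).1, p.add_hm_old m c ha (sd _ h) hh] at this
    have hm₃ := hm₁ a (Finset.mem_insert_self _ _)
    rw [sd, sd, PI.add_hm_new] at hm₃
    simp only [PI.add, Function.update_self, Prod.mk.injEq, true_and] at hm₃
    have hm₄ : ∀ h, h ≠ a → h ∉ p.S → h ∉ (p.add a m c).back A' ∅ := fun h hh hh' hin => by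
      simpa [PI.add, hh, hh'] using (p.add a m c).back_sub _ _ hin
    by_cases hmA : m ∈ A'
    · have a1 : A' = insert m (A'.erase m) := (Finset.insert_erase hmA).symm
      have a2 : A'.erase m ⊆ p.S' ∪ {e'} := fun u hu => by
        by_cases hu' : u ∈ p.S'
        · exact Finset.mem_union_left _ hu'
        · simp [(hA1 u (Finset.mem_erase.1 hu).1 hu').1 (Finset.mem_erase.1 hu).2]
      rw [a1, h6 _ a2, ← a1]
      congr 1
      rw [back_congr ok b₁ (A₂ := A') fun u hu => by simp [show u ≠ m from fun h => hmS (h ▸ hu)]]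
      refine (p.eq_back hb₁d hm₂ fun h hh => ?_).symm
      by_cases hha : h = a
      · subst hha
        revert hm₃
        simp only [hb₁, hc, PI.add]
        by_cases h : h ∈ b <;> simp [h, hmA]
      · exact ⟨fun h' => absurd h' (hm₄ h hha hh),
          fun h' => absurd (Finset.mem_singleton.1 (hb₁a h')) hha⟩
    · rw [exact A' hA fun h hh => by
        by_cases hhm : h = m
        · simp [hhm, hmA, hme.ne']
        · exact hA1 h hhm hh]
      congr 1
      refine (p.eq_back exc.disj hm₂ fun h hh => ?_).symm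
      by_cases hha : h = a
      · subst hha
        revert hm₃
        simp only [hc, PI.add]
        by_cases h : h ∈ b <;> simp [h, hmA]
      · exact ⟨fun h' => absurd h' (hm₄ h hha hh),
          fun h' => absurd (Finset.mem_singleton.1 (hb h')) hha⟩

end Pool.Agent.P.MP_c1aa6a_an.Baf
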