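import Mathlib

/-! Definitions and interface statements for the completeness of isomorphism of ergodic maps.
Part A: wall structures.  Part B: Poisson systems.  Part C: odometer skew product and tools. -/

set_option autoImplicit false
open MeasureTheory Set Filter Topology
open scoped ENNReal NNReal symmDiff

namespace Pool.Agent.P.MP_c1aa6a_an

/-! ## Part A: wall structures -/

/-- Half-spaces: wall number and side (`true` is the minus side, `false` the plus side). -/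
abbrev HS := ℕ × Bool

/-- The side of wall `h` chosen by the orientation whose set of minus walls is `A`. -/
def sd (A : Finset ℕ) (h : ℕ) : HS := (h, decide (h ∈ A))

/-- Weight of a wall of level `l`. -/
noncomputable def wt (l : ℕ) : ℝ := (1 / 2) ^ (l + 1)

/-- A wall structure: levels, labels of minus sides, `pp m k` says that the minus side of `m`
is disjoint from the half-space `k`, `dead m` says that the minus side of `m` is empty. -/
structure WS where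
  lev : ℕ → ℕ
  lab : ℕ → ℕ
  pp : ℕ → HS → Prop
  dead : ℕ → Prop

def WS.perp (M : WS) (k k' : HS) : Prop :=
  (k.2 = true ∧ M.pp k.1 k') ∨ (k'.2 = true ∧ M.pp k'.1 k) ∨ (k = k' ∧ k.2 = true ∧ M.dead k.1)

def WS.Lab (M : WS) (k : HS) : ℕ := if k.2 = true then M.lab k.1 else 0

/-- Vertices: consistent orientations with finitely many minus sides. -/
def WS.Vert (M : WS) (A : Finset ℕ) : Prop := ∀ h h', ¬ M.perp (sd A h) (sd A h')

noncomputable def WS.ell (M : WS) (A B : Finset ℕ) : ℝ := ∑ h ∈ A ∆ B, wt (M.lev h)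

def WS.Strong (M : WS) (S : Finset ℕ) : Prop := ∀ m ∈ S, ∀ h, M.pp m (h, false) → h ∈ S

/-- The permutation of half-spaces given by a permutation of walls and a set of flips. -/
def hsMap (τ : ℕ ≃ ℕ) (fl : ℕ → Bool) (k : HS) : HS := (τ k.1, xor k.2 (fl k.1))

/-- Isomorphism of wall structures with summable set of flipped walls. -/
def WS.Iso (M M' : WS) : Prop :=
  ∃ (τ : ℕ ≃ ℕ) (fl : ℕ → Bool), (∀ h, M'.lev (τ h) = M.lev h) ∧
    (∀ k, M'.Lab (hsMap τ fl k) = M.Lab k) ∧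
    (∀ k k', M'.perp (hsMap τ fl k) (hsMap τ fl k') ↔ M.perp k k') ∧
    Summable (fun h => if fl h = true then wt (M.lev h) else 0)

/-- A bounded group norm inducing the topology. -/
structure IsNorm {G : Type} [Group G] [TopologicalSpace G] (N : G → ℝ) : Prop where
  one : N 1 = 0
  nonneg : ∀ g, 0 ≤ N g
  inv : ∀ g, N g⁻¹ = N g
  mul : ∀ g h, N (g * h) ≤ N g + N h
  bdd : ∀ g, N g ≤ 1 / 8
  nhds : ∀ ε > 0, {g | N g < ε} ∈ 𝓝 (1 : G)
  basis : ∀ U ∈ 𝓝 (1 : G), ∃ ε > 0, {g | N g < ε} ⊆ U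

/-- Vertices inside `S` compatible with the minus side of a new wall disjoint from `R`. -/
def WS.Comp (M : WS) (S : Finset ℕ) (R : Finset HS) (A : Finset ℕ) : Prop :=
  M.Vert A ∧ A ⊆ S ∧ ∀ h, sd A h ∉ R

/-- Validity of a one-wall extension over `S`. -/
def ExtOK {G X : Type} [Group G] [MulAction G X] (N : G → ℝ) (V : ℕ → Set X) (x : X) (M : WS)
    (π : Finset ℕ → G) (S : Finset ℕ) (l j : ℕ) (R : Finset HS) (φ : Finset ℕ → G) : Prop :=
  (∀ A, M.Comp S R A → (φ A)⁻¹ • x ∈ V j ∧ ∀ h ∈ A, (φ A)⁻¹ • x ∈ V (M.lab h)) ∧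
  (∀ A A', M.Comp S R A → M.Comp S R A' → A ≠ A' → N ((φ A)⁻¹ * φ A') < M.ell A A') ∧
  (∀ A B, M.Comp S R A → M.Vert B → B ⊆ S → N ((φ A)⁻¹ * π B) < M.ell A B + wt l)

/-- A wall structure with a strictly 1-Lipschitz labelled map of its vertices to `G`, over the
point `x`, with the one-wall extension property for values in the dense set `D`. -/
structure IsModel {G X : Type} [Group G] [TopologicalSpace G] [MulAction G X] (N : G → ℝ)
    (V : ℕ → Set X) (x : X) (M : WS) (π : Finset ℕ → G) (D : Set G) : Prop where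
  dense : Dense D
  lt : ∀ m k, M.pp m k → k.1 < m
  lip : ∀ A B, M.Vert A → M.Vert B → A ≠ B → N ((π A)⁻¹ * π B) < M.ell A B
  labl : ∀ A, M.Vert A → ∀ h ∈ A, (π A)⁻¹ • x ∈ V (M.lab h)
  ext : ∀ (S : Finset ℕ) (l j : ℕ) (R : Finset HS) (flag : Bool) (φ : Finset ℕ → G),
    M.Strong S → (∀ k ∈ R, k.1 ∈ S) → (∀ A, φ A ∈ D) →
    (flag = false → ExtOK N V x M π S l j R φ) →
    ∃ m, (∀ h ∈ S, h < m) ∧ M.lev m = l ∧ M.lab m = j ∧ (M.dead m ↔ flag = true) ∧
      (∀ k, M.pp m k ↔ (k ∈ R ∨ (k.1 < m ∧ k.1 ∉ S ∧ k.2 = true))) ∧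
      ∀ A, A ⊆ S → π (insert m A) = φ A

def S_norm : Prop :=
  ∀ (G : Type) [TopologicalSpace G] [Group G] [IsTopologicalGroup G] [FirstCountableTopology G],
    ∃ N : G → ℝ, IsNorm N

def S_model : Prop :=
  ∀ (G X : Type) [TopologicalSpace G] [Group G] [IsTopologicalGroup G]
    [TopologicalSpace.SeparableSpace G] [TopologicalSpace X] [MeasurableSpace X] [BorelSpace X]
    [MulAction G X] [ContinuousSMul G X] (N : G → ℝ) (V : ℕ → Set X),
    IsNorm N → (∀ j, IsOpen (V j)) →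
    ∃ (lev lab : ℕ → ℕ) (pp : ℕ → HS → Prop) (dead : X → ℕ → Prop) (π : Finset ℕ → G) (D : Set G),
      (∀ m, MeasurableSet {x | dead x m}) ∧ ∀ x, IsModel N V x ⟨lev, lab, pp, dead x⟩ π D

def S_baf : Prop :=
  ∀ (G X : Type) [TopologicalSpace G] [Group G] [IsTopologicalGroup G] [TopologicalSpace X]
    [MulAction G X] [ContinuousSMul G X] (N : G → ℝ) (V : ℕ → Set X) (x : X) (M M' : WS)
    (π π' : Finset ℕ → G) (D D' : Set G), IsNorm N → (∀ j, IsOpen (V j)) → V 0 = univ →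
    IsModel N V x M π D → IsModel N V x M' π' D' → M.Iso M'

def S_conv : Prop :=
  ∀ (G X : Type) [MetricSpace G] [CompleteSpace G] [Group G] [IsTopologicalGroup G]
    [MetricSpace X] [MulAction G X] [ContinuousSMul G X] (N : G → ℝ) (V : ℕ → Set X) (x y : X)
    (M M' : WS) (π π' : Finset ℕ → G) (D D' : Set G), IsNorm N → (∀ j, IsOpen (V j)) →
    V 0 = univ → (∀ z : X, ∀ r > 0, ∃ j, z ∈ V j ∧ ∀ a ∈ V j, ∀ b ∈ V j, dist a b < r) →
    IsModel N V x M π D → IsModel N V y M' π' D' → M.Iso M' → ∃ g : G, g • x = y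

/-! ## Part C (definitions first): generic measure-theoretic notions -/

/-- Jointly ergodic family of maps. -/
def ErgFam {Y ι : Type} [MeasurableSpace Y] (μ : Measure Y) (g : ι → Y → Y) : Prop :=
  ∀ A, MeasurableSet A → (∀ j, g j ⁻¹' A =ᵐ[μ] A) → μ A = 0 ∨ μ Aᶜ = 0

/-- Commuting measure preserving involutions. -/
def Fam {Y ι : Type} [MeasurableSpace Y] (μ : Measure Y) (α : ι → Y → Y) : Prop :=
  (∀ j, MeasurePreserving (α j) μ μ) ∧ (∀ j, Function.Involutive (α j)) ∧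
    ∀ i j, Function.Commute (α i) (α j)

/-- A pair of measure preserving maps, inverse to each other almost everywhere. -/
def Conj {Y Z : Type} [MeasurableSpace Y] [MeasurableSpace Z] (μ : Measure Y) (ν : Measure Z)
    (Θ : Y → Z) (Θ' : Z → Y) : Prop :=
  MeasurePreserving Θ μ ν ∧ MeasurePreserving Θ' ν μ ∧ (fun t => Θ' (Θ t)) =ᵐ[μ] id ∧
    (fun t => Θ (Θ' t)) =ᵐ[ν] id

/-- Coin with probability `2^{-(l+1)}` of `true`. -/
noncomputable def bern (l : ℕ) : Measure Bool :=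
  ((2 : ℝ≥0∞)⁻¹ ^ (l + 1)) • Measure.dirac true + (1 - (2 : ℝ≥0∞)⁻¹ ^ (l + 1)) • Measure.dirac false

instance (l : ℕ) : IsProbabilityMeasure (bern l) := by
  refine ⟨?_⟩
  have h : (2 : ℝ≥0∞)⁻¹ ^ (l + 1) ≤ 1 := pow_le_one' (by simp) _
  simp only [bern, Measure.add_apply, Measure.smul_apply, measure_univ, smul_eq_mul, mul_one]
  exact add_tsub_cancel_of_le h

/-- Uniform measure on `ι → Bool`. -/
noncomputable def unif (ι : Type) : Measure (ι → Bool) := Measure.infinitePi (fun _ => bern 0)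

instance (ι : Type) : IsProbabilityMeasure (unif ι) := by unfold unif; infer_instance

/-! ## Part B: the intensity space and Poisson systems -/

/-- Discrete index: colour, two half-spaces, copy, shift coordinate, finite set of walls. -/
@[ext] structure Idx where
  c : ℕ
  k : HS
  k' : HS
  n : Finset ℕ
  d : Finset ℕ
  F : Finset ℕ

instance : Countable Idx := by
  have : Function.Injective (fun i : Idx => (i.c, i.k, i.k', i.n, i.d, i.F)) := by
    intro a b h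
    simp only [Prod.mk.injEq] at h
    exact Idx.ext h.1 h.2.1 h.2.2.1 h.2.2.2.1 h.2.2.2.2.1 h.2.2.2.2.2
  exact this.countable

instance : TopologicalSpace Idx := ⊥
instance : DiscreteTopology Idx := ⟨rfl⟩
instance : MeasurableSpace Idx := ⊤
instance : DiscreteMeasurableSpace Idx := ⟨fun _ => trivial⟩
instance : BorelSpace Idx := ⟨borel_eq_top_of_discrete.symm⟩

/-- Coordinates: visible walls, cell bits, group fibre bits. -/
abbrev Crd := ℕ ⊕ ℕ ⊕ HS
abbrev Xi := Crd → Bool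
abbrev Q := Idx × Xi

noncomputable def mQ (ξ : Measure Xi) : Measure Q := (Measure.count : Measure Idx).prod ξ

instance (ξ : Measure Xi) [SigmaFinite ξ] : SigmaFinite (mQ ξ) := by unfold mQ; infer_instance

def clev (lev : ℕ → ℕ) : Crd → ℕ := Sum.elim lev (fun _ => 0)

noncomputable def xi (lev : ℕ → ℕ) : Measure Xi := Measure.infinitePi (fun c => bern (clev lev c))

instance (lev : ℕ → ℕ) : IsProbabilityMeasure (xi lev) := by unfold xi; infer_instance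

/-- Compact open subsets of the intensity space. -/
def CO : Type := {E : Set Q // IsCompact E ∧ IsOpen E}

instance : Countable CO := by
  obtain ⟨b, hbc, -, hb⟩ := TopologicalSpace.exists_countable_basis Q
  have : Countable b := hbc.to_subtype
  have h : ∀ E : CO, ∃ s : Finset b, E.1 = (Subtype.val '' (s : Set b)).sUnion := fun E =>
    eq_sUnion_finset_of_isTopologicalBasis_of_isCompact_open b hb E.1 E.2.1 E.2.2
  choose s hs using h
  have : Function.Injective s := fun E E' h => Subtype.ext (by rw [hs E, hs E', h])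
  exact this.countable

def CO.empty : CO := ⟨∅, isCompact_empty, isOpen_empty⟩

/-- Configurations: number of points in each compact open set. -/
abbrev Cf := CO → ℕ

open Classical in
/-- Preimage of a compact open set (junk value if it is not compact open). -/
noncomputable def preCO (s : Q → Q) (E : CO) : CO :=
  if h : IsCompact (s ⁻¹' E.1) ∧ IsOpen (s ⁻¹' E.1) then ⟨s ⁻¹' E.1, h⟩ else CO.empty

/-- Push-forward of configurations. -/
noncomputable def act (s : Q → Q) (ν : Cf) : Cf := fun E => ν (preCO s E)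

def Good (s : Q → Q) : Prop := Continuous s ∧ Function.Involutive s

noncomputable def exC (l : List (CO × ℂ)) (ν : Cf) : ℂ := (l.map fun p => p.2 ^ ν p.1).prod

open Classical in
noncomputable def gC (l : List (CO × ℂ)) (q : Q) : ℂ :=
  (l.map fun p => if q ∈ p.1.1 then p.2 else 1).prod

noncomputable def ex (l : List (CO × ℝ)) (ν : Cf) : ℝ := (l.map fun p => p.2 ^ ν p.1).prod

open Classical in
noncomputable def gR (l : List (CO × ℝ)) (q : Q) : ℝ :=
  (l.map fun p => if q ∈ p.1.1 then p.2 else 1).prod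

/-- Laplace functional of the Poisson process with intensity `mQ ξ`. -/
def Lap (ξ : Measure Xi) (P : Measure Cf) : Prop :=
  ∀ l : List (CO × ℂ), Integrable (exC l) P ∧
    ∫ ν, exC l ν ∂P = Complex.exp (∫ q, (gC l q - 1) ∂(mQ ξ))

abbrev L2 {Y : Type} [MeasurableSpace Y] (μ : Measure Y) := Lp ℝ 2 μ

/-- The first chaos isometry and its formulas. -/
structure IsChaos (ξ : Measure Xi) (P : Measure Cf) (I : L2 (mQ ξ) →ₗᵢ[ℝ] L2 P) : Prop where
  ind : ∀ (E : CO) (F : L2 (mQ ξ)), F =ᵐ[mQ ξ] E.1.indicator (fun _ => (1 : ℝ)) →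
    I F =ᵐ[P] fun ν => (ν E : ℝ) - (mQ ξ E.1).toReal
  mem : ∀ l, MemLp (ex l) 2 P
  memg : ∀ l, MemLp (fun q => gR l q - 1) 2 (mQ ξ)
  intg : ∀ l, Integrable (fun q => gR l q - 1) (mQ ξ)
  exex : ∀ l, ∫ ν, ex l ν ∂P = Real.exp (∫ q, (gR l q - 1) ∂(mQ ξ))
  form : ∀ (F : L2 (mQ ξ)) l, ∫ ν, I F ν * ex l ν ∂P =
    Real.exp (∫ q, (gR l q - 1) ∂(mQ ξ)) * ∫ q, F q * (gR l q - 1) ∂(mQ ξ)

/-- `h` pulls `I F` back to `I F'`. -/
def Tr {ξ : Measure Xi} {P : Measure Cf} (I : L2 (mQ ξ) →ₗᵢ[ℝ] L2 P) (h : Cf → Cf)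
    (F F' : L2 (mQ ξ)) : Prop :=
  (fun ν => I F (h ν)) =ᵐ[P] I F'

/-- `S` is the Poisson suspension of `s`. -/
def Lifts {ξ : Measure Xi} {P : Measure Cf} (I : L2 (mQ ξ) →ₗᵢ[ℝ] L2 P) (S : Cf → Cf)
    (s : Q → Q) : Prop :=
  MeasurePreserving s (mQ ξ) (mQ ξ) ∧ MeasurePreserving S P P ∧
    ∀ F F' : L2 (mQ ξ), (F' =ᵐ[mQ ξ] fun q => F (s q)) → Tr I S F F'

/-- Atoms: half-space and copy. -/
abbrev At := HS × Finset ℕ
/-- Random labels of atoms. -/
abbrev Yl := At × ℕ → Bool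

/-- The set of half-spaces attached to a point of the intensity space. -/
def Jm (R : ℕ → HS → HS → Prop) (q : Q) (k : HS) : Prop :=
  match q.1.c with
  | 0 => k = q.1.k
  | 1 => True
  | 2 => q.2 (Sum.inl k.1) = true ∧ (k.2 = true ↔ k.1 ∈ q.1.F)
  | c + 3 => R c q.1.k q.1.k' ∧ (k = q.1.k ∨ k = q.1.k')

open Classical in
noncomputable def msk (R : ℕ → HS → HS → Prop) (a : At → Bool) (q : Q) : Crd → Bool :=
  Sum.elim (fun _ => false) (Sum.elim (fun _ => false)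
    (fun k => a (k, q.1.n) && decide (Jm R q k)))

/-- Translation of the group fibre by `a` restricted to the attached half-spaces. -/
noncomputable def rho (R : ℕ → HS → HS → Prop) (a : At → Bool) (q : Q) : Q :=
  (q.1, fun c => xor (q.2 c) (msk R a q c))

def dsh (j : ℕ) (q : Q) : Q := ({q.1 with d := q.1.d ∆ {j}}, q.2)
def nsh (j : ℕ) (q : Q) : Q := ({q.1 with n := q.1.n ∆ {j}}, q.2)
def ysh (j : ℕ) (η : Yl) : Yl := fun p => η ((p.1.1, p.1.2 ∆ {j}), p.2)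

abbrev Cell := ℕ ⊕ (ℕ × Finset ℕ) ⊕ Unit

def cell : Cell → Set Q
  | Sum.inl c => {q | q.1.c = c}
  | Sum.inr (Sum.inl p) => {q | ∀ i < p.1, q.2 (Sum.inr (Sum.inl i)) = decide (i ∈ p.2)}
  | Sum.inr (Sum.inr _) => ∅

open Classical in
/-- Fixes the cell, shifts the coordinate `d` on its complement. -/
noncomputable def uC (p : Cell × ℕ) (q : Q) : Q := if q ∈ cell p.1 then q else dsh p.2 q

abbrev Gen := ℕ ⊕ ℕ ⊕ (Cell × ℕ)

/-- The family of commuting involutions attached to the relations `R`. -/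
noncomputable def alpha (R : ℕ → HS → HS → Prop) : Gen → Yl × Cf → Yl × Cf
  | Sum.inl j => fun w => (ysh j w.1, act (nsh j) w.2)
  | Sum.inr (Sum.inl i) => fun w => (w.1, act (rho R (fun a => w.1 (a, i))) w.2)
  | Sum.inr (Sum.inr p) => fun w => (w.1, act (uC p) w.2)

/-- Every finite pattern occurs among the label bits. -/
def Generic (η : Yl) : Prop := ∀ (T : Finset At) (p : At → Bool), ∃ i, ∀ a ∈ T, η (a, i) = p a

/-- A measure algebra isomorphism on sets of finite measure, preserving colours. -/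
structure CorrOK (ξ : Measure Xi) (Corr : Set Q → Set Q → Prop) : Prop where
  exl : ∀ A, MeasurableSet A → mQ ξ A ≠ ∞ → ∃ B, Corr A B
  exr : ∀ B, MeasurableSet B → mQ ξ B ≠ ∞ → ∃ A, Corr A B
  meas : ∀ A B, Corr A B → MeasurableSet A ∧ MeasurableSet B ∧ mQ ξ A ≠ ∞ ∧ mQ ξ B ≠ ∞
  inter : ∀ A B A' B', Corr A B → Corr A' B' → mQ ξ (A ∩ A') = mQ ξ (B ∩ B')
  col : ∀ A B c, Corr A B → mQ ξ (A ∩ {q | q.1.c = c}) = mQ ξ (B ∩ {q | q.1.c = c})

/-- `Corr` is equivariant for the fibre translations read from the labels `η`, `η'`. -/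
def CorrEq (R R' : ℕ → HS → HS → Prop) (η η' : Yl) (Corr : Set Q → Set Q → Prop) : Prop :=
  ∀ i A B, Corr A B →
    Corr (rho R (fun a => η (a, i)) ⁻¹' A) (rho R' (fun a => η' (a, i)) ⁻¹' B)

open Classical in
/-- Attached atoms as a point of `At → Bool`. -/
noncomputable def Jt (R : ℕ → HS → HS → Prop) (q : Q) : At → Bool :=
  fun a => decide (a.2 = q.1.n ∧ Jm R q a.1)

def S_approx : Prop :=
  ∀ (ξ : Measure Xi) [IsProbabilityMeasure ξ],
    (∀ E : CO, MeasurableSet E.1 ∧ mQ ξ E.1 ≠ ∞) ∧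
    (∀ A, MeasurableSet A → mQ ξ A ≠ ∞ → ∀ ε > 0, ∃ E : CO, mQ ξ (A ∆ E.1) < ε) ∧
    (∀ p : L2 (mQ ξ) → Prop, IsClosed {F | p F} →
      (∀ (l : List (CO × ℝ)) (F : L2 (mQ ξ)),
        (F =ᵐ[mQ ξ] fun q => (l.map fun e => e.1.1.indicator (fun _ => e.2) q).sum) → p F) →
      ∀ F, p F)

def S_lap : Prop :=
  ∀ (ξ : Measure Xi) [IsProbabilityMeasure ξ], ∃ P : Measure Cf, IsProbabilityMeasure P ∧ Lap ξ P

def S_uniq : Prop :=
  (∀ (μ₁ μ₂ : Measure Cf) [IsFiniteMeasure μ₁] [IsFiniteMeasure μ₂],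
    (∀ l : List CO, ∫ ν, ex (l.map fun E => (E, 1 / 2)) ν ∂μ₁ =
      ∫ ν, ex (l.map fun E => (E, 1 / 2)) ν ∂μ₂) → μ₁ = μ₂) ∧
  (∀ (P : Measure Cf) [IsFiniteMeasure P] (f : L2 P),
    (∀ l : List CO, ∫ ν, f ν * ex (l.map fun E => (E, 1 / 2)) ν ∂P = 0) → f = 0)

def S_chaos : Prop :=
  ∀ (ξ : Measure Xi) [IsProbabilityMeasure ξ] (P : Measure Cf) [IsProbabilityMeasure P],
    Lap ξ P → ∃ I, IsChaos ξ P I

def S_char : Prop :=
  ∀ (ξ : Measure Xi) [IsProbabilityMeasure ξ] (P : Measure Cf) [IsProbabilityMeasure P]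
    (I : L2 (mQ ξ) →ₗᵢ[ℝ] L2 P), Lap ξ P → IsChaos ξ P I → ∀ (F : L2 (mQ ξ)) (u : ℝ),
    Integrable (fun q => Real.cos (u * F q) - 1) (mQ ξ) ∧
    ‖∫ ν, Complex.exp ((u * I F ν : ℝ) * Complex.I) ∂P‖ =
      Real.exp (∫ q, (Real.cos (u * F q) - 1) ∂(mQ ξ))

def S_lift : Prop :=
  ∀ (ξ : Measure Xi) [IsProbabilityMeasure ξ] (P : Measure Cf) [IsProbabilityMeasure P]
    (I : L2 (mQ ξ) →ₗᵢ[ℝ] L2 P), IsChaos ξ P I →
    (∀ s, MeasurePreserving s (mQ ξ) (mQ ξ) → ∃ S, Lifts I S s) ∧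
    (∀ t, Good t → MeasurePreserving t (mQ ξ) (mQ ξ) → Lifts I (act t) t) ∧
    (∀ S s S' s', Lifts I S s → Lifts I S' s' → Lifts I (S' ∘ S) (s' ∘ s)) ∧
    (∀ S s S' s', Lifts I S s → Lifts I S' s' → s =ᵐ[mQ ξ] s' → S =ᵐ[P] S') ∧
    Lifts I id id

/-- Basic facts on the maps of the intensity space. -/
def S_maps : Prop :=
  (∀ (lev : ℕ → ℕ) R a, Good (rho R a) ∧ MeasurePreserving (rho R a) (mQ (xi lev)) (mQ (xi lev))) ∧
  (∀ (lev : ℕ → ℕ) p, Good (uC p) ∧ MeasurePreserving (uC p) (mQ (xi lev)) (mQ (xi lev))) ∧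
  (∀ (lev : ℕ → ℕ) j, Good (nsh j) ∧ MeasurePreserving (nsh j) (mQ (xi lev)) (mQ (xi lev))) ∧
  (∀ C, IsClopen (cell C)) ∧
  (∀ (lev : ℕ → ℕ) (i : Idx) (n : ℕ) (s : Finset ℕ),
    mQ (xi lev) ({q | q.1 = i} ∩ cell (Sum.inr (Sum.inl (n, s)))) ≤ (2 : ℝ≥0∞)⁻¹ ^ n) ∧
  (∀ s, Good s → ∀ E : CO, (preCO s E).1 = s ⁻¹' E.1) ∧
  (∀ R, Continuous (fun p : (At → Bool) × Q => rho R p.1 p.2))

def S_first : Prop :=
  ∀ (lev : ℕ → ℕ) (P : Measure Cf) [IsProbabilityMeasure P]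
    (I : L2 (mQ (xi lev)) →ₗᵢ[ℝ] L2 P), IsChaos (xi lev) P I →
    ErgFam P (fun p => act (uC p)) ∧
    ∀ h h', Conj P P h h' → (∀ p, (fun ν => h (act (uC p) ν)) =ᵐ[P] fun ν => act (uC p) (h ν)) →
      (∀ F, ∃ F', Tr I h F F') ∧
      (∀ F F' C (F₁ F₁' : L2 (mQ (xi lev))), Tr I h F F' →
        F₁ =ᵐ[mQ (xi lev)] (cell C).indicator F → F₁' =ᵐ[mQ (xi lev)] (cell C).indicator F' →
        Tr I h F₁ F₁')

def S_corr : Prop :=
  ∀ (lev : ℕ → ℕ) (P : Measure Cf) [IsProbabilityMeasure P]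
    (I : L2 (mQ (xi lev)) →ₗᵢ[ℝ] L2 P), Lap (xi lev) P → IsChaos (xi lev) P I →
    ∀ h h', Conj P P h h' → (∀ p, (fun ν => h (act (uC p) ν)) =ᵐ[P] fun ν => act (uC p) (h ν)) →
    ∀ t t' : ℕ → Q → Q, (∀ i, Lifts I (act (t i)) (t i)) → (∀ i, Lifts I (act (t' i)) (t' i)) →
      (∀ i, (fun ν => h (act (t' i) ν)) =ᵐ[P] fun ν => act (t i) (h ν)) →
      ∃ Corr, CorrOK (xi lev) Corr ∧ ∀ i A B, Corr A B → Corr (t i ⁻¹' A) (t' i ⁻¹' B)

def S_dec1 : Prop :=
  ∀ (lev : ℕ → ℕ) (R R' : ℕ → HS → HS → Prop) (η η' : Yl) (Corr : Set Q → Set Q → Prop),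
    Generic η → Generic η' → CorrOK (xi lev) Corr → CorrEq R R' η η' Corr →
    ∃ σ : At ≃ At, ∀ a i, η' (σ a, i) = η (a, i)

def S_dec2 : Prop :=
  ∀ (lev : ℕ → ℕ) (R R' : ℕ → HS → HS → Prop) (η η' : Yl) (Corr : Set Q → Set Q → Prop),
    Generic η → Generic η' → CorrOK (xi lev) Corr → CorrEq R R' η η' Corr →
    ∀ σ : At ≃ At, (∀ a i, η' (σ a, i) = η (a, i)) →
    ∀ A B, Corr A B → ∀ W : Set (At → Bool), MeasurableSet W →
      mQ (xi lev) (A ∩ {q | Jt R q ∈ W}) = mQ (xi lev) (B ∩ {q | (fun a => Jt R' q (σ a)) ∈ W})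

def S_dec3 : Prop :=
  ∀ (lev : ℕ → ℕ) (R R' : ℕ → HS → HS → Prop) (Corr : Set Q → Set Q → Prop) (σ : At ≃ At),
    (∀ c k k', R c k k' → R c k' k) → (∀ c k k', R' c k k' → R' c k' k) →
    CorrOK (xi lev) Corr →
    (∀ A B, Corr A B → ∀ W : Set (At → Bool), MeasurableSet W →
      mQ (xi lev) (A ∩ {q | Jt R q ∈ W}) = mQ (xi lev) (B ∩ {q | (fun a => Jt R' q (σ a)) ∈ W})) →
    ∃ σ₀ : HS ≃ HS, (∀ c k k', R c k k' ↔ R' c (σ₀ k) (σ₀ k')) ∧
      Summable (fun h => if (σ₀ (h, false)).2 = true then wt (lev h) else 0)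

/-- The family `alpha` consists of commuting measure preserving involutions, is ergodic, and
depends measurably on the relations. -/
def S_sys : Prop :=
  ∀ (lev : ℕ → ℕ) (P : Measure Cf) [IsProbabilityMeasure P]
    (I : L2 (mQ (xi lev)) →ₗᵢ[ℝ] L2 P), IsChaos (xi lev) P I →
    (∀ R, Fam ((unif (At × ℕ)).prod P) (alpha R) ∧ ErgFam ((unif (At × ℕ)).prod P) (alpha R)) ∧
    ∀ (X : Type) [MeasurableSpace X] (R : X → ℕ → HS → HS → Prop),
      (∀ c k k', MeasurableSet {x | R x c k k'}) →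
      ∀ g, Measurable (fun p : X × (Yl × Cf) => alpha (R p.1) g p.2)

def S_iso : Prop :=
  ∀ (lev : ℕ → ℕ) (P : Measure Cf) [IsProbabilityMeasure P]
    (I : L2 (mQ (xi lev)) →ₗᵢ[ℝ] L2 P), IsChaos (xi lev) P I →
    ∀ (R R' : ℕ → HS → HS → Prop) (τ : ℕ ≃ ℕ) (fl : ℕ → Bool), (∀ h, lev (τ h) = lev h) →
      (∀ c k k', R' c (hsMap τ fl k) (hsMap τ fl k') ↔ R c k k') →
      Summable (fun h => if fl h = true then wt (lev h) else 0) →
      ∃ Θ Θ', Conj ((unif (At × ℕ)).prod P) ((unif (At × ℕ)).prod P) Θ Θ' ∧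
        ∀ g, (fun w => Θ (alpha R g w)) =ᵐ[(unif (At × ℕ)).prod P] fun w => alpha R' g (Θ w)

/-! ## Part C: odometer skew product, fibre lemma, transfer -/

def flipAt (m : ℕ) (ξ : ℕ → Bool) : ℕ → Bool := Function.update ξ m (!ξ m)

open Classical in
/-- At square positions `k * k` act by `α (unpair k).1`, elsewhere by the identity. -/
noncomputable def gam {Y : Type} (α : ℕ → Y → Y) (m : ℕ) : Y → Y :=
  if ∃ k, m = k * k then α (Nat.unpair (Nat.sqrt m)).1 else id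

noncomputable def tau {Y : Type} (α : ℕ → Y → Y) (m : ℕ) (ω : (ℕ → Bool) × Y) : (ℕ → Bool) × Y :=
  (flipAt m ω.1, gam α m ω.2)

/-- `tauRun α k n` is the composition of `tau α k, …, tau α (k+n-1)`. -/
noncomputable def tauRun {Y : Type} (α : ℕ → Y → Y) (k : ℕ) :
    ℕ → (ℕ → Bool) × Y → (ℕ → Bool) × Y
  | 0 => id
  | n + 1 => tau α (k + n) ∘ tauRun α k n

open Classical in
/-- `Tb false α k` adds one at digit `k` (with carry); `Tb true α k` subtracts it. -/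
noncomputable def Tb {Y : Type} (b : Bool) (α : ℕ → Y → Y) (k : ℕ) (ω : (ℕ → Bool) × Y) :
    (ℕ → Bool) × Y :=
  if h : ∃ n, ω.1 (k + n) = b then tauRun α k (Nat.find h + 1) ω else ω

def S_bern : Prop :=
  (∀ m, MeasurePreserving (flipAt m) (unif ℕ) (unif ℕ)) ∧ ErgFam (unif ℕ) flipAt ∧
  (∀ ξ, unif ℕ {ξ} = 0) ∧
  (∀ (k L : ℕ) (b : Bool), unif ℕ {ξ | ∀ n < L, ξ (k + n) ≠ b} = (2 : ℝ≥0∞)⁻¹ ^ L) ∧
  (∀ j, MeasurePreserving (ysh j) (unif (At × ℕ)) (unif (At × ℕ))) ∧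
  ErgFam (unif (At × ℕ)) ysh ∧ ∀ᵐ η ∂(unif (At × ℕ)), Generic η

def S_PE : Prop :=
  ∀ (B F ι κ : Type) [MeasurableSpace B] [MeasurableSpace F] [Countable ι] (β : Measure B)
    (P : Measure F) [IsProbabilityMeasure β] [IsProbabilityMeasure P]
    (g : ι → F → F) (r : κ → B → B) (S : κ → F → F),
    (∀ j, MeasurePreserving (g j) P P) → ErgFam P g →
    (∀ j, MeasurePreserving (r j) β β) → ErgFam β r → (∀ j, MeasurePreserving (S j) P P) →
    ∀ A, MeasurableSet A → (∀ j, Prod.map id (g j) ⁻¹' A =ᵐ[β.prod P] A) →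
      (∀ j, Prod.map (r j) (S j) ⁻¹' A =ᵐ[β.prod P] A) → (β.prod P) A = 0 ∨ (β.prod P) Aᶜ = 0

def S_L0a : Prop :=
  (∀ (Y : Type) [MeasurableSpace Y] (μ : Measure Y) [IsProbabilityMeasure μ] (α : ℕ → Y → Y),
    Fam μ α → ∀ k, Conj ((unif ℕ).prod μ) ((unif ℕ).prod μ) (Tb false α k) (Tb true α k) ∧
      (fun ω => Tb false α k (Tb false α k ω)) =ᵐ[(unif ℕ).prod μ] Tb false α (k + 1)) ∧
  (∀ (X Y : Type) [MeasurableSpace X] [MeasurableSpace Y] (α : X → ℕ → Y → Y),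
    (∀ j, Measurable (fun p : X × Y => α p.1 j p.2)) →
    Measurable (fun p : X × ((ℕ → Bool) × Y) => Tb false (α p.1) 0 p.2)) ∧
  (∀ (Y : Type) [MeasurableSpace Y] [StandardBorelSpace Y] (μ : Measure Y) [IsProbabilityMeasure μ]
    (α β : ℕ → Y → Y) (θ : Y → Y), Fam μ α → Fam μ β → MeasurePreserving θ μ μ →
    (∀ j, (fun y => θ (α j y)) =ᵐ[μ] fun y => β j (θ y)) →
    (fun ω => Prod.map id θ (Tb false α 0 ω)) =ᵐ[(unif ℕ).prod μ]
      fun ω => Tb false β 0 (Prod.map id θ ω))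

def S_L0b : Prop :=
  ∀ (Y : Type) [MeasurableSpace Y] [StandardBorelSpace Y] (μ : Measure Y) [IsProbabilityMeasure μ]
    (α : ℕ → Y → Y), Fam μ α →
    (ErgFam μ α → Ergodic (Tb false α 0) ((unif ℕ).prod μ)) ∧
    ∀ (β : ℕ → Y → Y) (Θ : (ℕ → Bool) × Y → (ℕ → Bool) × Y), Fam μ β →
      MeasurePreserving Θ ((unif ℕ).prod μ) ((unif ℕ).prod μ) →
      (fun ω => Θ (Tb false α 0 ω)) =ᵐ[(unif ℕ).prod μ] (fun ω => Tb false β 0 (Θ ω)) →
      ∀ j, (fun ω => Θ (Prod.map id (α j) ω)) =ᵐ[(unif ℕ).prod μ]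
        fun ω => Prod.map id (β j) (Θ ω)

def S_FL : Prop :=
  ∀ (B F ι : Type) [MeasurableSpace B] [StandardBorelSpace B] [MeasurableSpace F]
    [StandardBorelSpace F] [Countable ι] (β : Measure B) (P : Measure F)
    [IsProbabilityMeasure β] [IsProbabilityMeasure P]
    (g : ι → F → F) (t t' : ℕ → B → F → F) (Θ Θ' : B × F → B × F) (p : B → Prop),
    (∀ j, MeasurePreserving (g j) P P) → ErgFam P g →
    Conj (β.prod P) (β.prod P) Θ Θ' →
    (∀ j, (fun w => Θ (w.1, g j w.2)) =ᵐ[β.prod P] fun w => ((Θ w).1, g j (Θ w).2)) →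
    (∀ i, (fun w => Θ (w.1, t i w.1 w.2)) =ᵐ[β.prod P]
      fun w => ((Θ w).1, t' i (Θ w).1 (Θ w).2)) →
    (∀ᵐ b ∂β, p b) →
    ∃ b b', p b ∧ p b' ∧ ∃ h h' : F → F, Conj P P h h' ∧
      (∀ j, (fun y => h (g j y)) =ᵐ[P] fun y => g j (h y)) ∧
      ∀ i, (fun y => h (t i b y)) =ᵐ[P] fun y => t' i b' (h y)

def S_transfer : Prop :=
  ∀ (Ω : Type) [MeasurableSpace Ω] [StandardBorelSpace Ω] (μ : Measure Ω) [IsProbabilityMeasure μ],
    (∀ ω, μ {ω} = 0) → ∃ e e', Conj μ (volume.restrict (Icc (0 : ℝ) 1)) e e'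

end Pool.Agent.P.MP_c1aa6a_an
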