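import Pool.Agent.P.MP_c1aa6a_an.Defs

/-! The fibre lemma for conjugacies of skew products with ergodic fibres. -/

set_option autoImplicit false
open MeasureTheory ProbabilityTheory Set Filter

namespace Pool.Agent.P.MP_c1aa6a_an

namespace FL

variable {B F ι : Type} [MeasurableSpace B] [MeasurableSpace F] {β : Measure B} {P : Measure F}
  [IsProbabilityMeasure β] [IsProbabilityMeasure P]

lemma measurableSet_ae {A : Type} [MeasurableSpace A] {s : Set (A × F)} (hs : MeasurableSet s) :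
    MeasurableSet {a | ∀ᵐ y ∂P, (a, y) ∈ s} := by
  have h := measurable_measure_prodMk_left (ν := P) hs.compl
  exact h (measurableSet_singleton 0)

/-- An invariant function on the product depends only on the first coordinate. -/
lemma exists_factor [StandardBorelSpace B] [Countable ι] {g : ι → F → F}
    (he : ErgFam P g) {f : B × F → B} (hf : Measurable f)
    (hinv : ∀ j, (fun w : B × F => f (w.1, g j w.2)) =ᵐ[β.prod P] f) :
    ∃ θ : B → B, Measurable θ ∧ f =ᵐ[β.prod P] fun w => θ w.1 := by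
  have hne : Nonempty B := β.nonempty_of_neZero
  have h1 : ∀ᵐ b ∂β, ∀ j, ∀ᵐ y ∂P, f (b, g j y) = f (b, y) :=
    ae_all_iff.mpr fun j => Measure.ae_ae_of_ae_prod (hinv j)
  have h2 : ∀ᵐ b ∂β, ∀ᵐ y ∂P, ∀ᵐ y' ∂P, f (b, y) = f (b, y') := by
    filter_upwards [h1] with b hb
    obtain ⟨c, hc⟩ := exists_eventuallyEq_const_of_forall_separating (l := ae P)
      (f := fun y => f (b, y)) MeasurableSet fun U hU => by
        have hm : MeasurableSet ((fun y => f (b, y)) ⁻¹' U) :=
          (hf.comp measurable_prodMk_left) hU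
        refine (he _ hm fun j => ?_).symm.imp (fun h => h) fun h => measure_eq_zero_iff_ae_notMem.mp h
        filter_upwards [hb j] with y hy
        show (f (b, g j y) ∈ U) = (f (b, y) ∈ U)
        rw [hy]
    filter_upwards [hc] with y hy
    filter_upwards [hc] with y' hy'
    exact hy.trans hy'.symm
  have hs : MeasurableSet {x : (B × F) × F | f x.1 = f (x.1.1, x.2)} :=
    measurableSet_eq_fun (hf.comp measurable_fst)
      (hf.comp ((measurable_fst.comp measurable_fst).prodMk measurable_snd))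
  have h3 : ∀ᵐ w ∂(β.prod P), ∀ᵐ y' ∂P, f w = f (w.1, y') :=
    (Measure.ae_prod_iff_ae_ae (measurableSet_ae hs)).mpr h2
  obtain ⟨y₀, hy₀⟩ := ((Measure.ae_ae_comm (p := fun w y' => f w = f (w.1, y')) hs).mp h3).exists
  exact ⟨fun b => f (b, y₀), hf.comp (measurable_id.prodMk measurable_const), hy₀⟩

omit [IsProbabilityMeasure β] in
lemma mp_base {Θ : B × F → B × F} (hΘ : MeasurePreserving Θ (β.prod P) (β.prod P)) {θ : B → B}
    (hθ : Measurable θ) (h : (fun w => (Θ w).1) =ᵐ[β.prod P] fun w => θ w.1) :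
    MeasurePreserving θ β β := by
  have h1 : MeasurePreserving (fun w : B × F => θ w.1) (β.prod P) β :=
    (measurePreserving_fst.comp hΘ).congr (hθ.comp measurable_fst) h
  refine ⟨hθ, ?_⟩
  have h2 := (measurePreserving_fst (μ := β) (ν := P)).map_eq
  conv_lhs => rw [← h2]
  rw [Measure.map_map hθ measurable_fst]
  exact h1.map_eq

/-- A fibre preserving measure preserving map is measure preserving on almost every fibre. -/
lemma mp_fibre [StandardBorelSpace F] {Ψ : B × F → F}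
    (h : MeasurePreserving (fun w => (w.1, Ψ w)) (β.prod P) (β.prod P)) :
    ∀ᵐ b ∂β, MeasurePreserving (fun y => Ψ (b, y)) P P := by
  have hΨ : Measurable Ψ := measurable_snd.comp h.measurable
  let κ : Kernel B F := Kernel.map (Kernel.id ×ₖ Kernel.const B P) Ψ
  have hM : IsMarkovKernel κ := Kernel.IsMarkovKernel.map _ hΨ
  have hκ : ∀ b, κ b = P.map (fun y => Ψ (b, y)) := by
    intro b
    rw [Kernel.map_apply _ hΨ, Kernel.prod_apply, Kernel.id_apply, Kernel.const_apply,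
      Measure.dirac_prod, Measure.map_map hΨ measurable_prodMk_left]
    rfl
  have h1 : β ⊗ₘ κ = β ⊗ₘ Kernel.const B P := by
    rw [Measure.compProd_const]
    ext s hs
    rw [Measure.compProd_apply hs, ← h.measure_preimage hs.nullMeasurableSet,
      Measure.prod_apply (h.measurable hs)]
    refine lintegral_congr fun b => ?_
    rw [hκ]
    exact Measure.map_apply (hΨ.comp measurable_prodMk_left) (measurable_prodMk_left hs)
  filter_upwards [Kernel.ae_eq_of_compProd_eq h1] with b hb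
  exact ⟨hΨ.comp measurable_prodMk_left, by rw [← hκ, hb, Kernel.const_apply]⟩

omit [IsProbabilityMeasure β] in
lemma ae_fst {q : B → Prop} (h : ∀ᵐ w ∂(β.prod P), q w.1) : ∀ᵐ b ∂β, q b := by
  filter_upwards [Measure.ae_ae_of_ae_prod h] with b hb
  exact hb.exists.elim fun _ h => h

/-- One half of the conclusion. -/
lemma half [StandardBorelSpace F] {Θ Θ' : B × F → B × F}
    (hΘ : MeasurePreserving Θ (β.prod P) (β.prod P))
    (hinv : (fun t => Θ' (Θ t)) =ᵐ[β.prod P] id) {θ θ' : B → B}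
    (hθ' : MeasurePreserving θ' β β) (h : (fun w => (Θ w).1) =ᵐ[β.prod P] fun w => θ w.1)
    (h' : (fun w => (Θ' w).1) =ᵐ[β.prod P] fun w => θ' w.1) :
    ∀ᵐ b ∂β, θ' (θ b) = b ∧ MeasurePreserving (fun y => (Θ (b, y)).2) P P ∧
      (∀ᵐ y ∂P, (Θ (b, y)).1 = θ b) ∧ ∀ᵐ y ∂P, (Θ' (θ b, (Θ (b, y)).2)).2 = y := by
  have h1 : ∀ᵐ w ∂(β.prod P), θ' (Θ w).1 = w.1 := by
    filter_upwards [hΘ.quasiMeasurePreserving.ae h', hinv] with w h2 h3
    rw [← h2, h3, id]
  have h2 : ∀ᵐ b ∂β, θ' (θ b) = b := by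
    apply ae_fst (P := P)
    filter_upwards [h1, h] with w h2 h3
    rw [← h3, h2]
  have h3 : MeasurePreserving (fun w => (w.1, (Θ w).2)) (β.prod P) (β.prod P) := by
    refine ((hθ'.prod (MeasurePreserving.id P)).comp hΘ).congr
      (measurable_fst.prodMk (measurable_snd.comp hΘ.measurable)) ?_
    filter_upwards [h1] with w hw
    exact Prod.ext hw rfl
  have h4 : ∀ᵐ w ∂(β.prod P), (Θ' (θ w.1, (Θ w).2)).2 = w.2 := by
    filter_upwards [h, hinv] with w h5 h6
    rw [← h5, Prod.mk.eta, h6, id]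
  filter_upwards [h2, mp_fibre h3, Measure.ae_ae_of_ae_prod h, Measure.ae_ae_of_ae_prod h4]
    with b h5 h6 h7 h8
  exact ⟨h5, h6, h7, h8⟩

end FL

open FL in
theorem fl_ok : S_FL := by
  intro B F ι _ _ _ _ _ β P _ _ g t t' Θ Θ' p hg he hc hΘg hΘt hp
  obtain ⟨hΘ, hΘ', hi, hi'⟩ := hc
  have hG : ∀ j, MeasurePreserving (fun w : B × F => (w.1, g j w.2)) (β.prod P) (β.prod P) :=
    fun j => (MeasurePreserving.id β).prod (hg j)
  have hΘ'g : ∀ j, (fun w : B × F => (Θ' (w.1, g j w.2)).1) =ᵐ[β.prod P] fun w => (Θ' w).1 := by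
    intro j
    filter_upwards [hΘ'.quasiMeasurePreserving.ae (hΘg j), hi',
      ((hG j).comp hΘ').quasiMeasurePreserving.ae hi] with w h1 h2 h3
    simp only [id, Function.comp] at h2 h3
    rw [h1, h2] at h3
    rw [h3]
  obtain ⟨θ, hθm, hθ⟩ := exists_factor he (measurable_fst.comp hΘ.measurable)
    (f := fun w => (Θ w).1) fun j => by
      filter_upwards [hΘg j] with w hw
      rw [hw]
  obtain ⟨θ', hθm', hθ'⟩ := exists_factor he (measurable_fst.comp hΘ'.measurable)
    (f := fun w => (Θ' w).1) hΘ'g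
  have m1 := mp_base hΘ hθm hθ
  have m2 := mp_base hΘ' hθm' hθ'
  have a1 := half hΘ hi m2 hθ hθ'
  have a2 := m1.quasiMeasurePreserving.ae (half hΘ' hi' m1 hθ' hθ)
  have a3 : ∀ᵐ b ∂β, ∀ j, ∀ᵐ y ∂P, Θ (b, g j y) = ((Θ (b, y)).1, g j (Θ (b, y)).2) :=
    ae_all_iff.mpr fun j => Measure.ae_ae_of_ae_prod (hΘg j)
  have a4 : ∀ᵐ b ∂β, ∀ i, ∀ᵐ y ∂P,
      Θ (b, t i b y) = ((Θ (b, y)).1, t' i (Θ (b, y)).1 (Θ (b, y)).2) :=
    ae_all_iff.mpr fun i => Measure.ae_ae_of_ae_prod (hΘt i)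
  obtain ⟨b, hb, hb', ⟨c1, c2, c3, c4⟩, ⟨-, d2, -, d4⟩, e3, e4⟩ :=
    (hp.and ((m1.quasiMeasurePreserving.ae hp).and (a1.and (a2.and (a3.and a4))))).exists
  refine ⟨b, θ b, hb, hb', fun y => (Θ (b, y)).2, fun y => (Θ' (θ b, y)).2,
    ⟨c2, d2, c4, ?_⟩, fun j => ?_, fun i => ?_⟩
  · rw [c1] at d4
    exact d4
  · filter_upwards [e3 j] with y hy
    rw [hy]
  · filter_upwards [e4 i, c3] with y hy hy'
    rw [hy, hy']

end Pool.Agent.P.MP_c1aa6a_an
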