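import Pool.Agent.P.MP_c1aa6a_an.Defs

/-! Tools for the first chaos rigidity: weak limits, composition operators, cells. -/

set_option autoImplicit false
open MeasureTheory Set Filter Topology
open scoped ENNReal NNReal symmDiff InnerProductSpace

namespace Pool.Agent.P.MP_c1aa6a_an
namespace First

section hilbert
variable {H : Type} [NormedAddCommGroup H] [InnerProductSpace ℝ H]

theorem isClosed_weak {w : ℕ → H} {v : H} {B : ℝ} (hB : ∀ j, ‖w j‖ ≤ B) :
    IsClosed {g | Tendsto (fun j => ⟪w j, g⟫_ℝ) atTop (𝓝 ⟪v, g⟫_ℝ)} := by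
  refine isClosed_of_closure_subset fun g hg => ?_
  rw [mem_ofPred_eq, Metric.tendsto_atTop]
  intro ε hε
  have hB0 : 0 ≤ B := (norm_nonneg _).trans (hB 0)
  have hD : 0 < B + ‖v‖ + 1 := by positivity
  obtain ⟨g', hg', hd⟩ := Metric.mem_closure_iff.1 hg (ε / 2 / (B + ‖v‖ + 1)) (by positivity)
  obtain ⟨N, hN⟩ := Metric.tendsto_atTop.1 hg' (ε / 2) (by positivity)
  refine ⟨N, fun j hj => ?_⟩
  have h1 := hN j hj
  rw [Real.dist_eq] at h1 ⊢
  rw [dist_eq_norm, lt_div_iff₀ hD] at hd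
  have h2 : |⟪w j - v, g - g'⟫_ℝ| ≤ ‖g - g'‖ * (B + ‖v‖ + 1) := by
    refine (abs_real_inner_le_norm _ _).trans ?_
    rw [mul_comm]
    gcongr
    linarith [norm_sub_le (w j) v, hB j]
  have h3 : ⟪w j, g⟫_ℝ - ⟪v, g⟫_ℝ = (⟪w j, g'⟫_ℝ - ⟪v, g'⟫_ℝ) + ⟪w j - v, g - g'⟫_ℝ := by
    simp only [inner_sub_left, inner_sub_right]
    ring
  rw [h3]
  linarith [abs_add_le (⟪w j, g'⟫_ℝ - ⟪v, g'⟫_ℝ) ⟪w j - v, g - g'⟫_ℝ]

theorem weak_of_total [CompleteSpace H] {ι : Type} (e : ι → H)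
    (he : ∀ f, (∀ i, ⟪f, e i⟫_ℝ = 0) → f = 0) {w : ℕ → H} {v : H} {B : ℝ} (hB : ∀ j, ‖w j‖ ≤ B)
    (h : ∀ i, Tendsto (fun j => ⟪w j, e i⟫_ℝ) atTop (𝓝 ⟪v, e i⟫_ℝ)) (g : H) :
    Tendsto (fun j => ⟪w j, g⟫_ℝ) atTop (𝓝 ⟪v, g⟫_ℝ) := by
  let M : Submodule ℝ H :=
    { carrier := {g | Tendsto (fun j => ⟪w j, g⟫_ℝ) atTop (𝓝 ⟪v, g⟫_ℝ)}
      add_mem' := fun {a b} ha hb => by
        simp only [mem_ofPred_eq, inner_add_right]
        exact Tendsto.add ha hb
      zero_mem' := by simp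
      smul_mem' := fun c a ha => by
        simp only [mem_ofPred_eq, inner_smul_right]
        exact Tendsto.const_mul c ha }
  have hc : IsClosed (M : Set H) := isClosed_weak hB
  have : CompleteSpace M := hc.completeSpace_coe
  have hM : M = ⊤ := by
    rw [← Submodule.orthogonal_eq_bot_iff, eq_bot_iff]
    intro f hf
    exact he f fun i => (Submodule.mem_orthogonal' M f).1 hf (e i) (h i)
  have : g ∈ M := hM ▸ Submodule.mem_top
  exact this

end hilbert

section lp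
variable {Y : Type} [MeasurableSpace Y] {μ : Measure Y}

theorem inner_eq {f g : L2 μ} {f' g' : Y → ℝ} (hf : f =ᵐ[μ] f') (hg : g =ᵐ[μ] g') :
    ⟪f, g⟫_ℝ = ∫ y, f' y * g' y ∂μ := by
  rw [L2.inner_def]
  refine integral_congr_ae ?_
  filter_upwards [hf, hg] with y h1 h2
  rw [h1, h2, real_inner_comm]
  simp

theorem integrable_mul' {f g : L2 μ} {f' g' : Y → ℝ} (hf : f =ᵐ[μ] f') (hg : g =ᵐ[μ] g') :
    Integrable (fun y => f' y * g' y) μ := by
  refine (L2.integrable_inner (𝕜 := ℝ) f g).congr ?_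
  filter_upwards [hf, hg] with y h1 h2
  rw [h1, h2, real_inner_comm]
  simp

/-- composition with a measure preserving map -/
noncomputable def cmp {S : Y → Y} (hS : MeasurePreserving S μ μ) : L2 μ →ₗᵢ[ℝ] L2 μ :=
  Lp.compMeasurePreservingₗᵢ ℝ S hS

theorem cmp_ae {S : Y → Y} (hS : MeasurePreserving S μ μ) {f : L2 μ} {f' : Y → ℝ}
    (hf : f =ᵐ[μ] f') : cmp hS f =ᵐ[μ] fun y => f' (S y) :=
  (Lp.coeFn_compMeasurePreserving f hS).trans (hS.quasiMeasurePreserving.ae_eq_comp hf)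

theorem cmp_cmp {S S' R R' : Y → Y} (hS : MeasurePreserving S μ μ) (hS' : MeasurePreserving S' μ μ)
    (hR : MeasurePreserving R μ μ) (hR' : MeasurePreserving R' μ μ)
    (h : (fun y => S' (S y)) =ᵐ[μ] fun y => R' (R y)) (f : L2 μ) :
    cmp hS (cmp hS' f) = cmp hR (cmp hR' f) := by
  refine Lp.ext ((cmp_ae hS (cmp_ae hS' EventuallyEq.rfl)).trans
    (EventuallyEq.trans ?_ (cmp_ae hR (cmp_ae hR' EventuallyEq.rfl)).symm))
  filter_upwards [h] with y hy
  rw [hy]

theorem cmp_inv {S S' : Y → Y} (hS : MeasurePreserving S μ μ) (hS' : MeasurePreserving S' μ μ)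
    (h : (fun y => S' (S y)) =ᵐ[μ] id) (f : L2 μ) : cmp hS (cmp hS' f) = f := by
  refine Lp.ext ((cmp_ae hS (cmp_ae hS' EventuallyEq.rfl)).trans ?_)
  filter_upwards [h] with y hy
  rw [hy, id]

theorem cmp_symm {S : Y → Y} (hS : MeasurePreserving S μ μ) (h : Function.Involutive S)
    (f g : L2 μ) : ⟪cmp hS f, g⟫_ℝ = ⟪f, cmp hS g⟫_ℝ := by
  rw [← (cmp hS).inner_map_map, cmp_inv hS hS (Eventually.of_forall h)]

/-- multiplication by an indicator function -/
noncomputable def pr {C : Set Y} (hC : MeasurableSet C) (F : L2 μ) : L2 μ :=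
  ((Lp.memLp F).indicator hC).toLp _

theorem pr_ae {C : Set Y} (hC : MeasurableSet C) {F : L2 μ} {f : Y → ℝ} (hf : F =ᵐ[μ] f) :
    pr hC F =ᵐ[μ] C.indicator f :=
  (MemLp.coeFn_toLp _).trans (hf.indicator)

theorem pr_symm {C : Set Y} (hC : MeasurableSet C) (F G : L2 μ) :
    ⟪pr hC F, G⟫_ℝ = ⟪F, pr hC G⟫_ℝ := by
  rw [inner_eq (pr_ae hC EventuallyEq.rfl) EventuallyEq.rfl,
    inner_eq EventuallyEq.rfl (pr_ae hC EventuallyEq.rfl)]
  congr 1
  funext y
  by_cases hy : y ∈ C <;> simp [hy]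

theorem pr_disj {C D : Set Y} (hC : MeasurableSet C) (hD : MeasurableSet D) (h : Disjoint C D)
    (F G : L2 μ) : ⟪pr hC F, pr hD G⟫_ℝ = 0 := by
  rw [inner_eq (pr_ae hC EventuallyEq.rfl) (pr_ae hD EventuallyEq.rfl)]
  refine integral_eq_zero_of_ae (Eventually.of_forall fun y => ?_)
  by_cases hy : y ∈ C
  · simp [disjoint_left.1 h hy]
  · simp [hy]

theorem pr_sum {ι : Type} (s : Finset ι) {C : ι → Set Y} (hC : ∀ i, MeasurableSet (C i))
    (h : ∀ y, ∃ i ∈ s, y ∈ C i ∧ ∀ j ∈ s, y ∈ C j → j = i) (F : L2 μ) :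
    ∑ i ∈ s, pr (hC i) F = F := by
  refine Lp.ext ((Lp.coeFn_finsetSum s _).trans ?_)
  have h1 : ∀ᵐ y ∂μ, ∀ i ∈ s, pr (hC i) F y = (C i).indicator F y :=
    (eventually_all_finset s).2 fun i _ => pr_ae (hC i) EventuallyEq.rfl
  filter_upwards [h1] with y hy
  obtain ⟨i, hi, h2, h3⟩ := h y
  rw [Finset.sum_apply, Finset.sum_eq_single_of_mem i hi, hy i hi, indicator_of_mem h2]
  intro j hj hji
  rw [hy j hj, indicator_of_notMem fun h4 => hji (h3 j hj h4)]

end lp

/-! ### Finite supports -/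

theorem co_finite (E : CO) : ∃ T : Finset Idx, ∀ q ∈ E.1, q.1 ∈ T := by
  have h := (E.2.1.image continuous_fst).finite_of_discrete
  exact ⟨h.toFinset, fun q hq => h.mem_toFinset.2 ⟨q, hq, rfl⟩⟩

theorem list_finite (l : List (CO × ℝ)) : ∃ T : Finset Idx, ∀ p ∈ l, ∀ q ∈ p.1.1, q.1 ∈ T := by
  classical
  induction l with
  | nil => exact ⟨∅, by simp⟩
  | cons a l ih =>
    obtain ⟨T, hT⟩ := ih
    obtain ⟨T', hT'⟩ := co_finite a.1
    refine ⟨T' ∪ T, fun p hp q hq => ?_⟩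
    rcases List.mem_cons.1 hp with rfl | hp
    · exact Finset.mem_union_left _ (hT' q hq)
    · exact Finset.mem_union_right _ (hT p hp q hq)

theorem gR_nil (q : Q) : gR [] q = 1 := rfl

open Classical in
theorem gR_cons (a : CO × ℝ) (l : List (CO × ℝ)) (q : Q) :
    gR (a :: l) q = (if q ∈ a.1.1 then a.2 else 1) * gR l q := rfl

theorem gR_append (l l' : List (CO × ℝ)) (q : Q) : gR (l ++ l') q = gR l q * gR l' q := by
  simp [gR]

theorem ex_append (l l' : List (CO × ℝ)) (ν : Cf) : ex (l ++ l') ν = ex l ν * ex l' ν := by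
  simp [ex]

theorem gR_eq_one {l : List (CO × ℝ)} {q : Q} (h : ∀ p ∈ l, q ∉ p.1.1) : gR l q = 1 := by
  induction l with
  | nil => rfl
  | cons a l ih =>
    rw [gR_cons, if_neg (h a (by simp)), ih fun p hp => h p (by simp [hp]), one_mul]

theorem gR_bdd (l : List (CO × ℝ)) : ∃ B : ℝ, ∀ q, |gR l q| ≤ B := by
  induction l with
  | nil => exact ⟨1, fun q => by simp [gR_nil]⟩
  | cons a l ih =>
    obtain ⟨B, hB⟩ := ih
    refine ⟨(|a.2| + 1) * B, fun q => ?_⟩
    rw [gR_cons, abs_mul]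
    refine mul_le_mul ?_ (hB q) (abs_nonneg _) (by positivity)
    split_ifs
    · linarith
    · simp

/-- intersection of a compact open set with a clopen set -/
def cut {C : Set Q} (hC : IsClopen C) (l : List (CO × ℝ)) : List (CO × ℝ) :=
  l.map fun p => (⟨p.1.1 ∩ C, p.1.2.1.inter_right hC.isClosed, p.1.2.2.inter hC.isOpen⟩, p.2)

open Classical in
theorem gR_cut {C : Set Q} (hC : IsClopen C) (l : List (CO × ℝ)) (q : Q) :
    gR (cut hC l) q - 1 = C.indicator (fun q => gR l q - 1) q := by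
  by_cases hq : q ∈ C
  · rw [indicator_of_mem hq]
    congr 1
    unfold gR cut
    rw [List.map_map]
    congr 1
    refine List.map_congr_left fun p _ => ?_
    by_cases hp : q ∈ p.1.1
    · exact (if_pos ⟨hp, hq⟩).trans (if_pos hp).symm
    · exact (if_neg fun h => hp h.1).trans (if_neg hp).symm
  · rw [indicator_of_notMem hq, gR_eq_one, sub_self]
    intro p hp
    obtain ⟨p', -, rfl⟩ := List.mem_map.1 hp
    exact fun h => hq h.2

/-- pull-back of a list -/
noncomputable def pull (s : Q → Q) (l : List (CO × ℝ)) : List (CO × ℝ) :=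
  l.map fun p => (preCO s p.1, p.2)

theorem ex_pull (s : Q → Q) (l : List (CO × ℝ)) (ν : Cf) : ex (pull s l) ν = ex l (act s ν) := by
  simp [ex, pull, act, Function.comp_def]

open Classical in
theorem gR_pull {s : Q → Q} (hs : ∀ E : CO, (preCO s E).1 = s ⁻¹' E.1) (l : List (CO × ℝ)) (q : Q) :
    gR (pull s l) q = gR l (s q) := by
  unfold gR pull
  rw [List.map_map]
  congr 1
  refine List.map_congr_left fun p _ => ?_
  exact if_congr (by rw [hs]; rfl) rfl rfl

theorem act_invol {s : Q → Q} (hs : ∀ E : CO, (preCO s E).1 = s ⁻¹' E.1)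
    (hi : Function.Involutive s) : Function.Involutive (act s) := by
  intro ν
  funext E
  simp only [act]
  congr 1
  refine Subtype.ext ?_
  rw [hs, hs, ← preimage_comp, hi.comp_self, preimage_id]

/-- far shifts separate finite supports -/
theorem eventually_sep (C : Cell) (T T' : Finset Idx) {f f' : Q → ℝ}
    (hf : ∀ q, q.1 ∉ T → f q = 0) (hf' : ∀ q, q.1 ∉ T' → f' q = 0) :
    ∀ᶠ j in atTop, ∀ q, f (uC (C, j) q) * f' q = (cell C).indicator f q * f' q := by
  have h1 : ∀ S : Finset Idx, ∀ᶠ j in atTop, ∀ i ∈ S, j ∉ i.d := fun S =>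
    (eventually_all_finset S).2 fun i _ => by
      have := i.d.eventually_cofinite_notMem
      rwa [Nat.cofinite_eq_atTop] at this
  filter_upwards [h1 T, h1 T'] with j hj hj' q
  by_cases hq : q ∈ cell C
  · rw [indicator_of_mem hq, uC, if_pos hq]
  · rw [indicator_of_notMem hq, uC, if_neg hq, zero_mul]
    by_cases h2 : q.1 ∈ T'
    · rw [hf, zero_mul]
      intro h3
      refine hj _ h3 ?_
      simp [dsh, Finset.mem_symmDiff, hj' _ h2]
    · rw [hf' q h2, mul_zero]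

theorem simple_supp (l : List (CO × ℝ)) : ∃ T : Finset Idx, ∀ q : Q, q.1 ∉ T →
    (l.map fun e => e.1.1.indicator (fun _ => e.2) q).sum = 0 := by
  obtain ⟨T, hT⟩ := list_finite l
  refine ⟨T, fun q hq => List.sum_eq_zero fun x hx => ?_⟩
  obtain ⟨e, he, rfl⟩ := List.mem_map.1 hx
  exact indicator_of_notMem (fun h => hq (hT e he q h)) _

theorem cell_part (n : ℕ) (q : Q) : ∃ s ∈ (Finset.range n).powerset,
    q ∈ cell (Sum.inr (Sum.inl (n, s))) ∧
      ∀ t ∈ (Finset.range n).powerset, q ∈ cell (Sum.inr (Sum.inl (n, t))) → t = s := by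
  refine ⟨(Finset.range n).filter fun i => q.2 (Sum.inr (Sum.inl i)) = true,
    Finset.mem_powerset.2 (Finset.filter_subset _ _), fun i hi => ?_, fun t ht h => ?_⟩
  · have hi' : i < n := hi
    simp [hi']
  · ext i
    have h1 := Finset.mem_powerset.1 ht
    simp only [Finset.mem_filter, Finset.mem_range]
    constructor
    · intro hi
      have h2 := Finset.mem_range.1 (h1 hi)
      exact ⟨h2, by simpa [hi] using h i h2⟩
    · rintro ⟨h2, h3⟩
      have := h i h2
      rw [h3] at this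
      simpa using this

end First
end Pool.Agent.P.MP_c1aa6a_an
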