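import Pool.Agent.P.MP_c1aa6a_an.Step2

/-! Assembly of the first reduction and of the final statement. -/

set_option autoImplicit false
open MeasureTheory Set Filter Topology
open scoped ENNReal NNReal symmDiff

namespace Pool.Agent.P.MP_c1aa6a_an

/-- The symmetric relations that code a wall structure. -/
def Rel (M : WS) : ℕ → HS → HS → Prop
  | 0 => fun k k' => k.1 = k'.1
  | 1 => fun k k' => M.perp k k'
  | c + 2 => fun k k' => k = k' ∧ c = Nat.pair (M.lev k.1) (M.Lab k)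

namespace Step1

theorem perp_symm (M : WS) {k k' : HS} (h : M.perp k k') : M.perp k' k := by
  rcases h with h | h | ⟨rfl, h⟩
  · exact Or.inr (Or.inl h)
  · exact Or.inl h
  · exact Or.inr (Or.inr ⟨rfl, h⟩)

theorem rel_symm (M : WS) (c : ℕ) (k k' : HS) (h : Rel M c k k') : Rel M c k' k := by
  match c with
  | 0 => exact Eq.symm h
  | 1 => exact perp_symm M h
  | c + 2 => obtain ⟨rfl, h⟩ := h; exact ⟨rfl, h⟩

theorem hsMap_inj (τ : ℕ ≃ ℕ) (fl : ℕ → Bool) {k k' : HS} (h : hsMap τ fl k = hsMap τ fl k') :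
    k = k' := by
  obtain ⟨a, s⟩ := k
  obtain ⟨b, t⟩ := k'
  simp only [hsMap, Prod.mk.injEq, EmbeddingLike.apply_eq_iff_eq] at h
  obtain ⟨rfl, h⟩ := h
  cases s <;> cases t <;> simp_all

theorem rel_of_iso {M M' : WS} {τ : ℕ ≃ ℕ} {fl : ℕ → Bool} (h1 : ∀ h, M'.lev (τ h) = M.lev h)
    (h2 : ∀ k, M'.Lab (hsMap τ fl k) = M.Lab k)
    (h3 : ∀ k k', M'.perp (hsMap τ fl k) (hsMap τ fl k') ↔ M.perp k k') (c : ℕ) (k k' : HS) :
    Rel M' c (hsMap τ fl k) (hsMap τ fl k') ↔ Rel M c k k' := by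
  match c with
  | 0 => simp [Rel, hsMap]
  | 1 => exact h3 k k'
  | c + 2 =>
    simp only [Rel, h2]
    have : (hsMap τ fl k).1 = τ k.1 := rfl
    rw [this, h1]
    exact ⟨fun h => ⟨hsMap_inj τ fl h.1, h.2⟩, fun h => ⟨by rw [h.1], h.2⟩⟩

theorem iso_of_rel {M M' : WS} (σ : HS ≃ HS)
    (h : ∀ c k k', Rel M c k k' ↔ Rel M' c (σ k) (σ k'))
    (hs : Summable (fun h => if (σ (h, false)).2 = true then wt (M.lev h) else 0)) :
    M.Iso M' := by
  have h0 : ∀ k k' : HS, k.1 = k'.1 ↔ (σ k).1 = (σ k').1 := h 0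
  have hb : Function.Bijective (fun a => (σ (a, false)).1) := by
    refine ⟨fun a b hab => (h0 (a, false) (b, false)).2 hab, fun b => ?_⟩
    refine ⟨(σ.symm (b, false)).1, ?_⟩
    have := (h0 ((σ.symm (b, false)).1, false) (σ.symm (b, false))).1 rfl
    simpa using this
  have hσ : ∀ k, hsMap (Equiv.ofBijective _ hb) (fun a => (σ (a, false)).2) k = σ k := by
    rintro ⟨a, s⟩
    cases s
    · simp [hsMap]
    · have e1 : (σ (a, false)).1 = (σ (a, true)).1 := (h0 (a, false) (a, true)).1 rfl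
      have e2 : (σ (a, false)).2 ≠ (σ (a, true)).2 := fun e2 => by
        have := σ.injective (Prod.ext e1 e2)
        simp at this
      refine Prod.ext e1 ?_
      simp only [hsMap, Bool.true_xor]
      revert e2
      cases (σ (a, false)).2 <;> cases (σ (a, true)).2 <;> simp
  have h2 : ∀ k, M'.lev (σ k).1 = M.lev k.1 ∧ M'.Lab (σ k) = M.Lab k := fun k => by
    have := ((h (Nat.pair (M.lev k.1) (M.Lab k) + 2) k k).1 ⟨rfl, rfl⟩).2
    rw [Nat.pair_eq_pair] at this
    exact ⟨this.1.symm, this.2.symm⟩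
  refine ⟨Equiv.ofBijective _ hb, fun a => (σ (a, false)).2, fun a => (h2 (a, false)).1,
    fun k => by rw [hσ]; exact (h2 k).2, fun k k' => by rw [hσ, hσ]; exact (h 1 k k').symm, hs⟩

theorem model_translate {G X : Type} [Group G] [TopologicalSpace G] [IsTopologicalGroup G]
    [MulAction G X] {N : G → ℝ} {V : ℕ → Set X} {x : X} {M : WS} {π : Finset ℕ → G} {D : Set G}
    (h : IsModel N V x M π D) (g : G) :
    IsModel N V (g • x) M (fun A => g * π A) ((fun d => g * d) '' D) := by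
  have e1 : ∀ a : G, (g * a)⁻¹ • g • x = a⁻¹ • x := fun a => by
    rw [smul_smul]; congr 1; group
  have e2 : ∀ a b : G, (g * a)⁻¹ * (g * b) = a⁻¹ * b := fun a b => by group
  refine ⟨(Homeomorph.mulLeft g).surjective.denseRange.dense_image
    (Homeomorph.mulLeft g).continuous h.dense, h.lt, fun A B hA hB hAB => ?_,
    fun A hA a ha => ?_, fun S l j R flag φ hS hR hφ hok => ?_⟩
  · rw [e2]; exact h.lip A B hA hB hAB
  · rw [e1]; exact h.labl A hA a ha
  · have hφ' : ∀ A, φ A = g * (g⁻¹ * φ A) := fun A => by group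
    obtain ⟨m, h1, h2, h3, h4, h5, h6⟩ := h.ext S l j R flag (fun A => g⁻¹ * φ A) hS hR
      (fun A => by
        obtain ⟨d, hd, hd'⟩ := hφ A
        have : g⁻¹ * φ A = d := by rw [← hd']; group
        rw [this]; exact hd)
      (fun hf => by
        obtain ⟨k1, k2, k3⟩ := hok hf
        refine ⟨fun A hA => ?_, fun A A' hA hA' hne => ?_, fun A B hA hB hBS => ?_⟩
        · have := k1 A hA
          rw [hφ' A, e1] at this
          exact this
        · have := k2 A A' hA hA' hne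
          rw [hφ' A, hφ' A', e2] at this
          exact this
        · have := k3 A B hA hB hBS
          rw [hφ' A, e2] at this
          exact this)
    exact ⟨m, h1, h2, h3, h4, h5, fun A hA => by simp only [h6 A hA]; group⟩

theorem exists_basis (X : Type) [MetricSpace X] [SecondCountableTopology X] :
    ∃ V : ℕ → Set X, (∀ j, IsOpen (V j)) ∧ V 0 = univ ∧
      ∀ z : X, ∀ r > 0, ∃ j, z ∈ V j ∧ ∀ a ∈ V j, ∀ b ∈ V j, dist a b < r := by
  obtain ⟨b, hbc, -, hb⟩ := TopologicalSpace.exists_countable_basis X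
  obtain ⟨v, hv⟩ := (hbc.insert ∅).exists_eq_range (insert_nonempty _ _)
  refine ⟨fun j => Nat.casesOn j univ v, fun j => ?_, rfl, fun z r hr => ?_⟩
  · cases j with
    | zero => exact isOpen_univ
    | succ j =>
      have : v j ∈ insert ∅ b := hv ▸ mem_range_self j
      rcases this with h | h
      · change IsOpen (v j); rw [h]; exact isOpen_empty
      · exact hb.isOpen h
  · obtain ⟨U, hU, hz, hsub⟩ := hb.exists_subset_of_mem_open (Metric.mem_ball_self (half_pos hr))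
      (Metric.isOpen_ball (x := z))
    have : U ∈ range v := hv ▸ mem_insert_of_mem _ hU
    obtain ⟨j, rfl⟩ := this
    refine ⟨j + 1, hz, fun a ha c hc => ?_⟩
    have h1 := Metric.mem_ball.1 (hsub ha)
    have h2 := Metric.mem_ball.1 (hsub hc)
    linarith [dist_triangle_right a c z]

end Step1

open Step1

theorem main_of (hn : S_norm) (hm : S_model) (hb : S_baf) (hc : S_conv) (h2 : S_step2) :
  ∀ μ : Measure ℝ, μ = volume.restrict (Set.Icc (0:ℝ) 1) →
  ∀ (G : Type) [TopologicalSpace G] [Group G] [IsTopologicalGroup G] [PolishSpace G]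
    (X : Type) [TopologicalSpace X] [PolishSpace X] [MeasurableSpace X] [BorelSpace X]
    [MulAction G X] [ContinuousSMul G X],
  ∃ f : X → ℝ → ℝ,
    (∀ x, Ergodic (f x) μ ∧ ∃ g : ℝ → ℝ, MeasurePreserving g μ μ ∧
        (fun t => g (f x t)) =ᵐ[μ] id ∧ (fun t => f x (g t)) =ᵐ[μ] id) ∧
    (∀ A B : Set ℝ, MeasurableSet A → MeasurableSet B →
        Measurable (fun x => μ ((f x) ⁻¹' A ∩ B))) ∧
    (∀ x y : X, (∃ g : G, g • x = y) ↔
        ∃ φ ψ : ℝ → ℝ, MeasurePreserving φ μ μ ∧ MeasurePreserving ψ μ μ ∧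
          (fun t => ψ (φ t)) =ᵐ[μ] id ∧ (fun t => φ (ψ t)) =ᵐ[μ] id ∧
          (fun t => φ (f x t)) =ᵐ[μ] (fun t => f y (φ t))) := by
  rintro μ rfl G _ _ _ _ X _ _ _ _ _ _
  let _ := TopologicalSpace.upgradeIsCompletelyMetrizable G
  let _ := TopologicalSpace.upgradeIsCompletelyMetrizable X
  obtain ⟨N, hN⟩ := hn G
  obtain ⟨V, hV, hV0, hVb⟩ := exists_basis X
  obtain ⟨lev, lab, pp, dead, π, D, hdm, hmod⟩ := hm G X N V hN hV
  set M : X → WS := fun x => ⟨lev, lab, pp, dead x⟩ with hM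
  obtain ⟨f, hf1, hf2, hf3, hf4⟩ := h2 lev X (fun x => Rel (M x))
    (fun c k k' => by
      match c with
      | 0 => exact MeasurableSet.const _
      | 1 =>
        exact (MeasurableSet.const (k.2 = true ∧ pp k.1 k')).union
          ((MeasurableSet.const (k'.2 = true ∧ pp k'.1 k)).union
          ((MeasurableSet.const (k = k')).inter
            ((MeasurableSet.const (k.2 = true)).inter (hdm k.1))))
      | c + 2 => exact MeasurableSet.const (k = k' ∧ c = Nat.pair (lev k.1)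
          (if k.2 = true then lab k.1 else 0)))
    (fun x => rel_symm (M x))
  refine ⟨f, fun x => ⟨(hf1 x).1, ?_⟩, fun A B hA hB => ?_, fun x y => ⟨?_, ?_⟩⟩
  · obtain ⟨g, hg⟩ := (hf1 x).2
    exact ⟨g, hg.2.1, hg.2.2.1, hg.2.2.2⟩
  · exact measurable_measure_prodMk_left ((hf2 hA).inter (measurable_snd hB))
  · rintro ⟨g, rfl⟩
    obtain ⟨τ, fl, h1, h2, h3, h4⟩ := hb G X N V (g • x) (M x) (M (g • x)) _ _ _ _ hN hV hV0
      (model_translate (hmod x) g) (hmod (g • x))
    obtain ⟨φ, ψ, hφ, hint⟩ := hf3 x (g • x) τ fl h1 (rel_of_iso h1 h2 h3) h4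
    exact ⟨φ, ψ, hφ.1, hφ.2.1, hφ.2.2.1, hφ.2.2.2, hint⟩
  · rintro ⟨φ, ψ, h1, h2, h3, h4, h5⟩
    obtain ⟨σ, hσ, hs⟩ := hf4 x y φ ψ ⟨h1, h2, h3, h4⟩ h5
    obtain ⟨g, hg⟩ := hc G X N V y x (M y) (M x) π π D D hN hV hV0 hVb (hmod y) (hmod x)
      (iso_of_rel σ hσ hs)
    exact ⟨g⁻¹, by rw [← hg, inv_smul_smul]⟩

end Pool.Agent.P.MP_c1aa6a_an
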