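import Pool.Agent.P.MP_c1aa6a_an.Defs

/-! Assembly of the second reduction: from relations on half-spaces to ergodic maps of the interval. -/

set_option autoImplicit false
open MeasureTheory Set Filter Topology
open scoped ENNReal NNReal symmDiff

namespace Pool.Agent.P.MP_c1aa6a_an

namespace Step2

theorem aec {Y Z W : Type} [MeasurableSpace Y] [MeasurableSpace Z] {μ : Measure Y} {ν : Measure Z}
    {f : Y → Z} (hf : MeasurePreserving f μ ν) {a b : Z → W} (h : a =ᵐ[ν] b) :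
    (fun y => a (f y)) =ᵐ[μ] fun y => b (f y) :=
  hf.quasiMeasurePreserving.ae_eq_comp h

theorem conj_symm {Y Z : Type} [MeasurableSpace Y] [MeasurableSpace Z] {μ : Measure Y}
    {ν : Measure Z} {a : Y → Z} {a' : Z → Y} (h : Conj μ ν a a') : Conj ν μ a' a :=
  ⟨h.2.1, h.1, h.2.2.2, h.2.2.1⟩

theorem conj_comp {Y Z W : Type} [MeasurableSpace Y] [MeasurableSpace Z] [MeasurableSpace W]
    {μ : Measure Y} {ν : Measure Z} {ρ : Measure W} {a : Y → Z} {a' : Z → Y} {b : Z → W}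
    {b' : W → Z} (h : Conj μ ν a a') (h' : Conj ν ρ b b') :
    Conj μ ρ (fun y => b (a y)) (fun w => a' (b' w)) := by
  refine ⟨h'.1.comp h.1, h.2.1.comp h'.2.1, ?_, ?_⟩
  · filter_upwards [aec h.1 h'.2.2.1, h.2.2.1] with y h1 h2
    simp only [id] at h1 h2 ⊢
    rw [h1, h2]
  · filter_upwards [aec h'.2.1 h.2.2.2, h'.2.2.2] with y h1 h2
    simp only [id] at h1 h2 ⊢
    rw [h1, h2]

theorem conj_equiv {Y Z : Type} [MeasurableSpace Y] [MeasurableSpace Z] {μ : Measure Y}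
    {ν : Measure Z} (a : Y ≃ᵐ Z) (h : MeasurePreserving a μ ν) : Conj μ ν a a.symm :=
  ⟨h, h.symm a, Eventually.of_forall fun y => by simp, Eventually.of_forall fun y => by simp⟩

theorem conj_prod {B Y : Type} [MeasurableSpace B] [MeasurableSpace Y] {β : Measure B}
    {μ : Measure Y} [IsProbabilityMeasure β] [IsProbabilityMeasure μ] {a a' : Y → Y}
    (h : Conj μ μ a a') : Conj (β.prod μ) (β.prod μ) (Prod.map id a) (Prod.map id a') := by
  refine ⟨(MeasurePreserving.id β).prod h.1, (MeasurePreserving.id β).prod h.2.1, ?_, ?_⟩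
  · filter_upwards [aec (measurePreserving_snd (μ := β) (ν := μ)) h.2.2.1] with w hw
    simp only [id] at hw
    ext <;> simp [hw]
  · filter_upwards [aec (measurePreserving_snd (μ := β) (ν := μ)) h.2.2.2] with w hw
    simp only [id] at hw
    ext <;> simp [hw]

theorem ergodic_conj {Y Z : Type} [MeasurableSpace Y] [MeasurableSpace Z] {μ : Measure Y}
    {ν : Measure Z} {e : Y → Z} {e' : Z → Y} (h : Conj μ ν e e') {T : Y → Y} (hT : Ergodic T μ) :
    Ergodic (fun t => e (T (e' t))) ν := by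
  have hmp : MeasurePreserving (fun t => e (T (e' t))) ν ν :=
    h.1.comp (hT.toMeasurePreserving.comp h.2.1)
  refine ⟨hmp, ⟨fun s hs hinv => ?_⟩⟩
  have h1 : T ⁻¹' (e ⁻¹' s) =ᵐ[μ] e ⁻¹' s := by
    filter_upwards [h.2.2.1] with y hy
    simp only [id] at hy
    have : e y ∈ (fun t => e (T (e' t))) ⁻¹' s ↔ e y ∈ s := by rw [hinv]
    simp only [mem_preimage, hy] at this
    exact propext this
  have h2 := hT.quasiErgodic.aeconst_set₀ (h.1.measurable hs).nullMeasurableSet h1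
  rw [eventuallyConst_set'] at h2 ⊢
  rcases h2 with h2 | h2
  · left
    filter_upwards [aec h.2.1 h2, h.2.2.2] with t h3 h4
    simp only [id] at h4
    have : (e (e' t) ∈ s) = (e' t ∈ (∅ : Set Y)) := h3
    rw [h4] at this
    exact this
  · right
    filter_upwards [aec h.2.1 h2, h.2.2.2] with t h3 h4
    simp only [id] at h4
    have : (e (e' t) ∈ s) = (e' t ∈ (univ : Set Y)) := h3
    rw [h4] at this
    exact this

end Step2

open Step2

/-- The second reduction. -/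
def S_step2 : Prop :=
  ∀ (lev : ℕ → ℕ) (X : Type) [MeasurableSpace X] (R : X → ℕ → HS → HS → Prop),
    (∀ c k k', MeasurableSet {x | R x c k k'}) → (∀ x c k k', R x c k k' → R x c k' k) →
    ∃ f : X → ℝ → ℝ,
      (∀ x, Ergodic (f x) (volume.restrict (Icc (0 : ℝ) 1)) ∧
        ∃ g, Conj (volume.restrict (Icc (0 : ℝ) 1)) (volume.restrict (Icc (0 : ℝ) 1)) (f x) g) ∧
      Measurable (fun p : X × ℝ => f p.1 p.2) ∧
      (∀ x y (τ : ℕ ≃ ℕ) (fl : ℕ → Bool), (∀ h, lev (τ h) = lev h) →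
        (∀ c k k', R y c (hsMap τ fl k) (hsMap τ fl k') ↔ R x c k k') →
        Summable (fun h => if fl h = true then wt (lev h) else 0) →
        ∃ φ ψ, Conj (volume.restrict (Icc (0 : ℝ) 1)) (volume.restrict (Icc (0 : ℝ) 1)) φ ψ ∧
          (fun t => φ (f x t)) =ᵐ[volume.restrict (Icc (0 : ℝ) 1)] fun t => f y (φ t)) ∧
      ∀ x y φ ψ, Conj (volume.restrict (Icc (0 : ℝ) 1)) (volume.restrict (Icc (0 : ℝ) 1)) φ ψ →
        ((fun t => φ (f x t)) =ᵐ[volume.restrict (Icc (0 : ℝ) 1)] fun t => f y (φ t)) →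
        ∃ σ₀ : HS ≃ HS, (∀ c k k', R y c k k' ↔ R x c (σ₀ k) (σ₀ k')) ∧
          Summable (fun h => if (σ₀ (h, false)).2 = true then wt (lev h) else 0)

theorem step2_ok (hlap : S_lap) (hchaos : S_chaos) (hlift : S_lift) (hmaps : S_maps)
    (hfirst : S_first) (hcorr : S_corr) (hd1 : S_dec1) (hd2 : S_dec2) (hd3 : S_dec3)
    (hsys : S_sys) (hiso : S_iso) (hbern : S_bern) (ha : S_L0a) (hb : S_L0b) (hfl : S_FL)
    (htr : S_transfer) : S_step2 := by
  intro lev X _ R hRm hRs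
  obtain ⟨P, hP, hL⟩ := hlap (xi lev)
  obtain ⟨I, hI⟩ := hchaos (xi lev) P hL
  obtain ⟨en, hen⟩ := exists_surjective_nat Gen
  obtain ⟨hs1, hs2⟩ := hsys lev P I hI
  set μY : Measure (Yl × Cf) := (unif (At × ℕ)).prod P with hμY
  set α : X → ℕ → Yl × Cf → Yl × Cf := fun x j => alpha (R x) (en j) with hα
  have hFam : ∀ x, Fam μY (α x) := fun x =>
    ⟨fun j => (hs1 (R x)).1.1 _, fun j => (hs1 (R x)).1.2.1 _, fun i j => (hs1 (R x)).1.2.2 _ _⟩
  have hErg : ∀ x, ErgFam μY (α x) := fun x A hA h =>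
    (hs1 (R x)).2 A hA fun g => by obtain ⟨j, rfl⟩ := hen g; exact h j
  set μO : Measure ((ℕ → Bool) × (Yl × Cf)) := (unif ℕ).prod μY with hμO
  have hat : ∀ ω, μO {ω} = 0 := fun ω => by
    have : ({ω} : Set ((ℕ → Bool) × (Yl × Cf))) = {ω.1} ×ˢ {ω.2} := by simp
    rw [this, hμO, Measure.prod_prod, hbern.2.2.1, zero_mul]
  obtain ⟨e, e', he⟩ := htr _ μO hat
  have hT : ∀ x, Conj μO μO (Tb false (α x) 0) (Tb true (α x) 0) := fun x =>
    (ha.1 _ μY (α x) (hFam x) 0).1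
  refine ⟨fun x t => e (Tb false (α x) 0 (e' t)), fun x => ⟨?_, ?_⟩, ?_, ?_, ?_⟩
  · exact ergodic_conj he ((hb _ μY (α x) (hFam x)).1 (hErg x))
  · exact ⟨_, conj_comp (conj_comp (conj_symm he) (hT x)) he⟩
  · have h1 := ha.2.1 X _ α fun j => hs2 X R hRm (en j)
    exact he.1.measurable.comp
      (h1.comp (measurable_fst.prodMk (he.2.1.measurable.comp measurable_snd)))
  · intro x y τ fl h1 h2 h3
    obtain ⟨Θ, Θ', hΘ, hint⟩ := hiso lev P I hI (R x) (R y) τ fl h1 h2 h3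
    have h4 := ha.2.2 _ μY (α x) (α y) Θ (hFam x) (hFam y) hΘ.1 fun j => hint (en j)
    refine ⟨_, _, conj_comp (conj_comp (conj_symm he) (conj_prod (β := unif ℕ) hΘ)) he, ?_⟩
    have h5 := aec ((hT x).1.comp he.2.1) he.2.2.1
    have h6 := aec ((conj_prod (β := unif ℕ) hΘ).1.comp he.2.1) he.2.2.1
    filter_upwards [h5, h6, aec he.2.1 h4] with t h5 h6 h7
    simp only [id, Function.comp] at h5 h6 h7 ⊢
    rw [h5, h6, h7]
  · intro x y φ ψ hφ hint
    have hΘ := conj_comp (conj_comp he hφ) (conj_symm he)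
    have h1 : (fun ω => e' (φ (e (Tb false (α x) 0 ω)))) =ᵐ[μO]
        fun ω => Tb false (α y) 0 (e' (φ (e ω))) := by
      have h2 := aec ((hT y).1.comp hΘ.1) he.2.2.1
      filter_upwards [aec he.1 hint, he.2.2.1, h2] with ω h3 h4 h5
      simp only [id, Function.comp] at h3 h4 h5 ⊢
      rw [h4] at h3
      rw [h3, h5]
    have h2 := (hb _ μY (α x) (hFam x)).2 (α y) _ (hFam y) hΘ.1 h1
    set Θ : (ℕ → Bool) × (Yl × Cf) → (ℕ → Bool) × (Yl × Cf) := fun ω => e' (φ (e ω)) with hΘd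
    have h3 : ∀ g, (fun ω => Θ (Prod.map id (alpha (R x) g) ω)) =ᵐ[μO]
        fun ω => Prod.map id (alpha (R y) g) (Θ ω) := fun g => by
      obtain ⟨j, rfl⟩ := hen g; exact h2 j
    have hA := conj_equiv MeasurableEquiv.prodAssoc
      (measurePreserving_prodAssoc (unif ℕ) (unif (At × ℕ)) P)
    have hΘ1 := conj_comp (conj_comp hA hΘ) (conj_symm hA)
    obtain ⟨b, b', hb1, hb2, h, h', hh, hc1, hc2⟩ := hfl ((ℕ → Bool) × Yl) Cf (Cell × ℕ)
      ((unif ℕ).prod (unif (At × ℕ))) P (fun p => act (uC p))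
      (fun i b => act (rho (R x) fun a => b.2 (a, i)))
      (fun i b => act (rho (R y) fun a => b.2 (a, i))) _ _ (fun b => Generic b.2)
      (fun p => ((hlift _ P I hI).2.1 _ (hmaps.2.1 lev p).1 (hmaps.2.1 lev p).2).2.1)
      (hfirst lev P I hI).1 hΘ1
      (fun p => by
        filter_upwards [aec hA.1 (h3 (Sum.inr (Sum.inr p)))] with w hw
        have hw' : Θ (w.1.1, w.1.2, act (uC p) w.2) = _ := hw
        change MeasurableEquiv.prodAssoc.symm (Θ (w.1.1, w.1.2, act (uC p) w.2)) = _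
        rw [hw']
        rfl)
      (fun i => by
        filter_upwards [aec hA.1 (h3 (Sum.inr (Sum.inl i)))] with w hw
        have hw' : Θ (w.1.1, w.1.2, act (rho (R x) fun a => w.1.2 (a, i)) w.2) = _ := hw
        change MeasurableEquiv.prodAssoc.symm
          (Θ (w.1.1, w.1.2, act (rho (R x) fun a => w.1.2 (a, i)) w.2)) = _
        rw [hw']
        rfl)
      ((measurePreserving_snd (μ := unif ℕ) (ν := unif (At × ℕ))).quasiMeasurePreserving.ae
        hbern.2.2.2.2.2.2)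
    obtain ⟨Corr, hC, hCe⟩ := hcorr lev P I hL hI h h' hh hc1
      (fun i => rho (R y) fun a => b'.2 (a, i)) (fun i => rho (R x) fun a => b.2 (a, i))
      (fun i => (hlift _ P I hI).2.1 _ (hmaps.1 lev _ _).1 (hmaps.1 lev _ _).2)
      (fun i => (hlift _ P I hI).2.1 _ (hmaps.1 lev _ _).1 (hmaps.1 lev _ _).2) hc2
    obtain ⟨σ, hσ⟩ := hd1 lev (R y) (R x) b'.2 b.2 Corr hb2 hb1 hC hCe
    exact hd3 lev (R y) (R x) Corr σ (hRs y) (hRs x) hC
      (hd2 lev (R y) (R x) b'.2 b.2 Corr hb2 hb1 hC hCe σ hσ)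

end Pool.Agent.P.MP_c1aa6a_an
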