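import Pool.Agent.P.MP_c1aa6a_an.Defs

/-! An atomless standard probability space is the unit interval modulo null sets. -/

set_option autoImplicit false
open MeasureTheory Set Filter Topology ProbabilityTheory

namespace Pool.Agent.P.MP_c1aa6a_an

namespace Transfer

variable (ν : Measure ℝ) [IsProbabilityMeasure ν]

theorem cont (h : ∀ x, ν {x} = 0) : Continuous (cdf ν) := by
  rw [continuous_iff_continuousAt]
  intro x
  have h1 := (cdf ν).measure_singleton x
  rw [measure_cdf, h x, eq_comm, ENNReal.ofReal_eq_zero] at h1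
  have h2 : Function.leftLim (cdf ν) x ≤ cdf ν x := (monotone_cdf ν).leftLim_le le_rfl
  rw [(monotone_cdf ν).continuousAt_iff_leftLim_eq_rightLim, (cdf ν).rightLim_eq]
  linarith

open Classical in
/-- the quantile function -/
noncomputable def qt (t : ℝ) : ℝ := if t ∈ Ioo (0 : ℝ) 1 then sInf {x | t ≤ cdf ν x} else 0

variable {ν}

theorem galois (h : ∀ x, ν {x} = 0) {t : ℝ} (ht : t ∈ Ioo (0 : ℝ) 1) :
    (∀ x, qt ν t ≤ x ↔ t ≤ cdf ν x) ∧ cdf ν (qt ν t) = t := by
  obtain ⟨a, ha⟩ := eventually_atBot.1 ((tendsto_cdf_atBot ν).eventually (gt_mem_nhds ht.1))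
  obtain ⟨b, hb⟩ := ((tendsto_cdf_atTop ν).eventually (lt_mem_nhds ht.2)).exists
  have hbd : BddBelow {x | t ≤ cdf ν x} := ⟨a, fun x hx => by
    by_contra hlt
    exact absurd hx (not_le.2 (ha x (not_le.1 hlt).le))⟩
  have hcl : IsClosed {x | t ≤ cdf ν x} := isClosed_le continuous_const (cont ν h)
  have hm : t ≤ cdf ν (sInf {x | t ≤ cdf ν x}) := hcl.csInf_mem ⟨b, hb.le⟩ hbd
  have hg : ∀ x, qt ν t ≤ x ↔ t ≤ cdf ν x := by
    intro x
    rw [qt, if_pos ht]
    exact ⟨fun hx => hm.trans (monotone_cdf ν hx), fun hx => csInf_le hbd hx⟩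
  refine ⟨hg, le_antisymm ?_ ((hg _).1 le_rfl)⟩
  obtain ⟨x, hx⟩ := intermediate_value_univ a b (cont ν h) ⟨(ha a le_rfl).le, hb.le⟩
  exact (monotone_cdf ν ((hg x).2 hx.ge)).trans hx.le

theorem measurable_qt (h : ∀ x, ν {x} = 0) : Measurable (qt ν) := by
  refine measurable_of_Iic fun x => ?_
  have e : qt ν ⁻¹' Iic x = (Ioo 0 1 ∩ Iic (cdf ν x)) ∪ ((Ioo 0 1)ᶜ ∩ {_t | 0 ≤ x}) := by
    ext t
    by_cases ht : t ∈ Ioo (0 : ℝ) 1
    · simp only [mem_preimage, mem_Iic, (galois h ht).1 x, mem_union, mem_inter_iff, ht, true_and,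
        mem_compl_iff, not_true, false_and, or_false]
    · simp only [mem_preimage, mem_Iic, qt, ht, if_false, mem_union, mem_inter_iff, false_and,
        mem_compl_iff, not_false_iff, true_and, false_or, mem_ofPred_eq]
  rw [e]
  exact (measurableSet_Ioo.inter measurableSet_Iic).union
    (measurableSet_Ioo.compl.inter (MeasurableSet.const _))

theorem ae_mem : ∀ᵐ t ∂(volume.restrict (Icc (0 : ℝ) 1)), t ∈ Ioo (0 : ℝ) 1 := by
  rw [← Measure.restrict_congr_set Ioo_ae_eq_Icc]
  exact ae_restrict_mem measurableSet_Ioo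

theorem conj (h : ∀ x, ν {x} = 0) : Conj ν (volume.restrict (Icc (0 : ℝ) 1)) (cdf ν) (qt ν) := by
  have hq := measurable_qt h
  have hF := (cont ν h).measurable
  have h1 : MeasurePreserving (qt ν) (volume.restrict (Icc (0 : ℝ) 1)) ν := by
    refine ⟨hq, ?_⟩
    have : IsProbabilityMeasure (volume.restrict (Icc (0 : ℝ) 1)) := ⟨by simp⟩
    refine Measure.ext_of_Iic _ _ fun x => ?_
    have e : qt ν ⁻¹' Iic x =ᵐ[volume.restrict (Icc (0 : ℝ) 1)] Iic (cdf ν x) := by
      filter_upwards [ae_mem] with t ht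
      exact propext ((galois h ht).1 x)
    have e2 : Iic (cdf ν x) ∩ Icc 0 1 = Icc 0 (cdf ν x) := by
      ext t
      have := cdf_le_one ν x
      simp only [mem_inter_iff, mem_Iic, mem_Icc]
      constructor
      · rintro ⟨a, b, -⟩
        exact ⟨b, a⟩
      · rintro ⟨a, b⟩
        exact ⟨b, a, b.trans this⟩
    rw [Measure.map_apply hq measurableSet_Iic, measure_congr e,
      Measure.restrict_apply measurableSet_Iic, e2, Real.volume_Icc, sub_zero, ofReal_cdf]
  have h2 : (fun t => cdf ν (qt ν t)) =ᵐ[volume.restrict (Icc (0 : ℝ) 1)] id := by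
    filter_upwards [ae_mem] with t ht
    exact (galois h ht).2
  refine ⟨⟨hF, ?_⟩, h1, ?_, h2⟩
  · conv_lhs => enter [2]; rw [← h1.map_eq]
    rw [Measure.map_map hF hq]
    exact (Measure.map_congr h2).trans Measure.map_id
  · have hm : MeasurableSet {x | qt ν (cdf ν x) = id x} :=
      measurableSet_eq_fun (hq.comp hF) measurable_id
    have h3 : ∀ᵐ x ∂(Measure.map (qt ν) (volume.restrict (Icc (0 : ℝ) 1))),
        qt ν (cdf ν x) = id x := by
      rw [ae_map_iff hq.aemeasurable hm]
      filter_upwards [h2] with t ht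
      rw [ht]
      rfl
    rwa [h1.map_eq] at h3

end Transfer

theorem transfer_ok : S_transfer := by
  intro Ω _ _ μ _ h
  have : Nonempty Ω := MeasureTheory.nonempty_of_isProbabilityMeasure μ
  have he := measurableEmbedding_embeddingReal Ω
  set e0 := embeddingReal Ω
  have : IsProbabilityMeasure (μ.map e0) := Measure.isProbabilityMeasure_map he.measurable.aemeasurable
  have hν : ∀ x, μ.map e0 {x} = 0 := by
    intro x
    rw [he.map_apply]
    by_cases hx : ∃ ω, e0 ω = x
    · obtain ⟨ω, rfl⟩ := hx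
      rw [← image_singleton, he.injective.preimage_image, h]
    · have : e0 ⁻¹' {x} = ∅ := eq_empty_of_forall_notMem fun ω hω => hx ⟨ω, hω⟩
      rw [this, measure_empty]
  obtain ⟨c1, c2, c3, c4⟩ := Transfer.conj hν
  have m1 : MeasurePreserving e0 μ (μ.map e0) := ⟨he.measurable, rfl⟩
  have m2 : MeasurePreserving he.invFun (μ.map e0) μ := by
    refine ⟨he.measurable_invFun, ?_⟩
    rw [Measure.map_map he.measurable_invFun he.measurable, he.leftInverse_invFun.id,
      Measure.map_id]
  have m3 : ∀ᵐ x ∂(μ.map e0), e0 (he.invFun x) = x := by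
    rw [he.ae_map_iff]
    exact Eventually.of_forall fun ω => by rw [he.leftInverse_invFun ω]
  refine ⟨_, _, c1.comp m1, m2.comp c2, ?_, ?_⟩
  · filter_upwards [m1.quasiMeasurePreserving.ae c3] with ω hω
    simp only [Function.comp_apply, id] at hω ⊢
    rw [hω, he.leftInverse_invFun ω]
  · filter_upwards [c2.quasiMeasurePreserving.ae m3, c4] with t h1 h2
    simp only [Function.comp_apply]
    rw [h1, h2]

end Pool.Agent.P.MP_c1aa6a_an
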